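import Pool.Agent.DBX.GEN.Stmts

set_option autoImplicit false

namespace Pool.Agent.DBX.GEN

open Pool.Agent.DBX MvPolynomial

universe u

namespace LSH_

theorem le_Loc {K F : Type u} [Field K] [Field F] [Algebra K F] (A : Subalgebra K F) (s : F) :
    A ≤ Loc A s := by
  intro z hz
  exact Algebra.subset_adjoin (Or.inl hz)

theorem inv_mem_Loc {K F : Type u} [Field K] [Field F] [Algebra K F] (A : Subalgebra K F)
    (s : F) : s⁻¹ ∈ Loc A s :=
  Algebra.subset_adjoin (Or.inr rfl)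

theorem genIn_single {K F : Type u} [Field K] [Field F] [Algebra K F] (A : Subalgebra K F)
    (z : A) : genIn A {(z : F)} = Ideal.span {z} := by
  unfold genIn
  congr 1
  ext y
  simp only [Set.mem_ofPred_eq, Set.mem_singleton_iff]
  exact ⟨fun h => Subtype.ext h, fun h => by rw [h]⟩

theorem genIn_unit {K F : Type u} [Field K] [Field F] [Algebra K F] (A : Subalgebra K F)
    (z : F) (hz : z ∈ A) (hz' : z⁻¹ ∈ A) (h0 : z ≠ 0) : genIn A {z} = ⊤ := by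
  rw [Ideal.eq_top_iff_one]
  have h1 : (1 : A) = (⟨z⁻¹, hz'⟩ : A) * ⟨z, hz⟩ := by
    apply Subtype.ext
    show (1 : F) = z⁻¹ * z
    rw [inv_mul_cancel₀ h0]
  rw [h1]
  exact Ideal.mul_mem_left _ _ (Ideal.subset_span rfl)

variable {k : Type u} [Field k] {n : ℕ}

/-- the last step: back to the chart -/
theorem finish (hLCX : Stmt_LCX.{u}) (hLOC : Stmt_LOC.{u}) (hLCE : Stmt_LCE.{u})
    (D : Dat k (n + 1)) (a : Fin D.p) (b : Fin D.M) (l : Pol (Kx k n) (n + 1))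
    (q : Ideal (D.bc.ch a b)) (s' : Fr (Kx k n) (n + 1)) (hs' : s' ∈ D.bc.ch a b)
    (hs0 : s' ≠ 0) (hsq : ∀ z ∈ q, (z : Fr (Kx k n) (n + 1)) ≠ s')
    (q1 : Ideal (Loc (D.bc.ch a b) s')) (hq1 : q1.IsPrime)
    (hqq : ∀ (z : D.bc.ch a b) (z' : Loc (D.bc.ch a b) s'),
      (z' : Fr (Kx k n) (n + 1)) = z → (z' ∈ q1 ↔ z ∈ q))
    (w : Loc (D.bc.ch a b) s') (hw : w ∉ q1)
    (t : Fin n → Loc (Loc (D.bc.ch a b) s') (w : Fr (Kx k n) (n + 1))) (T : Finset (Fin n))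
    (hL : LCo (Loc (Loc (D.bc.ch a b) s') (w : Fr (Kx k n) (n + 1))) (D.bc.I0 a)
      (inc _ _ (D.bc.f b) / inc _ _ (D.bc.g a) ^ D.bc.δ) t T)
    (hG : D.bc.I0 a ⊆ D.bc.ch a b)
    (hm : inc _ _ (D.bc.f b) / inc _ _ (D.bc.g a) ^ D.bc.δ ∈ D.bc.ch a b)
    (hh : genIn (Loc (Loc (D.bc.ch a b) s') (w : Fr (Kx k n) (n + 1)))
        {inc _ _ l / inc _ _ (D.bc.g a)} = ⊤ ∨
      ∃ j, j ∉ T ∧ genIn (Loc (Loc (D.bc.ch a b) s') (w : Fr (Kx k n) (n + 1)))
        {inc _ _ l / inc _ _ (D.bc.g a)} = Ideal.span {t j}) :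
    ∃ s : D.bc.ch a b, s ∉ q ∧
      ∃ (t : Fin (n + 1 - 1) → (Algebra.adjoin (Kx k n)
          ((D.bc.ch a b : Set (Fr (Kx k n) (n + 1))) ∪ {((s : Fr (Kx k n) (n + 1)))⁻¹})))
        (e : ℕ), D.bc.LogCoord a b _ t e ∧
        (genIn (Algebra.adjoin (Kx k n) ((D.bc.ch a b : Set (Fr (Kx k n) (n + 1))) ∪
            {((s : Fr (Kx k n) (n + 1)))⁻¹})) {inc _ _ l / inc _ _ (D.bc.g a)} = ⊤ ∨
          ∃ i : Fin (n + 1 - 1), e ≤ (i : ℕ) ∧
            genIn (Algebra.adjoin (Kx k n) ((D.bc.ch a b : Set (Fr (Kx k n) (n + 1))) ∪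
              {((s : Fr (Kx k n) (n + 1)))⁻¹})) {inc _ _ l / inc _ _ (D.bc.g a)} =
              Ideal.span {t i}) := by
  have hw0 : (w : Fr (Kx k n) (n + 1)) ≠ 0 := by
    intro h0
    apply hw
    have : w = 0 := Subtype.ext h0
    rw [this]
    exact q1.zero_mem
  obtain ⟨-, -, hL3, -, -⟩ := hLOC (Kx k n) (Fr (Kx k n) (n + 1)) (D.bc.ch a b) s' hs' hs0
  obtain ⟨N, hN1, hN2⟩ := hL3 w w.2 hw0
  refine ⟨⟨s' ^ (N + 1) * w, hN1⟩, ?_, ?_⟩
  · intro hmem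
    have h1 : (⟨s' ^ (N + 1) * w, le_Loc _ _ hN1⟩ : Loc (D.bc.ch a b) s') ∈ q1 :=
      (hqq ⟨s' ^ (N + 1) * w, hN1⟩ _ rfl).2 hmem
    have h2 : (⟨s' ^ (N + 1) * w, le_Loc _ _ hN1⟩ : Loc (D.bc.ch a b) s') =
        (⟨s', le_Loc _ _ hs'⟩ : Loc (D.bc.ch a b) s') ^ (N + 1) * w := rfl
    rw [h2] at h1
    rcases hq1.mem_or_mem h1 with h3 | h3
    · have h4 := hq1.mem_of_pow_mem _ h3
      have h5 : (⟨s', hs'⟩ : D.bc.ch a b) ∈ q := (hqq ⟨s', hs'⟩ _ rfl).1 h4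
      exact hsq _ h5 rfl
    · exact hw h3
  · show ∃ (t : Fin (n + 1 - 1) → Loc (D.bc.ch a b) (s' ^ (N + 1) * w))
        (e : ℕ), D.bc.LogCoord a b _ t e ∧
        (genIn (Loc (D.bc.ch a b) (s' ^ (N + 1) * w)) {inc _ _ l / inc _ _ (D.bc.g a)} = ⊤ ∨
          ∃ i : Fin (n + 1 - 1), e ≤ (i : ℕ) ∧
            genIn (Loc (D.bc.ch a b) (s' ^ (N + 1) * w)) {inc _ _ l / inc _ _ (D.bc.g a)} =
              Ideal.span {t i})
    rw [hN2]
    have hG' : D.bc.I0 a ⊆ (Loc (Loc (D.bc.ch a b) s') (w : Fr (Kx k n) (n + 1))) :=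
      fun z hz => le_Loc _ _ (le_Loc _ _ (hG hz))
    have hm' : inc _ _ (D.bc.f b) / inc _ _ (D.bc.g a) ^ D.bc.δ ∈
        (Loc (Loc (D.bc.ch a b) s') (w : Fr (Kx k n) (n + 1))) := le_Loc _ _ (le_Loc _ _ hm)
    obtain ⟨⟨π, hπ, hLπ⟩, -⟩ := hLCX _ _ _ _ _ n t T hL hG' hm'
    refine ⟨fun i => t (π i), T.card, ?_, ?_⟩
    · exact (hLCE (Kx k n) (n + 1) D.bc a b _ (fun i => t (π i)) T.card).2 hLπ
    · rcases hh with hh | ⟨j, hj, hh⟩
      · exact Or.inl hh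
      · right
        refine ⟨π.symm j, ?_, ?_⟩
        · by_contra hlt
          apply hj
          have h1 := (hπ (π.symm j)).2 (not_le.1 hlt)
          rwa [Equiv.apply_symm_apply] at h1
        · rw [hh]
          congr 2
          show t j = t (π (π.symm j))
          rw [Equiv.apply_symm_apply]

theorem ch_fg (D : Dat k n) (a : Fin D.p) (b : Fin D.M) : (D.ch a b).FG := by
  refine Subalgebra.fg_def.2 ⟨_, ?_, rfl⟩
  apply Set.Finite.union
  · have h1 : {z : Fr k n | ∃ i, z = inc k n (X i) / inc k n (D.g a)} =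
        Set.range (fun i => inc k n (X i) / inc k n (D.g a)) := by
      ext z
      simp only [Set.mem_ofPred_eq, Set.mem_range]
      exact ⟨fun ⟨i, h⟩ => ⟨i, h.symm⟩, fun ⟨i, h⟩ => ⟨i, h.symm⟩⟩
    rw [h1]
    exact Set.finite_range _
  · have h1 : {z : Fr k n | ∃ j, z = inc k n (D.f j) / inc k n (D.f b)} =
        Set.range (fun j => inc k n (D.f j) / inc k n (D.f b)) := by
      ext z
      simp only [Set.mem_ofPred_eq, Set.mem_range]
      exact ⟨fun ⟨i, h⟩ => ⟨i, h.symm⟩, fun ⟨i, h⟩ => ⟨i, h.symm⟩⟩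
    rw [h1]
    exact Set.finite_range _

theorem loc_fg {K F : Type u} [Field K] [Field F] [Algebra K F] (A : Subalgebra K F)
    (hA : A.FG) (s : F) : (Loc A s).FG := by
  have h1 : Loc A s = A ⊔ Algebra.adjoin K {s⁻¹} := by
    rw [Loc, Algebra.adjoin_union, Algebra.adjoin_eq]
  rw [h1]
  exact hA.sup (Subalgebra.fg_def.2 ⟨_, Set.finite_singleton _, rfl⟩)

theorem resid {K L : Type u} [Field K] [CommRing L] [Algebra K L] [Algebra.FiniteType K L]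
    (q : Ideal L) [q.IsPrime] : ∃ (κ : Type u) (_ : Field κ) (_ : Algebra K κ)
      (_ : Algebra.EssFiniteType K κ) (qm : L →+* κ), (∀ z, qm z = 0 ↔ z ∈ q) ∧
      (∀ c : K, qm (algebraMap K L c) = algebraMap K κ c) := by
  have h2 : Algebra.FiniteType K (L ⧸ q) :=
    Algebra.FiniteType.of_surjective (Ideal.Quotient.mkₐ K q) Ideal.Quotient.mk_surjective
  have h3 : Algebra.EssFiniteType (L ⧸ q) (FractionRing (L ⧸ q)) :=
    Algebra.EssFiniteType.of_isLocalization _ (nonZeroDivisors (L ⧸ q))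
  have h4 : Algebra.EssFiniteType K (FractionRing (L ⧸ q)) :=
    Algebra.EssFiniteType.comp K (L ⧸ q) (FractionRing (L ⧸ q))
  refine ⟨FractionRing (L ⧸ q), inferInstance, inferInstance, h4,
    (algebraMap (L ⧸ q) (FractionRing (L ⧸ q))).comp (Ideal.Quotient.mk q), ?_, ?_⟩
  · intro z
    rw [RingHom.comp_apply, map_eq_zero_iff _ (IsFractionRing.injective _ _),
      Ideal.Quotient.eq_zero_iff_mem]
  · intro c
    rfl

open Classical in
/-- the point where Bertini is used -/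
theorem core (hBTC : Stmt_BTC.{u}) (hDFU : Stmt_DFU.{u}) (hDRV : Stmt_DRV.{u}) [CharZero k]
    {A L : Type u} [CommRing A] [Algebra k A] [CommRing L] [Algebra (Kx k n) L]
    [Algebra.FiniteType (Kx k n) L] (e : A →+* L)
    (he : ∀ c, e (algebraMap k A c) = algebraMap (Kx k n) L (algebraMap k (Kx k n) c))
    (t : Fin n → A) (ht : EtC k t) (ht' : EtC (Kx k n) (fun i => e (t i)))
    (Y : Fin (n + 1) → A) (hY : ∃ r : Fin (n + 1) → A, ∑ i, r i * Y i = 1) (q : Ideal L)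
    [q.IsPrime] (h : L) (hdef : h = e (Y (Fin.last n)) -
      ∑ i : Fin n, algebraMap (Kx k n) L (vv k n i) * e (Y i.castSucc)) (hh : h ∈ q)
    (T : Finset (Fin n)) :
    ∃ (d' : Fin n → Derivation (Kx k n) L L) (j : Fin n), Dual (fun i => e (t i)) d' ∧
      j ∉ T.filter (fun i => e (t i) ∈ q) ∧ d' j h ∉ q := by
  obtain ⟨κ, _, _, _, qm, hqm, hqmK⟩ := resid (K := Kx k n) q
  obtain ⟨⟨d, hd⟩, -⟩ := hDRV k A n t ht
  obtain ⟨⟨d', hd'⟩, -⟩ := hDRV (Kx k n) L n (fun i => e (t i)) ht'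
  have hfh : qm (e (Y (Fin.last n))) = ∑ i : Fin n,
      algebraMap (Kx k n) κ (vv k n i) * qm (e (Y i.castSucc)) := by
    have h1 := (hqm _).2 hh
    rw [hdef, map_sub, map_sum, sub_eq_zero] at h1
    rw [h1]
    refine Finset.sum_congr rfl (fun i _ => ?_)
    rw [map_mul, hqmK]
  obtain ⟨j, hjT, hjne⟩ := hBTC k n n A κ (qm.comp e)
    (fun c => by
      rw [RingHom.comp_apply, he, hqmK]) t d Y ht hd hY hfh (T.filter (fun i => e (t i) ∈ q))
    (fun i hi => (hqm _).2 (Finset.mem_filter.1 hi).2)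
  have hdfu : ∀ (i : Fin n) (z : A), d' i (e z) = e (d i z) :=
    fun i z => hDFU k A (Kx k n) L (algebraMap k (Kx k n)) e he n t d d' ht hd hd' i z
  have hdh : d' j h = e (d j (Y (Fin.last n))) - ∑ i : Fin n,
      algebraMap (Kx k n) L (vv k n i) * e (d j (Y i.castSucc)) := by
    rw [hdef, map_sub, map_sum, hdfu]
    congr 1
    refine Finset.sum_congr rfl (fun i _ => ?_)
    rw [Derivation.leibniz, Derivation.map_algebraMap, smul_zero, add_zero, hdfu, smul_eq_mul]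
  refine ⟨d', j, hd', hjT, ?_⟩
  intro h1
  have h2 := (hqm _).2 h1
  rw [hdh, map_sub, map_sum, sub_eq_zero] at h2
  apply hjne
  rw [RingHom.comp_apply, h2]
  refine Finset.sum_congr rfl (fun i _ => ?_)
  rw [map_mul, hqmK, RingHom.comp_apply]

open Classical in
/-- localisation at the element found by `core` -/
theorem local1 (hDFU : Stmt_DFU.{u}) (hDRV : Stmt_DRV.{u}) (hLCX : Stmt_LCX.{u})
    {K F : Type u} [Field K] [Field F] [Algebra K F] {N : ℕ} (L : Subalgebra K F) (G : Set F)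
    (m : F) (t : Fin N → L) (T : Finset (Fin N)) (hL : LCo L G m t T) (hG : G ⊆ L) (hm : m ∈ L)
    (q : Ideal L) (hq : q.IsPrime) (d : Fin N → Derivation K L L) (hd : Dual t d) (h : L)
    (j : Fin N) (hj : j ∉ T.filter (fun i => t i ∈ q)) (hdj : d j h ∉ q) :
    ∃ w : L, w ∉ q ∧ ∃ t3 : Fin N → Loc L (w : F),
      LCo (Loc L (w : F)) G m t3 (T.filter (fun i => t i ∈ q)) ∧
      genIn (Loc L (w : F)) {(h : F)} = Ideal.span {t3 j} := by
  set T1 := T.filter (fun i => t i ∈ q) with hT1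
  set w : L := d j h * ∏ i ∈ T \ T1, t i with hw
  have hwq : w ∉ q := by
    intro h1
    rcases hq.mem_or_mem h1 with h2 | h2
    · exact hdj h2
    · obtain ⟨i, hi, h3⟩ := (hq.prod_mem_iff).1 h2
      rw [Finset.mem_sdiff] at hi
      exact hi.2 (Finset.mem_filter.2 ⟨hi.1, h3⟩)
  have hw0 : (w : F) ≠ 0 := by
    intro h0
    apply hwq
    have : w = 0 := Subtype.ext h0
    rw [this]
    exact q.zero_mem
  obtain ⟨-, hX2, -, -⟩ := hLCX _ _ L _ _ N t T hL hG hm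
  have h2 := hX2 (w : F) w.2 hw0 (fun i => ⟨(t i : F), le_Loc _ _ (t i).2⟩) (fun i => rfl)
  have hdu : ∀ z : L, z ∣ w → IsUnit (Subalgebra.inclusion (le_Loc L (w : F)) z) := by
    intro z hz
    have hwu : IsUnit (Subalgebra.inclusion (le_Loc L (w : F)) w) := by
      refine IsUnit.of_mul_eq_one ⟨(w : F)⁻¹, inv_mem_Loc _ _⟩ ?_
      apply Subtype.ext
      show (w : F) * (w : F)⁻¹ = 1
      exact mul_inv_cancel₀ hw0
    exact isUnit_of_dvd_unit (map_dvd _ hz) hwu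
  have hG2 : G ⊆ Loc L (w : F) := fun z hz => le_Loc _ _ (hG hz)
  have hm2 : m ∈ Loc L (w : F) := le_Loc _ _ hm
  obtain ⟨-, -, hX3, -⟩ := hLCX _ _ (Loc L (w : F)) _ _ N
    (fun i => ⟨(t i : F), le_Loc _ _ (t i).2⟩) T h2 hG2 hm2
  have h3 := hX3 T1 (Finset.filter_subset _ _) (fun i hi hi1 => hdu (t i)
    (Dvd.dvd.mul_left (Finset.dvd_prod_of_mem _ (Finset.mem_sdiff.2 ⟨hi, hi1⟩)) _))
  obtain ⟨-, -, -, hX4⟩ := hLCX _ _ (Loc L (w : F)) _ _ N
    (fun i => ⟨(t i : F), le_Loc _ _ (t i).2⟩) T1 h3 hG2 hm2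
  obtain ⟨⟨d2, hd2⟩, -⟩ := hDRV K (Loc L (w : F)) N
    (fun i => ⟨(t i : F), le_Loc _ _ (t i).2⟩) h2.et
  have hd2j : d2 j (Subalgebra.inclusion (le_Loc L (w : F)) h) =
      Subalgebra.inclusion (le_Loc L (w : F)) (d j h) :=
    hDFU K L K (Loc L (w : F)) (RingHom.id _)
      (Subalgebra.inclusion (le_Loc L (w : F))).toRingHom (fun c => rfl) N
      t d d2 hL.et hd hd2 j h
  have h4 := hX4 d2 j (Subalgebra.inclusion (le_Loc L (w : F)) h) hd2 hj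
    (by rw [hd2j]; exact hdu _ (Dvd.intro _ rfl))
  refine ⟨w, hwq, _, h4, ?_⟩
  rw [Function.update_self]
  exact genIn_single (Loc L (w : F)) (Subalgebra.inclusion (le_Loc L (w : F)) h)

theorem exEmb (A : Subalgebra k (Fr k (n + 1))) (L : Subalgebra (Kx k n) (Fr (Kx k n) (n + 1)))
    (h : ∀ z ∈ A, emb k n z ∈ L) : ∃ e : A →+* L, ∀ z, (e z : Fr (Kx k n) (n + 1)) = emb k n z :=
  ⟨{ toFun := fun z => ⟨emb k n z, h z z.2⟩
     map_one' := Subtype.ext (map_one _)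
     map_mul' := fun _ _ => Subtype.ext (map_mul _ _ _)
     map_zero' := Subtype.ext (map_zero _)
     map_add' := fun _ _ => Subtype.ext (map_add _ _ _) }, fun _ => rfl⟩

theorem emb_inc' (p : Pol k (n + 1)) :
    emb k n (inc k (n + 1) p) = inc (Kx k n) (n + 1) (bcP k n p) :=
  IsLocalization.map_eq _ _

theorem emb_C (c : k) : emb k n (algebraMap k _ c) =
    algebraMap (Kx k n) (Fr (Kx k n) (n + 1)) (algebraMap k (Kx k n) c) := by
  have h1 : algebraMap k (Fr k (n + 1)) c = inc k (n + 1) (C c) := rfl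
  rw [h1, emb_inc', bcP, map_C]
  rfl

theorem lgen_ne' : lgen k n ≠ 0 := by
  intro h
  have h1 := congrArg (coeff (Finsupp.single (Fin.last n) 1)) h
  unfold lgen at h1
  rw [coeff_sub, coeff_sum, coeff_zero, coeff_X] at h1
  rw [Finset.sum_eq_zero] at h1
  · simp at h1
  · intro i _
    rw [coeff_C_mul, coeff_X, if_neg, mul_zero]
    intro h2
    have h3 := Finsupp.single_left_injective (one_ne_zero) h2
    exact absurd h3 (Fin.castSucc_lt_last i).ne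

theorem hyp_eq (g : Pol (Kx k n) (n + 1)) : inc (Kx k n) (n + 1) (lgen k n) / inc _ _ g =
      inc (Kx k n) (n + 1) (X (Fin.last n)) / inc _ _ g - ∑ i : Fin n,
        algebraMap (Kx k n) (Fr (Kx k n) (n + 1)) (vv k n i) *
          (inc (Kx k n) (n + 1) (X i.castSucc) / inc _ _ g) := by
  rw [lgen, map_sub, map_sum, sub_div, Finset.sum_div]
  congr 1
  refine Finset.sum_congr rfl (fun i _ => ?_)
  rw [map_mul, mul_div_assoc]
  rfl

end LSH_

open LSH_ Classical in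
theorem LSH (hLH1 : Stmt_LH1.{u}) (hBTC : Stmt_BTC.{u}) (hDFU : Stmt_DFU.{u})
    (hDRV : Stmt_DRV.{u}) (hLCX : Stmt_LCX.{u}) (hLOC : Stmt_LOC.{u}) (hLCE : Stmt_LCE.{u})
    (hCOV : Stmt_COV.{u}) (hCHS : Stmt_CHS.{u}) (hGDB : Stmt_GDB.{u}) : Stmt_LSH.{u} := by
  intro k _ _ n D hn hD hLS a b q hq
  obtain ⟨hbG, -⟩ := hGDB k n D hn hD
  obtain ⟨hG, hm, -⟩ := hCHS (Kx k n) n D.bc hbG a b
  obtain ⟨s, hsC, hs0, hsq, hexA, t, T, hEt, hLCo⟩ := hLH1 k n D hD hLS a b q hq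
  have hs'0 : emb k n s ≠ 0 := (map_ne_zero (emb k n)).2 hs0
  have hembA : ∀ z ∈ Loc (D.ch a b) s, emb k n z ∈ Loc (D.bc.ch a b) (emb k n s) := by
    intro z hz
    rw [← hexA]
    exact Algebra.subset_adjoin ⟨z, hz, rfl⟩
  have hs'C : emb k n s ∈ D.bc.ch a b := by
    rw [(hCHS k n D hD a b).2.2.1]
    exact Algebra.subset_adjoin ⟨s, hsC, rfl⟩
  rw [hexA] at hLCo
  obtain ⟨e, he⟩ := exEmb _ _ hembA
  have hL := hLCo (fun i => e (t i)) (fun i => he _)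
  obtain ⟨-, hL2, -, -, -⟩ := hLOC (Kx k n) (Fr (Kx k n) (n + 1)) (D.bc.ch a b) (emb k n s)
    hs'C hs'0
  obtain ⟨q1, hq1, hqq⟩ := hL2 q hq hsq
  have hXC : ∀ i : Fin (n + 1), inc (Kx k n) (n + 1) (X i) / inc _ _ (D.bc.g a) ∈
      D.bc.ch a b := by
    intro i
    exact Algebra.subset_adjoin (Or.inl ⟨i, rfl⟩)
  have hhC : inc (Kx k n) (n + 1) (lgen k n) / inc _ _ (D.bc.g a) ∈ D.bc.ch a b := by
    rw [hyp_eq]
    refine Subalgebra.sub_mem _ (hXC _) (Subalgebra.sum_mem _ (fun i _ => ?_))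
    exact Subalgebra.mul_mem _ (Subalgebra.algebraMap_mem _ _) (hXC _)
  have hG' : D.bc.I0 a ⊆ (Loc (D.bc.ch a b) (emb k n s)) := fun z hz => le_Loc _ _ (hG hz)
  have hm' : inc _ _ (D.bc.f b) / inc _ _ (D.bc.g a) ^ D.bc.δ ∈
      (Loc (D.bc.ch a b) (emb k n s)) := le_Loc _ _ hm
  by_cases hcase : (⟨_, le_Loc _ _ hhC⟩ : Loc (D.bc.ch a b) (emb k n s)) ∈ q1
  · -- Bertini
    have hfin : Algebra.FiniteType (Kx k n) (Loc (D.bc.ch a b) (emb k n s)) :=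
      (Subalgebra.fg_iff_finiteType _).1 (loc_fg _ (ch_fg D.bc a b) (emb k n s))
    obtain ⟨-, hCov⟩ := hCOV k n D hD
    obtain ⟨hw0, hYm, r, hr, hsum⟩ := hCov a b (Loc (D.ch a b) s) (le_Loc _ _)
    have hYe : ∀ i : Fin (n + 1), emb k n ((inc k (n + 1) (D.g a))⁻¹ * xx k n i) =
        inc (Kx k n) (n + 1) (X i) / inc _ _ (D.bc.g a) := by
      intro i
      rw [map_mul, map_inv₀, emb_inc', xx, emb_inc', bcP, map_X, mul_comm, div_eq_mul_inv]
      rfl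
    obtain ⟨d', j, hd', hj, hdj⟩ := core hBTC hDFU hDRV e
      (fun c => Subtype.ext (by rw [he]; exact emb_C c)) t hEt hL.et
      (fun i => ⟨_, hYm i⟩) ⟨fun i => ⟨r i, hr i⟩, Subtype.ext (by
        rw [AddSubmonoidClass.coe_finsetSum]
        exact hsum)⟩ q1 ⟨_, le_Loc _ _ hhC⟩ (Subtype.ext (by
        push_cast
        rw [he, hyp_eq]
        simp only [he, hYe])) hcase T
    obtain ⟨w, hwq, t3, h3, h4⟩ := local1 hDFU hDRV hLCX _ _ _ _ T hL hG' hm' q1 hq1 d' hd' _ j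
      hj hdj
    exact finish hLCX hLOC hLCE D a b (lgen k n) q (emb k n s) hs'C hs'0 hsq q1 hq1 hqq w hwq
      t3 _ h3 hG hm (Or.inr ⟨j, hj, h4⟩)
  · -- `h` is a unit near `q`
    have hh0 : inc (Kx k n) (n + 1) (lgen k n) / inc _ _ (D.bc.g a) ≠ 0 :=
      div_ne_zero (inc_ne lgen_ne') (inc_ne (hbG.g_ne a))
    obtain ⟨-, hX2, -, -⟩ := hLCX _ _ _ _ _ n (fun i => e (t i)) T hL hG' hm'
    have h2 := hX2 _ (le_Loc _ _ hhC) hh0
      (fun i => ⟨(e (t i) : Fr (Kx k n) (n + 1)), le_Loc _ _ (e (t i)).2⟩) (fun i => rfl)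
    refine finish hLCX hLOC hLCE D a b (lgen k n) q (emb k n s) hs'C hs'0 hsq q1 hq1 hqq
      ⟨_, le_Loc _ _ hhC⟩ hcase _ T h2 hG hm (Or.inl ?_)
    exact genIn_unit _ _ (le_Loc _ _ (le_Loc _ _ hhC)) (inv_mem_Loc _ _) hh0

end Pool.Agent.DBX.GEN
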