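import Pool.Agent.DBX.GEN.Mid
import Pool.Agent.DBX.GEN.LSH

/-!
# DBX, area GEN: the three statements of `DBX/Gen.lean`, unconditionally
-/

set_option autoImplicit false

namespace Pool.Agent.DBX.GEN

universe u

theorem aLSH : Stmt_LSH.{u} := LSH aLH1 aBTC aDFU DRV aLCX LOC LCE COV aCHS aGDB

/-- inheritance of the geometric properties -/
theorem INH : Stmt_INH.{u} := INH_of aLSH

end Pool.Agent.DBX.GEN
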