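import Pool.Agent.DBX.GEN.Defs

set_option autoImplicit false

/-! # MP_2c751f_ag, squad DBX, area GEN: statements of the modules -/

namespace Pool.Agent.DBX.GEN

open Pool.Agent.DBX MvPolynomial

noncomputable section

universe u

/-! ## Part 1: the embeddings -/

/-- `phi` is injective and extends to the function fields. -/
def Stmt_PHI : Prop :=
  ∀ (k : Type u) [Field k] (n : ℕ), 1 ≤ n → Function.Injective (phi k n) ∧
    ∃ iot : Fr k (n + 1) →+* Fr (Kx k n) n, IsIot iot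

/-- Facts on `emb`. -/
def Stmt_EVE : Prop :=
  ∀ (k : Type u) [Field k] (n : ℕ), Cmp k n (emb k n) ∧
    (∀ p, emb k n (inc k (n + 1) p) = inc _ _ (bcP k n p)) ∧
    (∀ P, evj k n (emb k n) P = 0 → P = 0) ∧
    evj k n (emb k n) (lv k n) = inc _ _ (lgen k n)

/-- Facts on `iot`. -/
def Stmt_EVI : Prop :=
  ∀ (k : Type u) [Field k] (n : ℕ) (iot : Fr k (n + 1) →+* Fr (Kx k n) n), IsIot iot →
    Cmp k n iot ∧ (∀ b P, evj k n iot (rho k n b P) = evj k n iot P) ∧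
    ∀ b P, evj k n iot P = 0 → rho k n b P = 0

/-- The kernel of `rho b` is generated by `lv`. -/
def Stmt_RDV : Prop :=
  ∀ (k : Type u) [Field k] (n : ℕ) (b : Fin n) (P : MvPolynomial (Fin n) (Fr k (n + 1))),
    rho k n b P = 0 → ∃ Q, P = lv k n * Q

/-- Elements of `k' · j(U)` as fractions. -/
def Stmt_REP : Prop :=
  ∀ (k : Type u) [Field k] (n : ℕ) (F G : Type u) [Field F] [Field G] [Algebra k F]
    [Algebra (Kx k n) G] (j : F →+* G), Cmp k n j →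
    (∀ (ι : Type) [Finite ι] (U : ι → Submodule k F) (z : ι → G),
      (∀ i, z i ∈ exM n j (U i)) →
      ∃ (c : MvPolynomial (Fin n) k) (P : ι → MvPolynomial (Fin n) F), c ≠ 0 ∧
        ∀ i, CoeffIn (U i) (P i) ∧ cc c * z i = evj k n j (P i)) ∧
    (∀ (U : Submodule k F) (c : MvPolynomial (Fin n) k) (P : MvPolynomial (Fin n) F) (z : G),
      c ≠ 0 → CoeffIn U P → cc c * z = evj k n j P → z ∈ exM n j U) ∧
    (∀ c : MvPolynomial (Fin n) k, evj k n j (MvPolynomial.map (algebraMap k F) c) = cc c) ∧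
    (∀ c : MvPolynomial (Fin n) k, c ≠ 0 → (cc c : G) ≠ 0)

/-- Closure properties of `CoeffIn`. -/
def Stmt_CIN : Prop :=
  ∀ (k : Type u) [Field k] (n : ℕ) (F : Type u) [Field F] [Algebra k F] (U : Submodule k F),
    (∀ P Q : MvPolynomial (Fin n) F, CoeffIn U P → CoeffIn U Q → CoeffIn U (P + Q)) ∧
    (∀ (c : MvPolynomial (Fin n) k) (P : MvPolynomial (Fin n) F), CoeffIn U P →
      CoeffIn U (MvPolynomial.map (algebraMap k F) c * P)) ∧
    (∀ (A : Subalgebra k F), SMod A U → ∀ Q P : MvPolynomial (Fin n) F,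
      CoeffIn (Subalgebra.toSubmodule A) Q → CoeffIn U P → CoeffIn U (Q * P))

/-- Coefficients of `rho b P`. -/
def Stmt_RHC : Prop :=
  ∀ (k : Type u) [Field k] (n : ℕ) (A : Subalgebra k (Fr k (n + 1))) (w : Fr k (n + 1))
    (U : Submodule k (Fr k (n + 1))), Cov A w → SMod A U → ∀ (b : Fin n)
    (P : MvPolynomial (Fin n) (Fr k (n + 1))), CoeffIn U P →
    ∃ M : ℕ, CoeffIn U (C ((w * xx k n b.castSucc) ^ M) * rho k n b P)

/-- Multiplication by `x_n - ∑ v_i x_i` reflects coefficients in `U`. -/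
def Stmt_MCC : Prop :=
  ∀ (k : Type u) [Field k] (n : ℕ) (A : Subalgebra k (Fr k (n + 1))) (w : Fr k (n + 1))
    (U : Submodule k (Fr k (n + 1))), Cov A w → SMod A U →
    ∀ Q : MvPolynomial (Fin n) (Fr k (n + 1)), CoeffIn U (C w * lv k n * Q) → CoeffIn U Q

/-- Nilpotent polynomials modulo an ideal. -/
def Stmt_NIL : Prop :=
  ∀ (k : Type u) [Field k] (n : ℕ) (F : Type u) [Field F] [Algebra k F] (A : Subalgebra k F)
    (J : Ideal A) (P : MvPolynomial (Fin n) F) (N : ℕ),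
    CoeffIn (Subalgebra.toSubmodule A) P → CoeffIn (toF A J) (P ^ N) →
    CoeffIn (toF A J.radical) P

/-- `exA` and ideals. -/
def Stmt_EXA : Prop :=
  ∀ (k : Type u) [Field k] (n : ℕ) (F G : Type u) [Field F] [Field G] [Algebra k F]
    [Algebra (Kx k n) G] (j : F →+* G), Cmp k n j → ∀ A : Subalgebra k F,
    (∀ z, z ∈ exA n j A ↔ z ∈ exM n j (Subalgebra.toSubmodule A)) ∧
    (∀ J : Ideal A, toF (exA n j A) (genIn (exA n j A) (j '' (toF A J : Set F))) =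
      exM n j (toF A J)) ∧
    (∀ S : Set F, exA n j (Algebra.adjoin k S) = Algebra.adjoin (Kx k n) (j '' S)) ∧
    ∀ S : Set F, S ⊆ A → genIn (exA n j A) (j '' S) =
      genIn (exA n j A) (j '' (toF A (genIn A S) : Set F))

/-- Radicals commute with `k ⊂ k'`. -/
def Stmt_RADB : Prop :=
  ∀ (k : Type u) [Field k] (n : ℕ) (A : Subalgebra k (Fr k (n + 1))) (J : Ideal A),
    toF (exA n (emb k n) A)
      (genIn (exA n (emb k n) A) (emb k n '' (toF A J : Set _))).radical =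
    exM n (emb k n) (toF A J.radical)

/-- Radicals commute with the generic section. -/
def Stmt_RADS : Prop :=
  ∀ (k : Type u) [Field k] (n : ℕ) (iot : Fr k (n + 1) →+* Fr (Kx k n) n), IsIot iot →
    ∀ (A : Subalgebra k (Fr k (n + 1))) (w : Fr k (n + 1)), Cov A w → ∀ J : Ideal A,
    toF (exA n iot A) (genIn (exA n iot A) (iot '' (toF A J : Set _))).radical =
    exM n iot (toF A J.radical)

/-- Linear disjointness of `k'` and `F` in `F'`. -/
def Stmt_DSJ : Prop :=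
  ∀ (k : Type u) [Field k] (n : ℕ) (r : ℕ) (b : Fin r → Kx k n) (y : Fin r → Fr k (n + 1)),
    LinearIndependent k b → ∑ i, b i • emb k n (y i) = 0 → ∀ i, y i = 0

/-! ## Part 2: the restriction map `sp` -/

/-- `z` is defined at the generic point of the hyperplane. -/
def Dom {k : Type u} [Field k] {n : ℕ} (z : Fr (Kx k n) (n + 1)) : Prop :=
  ∃ a b : Pol (Kx k n) (n + 1), secP k n b ≠ 0 ∧ z = inc _ _ a / inc _ _ b

def Stmt_SPE : Prop :=
  ∀ (k : Type u) [Field k] (n : ℕ), ∃ sp : Fr (Kx k n) (n + 1) →ₗ[Kx k n] Fr (Kx k n) n,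
    IsSp (k := k) (n := n) sp

/-- `sp` is a ring homomorphism where it is defined, and extends `iot`. -/
def Stmt_SPP : Prop :=
  ∀ (k : Type u) [Field k] (n : ℕ) (iot : Fr k (n + 1) →+* Fr (Kx k n) n), IsIot iot →
    ∀ sp : Fr (Kx k n) (n + 1) →ₗ[Kx k n] Fr (Kx k n) n, IsSp (k := k) (n := n) sp →
    (∀ c : Kx k n, Dom (algebraMap (Kx k n) (Fr (Kx k n) (n + 1)) c) ∧
      sp (algebraMap (Kx k n) (Fr (Kx k n) (n + 1)) c) = algebraMap (Kx k n) (Fr (Kx k n) n) c) ∧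
    (∀ x y, Dom x → Dom y → Dom (x + y) ∧ Dom (x * y) ∧ sp (x * y) = sp x * sp y) ∧
    (∀ x, Dom x → sp x ≠ 0 → Dom x⁻¹ ∧ sp x⁻¹ = (sp x)⁻¹) ∧
    (∀ z, Dom (emb k n z) ∧ sp (emb k n z) = iot z) ∧
    (∀ P, Dom (evj k n (emb k n) P) ∧ sp (evj k n (emb k n) P) = evj k n iot P) ∧
    (∀ U : Submodule k (Fr k (n + 1)), (∀ x ∈ exM n (emb k n) U, Dom x) ∧
      Submodule.map sp (exM n (emb k n) U) = exM n iot U) ∧
    sp (inc _ _ (lgen k n)) = 0

/-- The kernel of `sp`. -/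
def Stmt_KER : Prop :=
  ∀ (k : Type u) [Field k] (n : ℕ), 1 ≤ n →
    ∀ sp : Fr (Kx k n) (n + 1) →ₗ[Kx k n] Fr (Kx k n) n, IsSp (k := k) (n := n) sp →
    ∀ (A : Subalgebra k (Fr k (n + 1))) (w : Fr k (n + 1)) (U : Submodule k (Fr k (n + 1))),
      Cov A w → SMod A U → ∀ x ∈ exM n (emb k n) U, sp x = 0 →
        ∃ x' ∈ exM n (emb k n) U, x = emb k n w * inc _ _ (lgen k n) * x'

/-! ## Part 3: the sheaves `E` -/

/-- The rings `D.R σ τ` and the charts have the covering property. -/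
def Stmt_COV : Prop :=
  ∀ (k : Type u) [Field k] (n : ℕ) (D : Dat k (n + 1)), D.Good →
    (∀ (σ : Finset (Fin D.p)) (τ : Finset (Fin D.M)), σ.Nonempty → Cov (D.R σ τ) 1) ∧
    ∀ (a : Fin D.p) (b : Fin D.M) (A : Subalgebra k (Fr k (n + 1))), D.ch a b ≤ A →
      Cov A (inc k (n + 1) (D.g a))⁻¹

/-- The rings `R` of the base change and of the section. -/
def Stmt_RBS : Prop :=
  ∀ (k : Type u) [Field k] (n : ℕ) (D : Dat k (n + 1)) (σ : Finset (Fin D.p))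
    (τ : Finset (Fin D.M)),
    (D.bc.R σ τ = exA n (emb k n) (D.R σ τ) ∧
      genIn (D.bc.R σ τ) (inc _ _ '' (D.bc.I : Set _)) = genIn (D.bc.R σ τ)
        (emb k n '' (toF (D.R σ τ) (genIn (D.R σ τ) (inc _ _ '' (D.I : Set _))) : Set _))) ∧
    ∀ iot : Fr k (n + 1) →+* Fr (Kx k n) n, IsIot iot →
      (D.sec.R σ τ = exA n iot (D.R σ τ) ∧
      genIn (D.sec.R σ τ) (inc _ _ '' (D.sec.I : Set _)) = genIn (D.sec.R σ τ)
        (iot '' (toF (D.R σ τ) (genIn (D.R σ τ) (inc _ _ '' (D.I : Set _))) : Set _)))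

/-- The sheaves `E` of the base change and of the section. -/
def Stmt_EBS : Prop :=
  ∀ (k : Type u) [Field k] (n : ℕ) (D : Dat k (n + 1)), D.Good → ∀ (σ : Finset (Fin D.p))
    (τ : Finset (Fin D.M)), D.bc.E σ τ = exM n (emb k n) (D.E σ τ) ∧
    ((σ.Nonempty ∨ τ = ∅) → ∀ iot : Fr k (n + 1) →+* Fr (Kx k n) n, IsIot iot →
      D.sec.E σ τ = exM n iot (D.E σ τ))

/-- `bcP` and `phi` are graded. -/
def Stmt_HOM : Prop :=
  ∀ (k : Type u) [Field k] (n : ℕ),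
    (∀ (p : Pol k (n + 1)) (d : ℕ), p.IsHomogeneous d →
      (bcP k n p).IsHomogeneous d ∧ (phi k n p).IsHomogeneous d) ∧
    (∀ (p : Pol k (n + 1)) (d : ℕ), homogeneousComponent d (bcP k n p) =
      bcP k n (homogeneousComponent d p)) ∧
    (∀ (p : Pol k (n + 1)) (d : ℕ), homogeneousComponent d (phi k n p) =
      phi k n (homogeneousComponent d p)) ∧
    (∀ (m : ℤ) (z : Fr k (n + 1)), z ∈ HF k (n + 1) m → emb k n z ∈ HF (Kx k n) (n + 1) m) ∧
    ∀ iot : Fr k (n + 1) →+* Fr (Kx k n) n, IsIot iot →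
      ∀ (m : ℤ) (z : Fr k (n + 1)), z ∈ HF k (n + 1) m → iot z ∈ HF (Kx k n) n m

/-- Homogeneous fractions of different degrees are independent. -/
def Stmt_IND : Prop :=
  ∀ (k : Type u) [Field k] (n : ℕ) (s : Finset ℤ) (y : ℤ → Fr k n), (∀ d, y d ∈ HF k n d) →
    ∑ d ∈ s, y d = 0 → ∀ d ∈ s, y d = 0

/-- `E` is graded. -/
def Stmt_EGR : Prop :=
  ∀ (k : Type u) [Field k] [CharZero k] (n : ℕ) (D : Dat k n), D.Good →
    ∀ (σ : Finset (Fin D.p)) (τ : Finset (Fin D.M)), ∀ z ∈ D.E σ τ,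
      ∃ (s : Finset ℤ) (y : ℤ → Fr k n), (∀ d, y d ∈ D.Eg d σ τ) ∧ z = ∑ d ∈ s, y d

/-- Graded version of `EBS`. -/
def Stmt_EGS : Prop :=
  ∀ (k : Type u) [Field k] [CharZero k] (n : ℕ) (D : Dat k (n + 1)), D.Good →
    ∀ (m : ℤ) (σ : Finset (Fin D.p)) (τ : Finset (Fin D.M)),
    D.bc.Eg m σ τ = exM n (emb k n) (D.Eg m σ τ) ∧
    ((σ.Nonempty ∨ τ = ∅) → ∀ iot : Fr k (n + 1) →+* Fr (Kx k n) n, IsIot iot →
      D.sec.Eg m σ τ = exM n iot (D.Eg m σ τ))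

/-! ## Part 4: Good, heights, DB -/

def Stmt_GDB : Prop :=
  ∀ (k : Type u) [Field k] (n : ℕ) (D : Dat k (n + 1)), 1 ≤ n → D.Good →
    D.bc.Good ∧ D.sec.Good

/-- Flatness of `k[x_0..x_n] → k'[x_0..x_{n-1}]` outside the irrelevant ideal. -/
def Stmt_FLT : Prop :=
  ∀ (k : Type u) [Field k] (n : ℕ) (q : Ideal (Pol (Kx k n) n)) [q.IsPrime] (b : Fin n),
    X b ∉ q → ((algebraMap (Pol (Kx k n) n) (Localization.AtPrime q)).comp (phi k n)).Flat

def Stmt_HTL : Prop :=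
  ∀ (k : Type u) [Field k] (n : ℕ) (q : Ideal (Pol (Kx k n) n)) [q.IsPrime] (b : Fin n),
    X b ∉ q → (q.comap (phi k n)).height ≤ q.height

def Stmt_DBS : Prop :=
  ∀ (k : Type u) [Field k] (n : ℕ) (D : Dat k (n + 1)), 1 ≤ n → D.Good →
    ∀ e, D.DB e → D.sec.DB e

/-! ## Part 5: étale coordinates -/

/-- Partial derivatives with respect to étale coordinates. -/
def Stmt_DRV : Prop :=
  ∀ (K A : Type u) [CommRing K] [CommRing A] [Algebra K A] (N : ℕ) (t : Fin N → A), EtC K t →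
    (∃ d : Fin N → Derivation K A A, Dual t d) ∧
    ∀ d : Fin N → Derivation K A A, Dual t d → ∀ (M : Type u) [AddCommGroup M] [Module K M]
      [Module A M] [IsScalarTower K A M] (E : Derivation K A M) (a : A),
      E a = ∑ j, d j a • E (t j)

/-- Functoriality of the partial derivatives. -/
def Stmt_DFU : Prop :=
  ∀ (K A K' B : Type u) [CommRing K] [CommRing A] [Algebra K A] [CommRing K'] [CommRing B]
    [Algebra K' B] (e : K →+* K') (f : A →+* B),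
    (∀ c, f (algebraMap K A c) = algebraMap K' B (e c)) → ∀ (N : ℕ) (t : Fin N → A)
    (d : Fin N → Derivation K A A) (d' : Fin N → Derivation K' B B), EtC K t → Dual t d →
    Dual (fun i => f (t i)) d' → ∀ j a, d' j (f a) = f (d j a)

/-- Jacobian criterion: exchange of one coordinate. -/
def Stmt_SWP : Prop :=
  ∀ (K A : Type u) [CommRing K] [CommRing A] [Algebra K A] (N : ℕ) (t : Fin N → A)
    (d : Fin N → Derivation K A A), EtC K t → Dual t d → ∀ (j : Fin N) (h : A),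
    IsUnit (d j h) → EtC K (Function.update t j h)

/-- Étale coordinates on the quotient by one coordinate. -/
def Stmt_ETQ : Prop :=
  ∀ (K A B : Type u) [CommRing K] [CommRing A] [CommRing B] [Algebra K A] [Algebra K B] (N : ℕ)
    (t : Fin (N + 1) → A) (s : A →ₐ[K] B) (i : Fin (N + 1)), EtC K t → Function.Surjective s →
    RingHom.ker s = Ideal.span {t i} → EtC K (fun j : Fin N => s (t (i.succAbove j)))

/-- Permutation and localisation of étale coordinates. -/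
def Stmt_ETL : Prop :=
  ∀ (K F : Type u) [Field K] [Field F] [Algebra K F] (A : Subalgebra K F) (N : ℕ)
    (t : Fin N → A), EtC K t →
    (∀ π : Equiv.Perm (Fin N), EtC K (fun i => t (π i))) ∧
    ∀ s : F, s ∈ A → s ≠ 0 → ∀ t' : Fin N → Loc A s, (∀ i, (t' i : F) = t i) → EtC K t'

/-- Base change of étale coordinates. -/
def Stmt_ETB : Prop :=
  ∀ (k : Type u) [Field k] (n : ℕ) (A : Subalgebra k (Fr k (n + 1))) (N : ℕ) (t : Fin N → A)
    (t' : Fin N → exA n (emb k n) A), EtC k t →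
    (∀ i, (t' i : Fr (Kx k n) (n + 1)) = emb k n (t i)) → EtC (Kx k n) t'

/-- Extension of `∂/∂v_i` to a field that is finitely generated over `k'`. -/
def Stmt_DER : Prop :=
  ∀ (k : Type u) [Field k] [CharZero k] (n : ℕ) (κ : Type u) [Field κ] [Algebra (Kx k n) κ]
    [Algebra.EssFiniteType (Kx k n) κ] (i : Fin n), ∃ δ : κ →+ κ,
    (∀ a b, δ (a * b) = a * δ b + b * δ a) ∧
    (∀ c : k, δ (algebraMap (Kx k n) κ (algebraMap k (Kx k n) c)) = 0) ∧
    ∀ l, δ (algebraMap (Kx k n) κ (vv k n l)) = if l = i then 1 else 0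

/-- The core of Bertini's theorem. -/
def Stmt_BTC : Prop :=
  ∀ (k : Type u) [Field k] [CharZero k] (n N : ℕ) (A κ : Type u) [CommRing A] [Algebra k A]
    [Field κ] [Algebra (Kx k n) κ] [Algebra.EssFiniteType (Kx k n) κ] (f : A →+* κ),
    (∀ c, f (algebraMap k A c) = algebraMap (Kx k n) κ (algebraMap k (Kx k n) c)) →
    ∀ (t : Fin N → A) (d : Fin N → Derivation k A A) (Y : Fin (n + 1) → A), EtC k t → Dual t d →
    (∃ r : Fin (n + 1) → A, ∑ i, r i * Y i = 1) →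
    f (Y (Fin.last n)) = ∑ i : Fin n, algebraMap (Kx k n) κ (vv k n i) * f (Y i.castSucc) →
    ∀ T : Finset (Fin N), (∀ j ∈ T, f (t j) = 0) → ∃ j, j ∉ T ∧
      f (d j (Y (Fin.last n))) ≠
        ∑ i : Fin n, algebraMap (Kx k n) κ (vv k n i) * f (d j (Y i.castSucc))

/-! ## Part 6: localisation and log coordinates -/

/-- Localisations `A[1/s]` inside a field. -/
def Stmt_LOC : Prop :=
  ∀ (K F : Type u) [Field K] [Field F] [Algebra K F] (A : Subalgebra K F) (s : F), s ∈ A →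
    s ≠ 0 →
    (∀ z, z ∈ Loc A s ↔ ∃ N : ℕ, s ^ N * z ∈ A) ∧
    (∀ (q : Ideal A), q.IsPrime → (∀ z ∈ q, (z : F) ≠ s) → ∃ q' : Ideal (Loc A s), q'.IsPrime ∧
      ∀ (z : A) (z' : Loc A s), (z' : F) = z → (z' ∈ q' ↔ z ∈ q)) ∧
    (∀ w, w ∈ Loc A s → w ≠ 0 → ∃ N : ℕ, s ^ (N + 1) * w ∈ A ∧
      Loc A (s ^ (N + 1) * w) = Loc (Loc A s) w) ∧
    (∀ (G : Set F) (d : A) (d' : Loc A s), G ⊆ A → (d' : F) = d →
      (genIn A G).radical = Ideal.span {d} → (genIn (Loc A s) G).radical = Ideal.span {d'}) ∧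
    (∀ (m : F) (d : A) (d' : Loc A s), m ∈ A → (d' : F) = d →
      genIn A {m} = Ideal.span {d} → genIn (Loc A s) {m} = Ideal.span {d'})

/-- Operations on log coordinates. -/
def Stmt_LCX : Prop :=
  ∀ (K F : Type u) [Field K] [Field F] [Algebra K F] (A : Subalgebra K F) (G : Set F) (m : F)
    (N : ℕ) (t : Fin N → A) (T : Finset (Fin N)), LCo A G m t T → G ⊆ A → m ∈ A →
    (∃ π : Equiv.Perm (Fin N), (∀ i, π i ∈ T ↔ (i : ℕ) < T.card) ∧
      LCo A G m (fun i => t (π i)) (Finset.univ.filter (fun i : Fin N => (i : ℕ) < T.card))) ∧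
    (∀ s : F, s ∈ A → s ≠ 0 → ∀ t' : Fin N → Loc A s, (∀ i, (t' i : F) = t i) →
      LCo (Loc A s) G m t' T) ∧
    (∀ T' : Finset (Fin N), T' ⊆ T → (∀ i ∈ T, i ∉ T' → IsUnit (t i)) → LCo A G m t T') ∧
    (∀ (d : Fin N → Derivation K A A) (j : Fin N) (h : A), Dual t d → j ∉ T → IsUnit (d j h) →
      LCo A G m (Function.update t j h) T)

/-- Base change of log coordinates. -/
def Stmt_LCB : Prop :=
  ∀ (k : Type u) [Field k] (n : ℕ) (A : Subalgebra k (Fr k (n + 1))) (G : Set (Fr k (n + 1)))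
    (m : Fr k (n + 1)) (N : ℕ) (t : Fin N → A) (T : Finset (Fin N)), LCo A G m t T → G ⊆ A →
    m ∈ A → ∀ t' : Fin N → exA n (emb k n) A,
    (∀ i, (t' i : Fr (Kx k n) (n + 1)) = emb k n (t i)) →
    LCo (exA n (emb k n) A) (emb k n '' G) (emb k n m) t' T

/-- `LogCoord` in terms of `LCo`. -/
def Stmt_LCE : Prop :=
  ∀ (k : Type u) [Field k] (n : ℕ) (D : Dat k n) (a : Fin D.p) (b : Fin D.M)
    (A : Subalgebra k (Fr k n)) (t : Fin (n - 1) → A) (e : ℕ),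
    D.LogCoord a b A t e ↔ LCo A (D.I0 a) (inc k n (D.f b) / inc k n (D.g a) ^ D.δ) t
      (Finset.univ.filter (fun i : Fin (n - 1) => (i : ℕ) < e))

/-- The charts of the base change and of the section. -/
def Stmt_CHS : Prop :=
  ∀ (k : Type u) [Field k] (n : ℕ) (D : Dat k (n + 1)), D.Good → ∀ (a : Fin D.p) (b : Fin D.M),
    D.I0 a ⊆ D.ch a b ∧ inc k (n + 1) (D.f b) / inc k (n + 1) (D.g a) ^ D.δ ∈ D.ch a b ∧
    D.bc.ch a b = exA n (emb k n) (D.ch a b) ∧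
    (∀ A : Subalgebra (Kx k n) (Fr (Kx k n) (n + 1)), D.bc.ch a b ≤ A →
      genIn A (D.bc.I0 a) = genIn A (emb k n '' D.I0 a)) ∧
    ∀ iot : Fr k (n + 1) →+* Fr (Kx k n) n, IsIot iot →
      D.sec.ch a b = exA n iot (D.ch a b) ∧
      ∀ A : Subalgebra (Kx k n) (Fr (Kx k n) n), D.sec.ch a b ≤ A →
        genIn A (D.sec.I0 a) = genIn A (iot '' D.I0 a)

/-- Local data at a prime of a chart of the base change. -/
def Stmt_LH1 : Prop :=
  ∀ (k : Type u) [Field k] [CharZero k] (n : ℕ) (D : Dat k (n + 1)), D.Good → D.LogSmooth →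
    ∀ (a : Fin D.p) (b : Fin D.M) (q : Ideal (D.bc.ch a b)), q.IsPrime →
    ∃ s : Fr k (n + 1), s ∈ D.ch a b ∧ s ≠ 0 ∧
      (∀ z ∈ q, (z : Fr (Kx k n) (n + 1)) ≠ emb k n s) ∧
      exA n (emb k n) (Loc (D.ch a b) s) = Loc (D.bc.ch a b) (emb k n s) ∧
      ∃ (t : Fin n → Loc (D.ch a b) s) (T : Finset (Fin n)), EtC k t ∧
        ∀ t' : Fin n → exA n (emb k n) (Loc (D.ch a b) s),
          (∀ i, (t' i : Fr (Kx k n) (n + 1)) = emb k n (t i)) →
          LCo (exA n (emb k n) (Loc (D.ch a b) s)) (D.bc.I0 a)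
            (inc _ _ (D.bc.f b) / inc _ _ (D.bc.g a) ^ D.δ) t' T

/-- Bertini for the generic hyperplane. -/
def Stmt_LSH : Prop :=
  ∀ (k : Type u) [Field k] [CharZero k] (n : ℕ) (D : Dat k (n + 1)), 1 ≤ n → D.Good →
    D.LogSmooth → D.bc.LogSmoothH (lgen k n)

/-- `sp` as a homomorphism of algebras. -/
def Stmt_SPA : Prop :=
  ∀ (k : Type u) [Field k] (n : ℕ) (iot : Fr k (n + 1) →+* Fr (Kx k n) n), IsIot iot →
    ∀ sp : Fr (Kx k n) (n + 1) →ₗ[Kx k n] Fr (Kx k n) n, IsSp (k := k) (n := n) sp →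
    ∀ (A : Subalgebra (Kx k n) (Fr (Kx k n) (n + 1))) (B : Subalgebra (Kx k n) (Fr (Kx k n) n)),
      (∀ z ∈ A, Dom z) → (∀ z ∈ A, sp z ∈ B) →
      ∃ g : A →ₐ[Kx k n] B, ∀ z : A, (g z : Fr (Kx k n) n) = sp z

/-- `sp` on the localised charts. -/
def Stmt_LS1 : Prop :=
  ∀ (k : Type u) [Field k] (n : ℕ), 1 ≤ n → ∀ sp : Fr (Kx k n) (n + 1) →ₗ[Kx k n] Fr (Kx k n) n,
    IsSp (k := k) (n := n) sp → ∀ (D : Dat k (n + 1)), D.Good → ∀ (a : Fin D.p) (b : Fin D.M),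
    (∀ z ∈ D.bc.ch a b, Dom z ∧ sp z ∈ D.sec.ch a b) ∧
    (∀ y ∈ D.sec.ch a b, ∃ z ∈ D.bc.ch a b, sp z = y) ∧
    ∀ s ∈ D.bc.ch a b, sp s ≠ 0 →
      (∀ z ∈ Loc (D.bc.ch a b) s, Dom z ∧ sp z ∈ Loc (D.sec.ch a b) (sp s)) ∧
      (∀ y ∈ Loc (D.sec.ch a b) (sp s), ∃ z ∈ Loc (D.bc.ch a b) s, sp z = y) ∧
      ∀ z ∈ Loc (D.bc.ch a b) s, sp z = 0 → ∃ z' ∈ Loc (D.bc.ch a b) s,
        z = inc _ _ (lgen k n) / inc _ _ (D.bc.g a) * z'

/-- The reduced inverse image of `V(I)` in the section. -/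
def Stmt_LS2 : Prop :=
  ∀ (k : Type u) [Field k] (n : ℕ), 1 ≤ n → ∀ sp : Fr (Kx k n) (n + 1) →ₗ[Kx k n] Fr (Kx k n) n,
    IsSp (k := k) (n := n) sp → ∀ (D : Dat k (n + 1)), D.Good → ∀ (a : Fin D.p) (b : Fin D.M),
    ∀ s ∈ D.bc.ch a b, sp s ≠ 0 → ∀ (d : Loc (D.bc.ch a b) s) (d' : Loc (D.sec.ch a b) (sp s)),
      (d' : Fr (Kx k n) n) = sp d →
      (genIn (Loc (D.bc.ch a b) s) (D.bc.I0 a)).radical = Ideal.span {d} →
      (genIn (Loc (D.sec.ch a b) (sp s)) (D.sec.I0 a)).radical = Ideal.span {d'}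

def Stmt_LSS : Prop :=
  ∀ (k : Type u) [Field k] [CharZero k] (n : ℕ) (D : Dat k (n + 1)), 1 ≤ n → D.Good →
    D.bc.LogSmoothH (lgen k n) → D.sec.LogSmooth

end

end Pool.Agent.DBX.GEN
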