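import Pool.Agent.DBX.GEN.Stmts

set_option autoImplicit false

/-! # MP_2c751f_ag, squad DBX, area GEN: module BTC -/

namespace Pool.Agent.DBX.GEN

open Pool.Agent.DBX MvPolynomial

noncomputable section

universe u

theorem BTC (hDRV : Stmt_DRV.{u}) (hDER : Stmt_DER.{u}) : Stmt_BTC.{u} := by
  intro k _ _ n N A κ _ _ _ _ _ f hf t d Y hEt hD hr hY T hT
  obtain ⟨r, hr⟩ := hr
  by_contra hcon
  push Not at hcon
  have key : ∀ i : Fin n, f (Y i.castSucc) = 0 := by
    intro i
    obtain ⟨δ, hδm, hδk, hδv⟩ := hDER k n κ i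
    letI : Module A κ := Module.compHom κ f
    let _ : Module k κ := Module.compHom κ ((algebraMap (Kx k n) κ).comp (algebraMap k (Kx k n)))
    have hsA : ∀ (a : A) (x : κ), a • x = f a * x := fun a x => rfl
    have hsk : ∀ (c : k) (x : κ), c • x = algebraMap (Kx k n) κ (algebraMap k (Kx k n) c) * x :=
      fun c x => rfl
    have _ : IsScalarTower k A κ := by
      refine ⟨fun c a x => ?_⟩
      rw [hsA, hsk, hsA, Algebra.smul_def, map_mul, hf, mul_assoc]
    let El : A →ₗ[k] κ :=
      { toFun := fun a => δ (f a)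
        map_add' := fun a b => by rw [map_add, map_add]
        map_smul' := fun c a => by
          simp only [RingHom.id_apply]
          rw [hsk, Algebra.smul_def, map_mul, hf, hδm, hδk, mul_zero, add_zero] }
    let E : Derivation k A κ := Derivation.mk' El (fun a b => by
      change δ (f (a * b)) = a • δ (f b) + b • δ (f a)
      rw [map_mul, hδm, hsA, hsA])
    have hE : ∀ a, δ (f a) = ∑ j, f (d j a) * δ (f (t j)) := by
      intro a
      have h1 := (hDRV k A N t hEt).2 d hD κ E a
      exact h1
    have h1 : δ (f (Y (Fin.last n))) = ∑ l : Fin n,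
        algebraMap (Kx k n) κ (vv k n l) * δ (f (Y l.castSucc)) + f (Y i.castSucc) := by
      conv_lhs => rw [hY, map_sum]
      have : ∀ l : Fin n, δ (algebraMap (Kx k n) κ (vv k n l) * f (Y l.castSucc)) =
          algebraMap (Kx k n) κ (vv k n l) * δ (f (Y l.castSucc)) +
            (if l = i then f (Y l.castSucc) else 0) := by
        intro l
        rw [hδm, hδv]
        split_ifs <;> simp
      rw [Finset.sum_congr rfl (fun l _ => this l), Finset.sum_add_distrib]
      simp
    have h2 : f (Y i.castSucc) = ∑ j, (f (d j (Y (Fin.last n))) -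
        ∑ l : Fin n, algebraMap (Kx k n) κ (vv k n l) * f (d j (Y l.castSucc))) *
          δ (f (t j)) := by
      have h3 : f (Y i.castSucc) = δ (f (Y (Fin.last n))) - ∑ l : Fin n,
        algebraMap (Kx k n) κ (vv k n l) * δ (f (Y l.castSucc)) := by
        rw [h1]; ring
      rw [h3, hE (Y (Fin.last n))]
      simp only [hE (Y (Fin.castSucc _)), Finset.mul_sum, sub_mul, Finset.sum_mul,
        Finset.sum_sub_distrib]
      rw [Finset.sum_comm]
      simp only [mul_assoc]
    rw [h2]
    refine Finset.sum_eq_zero fun j _ => ?_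
    by_cases hj : j ∈ T
    · rw [hT j hj, map_zero, mul_zero]
    · rw [hcon j hj, sub_self, zero_mul]
  have hl : f (Y (Fin.last n)) = 0 := by
    rw [hY]
    exact Finset.sum_eq_zero fun i _ => by rw [key i, mul_zero]
  have h1 : f 1 = 0 := by
    rw [← hr, map_sum, Fin.sum_univ_castSucc]
    simp [map_mul, key, hl]
  rw [map_one] at h1
  exact one_ne_zero h1

end

end Pool.Agent.DBX.GEN
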