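import Pool.Agent.DBX.GEN.Stmts

set_option autoImplicit false

/-! # MP_2c751f_ag, squad DBX, area GEN: module CHS -/

namespace Pool.Agent.DBX.GEN

open Pool.Agent.DBX MvPolynomial

universe u

namespace CHSm

/-- the generators `w / g^d` -/
def S0 {K : Type u} [Field K] {N : ℕ} (J : Ideal (Pol K N)) (g : Pol K N) : Set (Fr K N) :=
  {z | ∃ (d : ℕ) (w : Pol K N), w ∈ J ∧ w.IsHomogeneous d ∧ z = inc K N w / inc K N g ^ d}

theorem aeval_div {K : Type u} [Field K] {N : ℕ} (p : Pol K N) (d : ℕ) (hp : p.IsHomogeneous d)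
    (g : Fr K N) :
    aeval (fun i => inc K N (X i) / g) p = inc K N p / g ^ d := by
  have h1 : inc K N p = aeval (fun i => inc K N (X i)) p := by
    have h2 : (IsScalarTower.toAlgHom K (Pol K N) (Fr K N)) = aeval (fun i => inc K N (X i)) := by
      apply MvPolynomial.algHom_ext
      intro i
      simp
    rw [← h2]
    rfl
  rw [h1, aeval_def, aeval_def, eval₂_eq', eval₂_eq', Finset.sum_div]
  refine Finset.sum_congr rfl (fun α hα => ?_)
  have h3 : ∑ i, α i = d := by
    have h4 := hp (mem_support_iff.1 hα)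
    rw [Finsupp.weight_apply, Finsupp.sum_fintype] at h4
    · simpa using h4
    · intro i
      simp
  have h5 : ∏ i, (inc K N (X i) / g) ^ α i = (∏ i, inc K N (X i) ^ α i) / g ^ d := by
    rw [← h3, ← Finset.prod_pow_eq_pow_sum, ← Finset.prod_div_distrib]
    refine Finset.prod_congr rfl (fun i _ => ?_)
    rw [div_pow]
  rw [h5, mul_div_assoc]

theorem div_mem {K : Type u} [Field K] {N : ℕ} (p : Pol K N) (d : ℕ) (hp : p.IsHomogeneous d)
    (g : Fr K N) (A : Subalgebra K (Fr K N)) (hA : ∀ i, inc K N (X i) / g ∈ A) :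
    inc K N p / g ^ d ∈ A := by
  rw [← aeval_div p d hp g]
  have h1 : (aeval (fun i => inc K N (X i) / g) : Pol K N →ₐ[K] Fr K N) =
      A.val.comp (aeval (fun i => (⟨inc K N (X i) / g, hA i⟩ : A))) := by
    apply MvPolynomial.algHom_ext
    intro i
    simp
  rw [h1]
  exact Subtype.property _

theorem map_sub {K K' : Type u} [Field K] [Field K'] {N N' : ℕ} (ψ : Pol K N →+* Pol K' N')
    (hψ : ∀ i, ∃ p, ψ p = X i) (J : Ideal (Pol K N)) (w : Pol K' N') (hw : w ∈ J.map ψ) :
    w ∈ Submodule.span K' (ψ '' (J : Set (Pol K N))) := by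
  have hall : ∀ s : Pol K' N', s ∈ Submodule.span K' (Set.range ψ) := by
    intro s
    induction s using MvPolynomial.induction_on with
    | C c =>
      have h1 : (C c : Pol K' N') = c • ψ 1 := by
        rw [map_one, smul_eq_C_mul, mul_one]
      rw [h1]
      exact Submodule.smul_mem _ _ (Submodule.subset_span ⟨1, rfl⟩)
    | add p q hp hq => exact Submodule.add_mem _ hp hq
    | mul_X p i hp =>
      obtain ⟨x, hx⟩ := hψ i
      refine Submodule.span_induction (p := fun y _ => y * X i ∈ Submodule.span K' (Set.range ψ))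
        ?_ ?_ ?_ ?_ hp
      · rintro y ⟨z, rfl⟩
        refine Submodule.subset_span ⟨z * x, ?_⟩
        rw [map_mul, hx]
      · rw [zero_mul]
        exact Submodule.zero_mem _
      · intro y z _ _ h1 h2
        rw [add_mul]
        exact Submodule.add_mem _ h1 h2
      · intro a y _ h1
        rw [smul_mul_assoc]
        exact Submodule.smul_mem _ _ h1
  refine Submodule.span_induction
    (p := fun y _ => y ∈ Submodule.span K' (ψ '' (J : Set (Pol K N)))) ?_ ?_ ?_ ?_ hw
  · rintro y ⟨z, hz, rfl⟩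
    exact Submodule.subset_span ⟨z, hz, rfl⟩
  · exact Submodule.zero_mem _
  · intro y z _ _ h1 h2
    exact Submodule.add_mem _ h1 h2
  · intro a y _ h1
    rw [smul_eq_mul]
    refine Submodule.span_induction
      (p := fun a _ => a * y ∈ Submodule.span K' (ψ '' (J : Set (Pol K N)))) ?_ ?_ ?_ ?_ (hall a)
    · rintro b ⟨c, rfl⟩
      refine Submodule.span_induction
        (p := fun y _ => ψ c * y ∈ Submodule.span K' (ψ '' (J : Set (Pol K N)))) ?_ ?_ ?_ ?_ h1
      · rintro z ⟨x, hx, rfl⟩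
        refine Submodule.subset_span ⟨c * x, J.mul_mem_left _ hx, ?_⟩
        rw [map_mul]
      · rw [mul_zero]
        exact Submodule.zero_mem _
      · intro x z _ _ h2 h3
        rw [mul_add]
        exact Submodule.add_mem _ h2 h3
      · intro e x _ h2
        rw [mul_smul_comm]
        exact Submodule.smul_mem _ _ h2
    · rw [zero_mul]
      exact Submodule.zero_mem _
    · intro b c _ _ h2 h3
      rw [add_mul]
      exact Submodule.add_mem _ h2 h3
    · intro b c _ h2
      rw [smul_mul_assoc]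
      exact Submodule.smul_mem _ _ h2

theorem S0_eq {K K' : Type u} [Field K] [Field K'] {N N' : ℕ} (ψ : Pol K N →+* Pol K' N')
    (hψ : ∀ i, ∃ p, ψ p = X i) (j : Fr K N →+* Fr K' N')
    (hj : ∀ p, j (inc K N p) = inc K' N' (ψ p)) (J : Ideal (Pol K N)) (hJ : HomIdeal J)
    (hh : ∀ (p : Pol K N) (d : ℕ), p.IsHomogeneous d → (ψ p).IsHomogeneous d)
    (hc : ∀ (p : Pol K N) (d : ℕ), homogeneousComponent d (ψ p) = ψ (homogeneousComponent d p))
    (g : Pol K N) (A : Subalgebra K' (Fr K' N'))
    (hA : ∀ i, inc K' N' (X i) / inc K' N' (ψ g) ∈ A) :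
    genIn A (S0 (J.map ψ) (ψ g)) = genIn A (j '' S0 J g) := by
  have hsub : j '' S0 J g ⊆ S0 (J.map ψ) (ψ g) := by
    rintro z ⟨y, ⟨d, w, hw, hd, rfl⟩, rfl⟩
    refine ⟨d, ψ w, Ideal.mem_map_of_mem _ hw, hh w d hd, ?_⟩
    rw [map_div₀, map_pow, hj, hj]
  apply le_antisymm
  · unfold genIn
    rw [Ideal.span_le]
    rintro z ⟨d, w, hw, hd, hz⟩
    have h1 : w ∈ Submodule.span K' (ψ '' {p | p ∈ J ∧ p.IsHomogeneous d}) := by
      have h2 := map_sub ψ hψ J w hw
      have h3 : homogeneousComponent d w ∈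
          Submodule.map (homogeneousComponent d) (Submodule.span K' (ψ '' (J : Set (Pol K N)))) :=
        ⟨w, h2, rfl⟩
      rw [Submodule.map_span] at h3
      have h4 : homogeneousComponent d w = w := by
        have := homogeneousComponent_of_mem (m := d) hd
        rw [this, if_pos rfl]
      rw [h4] at h3
      refine Submodule.span_mono ?_ h3
      rintro y ⟨x, ⟨p, hp, rfl⟩, rfl⟩
      refine ⟨homogeneousComponent d p, ⟨hJ p hp d, homogeneousComponent_isHomogeneous d p⟩, ?_⟩
      rw [hc]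
    have key : ∀ y (_ : y ∈ Submodule.span K' (ψ '' {p | p ∈ J ∧ p.IsHomogeneous d})),
        ∃ h : inc K' N' y / inc K' N' (ψ g) ^ d ∈ A,
          (⟨inc K' N' y / inc K' N' (ψ g) ^ d, h⟩ : A) ∈
            Ideal.span {z : A | (z : Fr K' N') ∈ j '' S0 J g} := by
      intro y hy
      refine Submodule.span_induction (p := fun y _ =>
        ∃ h : inc K' N' y / inc K' N' (ψ g) ^ d ∈ A,
          (⟨inc K' N' y / inc K' N' (ψ g) ^ d, h⟩ : A) ∈
            Ideal.span {z : A | (z : Fr K' N') ∈ j '' S0 J g}) ?_ ?_ ?_ ?_ hy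
      · rintro y ⟨p, ⟨hp, hpd⟩, rfl⟩
        refine ⟨div_mem _ d (hh p d hpd) _ A hA, Ideal.subset_span ?_⟩
        refine ⟨inc K N p / inc K N g ^ d, ⟨d, p, hp, hpd, rfl⟩, ?_⟩
        rw [map_div₀, map_pow, hj, hj]
      · refine ⟨?_, ?_⟩
        · rw [map_zero, zero_div]
          exact A.zero_mem
        · convert! Ideal.zero_mem _ using 1
          apply Subtype.ext
          simp
      · rintro x y _ _ ⟨h1, h2⟩ ⟨h3, h4⟩
        have e : inc K' N' (x + y) / inc K' N' (ψ g) ^ d =
            inc K' N' x / inc K' N' (ψ g) ^ d + inc K' N' y / inc K' N' (ψ g) ^ d := by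
          rw [map_add, add_div]
        refine ⟨e ▸ A.add_mem h1 h3, ?_⟩
        convert! Ideal.add_mem _ h2 h4 using 1
        exact Subtype.ext e
      · rintro c x _ ⟨h1, h2⟩
        have e : inc K' N' (c • x) / inc K' N' (ψ g) ^ d =
            algebraMap K' (Fr K' N') c * (inc K' N' x / inc K' N' (ψ g) ^ d) := by
          rw [smul_eq_C_mul, map_mul, mul_div_assoc]
          rfl
        refine ⟨e ▸ A.mul_mem (A.algebraMap_mem c) h1, ?_⟩
        convert! Ideal.mul_mem_left _ (algebraMap K' A c) h2 using 1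
        exact Subtype.ext e
    obtain ⟨h, h'⟩ := key w h1
    have e : z = ⟨inc K' N' w / inc K' N' (ψ g) ^ d, h⟩ := Subtype.ext hz
    rw [e]
    exact h'
  · unfold genIn
    refine Ideal.span_mono ?_
    intro z hz
    exact hsub hz

end CHSm

open CHSm in
theorem CHS (hEXA : Stmt_EXA.{u}) (hHOM : Stmt_HOM.{u}) : Stmt_CHS.{u} := by
  intro k _ n D hD a b
  obtain ⟨hh, hcb, hcs, -, -⟩ := hHOM k n
  have hgen : ∀ i, inc k (n + 1) (X i) / inc k (n + 1) (D.g a) ∈ D.ch a b := fun i =>
    Algebra.subset_adjoin (Or.inl ⟨i, rfl⟩)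
  have hemb : ∀ p, emb k n (inc k (n + 1) p) = inc _ _ (bcP k n p) := by
    intro p
    unfold emb
    exact IsLocalization.map_eq _ p
  refine ⟨?_, ?_, ?_, ?_, ?_⟩
  · rintro z ⟨d, w, -, hd, rfl⟩
    exact div_mem w d hd _ _ hgen
  · exact div_mem _ _ (hD.f_hom b) _ _ hgen
  · have h1 := (hEXA k n _ (Fr (Kx k n) (n + 1)) (emb k n) (by
      intro c
      have : algebraMap k (Fr k (n + 1)) c = inc k (n + 1) (C c) := rfl
      rw [this, hemb]
      unfold bcP
      rw [map_C]
      rfl) (D.ch a b)).2.2.1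
    unfold Dat.ch
    rw [h1]
    congr 1
    rw [Set.image_union]
    congr 1
    · ext z
      constructor
      · rintro ⟨i, rfl⟩
        refine ⟨_, ⟨i, rfl⟩, ?_⟩
        rw [map_div₀, hemb, hemb]
        unfold bcP
        rw [map_X]
        rfl
      · rintro ⟨y, ⟨i, rfl⟩, rfl⟩
        refine ⟨i, ?_⟩
        rw [map_div₀, hemb, hemb]
        unfold bcP
        rw [map_X]
        rfl
    · ext z
      constructor
      · rintro ⟨i, rfl⟩
        refine ⟨_, ⟨i, rfl⟩, ?_⟩
        rw [map_div₀, hemb, hemb]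
        rfl
      · rintro ⟨y, ⟨i, rfl⟩, rfl⟩
        refine ⟨i, ?_⟩
        rw [map_div₀, hemb, hemb]
        rfl
  · intro A hA
    refine S0_eq (bcP k n) (fun i => ⟨X i, ?_⟩) (emb k n) hemb D.I hD.I_hom
      (fun p d hp => (hh p d hp).1) hcb (D.g a) A ?_
    · unfold bcP
      rw [map_X]
    · intro i
      exact hA (Algebra.subset_adjoin (Or.inl ⟨i, rfl⟩))
  · intro iot hiot
    have hX : ∀ i : Fin n, phi k n (X i.castSucc) = X i := by
      intro i
      unfold phi bcP secP
      simp
    have hsch : ∀ i, inc (Kx k n) n (X i) / inc (Kx k n) n (phi k n (D.g a)) ∈ D.sec.ch a b :=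
      fun i => Algebra.subset_adjoin (Or.inl ⟨i, rfl⟩)
    refine ⟨?_, ?_⟩
    · have h1 := (hEXA k n _ (Fr (Kx k n) n) iot (by
        intro c
        have : algebraMap k (Fr k (n + 1)) c = inc k (n + 1) (C c) := rfl
        rw [this, hiot]
        unfold phi bcP secP
        simp
        rfl) (D.ch a b)).2.2.1
      apply le_antisymm
      · unfold Dat.ch
        rw [h1]
        apply Algebra.adjoin_le
        rintro z (⟨i, rfl⟩ | ⟨i, rfl⟩)
        · refine Algebra.subset_adjoin ⟨_, Or.inl ⟨i.castSucc, rfl⟩, ?_⟩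
          rw [map_div₀, hiot, hiot, hX]
          rfl
        · refine Algebra.subset_adjoin ⟨_, Or.inr ⟨i, rfl⟩, ?_⟩
          rw [map_div₀, hiot, hiot]
          rfl
      · have h2 : exA n iot (D.ch a b) = Algebra.adjoin (Kx k n) (iot ''
            ({z | ∃ i, z = inc k (n + 1) (X i) / inc k (n + 1) (D.g a)} ∪
              {z | ∃ j, z = inc k (n + 1) (D.f j) / inc k (n + 1) (D.f b)})) := by
          unfold Dat.ch
          rw [h1]
        rw [h2]
        apply Algebra.adjoin_le
        rintro z ⟨y, (⟨i, rfl⟩ | ⟨i, rfl⟩), rfl⟩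
        · rw [map_div₀, hiot, hiot]
          have h3 := div_mem (phi k n (X i)) 1 (hh _ 1 (isHomogeneous_X _ i)).2
            (inc (Kx k n) n (phi k n (D.g a))) (D.sec.ch a b) hsch
          rw [pow_one] at h3
          exact h3
        · rw [map_div₀, hiot, hiot]
          exact Algebra.subset_adjoin (Or.inr ⟨i, rfl⟩)
    · intro A hA
      have e : D.sec.I = D.I.map (phi k n) := by
        unfold phi
        rw [← Ideal.map_map]
        rfl
      have := S0_eq (phi k n) (fun i => ⟨X i.castSucc, hX i⟩) iot hiot D.I hD.I_hom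
        (fun p d hp => (hh p d hp).2) hcs (D.g a) A (fun i => hA (hsch i))
      rw [← e] at this
      exact this

end Pool.Agent.DBX.GEN
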