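import Pool.Agent.DBX.GEN.Stmts

set_option autoImplicit false

/-! # DBX/GEN/CIN: coefficients of sums and products -/

namespace Pool.Agent.DBX.GEN

open Pool.Agent.DBX MvPolynomial

universe u

theorem CIN : Stmt_CIN.{u} := by
  classical
  intro k _ n F _ _ U
  refine ⟨?_, ?_, ?_⟩
  · intro P Q hP hQ α
    rw [coeff_add]
    exact U.add_mem (hP α) (hQ α)
  · intro c P hP α
    rw [coeff_mul]
    refine Submodule.sum_mem _ fun x _ => ?_
    rw [coeff_map, ← Algebra.smul_def]
    exact U.smul_mem _ (hP _)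
  · intro A hA Q P hQ hP α
    rw [coeff_mul]
    refine Submodule.sum_mem _ fun x _ => ?_
    exact hA _ (hQ _) _ (hP _)

end Pool.Agent.DBX.GEN
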