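import Pool.Agent.DBX.GEN.Stmts

set_option autoImplicit false

/-! # MP_2c751f_ag, squad DBX, area GEN: the covering property -/

namespace Pool.Agent.DBX.GEN

open Pool.Agent.DBX MvPolynomial

noncomputable section

universe u

namespace COV_

theorem lin {k : Type u} [Field k] {n : ℕ} {g : Pol k n} (h : g.IsHomogeneous 1) :
    ∃ c : Fin n → k, ∑ i, algebraMap k (Fr k n) (c i) * inc k n (X i) = inc k n g := by
  have h1 : g ∈ Submodule.span k (Set.range (X : Fin n → Pol k n)) := by
    rw [← homogeneousSubmodule_one_eq_span_X]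
    exact h
  obtain ⟨c, hc⟩ := (Submodule.mem_span_range_iff_exists_fun k).mp h1
  refine ⟨c, ?_⟩
  rw [← hc, map_sum]
  apply Finset.sum_congr rfl
  intro i _
  rw [smul_eq_C_mul, map_mul]
  rfl

end COV_

theorem COV : Stmt_COV.{u} := by
  intro k _ n D hD
  constructor
  · intro σ τ hσ
    obtain ⟨a, ha⟩ := hσ
    obtain ⟨c, hc⟩ := COV_.lin (hD.g_hom a)
    have hg := inc_ne (hD.g_ne a)
    refine ⟨one_ne_zero, ?_, ?_⟩
    · intro i
      rw [one_mul]
      exact Algebra.subset_adjoin (Or.inl (Or.inl ⟨X i, rfl⟩))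
    · refine ⟨fun i => algebraMap k _ (c i) * (inc k (n + 1) (D.g a))⁻¹, ?_, ?_⟩
      · intro i
        exact Subalgebra.mul_mem _ (Subalgebra.algebraMap_mem _ _)
          (Algebra.subset_adjoin (Or.inl (Or.inr ⟨a, ha, rfl⟩)))
      · have h1 : ∀ i : Fin (n + 1), algebraMap k (Fr k (n + 1)) (c i) *
            (inc k (n + 1) (D.g a))⁻¹ * (1 * xx k n i) =
            (algebraMap k (Fr k (n + 1)) (c i) * inc k (n + 1) (X i)) *
              (inc k (n + 1) (D.g a))⁻¹ := by
          intro i
          unfold xx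
          ring
        rw [Finset.sum_congr rfl (fun i _ => h1 i), ← Finset.sum_mul, hc]
        exact mul_inv_cancel₀ hg
  · intro a b A hA
    obtain ⟨c, hc⟩ := COV_.lin (hD.g_hom a)
    have hg := inc_ne (hD.g_ne a)
    refine ⟨inv_ne_zero hg, ?_, ?_⟩
    · intro i
      apply hA
      apply Algebra.subset_adjoin
      left
      refine ⟨i, ?_⟩
      rw [div_eq_inv_mul]
      rfl
    · refine ⟨fun i => algebraMap k _ (c i), fun i => Subalgebra.algebraMap_mem _ _, ?_⟩
      have h1 : ∀ i : Fin (n + 1), algebraMap k (Fr k (n + 1)) (c i) *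
          ((inc k (n + 1) (D.g a))⁻¹ * xx k n i) =
          (algebraMap k (Fr k (n + 1)) (c i) * inc k (n + 1) (X i)) *
            (inc k (n + 1) (D.g a))⁻¹ := by
        intro i
        unfold xx
        ring
      rw [Finset.sum_congr rfl (fun i _ => h1 i), ← Finset.sum_mul, hc]
      exact mul_inv_cancel₀ hg

end

end Pool.Agent.DBX.GEN
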