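import Pool.Agent.DBX.GEN.Stmts
import Pool.Agent.DBX.Cd

set_option autoImplicit false

/-! # MP_2c751f_ag, squad DBX, area GEN: module DBS -/

namespace Pool.Agent.DBX.GEN

open Pool.Agent.DBX MvPolynomial

noncomputable section

universe u

namespace DBS_

theorem hom_one {k : Type u} [Field k] {m : ℕ} (p : Pol k m) (hp : p.IsHomogeneous 1) :
    p = ∑ i : Fin m, C (p.coeff (Finsupp.single i 1)) * X i := by
  classical
  ext d
  rw [coeff_sum]
  simp only [coeff_C_mul, coeff_X', mul_ite, mul_one, mul_zero]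
  by_cases hd : d.degree = 1
  · obtain ⟨i, hi⟩ : ∃ i, d = Finsupp.single i 1 := by
      have h1 : ∃ i, d i ≠ 0 := by
        by_contra hcon
        push Not at hcon
        have : d = 0 := by ext i; simpa using hcon i
        rw [this] at hd
        simp at hd
      obtain ⟨i, hi⟩ := h1
      refine ⟨i, ?_⟩
      have h2 : Finsupp.single i 1 ≤ d := by
        rw [Finsupp.single_le_iff]
        exact Nat.one_le_iff_ne_zero.mpr hi
      obtain ⟨d', hd'⟩ := exists_add_of_le h2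
      have h3 : d'.degree = 0 := by
        have h4 := congrArg Finsupp.degree hd'
        rw [map_add, hd, Finsupp.degree_single] at h4
        omega
      rw [Finsupp.degree_eq_zero_iff] at h3
      rw [hd', h3, add_zero]
    subst hi
    rw [Finset.sum_eq_single i]
    · rw [if_pos rfl]
    · intro j _ hj
      rw [if_neg]
      intro h
      exact hj (Finsupp.single_left_injective one_ne_zero h)
    · intro h; exact absurd (Finset.mem_univ i) h
  · rw [hp.coeff_eq_zero hd]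
    symm
    apply Finset.sum_eq_zero
    intro i _
    rw [if_neg]
    intro h
    apply hd
    rw [← h, Finsupp.degree_single]

/-- membership in `toF` -/
theorem mem_toF {K F : Type*} [Field K] [Field F] [Algebra K F] (A : Subalgebra K F)
    (J : Ideal A) (z : F) : z ∈ toF A J ↔ ∃ y : A, y ∈ J ∧ (y : F) = z := by
  unfold toF
  rw [Submodule.mem_map]
  constructor
  · rintro ⟨y, hy, rfl⟩; exact ⟨y, hy, rfl⟩
  · rintro ⟨y, hy, rfl⟩; exact ⟨y, hy, rfl⟩

theorem smod_toF {K F : Type u} [Field K] [Field F] [Algebra K F] (A : Subalgebra K F)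
    (J : Ideal A) : SMod A (toF A J) := by
  intro a ha y hy
  rw [mem_toF] at hy ⊢
  obtain ⟨z, hz, rfl⟩ := hy
  exact ⟨⟨a, ha⟩ * z, J.mul_mem_left _ hz, rfl⟩

theorem smod_E {k : Type u} [Field k] {m : ℕ} (D : Dat k m) (σ : Finset (Fin D.p))
    (τ : Finset (Fin D.M)) : SMod (D.R σ τ) (D.E σ τ) := by
  unfold Dat.E
  split_ifs
  · exact smod_toF _ _
  · exact smod_toF _ _

theorem inc_mem {k : Type u} [Field k] {m : ℕ} (D : Dat k m) (σ : Finset (Fin D.p))
    (τ : Finset (Fin D.M)) (p : Pol k m) : inc k m p ∈ D.R σ τ :=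
  Algebra.subset_adjoin (Or.inl (Or.inl ⟨p, rfl⟩))

theorem ginv_mem {k : Type u} [Field k] {m : ℕ} (D : Dat k m) (a : Fin D.p)
    (τ : Finset (Fin D.M)) : (inc k m (D.g a))⁻¹ ∈ D.R {a} τ :=
  Algebra.subset_adjoin (Or.inl (Or.inr ⟨a, Finset.mem_singleton_self a, rfl⟩))

theorem cov {k : Type u} [Field k] {n : ℕ} (D : Dat k (n + 1)) (hD : D.Good) (a : Fin D.p)
    (τ : Finset (Fin D.M)) : Cov (D.R {a} τ) 1 where
  ne := one_ne_zero
  mem := fun i => by
    rw [one_mul]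
    exact inc_mem D _ _ _
  span := by
    refine ⟨fun i => inc k (n + 1) (C ((D.g a).coeff (Finsupp.single i 1))) *
      (inc k (n + 1) (D.g a))⁻¹, fun i => mul_mem (inc_mem D _ _ _) (ginv_mem D a τ), ?_⟩
    have h0 := congrArg (inc k (n + 1)) (hom_one (D.g a) (hD.g_hom a))
    have h1 : ∑ i, inc k (n + 1) (C ((D.g a).coeff (Finsupp.single i 1))) *
        (inc k (n + 1) (D.g a))⁻¹ * (1 * xx k n i) =
        (inc k (n + 1) (D.g a))⁻¹ * inc k (n + 1) (D.g a) := by
      refine Eq.trans ?_ (congrArg (fun z => (inc k (n + 1) (D.g a))⁻¹ * z) h0.symm)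
      rw [map_sum, Finset.mul_sum]
      refine Finset.sum_congr rfl (fun i _ => ?_)
      rw [map_mul, one_mul]
      unfold xx
      ring
    rw [h1]
    exact inv_mul_cancel₀ (inc_ne (hD.g_ne a))

theorem phi_X {k : Type u} [Field k] {n : ℕ} (q' : Ideal (Pol (Kx k n) n))
    (h : ∀ b : Fin n, (X b : Pol (Kx k n) n) ∈ q') (i : Fin (n + 1)) :
    phi k n (X i) ∈ q' := by
  have h1 : phi k n (X i) = (Fin.snoc (α := fun _ => Pol (Kx k n) n) X
      (∑ i, C (vv k n i) * X i)) i := by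
    show secP k n (bcP k n (X i)) = _
    unfold bcP secP
    rw [MvPolynomial.map_X, aeval_X]
  rw [h1]
  refine Fin.lastCases ?_ (fun j => ?_) i
  · rw [Fin.snoc_last]
    exact Ideal.sum_mem _ (fun j _ => Ideal.mul_mem_left _ _ (h j))
  · rw [Fin.snoc_castSucc]
    exact h j

theorem phi_lin {k : Type u} [Field k] {n : ℕ} (q' : Ideal (Pol (Kx k n) n))
    (h : ∀ b : Fin n, (X b : Pol (Kx k n) n) ∈ q') (p : Pol k (n + 1)) (hp : p.IsHomogeneous 1) :
    phi k n p ∈ q' := by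
  rw [hom_one p hp, map_sum]
  refine Ideal.sum_mem _ (fun i _ => ?_)
  rw [map_mul]
  exact Ideal.mul_mem_left _ _ (phi_X q' h i)


theorem core (hREP : Stmt_REP.{u}) (hRHC : Stmt_RHC.{u}) (hEVI : Stmt_EVI.{u}) (k : Type u) [Field k] (n : ℕ)
    (D : Dat k (n + 1)) (hD : D.Good) (a : Fin D.p) (q' : Ideal (Pol (Kx k n) n)) (hq' : q'.IsPrime)
    (iot : Fr k (n + 1) →+* Fr (Kx k n) n) (hiot : IsIot iot) (b : Fin n)
    (hb : (X b : Pol (Kx k n) n) ∉ q') (hEx : D.ExactAt a (q'.comap (phi k n)))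
    (x : Finset (Fin D.M) → Fr (Kx k n) n) (hx : ∀ τ, x τ ∈ exM n iot (D.E {a} τ))
    (hcx : ∀ τ, cd x τ = 0) :
    ∃ s : Pol (Kx k n) n, s ∉ q' ∧ ∃ y : Finset (Fin D.M) → Fr (Kx k n) n,
      (∀ τ, y τ ∈ exM n iot (D.E {a} τ)) ∧ ∀ τ, cd y τ = inc (Kx k n) n s * x τ := by
  classical
  have hqp : (q'.comap (phi k n)).IsPrime := Ideal.IsPrime.comap _
  obtain ⟨hcmp, hev1, hev2⟩ := hEVI k n iot hiot
  obtain ⟨hr1, hr2, hr3, hr4⟩ := hREP k n (Fr k (n + 1)) (Fr (Kx k n) n) iot hcmp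
  obtain ⟨c, P, hc, hP⟩ := hr1 (Finset (Fin D.M)) (fun τ => D.E {a} τ) x hx
  have hcc : (cc c : Fr (Kx k n) n) ≠ 0 := hr4 c hc
  have hcdP : ∀ τ, cd (fun τ => rho k n b (P τ)) τ = 0 := by
    intro τ
    have h1 : evj k n iot (cd P τ) = 0 := by
      have h2 := congrFun (cd_map (evj k n iot).toAddMonoidHom P) τ
      have h3 : cd (fun τ => cc c * x τ) τ = cc c * cd x τ :=
        congrFun (cd_map (AddMonoidHom.mulLeft (cc c)) x) τ
      have h4 : (fun τ => (evj k n iot).toAddMonoidHom (P τ)) = fun τ => cc c * x τ := by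
        funext τ
        exact (hP τ).2.symm
      rw [h4, h3, hcx τ, mul_zero] at h2
      exact h2.symm
    have h5 := hev2 b _ h1
    have h6 := congrFun (cd_map (rho k n b).toRingHom.toAddMonoidHom P) τ
    exact h6.trans h5
  -- common M
  have hM1 : ∀ τ : Finset (Fin D.M), ∃ M : ℕ,
      CoeffIn (D.E {a} τ) (C ((1 * xx k n b.castSucc) ^ M) * rho k n b (P τ)) := fun τ =>
    hRHC k n (D.R {a} τ) 1 (D.E {a} τ) (cov D hD a τ) (smod_E D _ _) b (P τ) (hP τ).1
  choose Mf hMf using hM1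
  obtain ⟨M, hM⟩ : ∃ M : ℕ, ∀ τ, Mf τ ≤ M :=
    ⟨Finset.univ.sup Mf, fun τ => Finset.le_sup (Finset.mem_univ τ)⟩
  set Q : Finset (Fin D.M) → MvPolynomial (Fin n) (Fr k (n + 1)) := fun τ =>
    C (xx k n b.castSucc ^ M) * rho k n b (P τ) with hQdef
  have hQ : ∀ τ, CoeffIn (D.E {a} τ) (Q τ) := by
    intro τ α
    have h1 := hMf τ α
    rw [coeff_C_mul, one_mul] at h1
    have h2 : (Q τ).coeff α = xx k n b.castSucc ^ (M - Mf τ) *
        (xx k n b.castSucc ^ Mf τ * (rho k n b (P τ)).coeff α) := by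
      simp only [hQdef]
      rw [coeff_C_mul, ← mul_assoc, ← pow_add, Nat.sub_add_cancel (hM τ)]
    rw [h2]
    refine smod_E D _ _ _ (pow_mem ?_ _) _ h1
    exact inc_mem D _ _ _
  have hcdQ : ∀ τ, cd Q τ = 0 := by
    intro τ
    have h1 := congrFun (cd_map (AddMonoidHom.mulLeft (C (xx k n b.castSucc ^ M) :
      MvPolynomial (Fin n) (Fr k (n + 1)))) (fun τ => rho k n b (P τ))) τ
    have h2 : cd Q τ = C (xx k n b.castSucc ^ M) * cd (fun τ => rho k n b (P τ)) τ := h1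
    rw [h2, hcdP, mul_zero]
  -- exactness, coefficient by coefficient
  have hα : ∀ α : Fin n →₀ ℕ, ∃ s : Pol k (n + 1), s ∉ q'.comap (phi k n) ∧
      ∃ y : Finset (Fin D.M) → Fr k (n + 1), (∀ τ, y τ ∈ D.E {a} τ) ∧
        ∀ τ, cd y τ = inc k (n + 1) s * (Q τ).coeff α := by
    intro α
    refine hEx (fun τ => (Q τ).coeff α) (fun τ => hQ τ α) (fun τ => ?_)
    have h1 := congrFun (cd_map (coeffAddMonoidHom α) Q) τ
    have h2 : cd (fun τ => (Q τ).coeff α) τ = (cd Q τ).coeff α := h1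
    rw [h2, hcdQ, coeff_zero]
  choose s hs y hy hcy using hα
  set S : Finset (Fin n →₀ ℕ) := Finset.univ.biUnion (fun τ => (Q τ).support) with hS
  set s0 : Pol k (n + 1) := ∏ α ∈ S, s α with hs0
  have hs0q : s0 ∉ q'.comap (phi k n) := by
    intro h
    rw [hs0, hqp.prod_mem_iff] at h
    obtain ⟨α, _, hα⟩ := h
    exact hs α hα
  set Y : Finset (Fin D.M) → MvPolynomial (Fin n) (Fr k (n + 1)) := fun τ =>
    ∑ α ∈ S, monomial α (inc k (n + 1) (∏ β ∈ S.erase α, s β) * y α τ) with hY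
  have hYc : ∀ τ, CoeffIn (D.E {a} τ) (Y τ) := by
    intro τ β
    simp only [hY]
    rw [coeff_sum]
    refine Submodule.sum_mem _ (fun α _ => ?_)
    rw [coeff_monomial]
    split_ifs
    · exact smod_E D _ _ _ (inc_mem D _ _ _) _ (hy α τ)
    · exact Submodule.zero_mem _
  have hcdY : ∀ τ, cd Y τ = C (inc k (n + 1) s0) * Q τ := by
    intro τ
    have h1 : Y = ∑ α ∈ S, fun τ => monomial α (inc k (n + 1) (∏ β ∈ S.erase α, s β) * y α τ) := by
      funext τ
      rw [Finset.sum_apply]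
    rw [h1, cd_sum, Finset.sum_apply]
    have h2 : ∀ α ∈ S, cd (fun τ => (monomial α (inc k (n + 1) (∏ β ∈ S.erase α, s β) * y α τ) :
        MvPolynomial (Fin n) (Fr k (n + 1)))) τ = C (inc k (n + 1) s0) *
        monomial α ((Q τ).coeff α) := by
      intro α hαS
      have h3 := congrFun (cd_map (((monomial (R := Fr k (n + 1)) α).toAddMonoidHom).comp
        (AddMonoidHom.mulLeft (inc k (n + 1) (∏ β ∈ S.erase α, s β)))) (y α)) τ
      have h4 : cd (fun τ => (monomial α (inc k (n + 1) (∏ β ∈ S.erase α, s β) * y α τ) :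
        MvPolynomial (Fin n) (Fr k (n + 1)))) τ =
        monomial α (inc k (n + 1) (∏ β ∈ S.erase α, s β) * cd (y α) τ) := h3
      rw [h4, hcy, C_mul_monomial, ← mul_assoc, ← map_mul, mul_comm (∏ β ∈ S.erase α, s β) (s α),
        Finset.mul_prod_erase S s hαS]
    rw [Finset.sum_congr rfl h2, ← Finset.mul_sum]
    congr 1
    have h5 : (Q τ).support ⊆ S := by
      rw [hS]
      intro α hα
      exact Finset.mem_biUnion.mpr ⟨τ, Finset.mem_univ τ, hα⟩
    rw [← Finset.sum_subset h5, ← (Q τ).as_sum]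
    intro α _ hα
    rw [notMem_support_iff.mp hα, monomial_zero]
  -- the primitive
  refine ⟨phi k n s0 * X b ^ M, ?_, fun τ => (cc c)⁻¹ * evj k n iot (Y τ), ?_, ?_⟩
  · intro h
    rcases hq'.mem_or_mem h with h | h
    · exact hs0q h
    · exact hb (hq'.mem_of_pow_mem _ h)
  · intro τ
    have h1 := hr2 (D.E {a} τ) c (Y τ) ((cc c)⁻¹ * evj k n iot (Y τ)) hc (hYc τ)
      (mul_inv_cancel_left₀ hcc _)
    exact h1
  · intro τ
    have h1 := congrFun (cd_map ((AddMonoidHom.mulLeft (cc c : Fr (Kx k n) n)⁻¹).comp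
      (evj k n iot).toAddMonoidHom) Y) τ
    have h2 : cd (fun τ => (cc c)⁻¹ * evj k n iot (Y τ)) τ =
      (cc c)⁻¹ * evj k n iot (cd Y τ) := h1
    have h3 : evj k n iot (C (inc k (n + 1) s0)) = inc (Kx k n) n (phi k n s0) := by
      unfold evj
      rw [coe_eval₂Hom, eval₂_C, hiot]
    have h4 : evj k n iot (C (xx k n b.castSucc ^ M)) = inc (Kx k n) n (X b ^ M) := by
      unfold evj
      rw [coe_eval₂Hom, eval₂_C, map_pow]
      unfold xx
      rw [hiot, map_pow]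
      congr 2
      show secP k n (bcP k n (X b.castSucc)) = _
      unfold bcP secP
      rw [MvPolynomial.map_X, aeval_X, Fin.snoc_castSucc]
    have h5 : evj k n iot (Q τ) = inc (Kx k n) n (X b ^ M) * (cc c * x τ) := by
      simp only [hQdef]
      rw [map_mul, hev1, h4, (hP τ).2]
    have h6 : cd (fun τ => (cc c)⁻¹ * evj k n iot (Y τ)) τ =
        inc (Kx k n) n (phi k n s0 * X b ^ M) * x τ := by
      rw [h2, hcdY, map_mul, h3, h5, map_mul]
      field_simp
    exact h6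

end DBS_

open DBS_ in
theorem DBS (hPHI : Stmt_PHI.{u}) (hEVI : Stmt_EVI.{u}) (hREP : Stmt_REP.{u})
    (hCIN : Stmt_CIN.{u}) (hRHC : Stmt_RHC.{u}) (hEBS : Stmt_EBS.{u}) (hHOM : Stmt_HOM.{u})
    (hHTL : Stmt_HTL.{u}) : Stmt_DBS.{u} := by
  intro k _ n D hn hD e hDB q' hq' hqH hqe a hga
  haveI := hq'
  -- the choice of b
  obtain ⟨b, hb⟩ : ∃ b : Fin n, (X b : Pol (Kx k n) n) ∉ q' := by
    by_contra hcon
    push Not at hcon
    exact hga (phi_lin q' hcon (D.g a) (hD.g_hom a))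
  -- the prime q
  obtain ⟨hphi, iot, hiot⟩ := hPHI k n hn
  obtain ⟨-, -, hHc, -, -⟩ := hHOM k n
  have hqp : (q'.comap (phi k n)).IsPrime := Ideal.IsPrime.comap _
  have hqh : HomIdeal (q'.comap (phi k n)) := by
    intro w hw d
    rw [Ideal.mem_comap] at hw ⊢
    rw [← hHc]
    exact hqH _ hw d
  have hqe' : (q'.comap (phi k n)).height ≤ e := (hHTL k n q' b hb).trans hqe
  have hgq : D.g a ∉ q'.comap (phi k n) := by
    intro h
    exact hga h
  have hEx := hDB _ hqp hqh hqe' a hgq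
  -- the cocycle
  intro x hx hcx
  have hE : ∀ τ : Finset (Fin D.M), D.sec.E {a} τ = exM n iot (D.E {a} τ) := fun τ =>
    (hEBS k n D hD {a} τ).2 (Or.inl (Finset.singleton_nonempty a)) iot hiot
  obtain ⟨s, hs, y, hy, hcy⟩ := core hREP hRHC hEVI k n D hD a q' hq' iot hiot b hb hEx x
    (fun τ => (SetLike.ext_iff.mp (hE τ) (x τ)).mp (hx τ)) hcx
  exact ⟨s, hs, y, fun τ => (SetLike.ext_iff.mp (hE τ) (y τ)).mpr (hy τ), hcy⟩

end

end Pool.Agent.DBX.GEN
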