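import Pool.Agent.DBX.GEN.Stmts

/-!
# DBX, area GEN, module DER: extension of `∂/∂v_i` to fields which are finitely generated over `k'`
-/

set_option autoImplicit false

namespace Pool.Agent.DBX.GEN

open Pool.Agent.DBX MvPolynomial

universe u

namespace DER_

open KaehlerDifferential TensorProduct

/-- extension of a derivation along a formally étale map -/
theorem ext_der {k : Type u} {P : Type u} {A : Type u} [CommRing k] [CommRing P] [CommRing A]
    [Algebra k P] [Algebra k A] [Algebra P A] [IsScalarTower k P A] [Algebra.FormallyEtale P A]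
    (δ : Derivation k P A) : ∃ δ' : Derivation k A A, ∀ f, δ' (algebraMap P A f) = δ f := by
  let l : Ω[P⁄k] →ₗ[P] A := δ.liftKaehlerDifferential
  let l' : A ⊗[P] Ω[P⁄k] →ₗ[A] A := LinearMap.liftBaseChange A l
  let e := tensorKaehlerEquivOfFormallyEtale k P A
  refine ⟨(l'.comp e.symm.toLinearMap).compDer (D k A), fun f => ?_⟩
  have h1 : e.symm (D k A (algebraMap P A f)) = 1 ⊗ₜ D k P f :=
    tensorKaehlerEquivOfFormallyEtale_symm_D_algebraMap k P A f
  have : (l'.comp e.symm.toLinearMap).compDer (D k A) (algebraMap P A f) =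
      l' (e.symm (D k A (algebraMap P A f))) := rfl
  rw [this, h1]
  change LinearMap.liftBaseChange A l _ = _
  rw [LinearMap.liftBaseChange_tmul, one_smul]
  exact Derivation.liftKaehlerDifferential_comp_D δ f

/-- extension of a derivation of a perfect field to a finitely generated extension field -/
theorem ext_field {K L : Type u} [Field K] [Field L] [Algebra K L] [Algebra.FormallySmooth K L]
    (δ : K →+ K) (hδ : ∀ a b, δ (a * b) = a * δ b + b * δ a) : ∃ δ' : L →+ L,
    (∀ a b, δ' (a * b) = a * δ' b + b * δ' a) ∧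
    ∀ c, δ' (algebraMap K L c) = algebraMap K L (δ c) := by
  let j : K →+* TrivSqZeroExt L L :=
    { toFun := fun c => TrivSqZeroExt.inl (algebraMap K L c) +
        TrivSqZeroExt.inr (algebraMap K L (δ c))
      map_one' := by
        have h1 : δ 1 = 0 := by
          have := hδ 1 1
          rw [mul_one, one_mul] at this
          exact left_eq_add.mp this
        rw [map_one, h1, map_zero, TrivSqZeroExt.inr_zero, add_zero, TrivSqZeroExt.inl_one]
      map_zero' := by simp
      map_add' := by
        intro a b
        simp only [map_add, TrivSqZeroExt.inl_add, TrivSqZeroExt.inr_add]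
        abel
      map_mul' := by
        intro a b
        apply TrivSqZeroExt.ext
        · simp
        · simp only [map_mul, hδ, map_add, TrivSqZeroExt.snd_add, TrivSqZeroExt.snd_inl,
            TrivSqZeroExt.snd_inr, zero_add, TrivSqZeroExt.snd_mul, TrivSqZeroExt.fst_add,
            TrivSqZeroExt.fst_inl, TrivSqZeroExt.fst_inr, add_zero, smul_eq_mul,
            MulOpposite.smul_eq_mul_unop, MulOpposite.unop_op]
          ring }
  letI alg : Algebra K (TrivSqZeroExt L L) := j.toAlgebra
  let g : TrivSqZeroExt L L →ₐ[K] L :=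
    { toFun := fun x => x.fst
      map_one' := rfl
      map_mul' := fun _ _ => rfl
      map_zero' := rfl
      map_add' := fun _ _ => rfl
      commutes' := by
        intro c
        change (j c).fst = _
        simp [j] }
  have hg : Function.Surjective g := fun x => ⟨TrivSqZeroExt.inl x, rfl⟩
  have hg' : IsNilpotent (RingHom.ker (g : TrivSqZeroExt L L →+* L)) := by
    refine ⟨2, ?_⟩
    rw [sq (M := Ideal (TrivSqZeroExt L L)), Ideal.zero_eq_bot, eq_bot_iff, Ideal.mul_le]
    intro x hx y hy
    rw [RingHom.mem_ker] at hx hy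
    have hx' : x.fst = 0 := hx
    have hy' : y.fst = 0 := hy
    rw [Ideal.mem_bot]
    apply TrivSqZeroExt.ext
    · simp [hx']
    · simp [hx', hy']
  let s : L →ₐ[K] TrivSqZeroExt L L :=
    Algebra.FormallySmooth.liftOfSurjective (AlgHom.id K L) g hg hg'
  have hs : ∀ x, (s x).fst = x := by
    intro x
    exact Algebra.FormallySmooth.liftOfSurjective_apply (AlgHom.id K L) g hg hg' x
  refine ⟨⟨⟨fun x => (s x).snd, ?_⟩, ?_⟩, ?_, ?_⟩
  · change (s 0).snd = 0
    rw [map_zero]; rfl
  · intro x y
    change (s (x + y)).snd = _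
    rw [map_add]; rfl
  · intro a b
    change (s (a * b)).snd = a * (s b).snd + b * (s a).snd
    rw [map_mul, TrivSqZeroExt.snd_mul, hs, hs, MulOpposite.smul_eq_mul_unop,
      MulOpposite.unop_op, smul_eq_mul, mul_comm (s a).snd b]
  · intro c
    change (s (algebraMap K L c)).snd = _
    rw [s.commutes]
    change (TrivSqZeroExt.inl (algebraMap K L c) +
      TrivSqZeroExt.inr (algebraMap K L (δ c)) : TrivSqZeroExt L L).snd = _
    rw [TrivSqZeroExt.snd_add, TrivSqZeroExt.snd_inl, TrivSqZeroExt.snd_inr, zero_add]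

end DER_

open DER_ in
theorem DER : Stmt_DER.{u} := by
  intro k _ _ n κ _ _ _ i
  let P := MvPolynomial (Fin n) k
  let δ0 : Derivation k P (Kx k n) :=
    (Algebra.linearMap P (Kx k n)).compDer (MvPolynomial.pderiv (R := k) i)
  haveI : Algebra.FormallyEtale P (Kx k n) :=
    Algebra.FormallyEtale.of_isLocalization (nonZeroDivisors P)
  obtain ⟨δ1, hδ1⟩ := ext_der (k := k) (P := P) (A := Kx k n) δ0
  have hv : ∀ l, δ1 (vv k n l) = if l = i then 1 else 0 := by
    intro l
    have h1 := hδ1 (X l)
    have h2 : δ0 (X l) = algebraMap P (Kx k n) (MvPolynomial.pderiv i (X l)) := rfl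
    rw [h2, MvPolynomial.pderiv_X] at h1
    unfold vv
    rw [h1]
    by_cases hl : l = i
    · subst hl; simp
    · rw [if_neg hl, Pi.single_eq_of_ne hl, map_zero]
  haveI : CharZero (Kx k n) := charZero_of_injective_algebraMap (algebraMap k (Kx k n)).injective
  obtain ⟨δ, h1, h2⟩ := ext_field (K := Kx k n) (L := κ)
    (δ1 : Kx k n →ₗ[k] Kx k n).toAddMonoidHom (by
      intro a b
      change δ1 (a * b) = _
      rw [Derivation.leibniz]
      rfl)
  refine ⟨δ, h1, ?_, ?_⟩
  · intro c
    rw [h2]
    change algebraMap (Kx k n) κ (δ1 (algebraMap k (Kx k n) c)) = 0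
    rw [Derivation.map_algebraMap, map_zero]
  · intro l
    rw [h2]
    change algebraMap (Kx k n) κ (δ1 (vv k n l)) = _
    rw [hv]
    split_ifs <;> simp

end Pool.Agent.DBX.GEN
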