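import Pool.Agent.DBX.GEN.Stmts

set_option autoImplicit false

/-! # MP_2c751f_ag, squad DBX, area GEN, module DFU -/

namespace Pool.Agent.DBX.GEN

open Pool.Agent.DBX MvPolynomial

noncomputable section

universe u

theorem DFU (hDRV : Stmt_DRV.{u}) : Stmt_DFU.{u} := by
  intro K A K' B _ _ _ _ _ _ e f hf N t d d' ht hd hd' j a
  let _ : Algebra A B := f.toAlgebra
  let _ : Algebra K B := (f.comp (algebraMap K A)).toAlgebra
  have _ : IsScalarTower K A B := IsScalarTower.of_algebraMap_eq (fun c => rfl)
  have hAs : ∀ (a : A) (b : B), a • b = f a * b := fun a b => Algebra.smul_def a b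
  have hKs : ∀ (c : K) (b : B), c • b = f (algebraMap K A c) * b := fun c b => Algebra.smul_def c b
  let E : Derivation K A B :=
    { toFun := fun a => d' j (f a)
      map_add' := fun x y => by rw [map_add, map_add]
      map_smul' := fun c x => by
        rw [RingHom.id_apply, hKs, hf, Algebra.smul_def, map_mul, hf, ← Algebra.smul_def,
          ← Algebra.smul_def, Derivation.map_smul]
      map_one_eq_zero' := by
        change d' j (f 1) = 0
        rw [map_one, Derivation.map_one_eq_zero]
      leibniz' := fun x y => by
        change d' j (f (x * y)) = x • d' j (f y) + y • d' j (f x)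
        rw [map_mul, Derivation.leibniz, hAs, hAs, smul_eq_mul, smul_eq_mul] }
  have h1 := (hDRV K A N t ht).2 d hd B E a
  have h2 : d' j (f a) = ∑ l, d l a • d' j (f (t l)) := h1
  rw [h2, Finset.sum_eq_single j]
  · rw [hAs, hd' j j]
    simp
  · intro l _ hl
    rw [hAs, hd' j l]
    simp [Ne.symm hl]
  · intro h
    exact absurd (Finset.mem_univ j) h

end

end Pool.Agent.DBX.GEN
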