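import Pool.Agent.DBX.GEN.Stmts

set_option autoImplicit false

/-! # MP_2c751f_ag, squad DBX, area GEN: module DRV -/

namespace Pool.Agent.DBX.GEN

open Pool.Agent.DBX MvPolynomial TensorProduct

noncomputable section

universe u

/-- the differentials of étale coordinates form a basis of the module of differentials -/
theorem exists_basis_of_EtC {K A : Type u} [CommRing K] [CommRing A] [Algebra K A] {N : ℕ}
    {t : Fin N → A} (hEt : EtC K t) :
    ∃ b : Module.Basis (Fin N) A (Ω[A⁄K]), ∀ j, b j = KaehlerDifferential.D K A (t j) := by
  let _ : Algebra (MvPolynomial (Fin N) K) A := (MvPolynomial.aeval (R := K) t).toRingHom.toAlgebra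
  have : IsScalarTower K (MvPolynomial (Fin N) K) A :=
    IsScalarTower.of_algebraMap_eq' (MvPolynomial.aeval (R := K) t).comp_algebraMap.symm
  have : Algebra.Etale (MvPolynomial (Fin N) K) A := hEt
  let e := KaehlerDifferential.tensorKaehlerEquivOfFormallyEtale K (MvPolynomial (Fin N) K) A
  refine ⟨((KaehlerDifferential.mvPolynomialBasis K (Fin N)).baseChange A).map e, fun j => ?_⟩
  rw [Module.Basis.map_apply, Module.Basis.baseChange_apply,
    KaehlerDifferential.mvPolynomialBasis_apply,
    KaehlerDifferential.tensorKaehlerEquivOfFormallyEtale_apply,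
    KaehlerDifferential.mapBaseChange_tmul, one_smul, KaehlerDifferential.map_D]
  congr 1
  change MvPolynomial.aeval (R := K) t (X j) = t j
  simp

theorem DRV : Stmt_DRV.{u} := by
  intro K A _ _ _ N t hEt
  obtain ⟨b, hb⟩ := exists_basis_of_EtC hEt
  constructor
  · refine ⟨fun j => (b.coord j).compDer (KaehlerDifferential.D K A), fun j l => ?_⟩
    change b.coord j (KaehlerDifferential.D K A (t l)) = _
    rw [← hb, Module.Basis.coord_apply, Module.Basis.repr_self, Finsupp.single_apply]
    simp only [eq_comm]
  · intro d hd M _ _ _ _ E a
    -- the linear forms corresponding to `d`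
    have hco : ∀ j, (d j).liftKaehlerDifferential = b.coord j := by
      intro j
      refine b.ext fun l => ?_
      rw [Module.Basis.coord_apply, Module.Basis.repr_self, Finsupp.single_apply, hb l,
        Derivation.liftKaehlerDifferential_comp_D, hd]
      simp only [eq_comm]
    have hD : KaehlerDifferential.D K A a = ∑ j, d j a • KaehlerDifferential.D K A (t j) := by
      conv_lhs => rw [← b.sum_repr (KaehlerDifferential.D K A a)]
      refine Finset.sum_congr rfl fun j _ => ?_
      rw [hb j, ← Derivation.liftKaehlerDifferential_comp_D (d j) a, hco j,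
        Module.Basis.coord_apply]
    have := congrArg E.liftKaehlerDifferential hD
    rw [Derivation.liftKaehlerDifferential_comp_D, map_sum] at this
    rw [this]
    refine Finset.sum_congr rfl fun j _ => ?_
    rw [map_smul, Derivation.liftKaehlerDifferential_comp_D]

end

end Pool.Agent.DBX.GEN

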