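import Pool.Agent.DBX.GEN.Stmts

set_option autoImplicit false

namespace Pool.Agent.DBX.GEN

open Pool.Agent.DBX MvPolynomial

universe u

theorem DSJ (hEVE : Stmt_EVE.{u}) (hREP : Stmt_REP.{u}) : Stmt_DSJ.{u} := by
  intro k _ n r b y hb hsum
  obtain ⟨hC, -, hinj, -⟩ := hEVE k n
  obtain ⟨-, -, hR3, -⟩ := hREP k n _ _ (emb k n) hC
  -- common denominator
  obtain ⟨⟨c, hc⟩, hcb⟩ := IsLocalization.exist_integer_multiples_of_finite
    (nonZeroDivisors (MvPolynomial (Fin n) k)) b
  choose β hβ using hcb
  have hc0 : c ≠ 0 := nonZeroDivisors.ne_zero hc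
  have hcK : algebraMap (MvPolynomial (Fin n) k) (Kx k n) c ≠ 0 := by
    intro h
    exact hc0 ((IsFractionRing.injective (MvPolynomial (Fin n) k) (Kx k n))
      (by rw [h, map_zero]))
  have hβ' : ∀ i, algebraMap (MvPolynomial (Fin n) k) (Kx k n) (β i) =
      algebraMap (MvPolynomial (Fin n) k) (Kx k n) c * b i := by
    intro i
    rw [hβ i]
    exact Algebra.smul_def _ _
  -- the relation in `F[v]`
  have h1 : evj k n (emb k n) (∑ i, MvPolynomial.map (algebraMap k (Fr k (n + 1))) (β i) *
      C (y i)) = 0 := by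
    rw [map_sum]
    have h2 : ∀ i, evj k n (emb k n) (MvPolynomial.map (algebraMap k (Fr k (n + 1))) (β i) *
        C (y i)) = algebraMap (MvPolynomial (Fin n) k) (Kx k n) c • (b i • emb k n (y i)) := by
      intro i
      rw [map_mul, hR3]
      have h3 : evj k n (emb k n) (C (y i)) = emb k n (y i) := by
        unfold evj
        rw [eval₂Hom_C]
      rw [h3, smul_smul, ← hβ' i, Algebra.smul_def]
      rfl
    rw [Finset.sum_congr rfl fun i _ => h2 i, ← Finset.smul_sum, hsum, smul_zero]
  have h4 := hinj _ h1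
  have h5 : ∀ α, ∑ i, (β i).coeff α • y i = 0 := by
    intro α
    have h6 := congrArg (fun P => MvPolynomial.coeff α P) h4
    simp only [coeff_zero] at h6
    rw [coeff_sum] at h6
    rw [← h6]
    refine Finset.sum_congr rfl fun i _ => ?_
    rw [mul_comm, coeff_C_mul, coeff_map, Algebra.smul_def, mul_comm]
  -- functionals
  intro i
  rw [← Module.forall_dual_apply_eq_zero_iff k]
  intro lam
  have h7 : ∑ j, lam (y j) • β j = 0 := by
    ext α
    rw [coeff_sum, coeff_zero]
    have h8 := congrArg lam (h5 α)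
    rw [map_sum, map_zero] at h8
    rw [← h8]
    refine Finset.sum_congr rfl fun j _ => ?_
    rw [coeff_smul, map_smul, smul_eq_mul, smul_eq_mul, mul_comm]
  have h9 : ∑ j, lam (y j) • b j = 0 := by
    have h10 : algebraMap (MvPolynomial (Fin n) k) (Kx k n) c * ∑ j, lam (y j) • b j = 0 := by
      rw [Finset.mul_sum]
      have h11 : ∀ j, algebraMap (MvPolynomial (Fin n) k) (Kx k n) c * (lam (y j) • b j) =
          algebraMap (MvPolynomial (Fin n) k) (Kx k n) (lam (y j) • β j) := by
        intro j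
        rw [mul_smul_comm, ← hβ' j, Algebra.algebraMap_eq_smul_one, Algebra.algebraMap_eq_smul_one,
          smul_assoc]
      rw [Finset.sum_congr rfl fun j _ => h11 j, ← map_sum, h7, map_zero]
    exact (mul_eq_zero.1 h10).resolve_left hcK
  exact (Fintype.linearIndependent_iff.1 hb) _ h9 i

end Pool.Agent.DBX.GEN
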