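import Pool.Agent.DBX.Gen

set_option autoImplicit false

/-! # MP_2c751f_ag, squad DBX, area GEN: definitions -/

namespace Pool.Agent.DBX.GEN

open Pool.Agent.DBX MvPolynomial

noncomputable section

universe u

/-! ## The two embeddings of `F = k(x_0..x_n)` -/

section
variable (k : Type u) [Field k] (n : ℕ)

/-- `k[x_0..x_n] → k'[x_0..x_{n-1}]`, `x_n ↦ ∑ v_i x_i` -/
def phi : Pol k (n + 1) →+* Pol (Kx k n) n := (secP k n).toRingHom.comp (bcP k n)

/-- the coordinate function `x_i` in `F = k(x_0..x_n)` -/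
def xx (i : Fin (n + 1)) : Fr k (n + 1) := inc k (n + 1) (X i)

variable {k n}

/-- `iot : k(x_0..x_n) → k'(x_0..x_{n-1})` extends `phi` (exists for `1 ≤ n`) -/
def IsIot (iot : Fr k (n + 1) →+* Fr (Kx k n) n) : Prop :=
  ∀ p, iot (inc k (n + 1) p) = inc (Kx k n) n (phi k n p)

/-- compatibility of a ring homomorphism `j : F → G` with `k → k'` -/
def Cmp (k : Type u) [Field k] (n : ℕ) {F G : Type u} [Field F] [Field G] [Algebra k F] [Algebra (Kx k n) G] (j : F →+* G) :
    Prop :=
  ∀ c : k, j (algebraMap k F c) = algebraMap (Kx k n) G (algebraMap k (Kx k n) c)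

/-- `k' · j(U)` -/
def exM {k : Type u} [Field k] (n : ℕ) {F G : Type u} [Field F] [Field G] [Algebra k F] [Algebra (Kx k n) G] (j : F →+* G)
    (U : Submodule k F) : Submodule (Kx k n) G :=
  Submodule.span (Kx k n) (j '' (U : Set F))

/-- the `k'`-algebra generated by `j(A)` -/
def exA {k : Type u} [Field k] (n : ℕ) {F G : Type u} [Field F] [Field G] [Algebra k F] [Algebra (Kx k n) G] (j : F →+* G)
    (A : Subalgebra k F) : Subalgebra (Kx k n) G :=
  Algebra.adjoin (Kx k n) (j '' (A : Set F))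

/-- a polynomial in `v_0, …, v_{n-1}` over `k` as an element of `G` -/
def cc {G : Type u} [Field G] [Algebra (Kx k n) G] (c : MvPolynomial (Fin n) k) : G :=
  algebraMap (Kx k n) G (algebraMap (MvPolynomial (Fin n) k) (Kx k n) c)

/-- evaluation `F[v_0..v_{n-1}] → G`, `v_i ↦ v_i`, `j` on the coefficients -/
def evj (k : Type u) [Field k] (n : ℕ) {F G : Type u} [Field F] [Field G] [Algebra (Kx k n) G] (j : F →+* G) :
    MvPolynomial (Fin n) F →+* G :=
  eval₂Hom j (fun i => algebraMap (Kx k n) G (vv k n i))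

/-- all coefficients lie in `U` -/
def CoeffIn {F : Type u} [Field F] [Algebra k F] (U : Submodule k F)
    (P : MvPolynomial (Fin n) F) : Prop :=
  ∀ α, P.coeff α ∈ U

variable (k n)

/-- `x_n - ∑ v_i x_i` as an element of `F[v]` -/
def lv : MvPolynomial (Fin n) (Fr k (n + 1)) :=
  C (xx k n (Fin.last n)) - ∑ i : Fin n, C (xx k n i.castSucc) * X i

/-- the substitution `v_b ↦ (x_n - ∑_{i ≠ b} v_i x_i) / x_b` on `F[v]` -/
def rho (b : Fin n) : MvPolynomial (Fin n) (Fr k (n + 1)) →ₐ[Fr k (n + 1)]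
    MvPolynomial (Fin n) (Fr k (n + 1)) :=
  aeval (fun i => if i = b then C (xx k n b.castSucc)⁻¹ *
    (C (xx k n (Fin.last n)) - ∑ i ∈ Finset.univ.erase b, C (xx k n i.castSucc) * X i) else X i)

variable {k n}

/-- `A ⊆ F` contains `u x_0, …, u x_n`, and these elements generate the unit ideal of `A`. -/
structure Cov (A : Subalgebra k (Fr k (n + 1))) (w : Fr k (n + 1)) : Prop where
  ne : w ≠ 0
  mem : ∀ i, w * xx k n i ∈ A
  span : ∃ r : Fin (n + 1) → Fr k (n + 1), (∀ i, r i ∈ A) ∧ ∑ i, r i * (w * xx k n i) = 1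

/-- `U` is an `A`-submodule of `F` -/
def SMod {F : Type u} [Field F] [Algebra k F] (A : Subalgebra k F) (U : Submodule k F) : Prop :=
  ∀ a ∈ A, ∀ y ∈ U, a * y ∈ U

end

/-! ## Étale coordinates -/

/-- `A[1/s] ⊆ F` -/
def Loc {K F : Type u} [Field K] [Field F] [Algebra K F] (A : Subalgebra K F) (s : F) :
    Subalgebra K F :=
  Algebra.adjoin K ((A : Set F) ∪ {s⁻¹})

/-- étale coordinates -/
def EtC (K : Type u) {A : Type u} [CommRing K] [CommRing A] [Algebra K A] {N : ℕ}
    (t : Fin N → A) : Prop :=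
  (MvPolynomial.aeval (R := K) t).toRingHom.Etale

/-- `∂ j` are the derivations dual to the coordinates `t` -/
def Dual {K A : Type u} [CommRing K] [CommRing A] [Algebra K A] {N : ℕ} (t : Fin N → A)
    (d : Fin N → Derivation K A A) : Prop :=
  ∀ j l, d j (t l) = if j = l then 1 else 0

/-- Étale coordinates `t` on `A` such that the radical of the ideal generated by `G` is generated
by `∏_{i ∈ T} t i` and the ideal generated by `m` by a monomial in the `t i`, `i ∈ T`. -/
structure LCo {K F : Type u} [Field K] [Field F] [Algebra K F] {N : ℕ} (A : Subalgebra K F)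
    (G : Set F) (m : F) (t : Fin N → A) (T : Finset (Fin N)) : Prop where
  et : EtC K t
  rad : (genIn A G).radical = Ideal.span {∏ i ∈ T, t i}
  mono : ∃ c : Fin N → ℕ, (∀ i, i ∉ T → c i = 0) ∧ genIn A {m} = Ideal.span {∏ i, t i ^ c i}

end

end Pool.Agent.DBX.GEN
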