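import Pool.Agent.DBX.GEN.Stmts

set_option autoImplicit false

/-! # MP_2c751f_ag, squad DBX, area GEN, module EBS -/

namespace Pool.Agent.DBX.GEN

open Pool.Agent.DBX MvPolynomial

noncomputable section

universe u

namespace EBS_

theorem alg_inc {k : Type u} [Field k] {n : ℕ} (c : k) :
    algebraMap k (Fr k n) c = inc k n (C c) := by
  rw [IsScalarTower.algebraMap_apply k (Pol k n) (Fr k n)]
  rfl

theorem cmp_emb (k : Type u) [Field k] (n : ℕ) : Cmp k n (emb k n) := by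
  intro c
  rw [alg_inc, alg_inc]
  have h1 : emb k n (inc k (n + 1) (C c)) = inc (Kx k n) (n + 1) (bcP k n (C c)) := by
    unfold emb
    exact IsLocalization.map_eq _ _
  rw [h1, bcP, map_C]

theorem cmp_iot {k : Type u} [Field k] {n : ℕ} {iot : Fr k (n + 1) →+* Fr (Kx k n) n}
    (h : IsIot iot) : Cmp k n iot := by
  intro c
  rw [alg_inc, alg_inc, h]
  congr 1
  change secP k n (bcP k n (C c)) = _
  rw [bcP, map_C]
  exact (secP k n).commutes _

theorem toF_congr {k F : Type u} [Field k] [Field F] [Algebra k F] {A A' : Subalgebra k F}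
    (h : A = A') (S : Set F) : toF A (genIn A S) = toF A' (genIn A' S) := by
  subst h
  rfl

theorem toF_congr_rad {k F : Type u} [Field k] [Field F] [Algebra k F] {A A' : Subalgebra k F}
    (h : A = A') (S : Set F) : toF A (genIn A S).radical = toF A' (genIn A' S).radical := by
  subst h
  rfl

end EBS_

theorem EBS (hRBS : Stmt_RBS.{u}) (hEXA : Stmt_EXA.{u}) (hRADB : Stmt_RADB.{u})
    (hRADS : Stmt_RADS.{u}) (hCOV : Stmt_COV.{u}) : Stmt_EBS.{u} := by
  intro k _ n D hD σ τ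
  obtain ⟨⟨hR, hG⟩, hS⟩ := hRBS k n D σ τ
  have hE1 : ∀ (j : Fr k (n + 1) →+* Fr (Kx k n) (n + 1)), Cmp k n j → ∀ J : Ideal (D.R σ τ),
      toF (exA n j (D.R σ τ)) (genIn (exA n j (D.R σ τ)) (j '' (toF (D.R σ τ) J : Set _))) =
      exM n j (toF (D.R σ τ) J) := fun j hj J => (hEXA k n _ _ j hj (D.R σ τ)).2.1 J
  have hE2 : ∀ (j : Fr k (n + 1) →+* Fr (Kx k n) n), Cmp k n j → ∀ J : Ideal (D.R σ τ),
      toF (exA n j (D.R σ τ)) (genIn (exA n j (D.R σ τ)) (j '' (toF (D.R σ τ) J : Set _))) =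
      exM n j (toF (D.R σ τ) J) := fun j hj J => (hEXA k n _ _ j hj (D.R σ τ)).2.1 J
  by_cases hτ : τ = ∅
  · have e0 : D.E σ τ = toF (D.R σ τ) (genIn (D.R σ τ) (inc k (n + 1) '' D.I)) := if_pos hτ
    refine ⟨?_, fun _ iot hi => ?_⟩
    · have e1 : D.bc.E σ τ = toF (D.bc.R σ τ) (genIn (D.bc.R σ τ) (inc _ _ '' (D.bc.I : Set _))) :=
        if_pos hτ
      rw [e0, ← hE1 _ (EBS_.cmp_emb k n), e1]
      refine Eq.trans (congrArg (toF (D.bc.R σ τ)) hG) ?_
      exact EBS_.toF_congr hR _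
    · obtain ⟨hR', hG'⟩ := hS iot hi
      have e1 : D.sec.E σ τ =
          toF (D.sec.R σ τ) (genIn (D.sec.R σ τ) (inc _ _ '' (D.sec.I : Set _))) := if_pos hτ
      rw [e0, ← hE2 _ (EBS_.cmp_iot hi), e1]
      refine Eq.trans (congrArg (toF (D.sec.R σ τ)) hG') ?_
      exact EBS_.toF_congr hR' _
  · have e0 : D.E σ τ = toF (D.R σ τ) (genIn (D.R σ τ) (inc k (n + 1) '' D.I)).radical :=
      if_neg hτ
    refine ⟨?_, fun hne iot hi => ?_⟩
    · have e1 : D.bc.E σ τ =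
          toF (D.bc.R σ τ) (genIn (D.bc.R σ τ) (inc _ _ '' (D.bc.I : Set _))).radical :=
        if_neg hτ
      rw [e0, ← hRADB, e1]
      refine Eq.trans (congrArg (fun J => toF (D.bc.R σ τ) (Ideal.radical J)) hG) ?_
      exact EBS_.toF_congr_rad hR _
    · obtain ⟨hR', hG'⟩ := hS iot hi
      have hσ : σ.Nonempty := hne.resolve_right hτ
      have e1 : D.sec.E σ τ =
          toF (D.sec.R σ τ) (genIn (D.sec.R σ τ) (inc _ _ '' (D.sec.I : Set _))).radical :=
        if_neg hτ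
      rw [e0, ← hRADS k n iot hi (D.R σ τ) 1 ((hCOV k n D hD).1 σ τ hσ), e1]
      refine Eq.trans (congrArg (fun J => toF (D.sec.R σ τ) (Ideal.radical J)) hG') ?_
      exact EBS_.toF_congr_rad hR' _

end

end Pool.Agent.DBX.GEN
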