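import Pool.Agent.DBX.GEN.Stmts

/-!
# DBX, area GEN, module EGR: `E` is graded
-/

set_option autoImplicit false

namespace Pool.Agent.DBX.GEN

open Pool.Agent.DBX MvPolynomial

noncomputable section

universe u

namespace EGR_

/-! ### eigenvectors -/

theorem eig {k : Type u} [Field k] [CharZero k] {M : Type u} [AddCommGroup M] [Module k M]
    (L : M →ₗ[k] M) (p : Submodule k M) (hL : ∀ x ∈ p, L x ∈ p) (s : Finset ℤ) :
    ∀ y : ℤ → M, (∀ d, L (y d) = ((2 : k) ^ d) • y d) → ∑ d ∈ s, y d ∈ p → ∀ d ∈ s, y d ∈ p := by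
  classical
  induction s using Finset.induction_on with
  | empty => intro y _ _ d hd; exact absurd hd (Finset.notMem_empty d)
  | insert d0 s hd0 ih =>
    intro y hy hz
    rw [Finset.sum_insert hd0] at hz
    have h1 : ∑ d ∈ s, ((2 : k) ^ d - (2 : k) ^ d0) • y d ∈ p := by
      have h2 := p.sub_mem (hL _ hz) (p.smul_mem ((2 : k) ^ d0) hz)
      rw [map_add, hy d0, map_sum, smul_add, Finset.smul_sum, add_sub_add_left_eq_sub,
        ← Finset.sum_sub_distrib] at h2
      refine (Finset.sum_congr rfl (fun d _ => ?_)).subst (motive := fun t => t ∈ p) h2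
      rw [hy d, sub_smul]
    have h3 := ih (fun d => ((2 : k) ^ d - (2 : k) ^ d0) • y d) (fun d => by
      rw [map_smul, hy d, smul_comm]) h1
    have h4 : ∀ d ∈ s, y d ∈ p := by
      intro d hd
      have hne : (2 : k) ^ d - (2 : k) ^ d0 ≠ 0 := by
        rw [sub_ne_zero]
        intro h
        have h5 : ((2 : ℚ) ^ d : ℚ) = (2 : ℚ) ^ d0 := by
          have h6 : (((2 : ℚ) ^ d : ℚ) : k) = (((2 : ℚ) ^ d0 : ℚ) : k) := by
            push_cast
            exact h
          exact_mod_cast h6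
        have h7 : d = d0 := zpow_right_injective₀ (by norm_num) (by norm_num) h5
        subst h7
        exact hd0 hd
      have h8 := p.smul_mem ((2 : k) ^ d - (2 : k) ^ d0)⁻¹ (h3 d hd)
      rwa [smul_smul, inv_mul_cancel₀ hne, one_smul] at h8
    intro d hd
    rcases Finset.mem_insert.mp hd with rfl | hd
    · have h9 := p.sub_mem hz (p.sum_mem h4)
      rwa [add_sub_cancel_right] at h9
    · exact h4 d hd

/-! ### the torus action -/

variable (k : Type u) [Field k] (n : ℕ)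

/-- `x_i ↦ 2 x_i` on polynomials -/
def sc : Pol k n →ₐ[k] Pol k n := aeval (fun i => C 2 * X i)

variable {k n}

theorem sc_monomial (α : Fin n →₀ ℕ) (c : k) :
    sc k n (monomial α c) = C ((2 : k) ^ (α.degree)) * monomial α c := by
  unfold sc
  rw [aeval_monomial]
  have h1 : (α.prod fun i e => (C (2 : k) * X i) ^ e) =
      C ((2 : k) ^ α.degree) * (α.prod fun i e => (X i : Pol k n) ^ e) := by
    rw [Finsupp.prod, Finsupp.prod, Finsupp.degree_apply, map_pow, ← Finset.prod_pow_eq_pow_sum,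
      ← Finset.prod_mul_distrib]
    exact Finset.prod_congr rfl (fun i _ => mul_pow _ _ _)
  rw [h1, monomial_eq (s := α) (a := c), algebraMap_eq]
  ring

theorem sc_hom {p : Pol k n} {d : ℕ} (hp : p.IsHomogeneous d) : sc k n p = C ((2 : k) ^ d) * p := by
  conv_lhs => rw [p.as_sum]
  conv_rhs => rw [p.as_sum]
  rw [map_sum, Finset.mul_sum]
  refine Finset.sum_congr rfl (fun α hα => ?_)
  rw [sc_monomial]
  have h1 : α.degree = d := by
    have h2 := hp (mem_support_iff.mp hα)
    rw [← h2]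
    exact DFunLike.congr_fun (Finsupp.degree_eq_weight_one (σ := Fin n) (R := ℕ)) α
  rw [h1]

theorem sc_inj [CharZero k] : Function.Injective (sc k n) := by
  rw [injective_iff_map_eq_zero]
  intro p hp
  have h1 : (aeval (fun i => C (2⁻¹ : k) * X i) : Pol k n →ₐ[k] Pol k n) (sc k n p) = p := by
    have h2 : (aeval (fun i => C (2⁻¹ : k) * X i) : Pol k n →ₐ[k] Pol k n).comp (sc k n) =
        AlgHom.id k _ := by
      apply MvPolynomial.algHom_ext
      intro i
      rw [AlgHom.comp_apply, sc, aeval_X, map_mul, aeval_X, algHom_C, algebraMap_eq, ← mul_assoc,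
        ← C_mul, mul_inv_cancel₀ two_ne_zero, C_1, one_mul]
      rfl
    exact congrArg (fun f => f p) h2
  rw [hp, map_zero] at h1
  exact h1.symm

variable (k n) in
/-- `x_i ↦ 2 x_i` on fractions -/
def ps [CharZero k] : Fr k n →+* Fr k n :=
  IsFractionRing.lift (A := Pol k n) (g := (inc k n).comp (sc k n).toRingHom) (by
    intro a b h
    exact sc_inj (IsFractionRing.injective (Pol k n) (Fr k n) h))

theorem ps_inc [CharZero k] (p : Pol k n) : ps k n (inc k n p) = inc k n (sc k n p) := by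
  unfold ps
  exact IsFractionRing.lift_algebraMap _ p

theorem ps_k [CharZero k] (c : k) : ps k n (algebraMap k (Fr k n) c) = algebraMap k (Fr k n) c := by
  have h1 : algebraMap k (Fr k n) c = inc k n (C c) := rfl
  rw [h1, ps_inc]
  congr 1
  exact (sc k n).commutes c

variable (k n) in
/-- the same as an algebra homomorphism -/
def psA [CharZero k] : Fr k n →ₐ[k] Fr k n := { ps k n with commutes' := ps_k }

theorem psA_inc [CharZero k] (p : Pol k n) : psA k n (inc k n p) = inc k n (sc k n p) := ps_inc p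

theorem psA_hom [CharZero k] {p : Pol k n} {d : ℕ} (hp : p.IsHomogeneous d) :
    psA k n (inc k n p) = algebraMap k (Fr k n) ((2 : k) ^ d) * inc k n p := by
  rw [psA_inc, sc_hom hp, map_mul]
  rfl

theorem psA_HF [CharZero k] {m : ℤ} {z : Fr k n} (hz : z ∈ HF k n m) :
    psA k n z = ((2 : k) ^ m) • z := by
  obtain ⟨a, b, i, j, ha, hb, hb0, hm, rfl⟩ := hz
  by_cases h0 : a = 0
  · subst h0
    simp
  have h1 := hm h0
  rw [map_div₀, psA_hom ha, psA_hom hb, Algebra.smul_def, ← h1, mul_div_mul_comm, ← map_div₀,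
    zpow_sub₀ two_ne_zero, zpow_natCast, zpow_natCast]

/-! ### homogeneous elements -/

theorem inc_mem_HF {p : Pol k n} {d : ℕ} (hp : p.IsHomogeneous d) : inc k n p ∈ HF k n d :=
  ⟨p, 1, d, 0, hp, isHomogeneous_one _ _, one_ne_zero, fun _ => by simp, by simp⟩

theorem HF_mul {m m' : ℤ} {z z' : Fr k n} (hz : z ∈ HF k n m) (hz' : z' ∈ HF k n m') :
    z * z' ∈ HF k n (m + m') := by
  obtain ⟨a, b, i, j, ha, hb, hb0, hm, rfl⟩ := hz
  obtain ⟨a', b', i', j', ha', hb', hb0', hm', rfl⟩ := hz'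
  refine ⟨a * a', b * b', i + i', j + j', ha.mul ha', hb.mul hb', mul_ne_zero hb0 hb0', ?_, ?_⟩
  · intro h
    have h1 := hm (left_ne_zero_of_mul h)
    have h2 := hm' (right_ne_zero_of_mul h)
    push_cast
    omega
  · rw [map_mul, map_mul, div_mul_div_comm]

variable (k n) in
/-- sums of homogeneous fractions -/
def SH : Submodule k (Fr k n) := ⨆ m : ℤ, HF k n m

theorem HF_le (m : ℤ) : HF k n m ≤ SH k n := le_iSup (fun m => HF k n m) m

theorem SH_mul {z z' : Fr k n} (hz : z ∈ SH k n) (hz' : z' ∈ SH k n) : z * z' ∈ SH k n := by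
  unfold SH at hz
  induction hz using Submodule.iSup_induction' with
  | mem m z hz =>
    unfold SH at hz'
    induction hz' using Submodule.iSup_induction' with
    | mem m' z' hz' => exact HF_le _ (HF_mul hz hz')
    | zero => rw [mul_zero]; exact zero_mem _
    | add x y _ _ hx hy => rw [mul_add]; exact add_mem hx hy
  | zero => rw [zero_mul]; exact zero_mem _
  | add x y _ _ hx hy => rw [add_mul]; exact add_mem hx hy

theorem inc_SH (p : Pol k n) : inc k n p ∈ SH k n := by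
  rw [← sum_homogeneousComponent p, map_sum]
  exact Submodule.sum_mem _ (fun d _ =>
    HF_le _ (inc_mem_HF (homogeneousComponent_isHomogeneous d p)))

theorem alg_SH (c : k) : algebraMap k (Fr k n) c ∈ SH k n := inc_SH (C c)

theorem R_SH {D : Dat k n} (hD : D.Good) (σ : Finset (Fin D.p)) (τ : Finset (Fin D.M))
    {z : Fr k n} (hz : z ∈ D.R σ τ) : z ∈ SH k n := by
  unfold Dat.R at hz
  induction hz using Algebra.adjoin_induction with
  | mem x hx =>
    rcases hx with (⟨p, rfl⟩ | ⟨a, ha, rfl⟩) | ⟨b, hb, j, rfl⟩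
    · exact inc_SH p
    · refine HF_le (-1) ⟨1, D.g a, 0, 1, isHomogeneous_one _ _, hD.g_hom a, hD.g_ne a, ?_, ?_⟩
      · intro _; simp
      · rw [map_one, one_div]
    · exact HF_le 0 ⟨D.f j, D.f b, D.δ, D.δ, hD.f_hom j, hD.f_hom b, hD.f_ne b,
        fun _ => by simp, rfl⟩
  | algebraMap r => exact alg_SH r
  | add x y _ _ hx hy => exact add_mem hx hy
  | mul x y _ _ hx hy => exact SH_mul hx hy

/-! ### stability -/

variable [CharZero k]

theorem R_st {D : Dat k n} (hD : D.Good) (σ : Finset (Fin D.p)) (τ : Finset (Fin D.M)) :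
    ∀ z ∈ D.R σ τ, psA k n z ∈ D.R σ τ := by
  intro z hz
  have h1 : D.R σ τ ≤ (D.R σ τ).comap (psA k n) := by
    refine Algebra.adjoin_le ?_
    rintro x ((⟨p, rfl⟩ | ⟨a, ha, rfl⟩) | ⟨b, hb, j, rfl⟩)
    · change psA k n (inc k n p) ∈ D.R σ τ
      rw [psA_inc]
      exact Algebra.subset_adjoin (Or.inl (Or.inl ⟨_, rfl⟩))
    · change psA k n (inc k n (D.g a))⁻¹ ∈ D.R σ τ
      rw [map_inv₀, psA_hom (hD.g_hom a), mul_inv, ← map_inv₀]
      exact mul_mem (Subalgebra.algebraMap_mem _ _)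
        (Algebra.subset_adjoin (Or.inl (Or.inr ⟨a, ha, rfl⟩)))
    · change psA k n (inc k n (D.f j) / inc k n (D.f b)) ∈ D.R σ τ
      have h2 : inc k n (D.f j) / inc k n (D.f b) ∈ HF k n 0 :=
        ⟨D.f j, D.f b, D.δ, D.δ, hD.f_hom j, hD.f_hom b, hD.f_ne b, fun _ => by simp, rfl⟩
      rw [psA_HF h2, zpow_zero, one_smul]
      exact Algebra.subset_adjoin (Or.inr ⟨b, hb, j, rfl⟩)
  exact h1 hz

omit [CharZero k] in
theorem I_st {D : Dat k n} (hD : D.Good) {w : Pol k n} (hw : w ∈ D.I) : sc k n w ∈ D.I := by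
  rw [← sum_homogeneousComponent w, map_sum]
  refine Ideal.sum_mem _ (fun d _ => ?_)
  rw [sc_hom (homogeneousComponent_isHomogeneous d w)]
  exact Ideal.mul_mem_left _ _ (hD.I_hom w hw d)

theorem E_st {D : Dat k n} (hD : D.Good) (σ : Finset (Fin D.p)) (τ : Finset (Fin D.M)) :
    ∀ z ∈ D.E σ τ, psA k n z ∈ D.E σ τ := by
  let f : D.R σ τ →+* D.R σ τ :=
    ((psA k n).comp (D.R σ τ).val).toRingHom.codRestrict (D.R σ τ)
      (fun x => R_st hD σ τ x x.2)
  have hf : ∀ x : D.R σ τ, ((f x : D.R σ τ) : Fr k n) = psA k n x := fun _ => rfl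
  have hJ : ∀ x ∈ genIn (D.R σ τ) (inc k n '' D.I), f x ∈ genIn (D.R σ τ) (inc k n '' D.I) := by
    have h1 : genIn (D.R σ τ) (inc k n '' D.I) ≤
        (genIn (D.R σ τ) (inc k n '' D.I)).comap f := by
      refine Ideal.span_le.mpr ?_
      rintro x ⟨w, hw, hwx⟩
      refine Ideal.subset_span ⟨sc k n w, I_st hD hw, ?_⟩
      rw [hf, ← psA_inc, hwx]
    exact fun x hx => h1 hx
  have hJr : ∀ x ∈ (genIn (D.R σ τ) (inc k n '' D.I)).radical,
      f x ∈ (genIn (D.R σ τ) (inc k n '' D.I)).radical := by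
    rintro x ⟨N, hN⟩
    exact ⟨N, by rw [← map_pow]; exact hJ _ hN⟩
  intro z hz
  unfold Dat.E at hz ⊢
  split_ifs at hz ⊢ with hτ
  · obtain ⟨x, hx, rfl⟩ := hz
    exact ⟨f x, hJ x hx, hf x⟩
  · obtain ⟨x, hx, rfl⟩ := hz
    exact ⟨f x, hJr x hx, hf x⟩

omit [CharZero k] in
theorem E_le_R (D : Dat k n) (σ : Finset (Fin D.p)) (τ : Finset (Fin D.M)) :
    ∀ z ∈ D.E σ τ, z ∈ D.R σ τ := by
  intro z hz
  unfold Dat.E at hz
  split_ifs at hz with hτ
  · obtain ⟨x, hx, rfl⟩ := hz
    exact x.2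
  · obtain ⟨x, hx, rfl⟩ := hz
    exact x.2

end EGR_

open EGR_ in
theorem EGR : Stmt_EGR.{u} := by
  intro k _ _ n D hD σ τ z hz
  have h1 : z ∈ SH k n := R_SH hD σ τ (E_le_R D σ τ z hz)
  unfold SH at h1
  rw [Submodule.mem_iSup_iff_exists_finsupp] at h1
  obtain ⟨y, hy, hyz⟩ := h1
  have h2 : ∀ d ∈ y.support, y d ∈ D.E σ τ := by
    refine eig (psA k n).toLinearMap (D.E σ τ) (E_st hD σ τ) y.support y
      (fun d => psA_HF (hy d)) ?_
    rw [← hyz] at hz
    exact hz
  refine ⟨y.support, y, ?_, hyz.symm⟩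
  intro d
  refine ⟨?_, hy d⟩
  by_cases hd : d ∈ y.support
  · exact h2 d hd
  · rw [Finsupp.notMem_support_iff.mp hd]
    exact zero_mem _

end

end Pool.Agent.DBX.GEN
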