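import Pool.Agent.DBX.GEN.Stmts

set_option autoImplicit false

/-! # MP_2c751f_ag, squad DBX, area GEN, module EGS -/

namespace Pool.Agent.DBX.GEN

open Pool.Agent.DBX MvPolynomial

universe u

namespace EGS_

theorem aux (hIND : Stmt_IND.{u}) (k : Type u) [Field k] (n N : ℕ)
    (j : Fr k (n + 1) →+* Fr (Kx k n) N)
    (hj : ∀ (m : ℤ) (z : Fr k (n + 1)), z ∈ HF k (n + 1) m → j z ∈ HF (Kx k n) N m)
    (E : Submodule k (Fr k (n + 1)))
    (hE : ∀ z ∈ E, ∃ (s : Finset ℤ) (y : ℤ → Fr k (n + 1)), (∀ d, y d ∈ E ⊓ HF k (n + 1) d) ∧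
      z = ∑ d ∈ s, y d) (m : ℤ) :
    exM n j E ⊓ HF (Kx k n) N m = exM n j (E ⊓ HF k (n + 1) m) := by
  have h1 : ∀ d : ℤ, exM n j (E ⊓ HF k (n + 1) d) ≤ HF (Kx k n) N d := by
    intro d
    refine Submodule.span_le.2 ?_
    rintro _ ⟨z, hz, rfl⟩
    exact hj d z hz.2
  have h2 : exM n j E ≤ ⨆ d : ℤ, exM n j (E ⊓ HF k (n + 1) d) := by
    refine Submodule.span_le.2 ?_
    rintro _ ⟨z, hz, rfl⟩
    obtain ⟨s, y, hy, rfl⟩ := hE z hz
    rw [map_sum]
    refine Submodule.sum_mem _ (fun d _ => ?_)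
    exact Submodule.mem_iSup_of_mem d (Submodule.subset_span ⟨y d, hy d, rfl⟩)
  apply le_antisymm
  · rintro z ⟨hz, hzm⟩
    obtain ⟨f, hf, hfz⟩ := (Submodule.mem_iSup_iff_exists_finsupp _ _).1 (h2 hz)
    have h3 := hIND (Kx k n) N (insert m f.support) (fun d => f d - if d = m then z else 0)
      (fun d => by
        refine sub_mem (h1 d (hf d)) ?_
        split_ifs with hd
        · rw [hd]; exact hzm
        · exact zero_mem _)
      (by
        rw [Finset.sum_sub_distrib, Finset.sum_ite_eq' (insert m f.support) m (fun _ => z),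
          if_pos (Finset.mem_insert_self _ _), sub_eq_zero]
        rw [← hfz, Finsupp.sum]
        refine (Finset.sum_subset (Finset.subset_insert _ _) (fun d _ hd => ?_)).symm
        exact Finsupp.notMem_support_iff.1 hd) m (Finset.mem_insert_self _ _)
    have h4 : f m = z := by
      have : f m - (if m = m then z else 0) = 0 := h3
      rw [if_pos rfl, sub_eq_zero] at this
      exact this
    rw [← h4]
    exact hf m
  · refine le_inf ?_ (h1 m)
    exact Submodule.span_mono (Set.image_mono (fun z hz => hz.1))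

end EGS_

theorem EGS (hEBS : Stmt_EBS.{u}) (hEGR : Stmt_EGR.{u}) (hIND : Stmt_IND.{u})
    (hHOM : Stmt_HOM.{u}) : Stmt_EGS.{u} := by
  intro k _ _ n D hD m σ τ
  have h1 := hEBS k n D hD σ τ
  obtain ⟨-, -, -, h2, h3⟩ := hHOM k n
  refine ⟨?_, ?_⟩
  · change D.bc.E σ τ ⊓ HF (Kx k n) (n + 1) m = exM n (emb k n) (D.E σ τ ⊓ HF k (n + 1) m)
    rw [h1.1]
    exact EGS_.aux hIND k n (n + 1) (emb k n) h2 (D.E σ τ) (hEGR k (n + 1) D hD σ τ) m
  · intro hστ iot hiot
    change D.sec.E σ τ ⊓ HF (Kx k n) n m = exM n iot (D.E σ τ ⊓ HF k (n + 1) m)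
    rw [h1.2 hστ iot hiot]
    exact EGS_.aux hIND k n n iot (h3 iot hiot) (D.E σ τ) (hEGR k (n + 1) D hD σ τ) m

end Pool.Agent.DBX.GEN
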