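import Pool.Agent.DBX.GEN.Stmts

set_option autoImplicit false

/-! # MP_2c751f_ag, squad DBX, area GEN: base change of étale coordinates -/

namespace Pool.Agent.DBX.GEN

open Pool.Agent.DBX MvPolynomial TensorProduct

noncomputable section

universe u

namespace ETB_

section

variable {K K' A A' : Type u} [Field K] [Field K'] [CommRing A] [CommRing A'] [Algebra K K']
  [Algebra K A] [Algebra K' A']

attribute [local instance] MvPolynomial.algebraMvPolynomial

theorem core (f : A →+* A')
    (hf : ∀ c, f (algebraMap K A c) = algebraMap K' A' (algebraMap K K' c))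
    (hs : ∀ z : A', z ∈ Submodule.span K' (Set.range f))
    (hi : ∀ (r : ℕ) (b : Fin r → K') (y : Fin r → A), LinearIndependent K b →
      ∑ i, b i • f (y i) = 0 → ∀ i, y i = 0)
    {N : ℕ} (t : Fin N → A) (h : EtC K t) : EtC K' (fun i => f (t i)) := by
  classical
  let i1 : Algebra K A' := ((algebraMap K' A').comp (algebraMap K K')).toAlgebra
  have s1 : IsScalarTower K K' A' := IsScalarTower.of_algebraMap_eq fun _ => rfl
  let i2 : Algebra A A' := f.toAlgebra
  have s2 : IsScalarTower K A A' := IsScalarTower.of_algebraMap_eq fun c => (hf c).symm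
  -- the pushout property
  let l : A →ₗ[K] A' := (IsScalarTower.toAlgHom K A A').toLinearMap
  have hl : ∀ a, l a = f a := fun _ => rfl
  have hbij : Function.Bijective (l.liftBaseChange K') := by
    constructor
    · rw [injective_iff_map_eq_zero]
      intro x hx
      obtain ⟨c, rfl⟩ := TensorProduct.eq_repr_basis_left (Module.Basis.ofVectorSpace K K') x
      rw [Finsupp.sum, map_sum] at hx
      let e := c.support.equivFin
      have h1 : ∑ i : Fin c.support.card,
          (Module.Basis.ofVectorSpace K K') (e.symm i : _) • f (c (e.symm i)) = 0 := by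
        rw [← hx, ← Finset.sum_coe_sort c.support]
        refine Fintype.sum_equiv e.symm _ _ fun i => ?_
        rw [LinearMap.liftBaseChange_tmul, hl]
      have h2 := hi _ _ (fun i => c (e.symm i)) ((Module.Basis.ofVectorSpace K K').linearIndependent.comp
        (fun i : Fin c.support.card => (e.symm i : _)) (fun i i' hii => e.symm.injective (Subtype.ext hii))) h1
      rw [Finsupp.sum]
      refine Finset.sum_eq_zero fun i hic => ?_
      have h3 := h2 (e ⟨i, hic⟩)
      rw [Equiv.symm_apply_apply] at h3
      change c i = 0 at h3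
      rw [h3, tmul_zero]
    · intro z
      have h1 : Submodule.span K' (Set.range f) ≤ LinearMap.range (l.liftBaseChange K') := by
        rw [Submodule.span_le]
        rintro _ ⟨a, rfl⟩
        exact ⟨1 ⊗ₜ a, by rw [LinearMap.liftBaseChange_tmul, one_smul, hl]⟩
      exact h1 (hs z)
  have p1 : Algebra.IsPushout K K' A A' := by
    constructor
    refine IsBaseChange.of_equiv (LinearEquiv.ofBijective (l.liftBaseChange K') hbij) fun x => ?_
    rw [LinearEquiv.ofBijective_apply, LinearMap.liftBaseChange_tmul, one_smul]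
  have p2 : Algebra.IsPushout K A K' A' := p1.symm
  -- the polynomial rings
  let i3 : Algebra (MvPolynomial (Fin N) K) A := (aeval (R := K) t).toRingHom.toAlgebra
  let i4 : Algebra (MvPolynomial (Fin N) K') A' :=
    (aeval (R := K') (fun i => f (t i))).toRingHom.toAlgebra
  let i5 : Algebra (MvPolynomial (Fin N) K) A' := ((algebraMap (MvPolynomial (Fin N) K') A').comp
    (algebraMap (MvPolynomial (Fin N) K) (MvPolynomial (Fin N) K'))).toAlgebra
  have t1 : IsScalarTower K (MvPolynomial (Fin N) K) A :=
    IsScalarTower.of_algebraMap_eq fun c => ((aeval (R := K) t).commutes c).symm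
  have t2 : IsScalarTower K' (MvPolynomial (Fin N) K') A' :=
    IsScalarTower.of_algebraMap_eq fun c => ((aeval (R := K') (fun i => f (t i))).commutes c).symm
  have t3 : IsScalarTower (MvPolynomial (Fin N) K) (MvPolynomial (Fin N) K') A' :=
    IsScalarTower.of_algebraMap_eq fun _ => rfl
  have t4 : IsScalarTower K (MvPolynomial (Fin N) K') A' :=
    IsScalarTower.of_algebraMap_eq fun c => by
      change algebraMap K' A' (algebraMap K K' c) = _
      rw [IsScalarTower.algebraMap_apply K K' (MvPolynomial (Fin N) K'),
        ← IsScalarTower.algebraMap_apply K' (MvPolynomial (Fin N) K') A']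
  have t5 : IsScalarTower (MvPolynomial (Fin N) K) A A' :=
    IsScalarTower.of_algebraMap_eq' (by
      refine MvPolynomial.ringHom_ext (fun c => ?_) (fun i => ?_)
      · change aeval (R := K') (fun i => f (t i)) (MvPolynomial.map (algebraMap K K') (C c)) =
          f (aeval (R := K) t (C c))
        rw [map_C, aeval_C, aeval_C, hf]
      · change aeval (R := K') (fun i => f (t i)) (MvPolynomial.map (algebraMap K K') (X i)) =
          f (aeval (R := K) t (X i))
        rw [map_X, aeval_X, aeval_X])
  have p3 : Algebra.IsPushout (MvPolynomial (Fin N) K) A (MvPolynomial (Fin N) K') A' :=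
    (Algebra.IsPushout.comp_iff K (MvPolynomial (Fin N) K) K' (MvPolynomial (Fin N) K')).mp p2
  exact RingHom.Etale.isStableUnderBaseChange (MvPolynomial (Fin N) K) A
    (MvPolynomial (Fin N) K') A' h

end

theorem cmp (k : Type u) [Field k] (n : ℕ) : Cmp k n (emb k n) := by
  intro c
  have h1 : algebraMap k (Fr k (n + 1)) c = algebraMap (Pol k (n + 1)) (Fr k (n + 1)) (C c) := by
    rw [IsScalarTower.algebraMap_apply k (Pol k (n + 1)) (Fr k (n + 1))]
    rfl
  rw [h1]
  unfold emb
  rw [IsLocalization.map_eq]
  unfold bcP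
  rw [map_C, IsScalarTower.algebraMap_apply (Kx k n) (Pol (Kx k n) (n + 1))
    (Fr (Kx k n) (n + 1))]
  rfl

end ETB_

open ETB_

theorem ETB (hDSJ : Stmt_DSJ.{u}) (hEXA : Stmt_EXA.{u}) : Stmt_ETB.{u} := by
  intro k _ n A N t t' ht ht'
  let f : A →+* exA n (emb k n) A :=
    ((emb k n).comp A.val.toRingHom).codRestrict (exA n (emb k n) A)
      (fun a => Algebra.subset_adjoin ⟨a, a.2, rfl⟩)
  have hfc : ∀ a, ((f a : exA n (emb k n) A) : Fr (Kx k n) (n + 1)) = emb k n a := fun _ => rfl
  have h1 : t' = fun i => f (t i) := by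
    funext i
    exact Subtype.ext (ht' i)
  rw [h1]
  refine core f ?_ ?_ ?_ t ht
  · intro c
    refine Subtype.ext ?_
    rw [hfc]
    exact cmp k n c
  · intro z
    have h2 := ((hEXA k n _ _ (emb k n) (cmp k n) A).1 z).mp z.2
    have h3 : exM n (emb k n) (Subalgebra.toSubmodule A) =
        Submodule.map (exA n (emb k n) A).val.toLinearMap
          (Submodule.span (Kx k n) (Set.range f)) := by
      rw [Submodule.map_span]
      unfold exM
      congr 1
      ext x
      constructor
      · rintro ⟨a, ha, rfl⟩
        exact ⟨f ⟨a, ha⟩, ⟨⟨a, ha⟩, rfl⟩, rfl⟩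
      · rintro ⟨_, ⟨a, rfl⟩, rfl⟩
        exact ⟨a, a.2, rfl⟩
    rw [h3] at h2
    obtain ⟨y, hy, hyz⟩ := h2
    have h4 : y = z := Subtype.ext hyz
    rw [← h4]
    exact hy
  · intro r b y hb hsum i
    have h2 : ∑ i, b i • emb k n (y i) = 0 := by
      have h3 := congrArg (exA n (emb k n) A).val hsum
      rw [map_sum, map_zero] at h3
      rw [← h3]
      refine Finset.sum_congr rfl fun i _ => ?_
      rw [map_smul]
      rfl
    exact Subtype.ext (hDSJ k n r b (fun i => (y i : Fr k (n + 1))) hb h2 i)

end

end Pool.Agent.DBX.GEN
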