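import Pool.Agent.DBX.GEN.Stmts

set_option autoImplicit false

/-! # MP_2c751f_ag, squad DBX, area GEN: module ETL -/

namespace Pool.Agent.DBX.GEN

open Pool.Agent.DBX MvPolynomial

noncomputable section

universe u

namespace ETL_

theorem rename_bij (K : Type u) [Field K] (N : ℕ) (π : Equiv.Perm (Fin N)) :
    Function.Bijective (rename (R := K) π : MvPolynomial (Fin N) K →ₐ[K] MvPolynomial (Fin N) K) :=
  (renameEquiv K π).bijective

theorem exists_pow {K L : Type u} [Field K] [Field L] [Algebra K L] (A : Subalgebra K L) (u : L)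
    (hu : u ∈ A) (hu0 : u ≠ 0) (z : L) (hz : z ∈ Loc A u) :
    ∃ e : ℕ, z * u ^ e ∈ A := by
  refine Algebra.adjoin_induction (p := fun z _ => ∃ e : ℕ, z * u ^ e ∈ A) ?_ ?_ ?_ ?_ hz
  · rintro x (hx | hx)
    · exact ⟨0, by simpa using hx⟩
    · refine ⟨1, ?_⟩
      rw [Set.mem_singleton_iff.1 hx, pow_one, inv_mul_cancel₀ hu0]
      exact A.one_mem
  · intro r
    exact ⟨0, by simp⟩
  · rintro x y - - ⟨e, he⟩ ⟨e', he'⟩
    refine ⟨e + e', ?_⟩
    have : (x + y) * u ^ (e + e') = (x * u ^ e) * u ^ e' + (y * u ^ e') * u ^ e := by ring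
    rw [this]
    exact A.add_mem (A.mul_mem he (A.pow_mem hu _)) (A.mul_mem he' (A.pow_mem hu _))
  · rintro x y - - ⟨e, he⟩ ⟨e', he'⟩
    refine ⟨e + e', ?_⟩
    have : (x * y) * u ^ (e + e') = (x * u ^ e) * (y * u ^ e') := by ring
    rw [this]
    exact A.mul_mem he he'

theorem le_Loc {K L : Type u} [Field K] [Field L] [Algebra K L] (A : Subalgebra K L) (u : L) :
    A ≤ Loc A u := fun _ hx => Algebra.subset_adjoin (Or.inl hx)

theorem incl_etale {K L : Type u} [Field K] [Field L] [Algebra K L] (A : Subalgebra K L) (u : L)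
    (hu : u ∈ A) (hu0 : u ≠ 0) : (Subalgebra.inclusion (le_Loc A u)).toRingHom.Etale := by
  let g : A →+* Loc A u := (Subalgebra.inclusion (le_Loc A u)).toRingHom
  have huA' : u⁻¹ ∈ Loc A u := Algebra.subset_adjoin (Or.inr rfl)
  let _ : Algebra A (Loc A u) := g.toAlgebra
  have hg : ∀ x : A, algebraMap A (Loc A u) x = g x := fun _ => rfl
  have hloc : IsLocalization.Away (⟨u, hu⟩ : A) (Loc A u) := by
    refine ⟨?_, ?_, ?_⟩
    · rintro ⟨_, n, rfl⟩
      rw [hg, map_pow]
      apply IsUnit.pow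
      refine IsUnit.of_mul_eq_one ⟨u⁻¹, huA'⟩ ?_
      apply Subtype.ext
      exact mul_inv_cancel₀ hu0
    · rintro ⟨z, hz⟩
      obtain ⟨e, he⟩ := exists_pow A u hu hu0 z hz
      refine ⟨(⟨z * u ^ e, he⟩, ⟨(⟨u, hu⟩ : A) ^ e, ⟨e, rfl⟩⟩), ?_⟩
      apply Subtype.ext
      rfl
    · intro x y h
      refine ⟨1, ?_⟩
      have h1 : (g x : L) = g y := congrArg Subtype.val h
      have h2 : x = y := Subtype.ext h1
      rw [h2]
  have := Algebra.Etale.of_isLocalizationAway (A := Loc A u) (⟨u, hu⟩ : A)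
  exact this

end ETL_

open ETL_ in
theorem ETL : Stmt_ETL.{u} := by
  intro K F _ _ _ A N t hE
  constructor
  · intro π
    have h2 : (rename (R := K) π : MvPolynomial (Fin N) K →ₐ[K] MvPolynomial (Fin N) K).toRingHom.Etale :=
      RingHom.Etale.of_bijective (rename_bij K N π)
    have h4 : MvPolynomial.aeval (R := K) (fun i => t (π i)) =
        (MvPolynomial.aeval (R := K) t).comp (rename (R := K) π) := by
      apply MvPolynomial.algHom_ext
      intro i
      simp only [AlgHom.comp_apply, MvPolynomial.aeval_X, rename_X]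
    change (MvPolynomial.aeval (R := K) (fun i => t (π i))).toRingHom.Etale
    rw [h4]
    exact RingHom.Etale.stableUnderComposition _ _ h2 hE
  · intro s hs hs0 t' ht'
    have h1 := incl_etale A s hs hs0
    have h4 : MvPolynomial.aeval (R := K) t' =
        (Subalgebra.inclusion (le_Loc A s)).comp (MvPolynomial.aeval (R := K) t) := by
      apply MvPolynomial.algHom_ext
      intro i
      simp only [AlgHom.comp_apply, MvPolynomial.aeval_X]
      apply Subtype.ext
      exact ht' i
    change (MvPolynomial.aeval (R := K) t').toRingHom.Etale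
    rw [h4]
    exact RingHom.Etale.stableUnderComposition _ _ hE h1

end

end Pool.Agent.DBX.GEN
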