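import Pool.Agent.DBX.GEN.Stmts

set_option autoImplicit false

namespace Pool.Agent.DBX.GEN

open Pool.Agent.DBX MvPolynomial TensorProduct

universe u

namespace ETQ_

/-- pushout along a surjection -/
theorem pushout_of_surj {R S R' S' : Type u} [CommRing R] [CommRing S] [CommRing R'] [CommRing S']
    [Algebra R S] [Algebra R R'] [Algebra R S'] [Algebra S S'] [Algebra R' S']
    [IsScalarTower R S S'] [IsScalarTower R R' S']
    (h1 : Function.Surjective (algebraMap R R')) (h2 : Function.Surjective (algebraMap S S'))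
    (h3 : ∀ s : S, algebraMap S S' s = 0 →
      s ∈ Ideal.map (algebraMap R S) (RingHom.ker (algebraMap R R'))) :
    Algebra.IsPushout R S R' S' := by
  refine ⟨?_⟩
  set f : R' →ₗ[R] S' := (IsScalarTower.toAlgHom R R' S').toLinearMap with hf
  set φ := TensorProduct.lift
    (((Algebra.linearMap S <| Module.End S (R' →ₗ[R] S')).flip f).restrictScalars R) with hφ
  have hφt : ∀ (s : S) (r : R'), φ (s ⊗ₜ r) = algebraMap S S' s * algebraMap R' S' r := by
    intro s r
    rw [hφ, TensorProduct.lift.tmul]
    show s • (algebraMap R' S' r) = _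
    rw [Algebra.smul_def]
  have key : ∀ z : S ⊗[R] R', ∃ s : S, z = s ⊗ₜ 1 := by
    intro z
    induction z with
    | zero => exact ⟨0, by rw [TensorProduct.zero_tmul]⟩
    | tmul s r' =>
      obtain ⟨r, rfl⟩ := h1 r'
      refine ⟨r • s, ?_⟩
      rw [TensorProduct.smul_tmul, Algebra.smul_def, mul_one]
    | add x y hx hy =>
      obtain ⟨s, rfl⟩ := hx
      obtain ⟨s', rfl⟩ := hy
      exact ⟨s + s', by rw [TensorProduct.add_tmul]⟩
  have hz : ∀ s ∈ Ideal.map (algebraMap R S) (RingHom.ker (algebraMap R R')),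
      (s ⊗ₜ 1 : S ⊗[R] R') = 0 := by
    intro s hs
    refine Submodule.span_induction ?_ ?_ ?_ ?_ hs
    · rintro _ ⟨r, hr, rfl⟩
      have hr' : algebraMap R R' r = 0 := hr
      have e1 : algebraMap R S r = r • (1 : S) := by rw [Algebra.smul_def, mul_one]
      rw [e1, TensorProduct.smul_tmul, Algebra.smul_def, mul_one, hr', TensorProduct.tmul_zero]
    · rw [TensorProduct.zero_tmul]
    · intro x y _ _ hx hy
      rw [TensorProduct.add_tmul, hx, hy, add_zero]
    · intro a x _ hx
      have e1 : ((a • x) ⊗ₜ 1 : S ⊗[R] R') = a • (x ⊗ₜ 1 : S ⊗[R] R') := by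
        rw [TensorProduct.smul_tmul']
      rw [e1, hx, smul_zero]
  show Function.Bijective φ
  constructor
  · rw [injective_iff_map_eq_zero]
    intro z h0
    obtain ⟨s, rfl⟩ := key z
    rw [hφt, map_one, mul_one] at h0
    exact hz s (h3 s h0)
  · intro y
    obtain ⟨s, rfl⟩ := h2 y
    exact ⟨s ⊗ₜ 1, by rw [hφt, map_one, mul_one]⟩

end ETQ_

theorem ETQ : Stmt_ETQ.{u} := by
  intro K A B _ _ _ _ _ N t s i ht hs hker
  -- the projection `X i ↦ 0`, `X (i.succAbove j) ↦ X j`
  let π : MvPolynomial (Fin (N + 1)) K →ₐ[K] MvPolynomial (Fin N) K :=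
    aeval (i.insertNth (α := fun _ => MvPolynomial (Fin N) K) 0 X)
  have hπi : π (X i) = 0 := by
    show aeval _ (X i) = _
    rw [aeval_X, Fin.insertNth_apply_same]
  have hπj : ∀ j, π (X (i.succAbove j)) = X j := by
    intro j
    show aeval _ (X (i.succAbove j)) = _
    rw [aeval_X, Fin.insertNth_apply_succAbove]
  let f : MvPolynomial (Fin (N + 1)) K →ₐ[K] A := aeval t
  let g : MvPolynomial (Fin N) K →ₐ[K] B := aeval (fun j : Fin N => s (t (i.succAbove j)))
  have hti : s (t i) = 0 := by
    have : t i ∈ RingHom.ker s := by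
      rw [hker]
      exact Ideal.subset_span rfl
    exact this
  have hcomm : g.comp π = s.comp f := by
    apply MvPolynomial.algHom_ext
    intro l
    rcases Fin.eq_self_or_eq_succAbove i l with h | ⟨j, h⟩
    · rw [h]
      show g (π (X i)) = s (f (X i))
      rw [hπi, map_zero, show f (X i) = t i from aeval_X _ _, hti]
    · rw [h]
      show g (π (X (i.succAbove j))) = s (f (X (i.succAbove j)))
      rw [hπj, show f (X (i.succAbove j)) = t (i.succAbove j) from aeval_X _ _]
      exact aeval_X _ _
  have hπs : Function.Surjective π := by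
    intro p
    refine ⟨rename i.succAbove p, ?_⟩
    have h1 : (π.comp (rename i.succAbove)) = AlgHom.id K (MvPolynomial (Fin N) K) := by
      apply MvPolynomial.algHom_ext
      intro j
      show π (rename i.succAbove (X j)) = X j
      rw [rename_X, hπj]
    exact congrArg (fun h : MvPolynomial (Fin N) K →ₐ[K] MvPolynomial (Fin N) K => h p) h1
  let a1 : Algebra (MvPolynomial (Fin (N + 1)) K) A := f.toRingHom.toAlgebra
  let a2 : Algebra (MvPolynomial (Fin (N + 1)) K) (MvPolynomial (Fin N) K) :=
    π.toRingHom.toAlgebra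
  let a3 : Algebra A B := s.toRingHom.toAlgebra
  let a4 : Algebra (MvPolynomial (Fin N) K) B := g.toRingHom.toAlgebra
  let a5 : Algebra (MvPolynomial (Fin (N + 1)) K) B := (s.comp f).toRingHom.toAlgebra
  have t1 : IsScalarTower (MvPolynomial (Fin (N + 1)) K) A B :=
    IsScalarTower.of_algebraMap_eq (fun x => rfl)
  have t2 : IsScalarTower (MvPolynomial (Fin (N + 1)) K) (MvPolynomial (Fin N) K) B :=
    IsScalarTower.of_algebraMap_eq (fun x => by
      show s.comp f x = g (π x)
      rw [← hcomm]
      rfl)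
  have hp : Algebra.IsPushout (MvPolynomial (Fin (N + 1)) K) A (MvPolynomial (Fin N) K) B := by
    apply ETQ_.pushout_of_surj
    · exact hπs
    · exact hs
    · intro a ha
      have h1 : a ∈ RingHom.ker s := ha
      rw [hker, Ideal.mem_span_singleton'] at h1
      obtain ⟨c, rfl⟩ := h1
      apply Ideal.mul_mem_left
      have h2 : t i = algebraMap (MvPolynomial (Fin (N + 1)) K) A (X i) := by
        show _ = aeval t (X i)
        rw [aeval_X]
      rw [h2]
      exact Ideal.mem_map_of_mem _ hπi
  have h := RingHom.Etale.isStableUnderBaseChange (MvPolynomial (Fin (N + 1)) K) A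
    (MvPolynomial (Fin N) K) B ht
  exact h

end Pool.Agent.DBX.GEN
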