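import Pool.Agent.DBX.GEN.Stmts

set_option autoImplicit false

namespace Pool.Agent.DBX.GEN

open Pool.Agent.DBX MvPolynomial

noncomputable section

universe u

namespace EVE_

variable (k : Type u) [Field k] (n : ℕ)

theorem emb_inc (p : Pol k (n + 1)) : emb k n (inc k (n + 1) p) = inc _ _ (bcP k n p) := by
  unfold emb
  exact IsLocalization.map_eq _ _

theorem cmp_emb : Cmp k n (emb k n) := by
  intro c
  have h1 : algebraMap k (Fr k (n + 1)) c = inc k (n + 1) (C c) := by
    rw [← MvPolynomial.algebraMap_eq]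
    exact IsScalarTower.algebraMap_apply k (Pol k (n + 1)) (Fr k (n + 1)) c
  have h2 : algebraMap (Kx k n) (Fr (Kx k n) (n + 1)) (algebraMap k (Kx k n) c) =
      inc (Kx k n) (n + 1) (C (algebraMap k (Kx k n) c)) := by
    rw [← MvPolynomial.algebraMap_eq]
    exact IsScalarTower.algebraMap_apply (Kx k n) (Pol (Kx k n) (n + 1)) (Fr (Kx k n) (n + 1)) _
  rw [h1, h2, emb_inc]
  congr 1
  unfold bcP
  exact MvPolynomial.map_C _ _

theorem emb_inc_X (j : Fin (n + 1)) : emb k n (xx k n j) = inc (Kx k n) (n + 1) (X j) := by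
  unfold xx
  rw [emb_inc]
  congr 1
  unfold bcP
  exact MvPolynomial.map_X _ _

theorem inc_C_vv (i : Fin n) : inc (Kx k n) (n + 1) (C (vv k n i)) =
    algebraMap (Kx k n) (Fr (Kx k n) (n + 1)) (vv k n i) := by
  rw [← MvPolynomial.algebraMap_eq]
  exact (IsScalarTower.algebraMap_apply (Kx k n) (Pol (Kx k n) (n + 1)) (Fr (Kx k n) (n + 1)) _).symm

/-- `S[v] → k[v][x] → k'[x] → F'` -/
def Psi : MvPolynomial (Fin n) (Pol k (n + 1)) →+* Fr (Kx k n) (n + 1) :=
  (inc (Kx k n) (n + 1)).comp
    ((MvPolynomial.map (algebraMap (MvPolynomial (Fin n) k) (Kx k n))).comp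
      ((commAlgEquiv k (Fin n) (Fin (n + 1))).toRingEquiv.toRingHom))

theorem Psi_inj : Function.Injective (Psi k n) := by
  unfold Psi
  rw [RingHom.coe_comp, RingHom.coe_comp]
  refine (IsFractionRing.injective _ _).comp
    ((MvPolynomial.map_injective _ (IsFractionRing.injective _ _)).comp ?_)
  exact (commAlgEquiv k (Fin n) (Fin (n + 1))).injective

theorem Psi_eq : (evj k n (emb k n)).comp (MvPolynomial.map (inc k (n + 1))) = Psi k n := by
  apply MvPolynomial.ringHom_ext
  · intro p
    have h1 : ((evj k n (emb k n)).comp (MvPolynomial.map (inc k (n + 1)))) (C p) =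
        emb k n (inc k (n + 1) p) := by
      rw [RingHom.comp_apply, MvPolynomial.map_C]
      exact MvPolynomial.eval₂Hom_C _ _ _
    rw [h1, emb_inc]
    unfold Psi
    rw [RingHom.comp_apply, RingHom.comp_apply]
    congr 1
    have h2 : (commAlgEquiv k (Fin n) (Fin (n + 1))).toRingEquiv.toRingHom (C p) =
        MvPolynomial.map C p := commAlgEquiv_C p
    rw [h2, MvPolynomial.map_map]
    unfold bcP
    congr 1
  · intro i
    have h1 : ((evj k n (emb k n)).comp (MvPolynomial.map (inc k (n + 1)))) (X i) =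
        algebraMap (Kx k n) (Fr (Kx k n) (n + 1)) (vv k n i) := by
      rw [RingHom.comp_apply, MvPolynomial.map_X]
      exact MvPolynomial.eval₂Hom_X' _ _ _
    rw [h1]
    unfold Psi
    rw [RingHom.comp_apply, RingHom.comp_apply]
    have h2 : (commAlgEquiv k (Fin n) (Fin (n + 1))).toRingEquiv.toRingHom (X i) =
        C (X i) := commAlgEquiv_X i
    rw [h2, MvPolynomial.map_C, ← inc_C_vv]
    rfl

theorem evj_inj (P : MvPolynomial (Fin n) (Fr k (n + 1))) (h : evj k n (emb k n) P = 0) :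
    P = 0 := by
  classical
  obtain ⟨b, hb⟩ := IsLocalization.exist_integer_multiples_of_finset
    (nonZeroDivisors (Pol k (n + 1))) (P.support.image (fun m => P.coeff m))
  have hb' : ∀ m ∈ P.support, ∃ c : Pol k (n + 1),
      inc k (n + 1) c = inc k (n + 1) (b : Pol k (n + 1)) * P.coeff m := by
    intro m hm
    obtain ⟨c, hc⟩ := hb (P.coeff m) (Finset.mem_image_of_mem _ hm)
    refine ⟨c, ?_⟩
    rw [Algebra.smul_def] at hc
    exact hc
  choose! c hc using hb'
  have hP1 : MvPolynomial.map (inc k (n + 1)) (∑ m ∈ P.support, monomial m (c m)) =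
      C (inc k (n + 1) (b : Pol k (n + 1))) * P := by
    conv_rhs => rw [P.as_sum]
    rw [map_sum, Finset.mul_sum]
    refine Finset.sum_congr rfl (fun m hm => ?_)
    rw [MvPolynomial.map_monomial, C_mul_monomial, hc m hm]
  have h1 : Psi k n (∑ m ∈ P.support, monomial m (c m)) = 0 := by
    rw [← Psi_eq, RingHom.comp_apply, hP1, map_mul, h, mul_zero]
  have h2 : (∑ m ∈ P.support, monomial m (c m)) = 0 := by
    apply Psi_inj
    rw [h1, map_zero]
  rw [h2, map_zero] at hP1
  have hb0 : (C (inc k (n + 1) (b : Pol k (n + 1))) : MvPolynomial (Fin n) (Fr k (n + 1))) ≠ 0 := by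
    intro h0
    have h3 : inc k (n + 1) (b : Pol k (n + 1)) = 0 := by
      apply MvPolynomial.C_injective (Fin n) (Fr k (n + 1))
      rw [h0, map_zero]
    exact inc_ne (nonZeroDivisors.coe_ne_zero b) h3
  exact (mul_eq_zero.1 hP1.symm).resolve_left hb0

theorem evj_lv : evj k n (emb k n) (lv k n) = inc _ _ (lgen k n) := by
  unfold lv lgen
  rw [map_sub, map_sub, map_sum, map_sum]
  congr 1
  · have : evj k n (emb k n) (C (xx k n (Fin.last n))) = emb k n (xx k n (Fin.last n)) :=
      MvPolynomial.eval₂Hom_C _ _ _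
    rw [this, emb_inc_X]
  · refine Finset.sum_congr rfl (fun i _ => ?_)
    rw [map_mul, map_mul]
    have h1 : evj k n (emb k n) (C (xx k n i.castSucc)) = emb k n (xx k n i.castSucc) :=
      MvPolynomial.eval₂Hom_C _ _ _
    have h2 : evj k n (emb k n) (X i) = algebraMap (Kx k n) (Fr (Kx k n) (n + 1)) (vv k n i) :=
      MvPolynomial.eval₂Hom_X' _ _ _
    rw [h1, h2, emb_inc_X, inc_C_vv, mul_comm]

end EVE_

theorem EVE : Stmt_EVE.{u} := by
  intro k _ n
  exact ⟨EVE_.cmp_emb k n, EVE_.emb_inc k n, EVE_.evj_inj k n, EVE_.evj_lv k n⟩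

end

end Pool.Agent.DBX.GEN
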