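import Pool.Agent.DBX.GEN.Stmts

set_option autoImplicit false

/-! # EVI: facts on `iot` -/

namespace Pool.Agent.DBX.GEN

open Pool.Agent.DBX MvPolynomial

noncomputable section

universe u

namespace EVI_

variable (k : Type u) [Field k] (n : ℕ)

/-- `k[v][x_0..x_{n-1}]` -/
abbrev A2 : Type u := MvPolynomial (Fin n) (MvPolynomial (Fin n) k)

/-- `S → k[v][x]` -/
def psi0 : Pol k (n + 1) →+* A2 k n :=
  eval₂Hom ((C : MvPolynomial (Fin n) k →+* A2 k n).comp C)
    (Fin.snoc (α := fun _ => A2 k n) X (∑ i, C (X i) * X i))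

/-- `S[v] → k[v][x]` -/
def Psi : MvPolynomial (Fin n) (Pol k (n + 1)) →+* A2 k n :=
  eval₂Hom (psi0 k n) (fun i => C (X i))

/-- `k[v][x] → k'(x)` -/
def incl : A2 k n →+* Fr (Kx k n) n :=
  (inc (Kx k n) n).comp (MvPolynomial.map (algebraMap (MvPolynomial (Fin n) k) (Kx k n)))

lemma incl_injective : Function.Injective (incl k n) := by
  have h1 : Function.Injective (MvPolynomial.map (σ := Fin n)
      (algebraMap (MvPolynomial (Fin n) k) (Kx k n))) :=
    MvPolynomial.map_injective _ (IsFractionRing.injective _ _)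
  have h2 : Function.Injective (inc (Kx k n) n) := IsFractionRing.injective _ _
  exact h2.comp h1

/-- the image of `v_b` under `rho b` -/
def vb (b : Fin n) : MvPolynomial (Fin n) (Fr k (n + 1)) :=
  C (xx k n b.castSucc)⁻¹ *
    (C (xx k n (Fin.last n)) - ∑ i ∈ Finset.univ.erase b, C (xx k n i.castSucc) * X i)

lemma rho_X (b i : Fin n) : rho k n b (X i) = if i = b then vb k n b else X i := by
  simp only [rho, aeval_X, vb]

lemma xx_ne (i : Fin (n + 1)) : xx k n i ≠ 0 := inc_ne (X_ne_zero i)

lemma sum_split (b : Fin n) : (∑ i : Fin n, rho k n b (X i) * C (xx k n i.castSucc)) =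
    C (xx k n (Fin.last n)) := by
  rw [← Finset.add_sum_erase _ _ (Finset.mem_univ b)]
  rw [rho_X, if_pos rfl]
  have h1 : ∑ i ∈ Finset.univ.erase b, rho k n b (X i) * C (xx k n i.castSucc) =
      ∑ i ∈ Finset.univ.erase b, C (xx k n i.castSucc) * X i := by
    apply Finset.sum_congr rfl
    intro i hi
    rw [rho_X, if_neg (Finset.ne_of_mem_erase hi), mul_comm]
  rw [h1, vb]
  have h2 : (C (xx k n b.castSucc)⁻¹ : MvPolynomial (Fin n) (Fr k (n + 1))) *
      C (xx k n b.castSucc) = 1 := by
    rw [← C_mul, inv_mul_cancel₀ (xx_ne k n _), C_1]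
  linear_combination (C (xx k n (Fin.last n)) -
    ∑ i ∈ Finset.univ.erase b, C (xx k n i.castSucc) * X i) * h2

/-- `k[v] → F[v]` -/
def theta0 (b : Fin n) : MvPolynomial (Fin n) k →+* MvPolynomial (Fin n) (Fr k (n + 1)) :=
  eval₂Hom ((C : Fr k (n + 1) →+* MvPolynomial (Fin n) (Fr k (n + 1))).comp
    (algebraMap k (Fr k (n + 1)))) (fun i => rho k n b (X i))

/-- `k[v][x] → F[v]` -/
def Theta (b : Fin n) : A2 k n →+* MvPolynomial (Fin n) (Fr k (n + 1)) :=
  eval₂Hom (theta0 k n b) (fun j => C (xx k n j.castSucc))

lemma phi_C (c : k) : phi k n (C c) = C (algebraMap k (Kx k n) c) := by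
  simp [phi, bcP, secP]

lemma phi_X (i : Fin n) : phi k n (X i.castSucc) = X i := by
  simp [phi, bcP, secP]

lemma phi_last : phi k n (X (Fin.last n)) = ∑ i, C (vv k n i) * X i := by
  simp [phi, bcP, secP]

lemma incl_Psi (iot : Fr k (n + 1) →+* Fr (Kx k n) n) (hi : IsIot iot)
    (P : MvPolynomial (Fin n) (Pol k (n + 1))) :
    incl k n (Psi k n P) = evj k n iot (MvPolynomial.map (inc k (n + 1)) P) := by
  have h : (incl k n).comp (Psi k n) =
      (evj k n iot).comp (MvPolynomial.map (inc k (n + 1))) := by
    apply MvPolynomial.ringHom_ext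
    · intro z
      have hz : (incl k n).comp (psi0 k n) = (inc (Kx k n) n).comp (phi k n) := by
        apply MvPolynomial.ringHom_ext
        · intro c
          simp only [RingHom.comp_apply, phi_C, psi0, coe_eval₂Hom, eval₂_C, incl, map_C]
          rfl
        · intro i
          refine Fin.lastCases ?_ (fun i => ?_) i
          · simp only [RingHom.comp_apply, phi_last, psi0, coe_eval₂Hom, eval₂_X, incl,
              Fin.snoc_last, map_sum, map_mul, map_C, map_X]
            rfl
          · simp only [RingHom.comp_apply, phi_X, psi0, coe_eval₂Hom, eval₂_X, incl,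
              Fin.snoc_castSucc, map_X]
      have h1 := RingHom.congr_fun hz z
      simp only [RingHom.comp_apply] at h1
      simp only [RingHom.comp_apply, Psi, coe_eval₂Hom, eval₂_C, map_C, evj, h1]
      exact (hi z).symm
    · intro i
      simp only [RingHom.comp_apply, Psi, coe_eval₂Hom, eval₂_X, map_X, evj, incl, map_C]
      rfl
  exact RingHom.congr_fun h P

lemma Theta_Psi (b : Fin n) (P : MvPolynomial (Fin n) (Pol k (n + 1))) :
    Theta k n b (Psi k n P) = rho k n b (MvPolynomial.map (inc k (n + 1)) P) := by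
  have h : (Theta k n b).comp (Psi k n) =
      (rho k n b).toRingHom.comp (MvPolynomial.map (inc k (n + 1))) := by
    apply MvPolynomial.ringHom_ext
    · intro z
      have hz : (Theta k n b).comp (psi0 k n) =
          (C : Fr k (n + 1) →+* MvPolynomial (Fin n) (Fr k (n + 1))).comp (inc k (n + 1)) := by
        apply MvPolynomial.ringHom_ext
        · intro c
          simp only [RingHom.comp_apply, psi0, coe_eval₂Hom, eval₂_C, Theta, theta0]
          rfl
        · intro i
          refine Fin.lastCases ?_ (fun i => ?_) i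
          · simp only [RingHom.comp_apply, psi0, coe_eval₂Hom, eval₂_X, Theta, theta0,
              Fin.snoc_last, eval₂_sum, eval₂_mul, eval₂_C]
            exact sum_split k n b
          · simp only [RingHom.comp_apply, psi0, coe_eval₂Hom, eval₂_X, Theta,
              Fin.snoc_castSucc]
            rfl
      have h1 := RingHom.congr_fun hz z
      simp only [RingHom.comp_apply] at h1
      simp only [RingHom.comp_apply, Psi, coe_eval₂Hom, eval₂_C, map_C, h1]
      exact (algHom_C (rho k n b) _).symm
    · intro i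
      simp only [RingHom.comp_apply, Psi, coe_eval₂Hom, eval₂_X, map_X, Theta, eval₂_C, theta0]
      rfl
  exact RingHom.congr_fun h P

end EVI_

theorem EVI : Stmt_EVI.{u} := by
  intro k _ n iot hi
  have hcmp : Cmp k n iot := by
    intro c
    have h1 : algebraMap k (Fr k (n + 1)) c = inc k (n + 1) (C c) := rfl
    rw [h1, hi, EVI_.phi_C]
    rfl
  have hX : ∀ i : Fin n, iot (xx k n i.castSucc) = inc _ _ (X i) := by
    intro i
    rw [xx, hi, EVI_.phi_X]
  have hlast : iot (xx k n (Fin.last n)) =
      ∑ i, algebraMap (Kx k n) (Fr (Kx k n) n) (vv k n i) * iot (xx k n i.castSucc) := by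
    rw [xx, hi, EVI_.phi_last, map_sum]
    apply Finset.sum_congr rfl
    intro i _
    rw [hX, map_mul]
    rfl
  refine ⟨hcmp, ?_, ?_⟩
  · intro b P
    have h : (evj k n iot).comp (rho k n b).toRingHom = evj k n iot := by
      apply MvPolynomial.ringHom_ext
      · intro z
        have : (rho k n b).toRingHom (C z) = C z := algHom_C (rho k n b) z
        rw [RingHom.comp_apply, this]
      · intro i
        have h0 : (rho k n b).toRingHom (X i) = rho k n b (X i) := rfl
        rw [RingHom.comp_apply, h0, EVI_.rho_X]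
        by_cases hib : i = b
        · subst hib
          rw [if_pos rfl]
          have hne : iot (xx k n i.castSucc) ≠ 0 :=
            (map_ne_zero iot).2 (EVI_.xx_ne k n _)
          have h1 : evj k n iot (EVI_.vb k n i) = (iot (xx k n i.castSucc))⁻¹ *
              (iot (xx k n (Fin.last n)) - ∑ j ∈ Finset.univ.erase i,
                iot (xx k n j.castSucc) * algebraMap (Kx k n) (Fr (Kx k n) n) (vv k n j)) := by
            simp only [EVI_.vb, evj, map_mul, map_sub, map_sum, coe_eval₂Hom, eval₂_C, eval₂_X,
              map_inv₀]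
          have h2 : evj k n iot (X i) = algebraMap (Kx k n) (Fr (Kx k n) n) (vv k n i) := by
            simp only [evj, coe_eval₂Hom, eval₂_X]
          rw [h1, h2, hlast, ← Finset.add_sum_erase _ _ (Finset.mem_univ i)]
          have h3 : ∑ j ∈ Finset.univ.erase i,
                algebraMap (Kx k n) (Fr (Kx k n) n) (vv k n j) * iot (xx k n j.castSucc) =
              ∑ j ∈ Finset.univ.erase i,
                iot (xx k n j.castSucc) * algebraMap (Kx k n) (Fr (Kx k n) n) (vv k n j) :=
            Finset.sum_congr rfl (fun j _ => mul_comm _ _)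
          rw [h3, add_sub_cancel_right]
          field_simp
        · rw [if_neg hib]
    exact RingHom.congr_fun h P
  · intro b P hP
    let alg : Algebra (MvPolynomial (Fin n) (Pol k (n + 1)))
      (MvPolynomial (Fin n) (Fr k (n + 1))) := MvPolynomial.algebraMvPolynomial
    have : IsLocalization ((nonZeroDivisors (Pol k (n + 1))).map
        (C : Pol k (n + 1) →+* MvPolynomial (Fin n) (Pol k (n + 1))))
        (MvPolynomial (Fin n) (Fr k (n + 1))) :=
      MvPolynomial.isLocalization (nonZeroDivisors (Pol k (n + 1))) (Fr k (n + 1))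
    obtain ⟨⟨P1, ⟨s, hs⟩⟩, hPs⟩ := IsLocalization.surj
      ((nonZeroDivisors (Pol k (n + 1))).map
        (C : Pol k (n + 1) →+* MvPolynomial (Fin n) (Pol k (n + 1)))) P
    obtain ⟨s0, hs0, rfl⟩ := hs
    have e1 : P * C (inc k (n + 1) s0) = MvPolynomial.map (inc k (n + 1)) P1 := by
      have := hPs
      simp only [MvPolynomial.algebraMap_def, map_C] at this
      exact this
    have hs0' : s0 ≠ 0 := nonZeroDivisors.ne_zero hs0
    have e2 : evj k n iot (MvPolynomial.map (inc k (n + 1)) P1) = 0 := by
      rw [← e1, map_mul, hP, zero_mul]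
    rw [← EVI_.incl_Psi k n iot hi] at e2
    have e3 : EVI_.Psi k n P1 = 0 := by
      apply EVI_.incl_injective k n
      rw [e2, map_zero]
    have e4 : rho k n b (MvPolynomial.map (inc k (n + 1)) P1) = 0 := by
      rw [← EVI_.Theta_Psi, e3, map_zero]
    rw [← e1, map_mul] at e4
    rcases mul_eq_zero.1 e4 with h | h
    · exact h
    · exfalso
      have h5 : rho k n b (C (inc k (n + 1) s0)) = C (inc k (n + 1) s0) := algHom_C _ _
      rw [h5] at h
      have h6 : inc k (n + 1) s0 = 0 := by
        have := C_eq_zero.1 h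
        exact this
      exact inc_ne hs0' h6

end

end Pool.Agent.DBX.GEN
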