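import Pool.Agent.DBX.GEN.Stmts

set_option autoImplicit false

/-! # DBX, area GEN, module EXA: extension of subalgebras and ideals -/

namespace Pool.Agent.DBX.GEN

open Pool.Agent.DBX MvPolynomial

noncomputable section

universe u

namespace EXA_

variable {k : Type u} [Field k] (n : ℕ) {F G : Type u} [Field F] [Field G] [Algebra k F]
  [Algebra (Kx k n) G] (j : F →+* G)

theorem mem_exA (A : Subalgebra k F) (a : F) (ha : a ∈ A) : j a ∈ exA n j A :=
  Algebra.subset_adjoin ⟨a, ha, rfl⟩

/-- `j` as a map to `exA` -/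
def jA (A : Subalgebra k F) : A →+* exA n j A :=
  (j.comp A.val.toRingHom).codRestrict (exA n j A) (fun x => mem_exA n j A x x.2)

theorem jA_coe (A : Subalgebra k F) (x : A) : ((jA n j A x : exA n j A) : G) = j x := rfl

theorem exA_toSubmodule (A : Subalgebra k F) :
    Subalgebra.toSubmodule (exA n j A) = exM n j (Subalgebra.toSubmodule A) := by
  unfold exA exM
  rw [Algebra.adjoin_eq_span]
  congr 1
  have h : (j '' (A : Set F)) = ((A.toSubsemiring.toSubmonoid.map j : Submonoid G) : Set G) := by
    ext z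
    simp
  rw [h, Submonoid.closure_eq, ← h]
  rfl

theorem mul_exM (A : Subalgebra k F) (J : Ideal A) (r z : G)
    (hr : r ∈ exM n j (Subalgebra.toSubmodule A)) (hz : z ∈ exM n j (toF A J)) :
    r * z ∈ exM n j (toF A J) := by
  unfold exM at hr
  induction hr using Submodule.span_induction with
  | mem r hr =>
    obtain ⟨a, ha, rfl⟩ := hr
    unfold exM at hz
    induction hz using Submodule.span_induction with
    | mem z hz =>
      obtain ⟨y, ⟨w, hw, rfl⟩, rfl⟩ := hz
      refine Submodule.subset_span ⟨a * (w : F), ⟨(⟨a, ha⟩ : A) * w, J.mul_mem_left _ hw, rfl⟩, ?_⟩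
      exact map_mul j _ _
    | zero => rw [mul_zero]; exact Submodule.zero_mem _
    | add x y _ _ h1 h2 => rw [mul_add]; exact Submodule.add_mem _ h1 h2
    | smul c x _ h1 => rw [mul_smul_comm]; exact Submodule.smul_mem _ _ h1
  | zero => rw [zero_mul]; exact Submodule.zero_mem _
  | add x y _ _ h1 h2 => rw [add_mul]; exact Submodule.add_mem _ h1 h2
  | smul c x _ h1 => rw [smul_mul_assoc]; exact Submodule.smul_mem _ _ h1

end EXA_

theorem EXA : Stmt_EXA.{u} := by
  intro k _ n F G _ _ _ _ j hj A
  have h1 : ∀ z, z ∈ exA n j A ↔ z ∈ exM n j (Subalgebra.toSubmodule A) := by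
    intro z
    rw [← EXA_.exA_toSubmodule]
    rfl
  refine ⟨h1, ?_, ?_, ?_⟩
  · intro J
    apply le_antisymm
    · rintro z ⟨w, hw, rfl⟩
      change ((w : exA n j A) : G) ∈ exM n j (toF A J)
      have hw' : w ∈ Ideal.span {z : exA n j A | (z : G) ∈ j '' (toF A J : Set F)} := hw
      induction hw' using Submodule.span_induction with
      | mem w hw' => exact Submodule.subset_span hw'
      | zero => exact Submodule.zero_mem _
      | add x y hx hy ihx ihy =>
        exact Submodule.add_mem _ (ihx hx) (ihy hy)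
      | smul r x hx ihx =>
        exact EXA_.mul_exM n j A J r x ((h1 _).1 r.2) (ihx hx)
    · unfold exM
      rw [Submodule.span_le]
      rintro _ ⟨y, hy, rfl⟩
      obtain ⟨w, hw, rfl⟩ := hy
      refine ⟨EXA_.jA n j A w, Ideal.subset_span ⟨(w : F), ⟨w, hw, rfl⟩, rfl⟩, rfl⟩
  · intro S
    apply le_antisymm
    · unfold exA
      apply Algebra.adjoin_le
      rintro _ ⟨a, ha, rfl⟩
      change a ∈ Algebra.adjoin k S at ha
      induction ha using Algebra.adjoin_induction with
      | mem x hx => exact Algebra.subset_adjoin ⟨x, hx, rfl⟩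
      | algebraMap r =>
        rw [hj]
        exact Subalgebra.algebraMap_mem _ _
      | add x y _ _ h1 h2 => rw [map_add]; exact add_mem h1 h2
      | mul x y _ _ h1 h2 => rw [map_mul]; exact mul_mem h1 h2
    · apply Algebra.adjoin_mono
      exact Set.image_mono Algebra.subset_adjoin
  · intro S hS
    apply le_antisymm
    · apply Ideal.span_mono
      rintro z ⟨s, hs, hz⟩
      exact ⟨s, ⟨⟨s, hS hs⟩, Ideal.subset_span hs, rfl⟩, hz⟩
    · unfold genIn
      rw [Ideal.span_le]
      rintro z ⟨y, ⟨w, hw, rfl⟩, hz⟩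
      have h2 : genIn A S ≤ (genIn (exA n j A) (j '' S)).comap (EXA_.jA n j A) := by
        unfold genIn
        rw [Ideal.span_le]
        intro w hw
        exact Ideal.subset_span ⟨(w : F), hw, rfl⟩
      have h3 : EXA_.jA n j A w ∈ genIn (exA n j A) (j '' S) := h2 hw
      have h4 : z = EXA_.jA n j A w := Subtype.ext hz.symm
      rw [h4]
      exact h3

end

end Pool.Agent.DBX.GEN
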