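import Pool.Agent.DBX.GEN.Stmts

set_option autoImplicit false

/-! # MP_2c751f_ag, squad DBX, area GEN, module FLT: flatness outside the irrelevant ideal -/

namespace Pool.Agent.DBX.GEN

open Pool.Agent.DBX MvPolynomial

noncomputable section

universe u

namespace FLT_

variable (k : Type u) [Field k] (n : ℕ)

/-- `k[v][x]` -/
abbrev R1 : Type u := MvPolynomial (Fin n) (MvPolynomial (Fin n) k)

/-- `S[v_i : i ≠ b]` -/
abbrev TT (b : Fin n) : Type u := MvPolynomial {i : Fin n // i ≠ b} (Pol k (n + 1))

/-- `S → k[v][x]` -/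
def phi1 : Pol k (n + 1) →+* R1 k n :=
  eval₂Hom (C.comp C) (Fin.snoc (α := fun _ => R1 k n) X (∑ i, C (X i) * X i))

/-- `k[v][x] → k'[x]` -/
def toK : R1 k n →+* Pol (Kx k n) n :=
  MvPolynomial.map (algebraMap (MvPolynomial (Fin n) k) (Kx k n))

theorem toK_phi1 : (toK k n).comp (phi1 k n) = phi k n := by
  apply MvPolynomial.ringHom_ext
  · intro c
    simp only [RingHom.comp_apply, phi1, toK, phi, secP, bcP, eval₂Hom_C, map_C]
    change C _ = (MvPolynomial.aeval _) (C (algebraMap k (Kx k n) c))
    rw [MvPolynomial.aeval_C]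
    rfl
  · intro i
    simp only [RingHom.comp_apply, phi1, toK, phi, secP, bcP, eval₂Hom_X', map_X]
    change _ = (MvPolynomial.aeval _) (X i)
    rw [MvPolynomial.aeval_X]
    refine Fin.lastCases ?_ (fun j => ?_) i
    · rw [Fin.snoc_last, Fin.snoc_last, map_sum]
      refine Finset.sum_congr rfl fun j _ => ?_
      rw [map_mul, map_C, map_X]
      rfl
    · rw [Fin.snoc_castSucc, Fin.snoc_castSucc, map_X]

variable (b : Fin n)

/-- `T → k[v][x]` -/
def tau : TT k n b →+* R1 k n := eval₂Hom (phi1 k n) (fun i => C (X i.1))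

/-- images of the `v_i` in `Frac T` -/
def V (i : Fin n) : FractionRing (TT k n b) :=
  if h : i ≠ b then algebraMap (TT k n b) _ (X ⟨i, h⟩) else 0

/-- images of the `x_i` in `Frac T` -/
def xT (i : Fin (n + 1)) : FractionRing (TT k n b) := algebraMap (TT k n b) _ (C (X i))

/-- images of all `v_i` in `Frac T` -/
def W (i : Fin n) : FractionRing (TT k n b) :=
  if i = b then (xT k n b (Fin.last n) - ∑ j ∈ Finset.univ.erase b, V k n b j *
    xT k n b j.castSucc) / xT k n b b.castSucc else V k n b i

theorem xT_ne (i : Fin (n + 1)) : xT k n b i ≠ 0 := by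
  unfold xT
  rw [Ne, IsFractionRing.to_map_eq_zero_iff, ← Ne, Ne, MvPolynomial.C_eq_zero]
  exact X_ne_zero i

/-- `k → Frac T` -/
def kT : k →+* FractionRing (TT k n b) := (algebraMap (TT k n b) _).comp (C.comp C)

/-- `k[v][x] → Frac T` -/
def Th : R1 k n →+* FractionRing (TT k n b) :=
  eval₂Hom (eval₂Hom (kT k n b) (W k n b)) (fun j => xT k n b j.castSucc)

theorem Th_tau : (Th k n b).comp (tau k n b) = algebraMap (TT k n b) _ := by
  have hS : ((Th k n b).comp (phi1 k n)) =
      (algebraMap (TT k n b) (FractionRing (TT k n b))).comp C := by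
    apply MvPolynomial.ringHom_ext
    · intro c
      simp only [RingHom.comp_apply, phi1, Th, eval₂Hom_C, kT]
    · intro i
      simp only [RingHom.comp_apply, phi1, eval₂Hom_X']
      refine Fin.lastCases ?_ (fun j => ?_) i
      · rw [Fin.snoc_last, map_sum]
        have h1 : ∀ j : Fin n, (Th k n b) (C (X j) * X j) = W k n b j * xT k n b j.castSucc := by
          intro j
          rw [map_mul]
          simp only [Th, eval₂Hom_C, eval₂Hom_X']
        rw [Finset.sum_congr rfl fun j _ => h1 j, ← Finset.add_sum_erase _ _ (Finset.mem_univ b)]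
        have h2 : ∑ j ∈ Finset.univ.erase b, W k n b j * xT k n b j.castSucc =
            ∑ j ∈ Finset.univ.erase b, V k n b j * xT k n b j.castSucc := by
          refine Finset.sum_congr rfl fun j hj => ?_
          rw [W, if_neg (Finset.ne_of_mem_erase hj)]
        rw [h2, W, if_pos rfl, div_mul_cancel₀ _ (xT_ne k n b _)]
        rw [sub_add_cancel]
        rfl
      · rw [Fin.snoc_castSucc]
        simp only [Th, eval₂Hom_X']
        rfl
  apply MvPolynomial.ringHom_ext
  · intro s
    have := congrArg (fun f => f s) hS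
    simp only [RingHom.comp_apply] at this ⊢
    rw [tau, eval₂Hom_C]
    exact this
  · intro i
    simp only [RingHom.comp_apply, tau, eval₂Hom_X']
    simp only [Th, eval₂Hom_C, eval₂Hom_X']
    rw [W, if_neg i.2, V, dif_pos i.2]

theorem tau_injective : Function.Injective (tau k n b) := by
  have h1 : Function.Injective (algebraMap (TT k n b) (FractionRing (TT k n b))) :=
    IsFractionRing.injective _ _
  rw [← Th_tau k n b, RingHom.coe_comp] at h1
  exact Function.Injective.of_comp h1

theorem tau_C (s : Pol k (n + 1)) : tau k n b (C s) = phi1 k n s := by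
  rw [tau, eval₂Hom_C]

theorem phi1_last : phi1 k n (X (Fin.last n)) = ∑ i, C (X i) * X i := by
  rw [phi1, eval₂Hom_X', Fin.snoc_last]

theorem phi1_cast (j : Fin n) : phi1 k n (X j.castSucc) = X j := by
  rw [phi1, eval₂Hom_X', Fin.snoc_castSucc]

theorem surj (r : R1 k n) : ∃ (M : ℕ) (t : TT k n b), X b ^ M * r = tau k n b t := by
  have hadd : ∀ p q : R1 k n, (∃ (M : ℕ) (t : TT k n b), X b ^ M * p = tau k n b t) →
      (∃ (M : ℕ) (t : TT k n b), X b ^ M * q = tau k n b t) →
      ∃ (M : ℕ) (t : TT k n b), X b ^ M * (p + q) = tau k n b t := by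
    rintro p q ⟨M, t, h⟩ ⟨M', t', h'⟩
    refine ⟨M + M', C (X b.castSucc) ^ M' * t + C (X b.castSucc) ^ M * t', ?_⟩
    rw [map_add, map_mul, map_mul, map_pow, map_pow, tau_C, phi1_cast, ← h, ← h']
    ring
  have hmul : ∀ p q : R1 k n, (∃ (M : ℕ) (t : TT k n b), X b ^ M * p = tau k n b t) →
      (∃ (M : ℕ) (t : TT k n b), X b ^ M * q = tau k n b t) →
      ∃ (M : ℕ) (t : TT k n b), X b ^ M * (p * q) = tau k n b t := by
    rintro p q ⟨M, t, h⟩ ⟨M', t', h'⟩
    refine ⟨M + M', t * t', ?_⟩
    rw [map_mul, ← h, ← h']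
    ring
  have hC : ∀ c : MvPolynomial (Fin n) k,
      ∃ (M : ℕ) (t : TT k n b), X b ^ M * (C c : R1 k n) = tau k n b t := by
    intro c
    induction c using MvPolynomial.induction_on with
    | C a =>
      refine ⟨0, C (C a), ?_⟩
      rw [tau_C, phi1, eval₂Hom_C, pow_zero, one_mul]
      rfl
    | add p q hp hq =>
      rw [map_add]
      exact hadd _ _ hp hq
    | mul_X p i hp =>
      rw [map_mul]
      refine hmul _ _ hp ?_
      by_cases hi : i = b
      · subst hi
        refine ⟨1, C (X (Fin.last n)) - ∑ j : {j : Fin n // j ≠ i}, X j *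
          C (X j.1.castSucc), ?_⟩
        rw [map_sub, map_sum, tau_C, phi1_last, pow_one,
          ← Finset.add_sum_erase _ _ (Finset.mem_univ i)]
        have h1 : ∑ j : {j : Fin n // j ≠ i}, tau k n i (X j * C (X j.1.castSucc)) =
            ∑ j ∈ Finset.univ.erase i, (C (X j) * X j : R1 k n) := by
          have h2 : ∀ j : {j : Fin n // j ≠ i}, tau k n i (X j * C (X j.1.castSucc)) =
              (C (X j.1) * X j.1 : R1 k n) := by
            intro j
            rw [map_mul, tau_C, phi1_cast, tau, eval₂Hom_X']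
          rw [Finset.sum_congr rfl fun j _ => h2 j]
          rw [← Finset.sum_subtype (Finset.univ.erase i) (p := fun j => j ≠ i)
            (f := fun j => (C (X j) * X j : R1 k n))]
          intro j
          simp
        rw [h1, add_sub_cancel_right, mul_comm]
      · refine ⟨0, X ⟨i, hi⟩, ?_⟩
        rw [tau, eval₂Hom_X', pow_zero, one_mul]
  induction r using MvPolynomial.induction_on with
  | C c => exact hC c
  | add p q hp hq => exact hadd _ _ hp hq
  | mul_X p i hp =>
    refine hmul _ _ hp ⟨0, C (X i.castSucc), ?_⟩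
    rw [tau_C, phi1_cast, pow_zero, one_mul]

theorem flat_lift {A B L : Type u} [CommRing A] [CommRing B] [CommRing L] [Algebra A B]
    (M : Submonoid A) [IsLocalization M B] (f : A →+* L) (h : B →+* L)
    (hf : h.comp (algebraMap A B) = f) (hfl : f.Flat) : h.Flat := by
  algebraize [f, h]
  have : IsScalarTower A B L := IsScalarTower.of_algebraMap_eq' hf.symm
  exact (Module.flat_iff_of_isLocalization B M L).2 hfl

theorem flat_loc {A B : Type u} [CommRing A] [CommRing B] (g : A →+* B) (c : A)
    (hc : IsUnit (g c)) (hs : ∀ z : B, ∃ (t : A) (j : ℕ), z * g c ^ j = g t)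
    (hinj : Function.Injective g) : g.Flat := by
  algebraize [g]
  have : IsLocalization (Submonoid.powers c) B := by
    rw [isLocalization_iff]
    refine ⟨?_, ?_, ?_⟩
    · rintro ⟨_, j, rfl⟩
      have h3 : algebraMap A B (c ^ j) = g c ^ j := map_pow g c j
      show IsUnit (algebraMap A B (c ^ j))
      rw [h3]
      exact hc.pow j
    · intro z
      obtain ⟨t, j, ht⟩ := hs z
      refine ⟨⟨t, ⟨c ^ j, ⟨j, rfl⟩⟩⟩, ?_⟩
      show z * algebraMap A B (c ^ j) = algebraMap A B t
      have h3 : algebraMap A B (c ^ j) = g c ^ j := map_pow g c j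
      rw [h3, ht]
      rfl
    · intro x y hxy
      exact ⟨1, by rw [hinj hxy]⟩
  exact IsLocalization.flat B (Submonoid.powers c)

end FLT_

open FLT_

theorem FLT (hEVI : Stmt_EVI.{u}) (hRHC : Stmt_RHC.{u}) (hREP : Stmt_REP.{u}) :
    Stmt_FLT.{u} := by
  have _ := hEVI
  have _ := hRHC
  have _ := hREP
  intro k _ n q hq b hb
  -- the localisation of k[v][x] at x_b
  let R2 : Type u := Localization.Away (X b : R1 k n)
  let Lc : Type u := Localization.AtPrime q
  let f : R1 k n →+* Lc := (algebraMap (Pol (Kx k n) n) Lc).comp (toK k n)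
  have hf : f.Flat := by
    apply RingHom.Flat.comp
    · let _ := (toK k n).toAlgebra
      have : IsLocalization ((nonZeroDivisors (MvPolynomial (Fin n) k)).map
          (C (σ := Fin n) (R := MvPolynomial (Fin n) k))) (MvPolynomial (Fin n) (Kx k n)) :=
        MvPolynomial.isLocalization _ _
      exact IsLocalization.flat (R := R1 k n) (MvPolynomial (Fin n) (Kx k n))
        ((nonZeroDivisors (MvPolynomial (Fin n) k)).map
          (C (σ := Fin n) (R := MvPolynomial (Fin n) k)))
    · rw [RingHom.flat_algebraMap_iff]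
      exact IsLocalization.flat _ q.primeCompl
  have hfb : IsUnit (f (X b)) := by
    have h1 : (toK k n) (X b) = X b := by
      rw [toK, map_X]
    have h2 : f (X b) = algebraMap (Pol (Kx k n) n) Lc (X b) := by
      show algebraMap (Pol (Kx k n) n) Lc (toK k n (X b)) = _
      rw [h1]
    rw [h2]
    exact IsLocalization.map_units Lc (⟨X b, hb⟩ : q.primeCompl)
  let h2 : R2 →+* Lc := IsLocalization.Away.lift (S := R2) (X b : R1 k n) hfb
  have h2f : h2.comp (algebraMap (R1 k n) R2) = f := IsLocalization.Away.lift_comp _ hfb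
  have h2flat : h2.Flat := flat_lift (Submonoid.powers (X b : R1 k n)) f h2 h2f hf
  -- T → R2 is a localisation
  let g : TT k n b →+* R2 := (algebraMap (R1 k n) R2).comp (tau k n b)
  have hinj2 : Function.Injective (algebraMap (R1 k n) R2) :=
    IsLocalization.injective R2 (powers_le_nonZeroDivisors_of_noZeroDivisors (X_ne_zero b))
  have hxb : g (C (X b.castSucc)) = algebraMap (R1 k n) R2 (X b) := by
    show algebraMap (R1 k n) R2 (tau k n b (C (X b.castSucc))) = _
    rw [tau_C, phi1_cast]
  have hgflat : g.Flat := by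
    refine flat_loc g (C (X b.castSucc)) ?_ ?_ ?_
    · rw [hxb]
      exact IsLocalization.Away.algebraMap_isUnit (S := R2) (X b : R1 k n)
    · intro z
      obtain ⟨⟨r, ⟨_, j, rfl⟩⟩, hr⟩ := IsLocalization.surj
        (Submonoid.powers (X b : R1 k n)) z
      obtain ⟨M, t, ht⟩ := surj k n b r
      refine ⟨t, j + M, ?_⟩
      have h4 : z * (algebraMap (R1 k n) R2 (X b)) ^ j = algebraMap (R1 k n) R2 r := by
        rw [← map_pow]
        exact hr
      rw [hxb, pow_add, ← mul_assoc, h4]
      show _ = algebraMap (R1 k n) R2 (tau k n b t)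
      rw [← ht, map_mul, map_pow, mul_comm]
    · intro x y hxy
      exact tau_injective k n b (hinj2 hxy)
  have hCflat : (C : Pol k (n + 1) →+* TT k n b).Flat := by
    rw [← MvPolynomial.algebraMap_eq, RingHom.flat_algebraMap_iff]
    infer_instance
  have hall := (hCflat.comp hgflat).comp h2flat
  have hcomp : (h2.comp (g.comp (C : Pol k (n + 1) →+* TT k n b))) =
      (algebraMap (Pol (Kx k n) n) (Localization.AtPrime q)).comp (phi k n) := by
    rw [← toK_phi1]
    apply RingHom.ext
    intro s
    show h2 (algebraMap (R1 k n) R2 (tau k n b (C s))) =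
      algebraMap (Pol (Kx k n) n) Lc (toK k n (phi1 k n s))
    rw [tau_C]
    exact congrArg (fun F => F (phi1 k n s)) h2f
  rw [← hcomp]
  exact hall

end

end Pool.Agent.DBX.GEN
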