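import Pool.Agent.DBX.GEN.Stmts

set_option autoImplicit false

/-! # MP_2c751f_ag, squad DBX, area GEN: assembly -/

namespace Pool.Agent.DBX.GEN

open Pool.Agent.DBX MvPolynomial

universe u

theorem BASF (hEGS : Stmt_EGS.{u}) (hDSJ : Stmt_DSJ.{u}) : Stmt_BAS.{u} := by
  intro k _ _ n D hD
  exact ⟨fun m σ τ _ => (hEGS k n D hD m σ τ).1, fun r b y hb h => hDSJ k n r b y hb h⟩

theorem sMod_E {k : Type u} [Field k] {n : ℕ} (D : Dat k n) (σ : Finset (Fin D.p))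
    (τ : Finset (Fin D.M)) : SMod (D.R σ τ) (D.E σ τ) := by
  intro a ha y hy
  unfold Dat.E at hy ⊢
  split_ifs at hy ⊢ with h
  · obtain ⟨z, hz, rfl⟩ := hy
    exact ⟨⟨a, ha⟩ * z, Ideal.mul_mem_left _ _ hz, rfl⟩
  · obtain ⟨z, hz, rfl⟩ := hy
    exact ⟨⟨a, ha⟩ * z, Ideal.mul_mem_left _ _ hz, rfl⟩

/-- division by a homogeneous element -/
theorem hf_div {k : Type u} [Field k] {n : ℕ} {l : Pol k n} (hl : l.IsHomogeneous 1)
    (hl0 : l ≠ 0) {m : ℤ} {x : Fr k n} (hx : inc k n l * x ∈ HF k n m) :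
    x ∈ HF k n (m - 1) := by
  obtain ⟨a, b, i, j, ha, hb, hb0, hm, h⟩ := hx
  refine ⟨a, b * l, i, j + 1, ha, hb.mul hl, mul_ne_zero hb0 hl0, ?_, ?_⟩
  · intro h0
    have := hm h0
    push_cast
    omega
  · have h1 := inc_ne hl0
    have h2 := inc_ne hb0
    rw [map_mul]
    field_simp
    field_simp at h
    linear_combination h

theorem lgen_hom (k : Type u) [Field k] (n : ℕ) : (lgen k n).IsHomogeneous 1 := by
  unfold lgen
  refine (isHomogeneous_X _ _).sub ?_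
  refine IsHomogeneous.sum _ _ _ (fun i _ => ?_)
  have := (isHomogeneous_C (Fin (n + 1)) (vv k n i)).mul (isHomogeneous_X (Kx k n) i.castSucc)
  rwa [zero_add] at this

theorem lgen_ne (k : Type u) [Field k] (n : ℕ) : lgen k n ≠ 0 := by
  intro h
  have h1 := congrArg (coeff (Finsupp.single (Fin.last n) 1)) h
  unfold lgen at h1
  rw [coeff_sub, coeff_sum, coeff_zero, coeff_X] at h1
  rw [Finset.sum_eq_zero] at h1
  · simp at h1
  · intro i _
    rw [coeff_C_mul, coeff_X', if_neg, mul_zero]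
    intro h2
    have h3 := Finsupp.single_left_injective (one_ne_zero) h2
    exact absurd h3 (Fin.castSucc_lt_last i).ne

theorem SECF (hPHI : Stmt_PHI.{u}) (hSPE : Stmt_SPE.{u}) (hSPP : Stmt_SPP.{u})
    (hKER : Stmt_KER.{u}) (hCOV : Stmt_COV.{u}) (hEBS : Stmt_EBS.{u}) (hEGS : Stmt_EGS.{u}) :
    Stmt_SEC.{u} := by
  intro k _ _ n hn
  obtain ⟨sp, hsp⟩ := hSPE k n
  obtain ⟨-, iot, hiot⟩ := hPHI k n hn
  obtain ⟨-, -, -, -, -, hmap, -⟩ := hSPP k n iot hiot sp hsp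
  refine ⟨sp, hsp, ?_⟩
  intro D hD
  have key : ∀ (m : ℤ) (σ : Finset (Fin D.p)) (τ : Finset (Fin D.M)), (σ.Nonempty ∨ τ = ∅) →
      Submodule.map sp (D.bc.Eg m σ τ) = D.sec.Eg m σ τ := by
    intro m σ τ hs
    rw [(hEGS k n D hD m σ τ).1, (hEGS k n D hD m σ τ).2 hs iot hiot]
    exact (hmap _).2
  refine ⟨?_, ?_⟩
  · intro m σ x hx
    exact (key m σ ∅ (Or.inr rfl)).le ⟨x, hx, rfl⟩
  · intro m σ τ hσ
    refine ⟨?_, ?_, ?_⟩
    · intro x hx
      exact (key m σ τ (Or.inl hσ)).le ⟨x, hx, rfl⟩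
    · intro y hy
      obtain ⟨x, hx, h⟩ := (key m σ τ (Or.inl hσ)).ge hy
      exact ⟨x, hx, h⟩
    · intro x hx h0
      have hx1 : x ∈ exM n (emb k n) (D.E σ τ) := (hEBS k n D hD σ τ).1.le hx.1
      obtain ⟨x', hx', h⟩ := hKER k n hn sp hsp (D.R σ τ) 1 (D.E σ τ)
        ((hCOV k n D hD).1 σ τ hσ) (sMod_E D σ τ) x hx1 h0
      rw [map_one, one_mul] at h
      refine ⟨x', ⟨?_, ?_⟩, h⟩
      · exact (hEBS k n D hD σ τ).1.ge hx'
      · have := hx.2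
        rw [h] at this
        exact hf_div (lgen_hom k n) (lgen_ne k n) this

theorem INHF (hGDB : Stmt_GDB.{u}) (hLSH : Stmt_LSH.{u}) (hLSS : Stmt_LSS.{u})
    (hDBS : Stmt_DBS.{u}) : Stmt_INH.{u} := by
  intro k _ _ n D hn hD
  refine ⟨(hGDB k n D hn hD).1, (hGDB k n D hn hD).2, fun h => ?_, fun e h => hDBS k n D hn hD e h⟩
  have h1 := hLSH k n D hn hD h
  exact ⟨h1, hLSS k n D hn hD h1⟩

end Pool.Agent.DBX.GEN
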