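import Pool.Agent.DBX.GEN.Stmts

set_option autoImplicit false

/-! # MP_2c751f_ag, squad DBX, area GEN: the base change and the section are good -/

namespace Pool.Agent.DBX.GEN

open Pool.Agent.DBX MvPolynomial

noncomputable section

universe u

namespace GDB_

theorem hc_mem {σ R : Type*} [CommRing R] (J : Ideal (MvPolynomial σ R)) (w : MvPolynomial σ R)
    (hw : ∀ d, homogeneousComponent d w ∈ J) (a : MvPolynomial σ R) (d : ℕ) :
    homogeneousComponent d (a * w) ∈ J := by
  have h0 : a * w = ∑ i ∈ Finset.range (a.totalDegree + 1),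
      ∑ j ∈ Finset.range (w.totalDegree + 1),
        homogeneousComponent i a * homogeneousComponent j w := by
    rw [← Finset.sum_mul_sum, sum_homogeneousComponent, sum_homogeneousComponent]
  rw [h0, map_sum]
  refine sum_mem (fun i _ => ?_)
  rw [map_sum]
  refine sum_mem (fun j _ => ?_)
  have h1 : homogeneousComponent i a * homogeneousComponent j w ∈
      homogeneousSubmodule σ R (i + j) :=
    (homogeneousComponent_isHomogeneous i a).mul (homogeneousComponent_isHomogeneous j w)
  rw [homogeneousComponent_of_mem h1]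
  split_ifs
  · exact J.mul_mem_left _ (hw j)
  · exact J.zero_mem

variable {k k' : Type u} [Field k] [Field k'] [Algebra k k'] {n m : ℕ}

/-- the image of the data under a ring homomorphism of polynomial rings -/
theorem good_map (ψ : Pol k n →+* Pol k' m) (hinj : Function.Injective ψ)
    (hhom : ∀ (p : Pol k n) (d : ℕ), p.IsHomogeneous d → (ψ p).IsHomogeneous d)
    (hhc : ∀ (p : Pol k n) (d : ℕ), homogeneousComponent d (ψ p) =
      ψ (homogeneousComponent d p))
    (hC : ∀ c : k, ψ (C c) = C (algebraMap k k' c))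
    (hX : ∀ i : Fin m, ∃ i' : Fin n, ψ (X i') = X i)
    (D : Dat k n) (hD : D.Good) (D' : Dat k' m) (hp : D'.p = D.p) (hM : D'.M = D.M)
    (hδ : D'.δ = D.δ) (hg : ∀ a : Fin D'.p, D'.g a = ψ (D.g (Fin.cast hp a)))
    (hf : ∀ a : Fin D'.M, D'.f a = ψ (D.f (Fin.cast hM a))) (hI : D'.I = D.I.map ψ) :
    D'.Good := by
  have hψ : ∀ (c : k) (z : Pol k n), ψ (c • z) = (algebraMap k k' c) • ψ z := by
    intro c z
    rw [smul_eq_C_mul, map_mul, hC, smul_eq_C_mul]
  constructor
  · intro a
    rw [hg]
    exact hhom _ _ (hD.g_hom _)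
  · intro a
    rw [hg]
    intro h0
    exact hD.g_ne _ (hinj (by rw [h0, map_zero]))
  · intro i
    obtain ⟨i', hi'⟩ := hX i
    rw [← hi']
    have key : ∀ z ∈ Submodule.span k (Set.range D.g),
        ψ z ∈ Submodule.span k' (Set.range D'.g) := by
      intro z hz
      induction hz using Submodule.span_induction with
      | mem z hz =>
        obtain ⟨a, rfl⟩ := hz
        refine Submodule.subset_span ⟨Fin.cast hp.symm a, ?_⟩
        rw [hg]
        rfl
      | zero => rw [map_zero]; exact Submodule.zero_mem _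
      | add x y _ _ hx hy => rw [map_add]; exact Submodule.add_mem _ hx hy
      | smul c x _ hx => rw [hψ]; exact Submodule.smul_mem _ _ hx
    exact key _ (hD.g_span i')
  · intro w hw
    rw [hI] at hw ⊢
    induction hw using Submodule.span_induction with
    | mem z hz =>
      obtain ⟨p, hp, rfl⟩ := hz
      intro d
      rw [hhc]
      exact Ideal.mem_map_of_mem ψ (hD.I_hom p hp d)
    | zero => intro d; rw [map_zero]; exact Submodule.zero_mem _
    | add x y _ _ hx hy => intro d; rw [map_add]; exact Submodule.add_mem _ (hx d) (hy d)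
    | smul c x _ hx => intro d; exact hc_mem _ x hx c d
  · intro j
    rw [hf, hδ]
    exact hhom _ _ (hD.f_hom _)
  · intro j
    rw [hf]
    intro h0
    exact hD.f_ne _ (hinj (by rw [h0, map_zero]))
  · rw [hI, Ideal.map_le_iff_le_comap]
    intro p hp'
    obtain ⟨N, hN⟩ := hD.I_rad hp'
    rw [Ideal.mem_comap]
    refine ⟨N, ?_⟩
    rw [← map_pow]
    have h1 := Ideal.mem_map_of_mem ψ hN
    rw [Ideal.map_span] at h1
    refine Ideal.span_mono ?_ h1
    rintro z ⟨y, ⟨j, rfl⟩, rfl⟩
    refine ⟨Fin.cast hM.symm j, ?_⟩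
    rw [hf]
    rfl

end GDB_

theorem GDB (hPHI : Stmt_PHI.{u}) (hHOM : Stmt_HOM.{u}) : Stmt_GDB.{u} := by
  intro k _ n D hn hD
  obtain ⟨h1, h2, h3, -, -⟩ := hHOM k n
  obtain ⟨h4, -⟩ := hPHI k n hn
  constructor
  · refine GDB_.good_map (bcP k n) (bcP_injective k n) (fun p d hp => (h1 p d hp).1) h2 ?_ ?_
      D hD D.bc rfl rfl rfl (fun a => rfl) (fun a => rfl) rfl
    · intro c
      exact MvPolynomial.map_C _ _
    · intro i
      exact ⟨i, MvPolynomial.map_X _ _⟩
  · refine GDB_.good_map (phi k n) h4 (fun p d hp => (h1 p d hp).2) h3 ?_ ?_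
      D hD D.sec rfl rfl rfl (fun a => rfl) (fun a => rfl) ?_
    · intro c
      change secP k n (MvPolynomial.map _ (C c)) = _
      rw [MvPolynomial.map_C]
      exact MvPolynomial.aeval_C _ _
    · intro i
      refine ⟨i.castSucc, ?_⟩
      change secP k n (MvPolynomial.map _ (X i.castSucc)) = _
      rw [MvPolynomial.map_X]
      unfold secP
      rw [MvPolynomial.aeval_X]
      exact Fin.snoc_castSucc _ _ _
    · change (D.I.map (bcP k n)).map (secP k n) = D.I.map (phi k n)
      exact Ideal.map_map _ _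

end

end Pool.Agent.DBX.GEN
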