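import Pool.Agent.DBX.GEN.Stmts

set_option autoImplicit false

/-! # MP_2c751f_ag, squad DBX, area GEN: module HOM -/

namespace Pool.Agent.DBX.GEN

open Pool.Agent.DBX MvPolynomial

universe u

namespace HOM_

theorem hc_map {k K : Type u} [Field k] [Field K] {m n : ℕ} (f : Pol k m →+ Pol K n)
    (hf : ∀ (p : Pol k m) (d : ℕ), p.IsHomogeneous d → (f p).IsHomogeneous d)
    (p : Pol k m) (d : ℕ) : homogeneousComponent d (f p) = f (homogeneousComponent d p) := by
  have h1 : f p = ∑ i ∈ Finset.range (p.totalDegree + 1), f (homogeneousComponent i p) := by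
    rw [← map_sum, sum_homogeneousComponent]
  rw [h1, map_sum]
  have h2 : ∀ i ∈ Finset.range (p.totalDegree + 1),
      homogeneousComponent d (f (homogeneousComponent i p)) =
        if d = i then f (homogeneousComponent i p) else 0 := by
    intro i _
    exact homogeneousComponent_of_mem (hf _ _ (homogeneousComponent_isHomogeneous i p))
  rw [Finset.sum_congr rfl h2, Finset.sum_ite_eq]
  split_ifs with h
  · rfl
  · rw [homogeneousComponent_eq_zero, map_zero]
    rw [Finset.mem_range] at h
    omega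

theorem bc_hom (k : Type u) [Field k] (n : ℕ) (p : Pol k (n + 1)) (d : ℕ)
    (hp : p.IsHomogeneous d) : (bcP k n p).IsHomogeneous d :=
  hp.map (algebraMap k (Kx k n))

theorem sec_hom (k : Type u) [Field k] (n : ℕ) (p : Pol (Kx k n) (n + 1)) (d : ℕ)
    (hp : p.IsHomogeneous d) : (secP k n p).IsHomogeneous d := by
  have h := hp.aeval (Fin.snoc (α := fun _ => Pol (Kx k n) n) X (∑ i, C (vv k n i) * X i))
    (n := 1) (fun i => by
      refine Fin.lastCases ?_ (fun j => ?_) i
      · rw [Fin.snoc_last]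
        refine IsHomogeneous.sum _ _ _ fun j _ => ?_
        have := (isHomogeneous_C (Fin n) (vv k n j)).mul (isHomogeneous_X (Kx k n) j)
        rwa [zero_add] at this
      · rw [Fin.snoc_castSucc]
        exact isHomogeneous_X _ j)
  rw [one_mul] at h
  exact h

theorem phi_hom (k : Type u) [Field k] (n : ℕ) (p : Pol k (n + 1)) (d : ℕ)
    (hp : p.IsHomogeneous d) : (phi k n p).IsHomogeneous d :=
  sec_hom k n _ d (bc_hom k n p d hp)

end HOM_

theorem HOM : Stmt_HOM.{u} := by
  intro k _ n
  refine ⟨fun p d hp => ⟨HOM_.bc_hom k n p d hp, HOM_.phi_hom k n p d hp⟩, fun p d => ?_,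
    fun p d => ?_, ?_, ?_⟩
  · exact HOM_.hc_map (bcP k n).toAddMonoidHom (HOM_.bc_hom k n) p d
  · exact HOM_.hc_map (phi k n).toAddMonoidHom (HOM_.phi_hom k n) p d
  · rintro m z ⟨a, b, i, j, ha, hb, hb0, hm, rfl⟩
    refine ⟨bcP k n a, bcP k n b, i, j, HOM_.bc_hom k n a i ha, HOM_.bc_hom k n b j hb, ?_, ?_, ?_⟩
    · exact fun h => hb0 (bcP_injective k n (h.trans (map_zero _).symm))
    · exact fun h => hm (fun h0 => h (by rw [h0, map_zero]))
    · rw [map_div₀]
      unfold emb
      rw [IsLocalization.map_eq, IsLocalization.map_eq]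
  · rintro iot hiot m z ⟨a, b, i, j, ha, hb, hb0, hm, rfl⟩
    refine ⟨phi k n a, phi k n b, i, j, HOM_.phi_hom k n a i ha, HOM_.phi_hom k n b j hb,
      ?_, ?_, ?_⟩
    · intro h
      have h1 := hiot b
      rw [h, map_zero] at h1
      exact inc_ne hb0 (iot.injective (h1.trans (map_zero _).symm))
    · exact fun h => hm (fun h0 => h (by rw [h0, map_zero]))
    · rw [map_div₀, hiot, hiot]

end Pool.Agent.DBX.GEN
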