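import Pool.Agent.DBX.GEN.Stmts

set_option autoImplicit false

/-! # MP_2c751f_ag, squad DBX, area GEN: heights -/

namespace Pool.Agent.DBX.GEN

open Pool.Agent.DBX MvPolynomial

noncomputable section

universe u

namespace HTL_

/-- heights and flatness for a general ring homomorphism to a local ring -/
theorem gen1 {A C : Type u} [CommRing A] [IsNoetherianRing A] [CommRing C] [IsLocalRing C]
    [IsNoetherianRing C]
    (g : A →+* C) (hg : g.Flat) :
    ((IsLocalRing.maximalIdeal C).comap g).height ≤ (IsLocalRing.maximalIdeal C).height := by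
  algebraize [g]
  have hL : (IsLocalRing.maximalIdeal C).LiesOver ((IsLocalRing.maximalIdeal C).comap g) :=
    ⟨rfl⟩
  have h1 := Ideal.height_eq_height_add_of_liesOver_of_hasGoingDown
    ((IsLocalRing.maximalIdeal C).comap g) (IsLocalRing.maximalIdeal C)
  rw [h1]
  exact le_self_add

theorem gen2 {A B : Type u} [CommRing A] [IsNoetherianRing A] [CommRing B] [IsNoetherianRing B]
    (f : A →+* B)
    (q : Ideal B) [q.IsPrime] (hf : ((algebraMap B (Localization.AtPrime q)).comp f).Flat) :
    (q.comap f).height ≤ q.height := by
  have hN : IsNoetherianRing (Localization.AtPrime q) :=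
    IsLocalization.isNoetherianRing q.primeCompl _ inferInstance
  have h1 := gen1 _ hf
  have hP : (IsLocalRing.maximalIdeal (Localization.AtPrime q)).comap
      (algebraMap B (Localization.AtPrime q)) = q := Localization.AtPrime.under_maximalIdeal
  rw [← Ideal.comap_comap, hP] at h1
  have h2 : (IsLocalRing.maximalIdeal (Localization.AtPrime q)).height = q.height := by
    rw [← IsLocalization.height_under q.primeCompl
      (IsLocalRing.maximalIdeal (Localization.AtPrime q))]
    exact congrArg Ideal.height hP
  rwa [h2] at h1

end HTL_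

theorem HTL (hFLT : Stmt_FLT.{u}) : Stmt_HTL.{u} := by
  intro k _ n q _ b hb
  exact HTL_.gen2 (phi k n) q (hFLT k n q b hb)

end

end Pool.Agent.DBX.GEN
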