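import Pool.Agent.DBX.GEN.Stmts

set_option autoImplicit false

/-! # MP_2c751f_ag, squad DBX, area GEN, module IND -/

namespace Pool.Agent.DBX.GEN

open Pool.Agent.DBX MvPolynomial

noncomputable section

universe u

theorem IND : Stmt_IND.{u} := by
  intro k _ n s y hy hsum
  choose a b i j ha hb hb0 hm hz using hy
  -- common denominator
  have hinj : Function.Injective (inc k n) :=
    IsFractionRing.injective (MvPolynomial (Fin n) k) (FractionRing (MvPolynomial (Fin n) k))
  have hP : ∀ d ∈ s, inc k n (a d * ∏ e ∈ s.erase d, b e) = y d * inc k n (∏ e ∈ s, b e) := by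
    intro d hd
    rw [← Finset.mul_prod_erase s b hd, map_mul, map_mul, hz d]
    have := inc_ne (hb0 d)
    field_simp
  have hsumP : ∑ d ∈ s, a d * ∏ e ∈ s.erase d, b e = 0 := by
    apply hinj
    rw [map_sum, map_zero, Finset.sum_congr rfl hP, ← Finset.sum_mul, hsum, zero_mul]
  have hhom : ∀ d, (a d * ∏ e ∈ s.erase d, b e).IsHomogeneous (i d + ∑ e ∈ s.erase d, j e) := by
    intro d
    exact (ha d).mul (IsHomogeneous.prod _ _ _ fun e _ => hb e)
  intro d hd
  by_contra hne
  have had : a d ≠ 0 := by
    intro h
    apply hne
    rw [hz d, h, map_zero, zero_div]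
  have key : a d * ∏ e ∈ s.erase d, b e = 0 := by
    have h1 := congrArg (homogeneousComponent (i d + ∑ e ∈ s.erase d, j e)) hsumP
    rw [map_sum, map_zero] at h1
    rw [Finset.sum_eq_single d] at h1
    · rw [homogeneousComponent_of_mem (hhom d), if_pos rfl] at h1
      exact h1
    · intro e he hed
      by_cases h0 : a e = 0
      · rw [h0, zero_mul, map_zero]
      · rw [homogeneousComponent_of_mem (hhom e), if_neg]
        intro h2
        have h3 := hm d had
        have h4 := hm e h0
        have h5 := Finset.add_sum_erase s j hd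
        have h6 := Finset.add_sum_erase s j he
        apply hed
        omega
    · intro h
      exact absurd hd h
  rcases mul_eq_zero.1 key with h | h
  · exact had h
  · rw [Finset.prod_eq_zero_iff] at h
    obtain ⟨e, _, he⟩ := h
    exact hb0 e he

end

end Pool.Agent.DBX.GEN
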