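import Pool.Agent.DBX.GEN.Stmts

set_option autoImplicit false

namespace Pool.Agent.DBX.GEN

open Pool.Agent.DBX MvPolynomial

universe u

theorem KER (hPHI : Stmt_PHI.{u}) (hEVE : Stmt_EVE.{u}) (hEVI : Stmt_EVI.{u})
    (hRDV : Stmt_RDV.{u}) (hREP : Stmt_REP.{u}) (_hCIN : Stmt_CIN.{u}) (hMCC : Stmt_MCC.{u})
    (hSPP : Stmt_SPP.{u}) : Stmt_KER.{u} := by
  intro k _ n hn sp hsp A w U hA hU x hx hx0
  obtain ⟨-, iot, hiot⟩ := hPHI k n hn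
  obtain ⟨hC, -, -, hlv⟩ := hEVE k n
  obtain ⟨hR1, hR2, -, hR4⟩ := hREP k n _ _ (emb k n) hC
  obtain ⟨c, P, hc, hP⟩ := hR1 Unit (fun _ => U) (fun _ => x) (fun _ => hx)
  obtain ⟨hPU, hPx⟩ := hP ()
  obtain ⟨-, -, -, -, hS5, -, -⟩ := hSPP k n iot hiot sp hsp
  -- evaluation at `iot` vanishes
  have h1 : evj k n iot (P ()) = 0 := by
    rw [← (hS5 (P ())).2, ← hPx]
    have h2 : (cc c : Fr (Kx k n) (n + 1)) * x =
        (algebraMap (MvPolynomial (Fin n) k) (Kx k n) c) • x := by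
      rw [Algebra.smul_def]; rfl
    rw [h2, map_smul, hx0, smul_zero]
  obtain ⟨-, -, hE3⟩ := hEVI k n iot hiot
  obtain ⟨Q, hQ⟩ := hRDV k n ⟨0, hn⟩ (P ()) (hE3 _ _ h1)
  have hw := hA.ne
  have h3 : C w * lv k n * (C w⁻¹ * Q) = P () := by
    rw [hQ]
    calc C w * lv k n * (C w⁻¹ * Q) = (C w * C w⁻¹) * (lv k n * Q) := by ring
      _ = lv k n * Q := by rw [← C_mul, mul_inv_cancel₀ hw, C_1, one_mul]
  have h4 : CoeffIn U (C w⁻¹ * Q) := by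
    apply hMCC k n A w U hA hU
    rw [h3]
    exact hPU
  have hcc : (cc c : Fr (Kx k n) (n + 1)) ≠ 0 := hR4 c hc
  refine ⟨(cc c)⁻¹ * evj k n (emb k n) (C w⁻¹ * Q), ?_, ?_⟩
  · apply hR2 U c (C w⁻¹ * Q) _ hc h4
    rw [← mul_assoc, mul_inv_cancel₀ hcc, one_mul]
  · have h5 : evj k n (emb k n) (C w) = emb k n w := by
      unfold evj
      rw [eval₂Hom_C]
    have h6 : cc c * x = emb k n w * inc _ _ (lgen k n) * evj k n (emb k n) (C w⁻¹ * Q) := by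
      rw [hPx, ← h3, map_mul, map_mul, h5, hlv]
    have h7 : x = (cc c)⁻¹ * (cc c * x) := by
      rw [← mul_assoc, inv_mul_cancel₀ hcc, one_mul]
    rw [h7, h6]
    ring

end Pool.Agent.DBX.GEN
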