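import Pool.Agent.DBX.GEN.Stmts

set_option autoImplicit false

/-! # MP_2c751f_ag, squad DBX, area GEN: module LCB (base change of log coordinates) -/

namespace Pool.Agent.DBX.GEN

open Pool.Agent.DBX MvPolynomial

universe u

namespace LCBAux

theorem cmp_emb (k : Type u) [Field k] (n : ℕ) : Cmp k n (emb k n) := by
  intro c
  have h1 : algebraMap k (Fr k (n + 1)) c = algebraMap (Pol k (n + 1)) (Fr k (n + 1)) (C c) := by
    rw [IsScalarTower.algebraMap_apply k (Pol k (n + 1)) (Fr k (n + 1)) c]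
    rfl
  have h2 : algebraMap (Kx k n) (Fr (Kx k n) (n + 1)) (algebraMap k (Kx k n) c) =
      algebraMap (Pol (Kx k n) (n + 1)) (Fr (Kx k n) (n + 1)) (C (algebraMap k (Kx k n) c)) := by
    rw [IsScalarTower.algebraMap_apply (Kx k n) (Pol (Kx k n) (n + 1)) (Fr (Kx k n) (n + 1))]
    rfl
  rw [h1, h2]
  unfold emb
  rw [IsLocalization.map_eq]
  unfold bcP
  rw [MvPolynomial.map_C]

theorem mem_toF {k F : Type*} [Field k] [Field F] [Algebra k F] (A : Subalgebra k F) (J : Ideal A)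
    (x : F) : x ∈ toF A J ↔ ∃ y : A, y ∈ J ∧ (y : F) = x := by
  unfold toF
  simp only [Submodule.mem_map, Submodule.restrictScalars_mem, AlgHom.toLinearMap_apply,
    Subalgebra.coe_val]

theorem toF_inj {k F : Type*} [Field k] [Field F] [Algebra k F] (A : Subalgebra k F)
    (J J' : Ideal A) (h : toF A J = toF A J') : J = J' := by
  ext y
  constructor
  · intro hy
    have h1 : (y : F) ∈ toF A J' := by
      rw [← h]
      exact (mem_toF A J _).2 ⟨y, hy, rfl⟩
    obtain ⟨z, hz, hzy⟩ := (mem_toF A J' _).1 h1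
    have : z = y := Subtype.ext hzy
    rw [← this]
    exact hz
  · intro hy
    have h1 : (y : F) ∈ toF A J := by
      rw [h]
      exact (mem_toF A J' _).2 ⟨y, hy, rfl⟩
    obtain ⟨z, hz, hzy⟩ := (mem_toF A J _).1 h1
    have : z = y := Subtype.ext hzy
    rw [← this]
    exact hz

theorem principal (k : Type u) [Field k] (n : ℕ) (A : Subalgebra k (Fr k (n + 1))) (d : A)
    (d' : exA n (emb k n) A) (h : (d' : Fr (Kx k n) (n + 1)) = emb k n d) :
    genIn (exA n (emb k n) A) (emb k n '' (toF A (Ideal.span {d}) : Set _)) = Ideal.span {d'} := by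
  apply le_antisymm
  · unfold genIn
    rw [Ideal.span_le]
    rintro z ⟨y, hy, hyz⟩
    obtain ⟨x, hx, hxy⟩ := (mem_toF A _ _).1 hy
    obtain ⟨a, ha⟩ := Ideal.mem_span_singleton'.1 hx
    have hm : emb k n (a : Fr k (n + 1)) ∈ exA n (emb k n) A :=
      Algebra.subset_adjoin ⟨_, a.2, rfl⟩
    refine Ideal.mem_span_singleton'.2 ⟨⟨emb k n (a : Fr k (n + 1)), hm⟩, ?_⟩
    apply Subtype.ext
    rw [MulMemClass.coe_mul, h, ← hyz, ← hxy, ← ha, MulMemClass.coe_mul, map_mul]
  · rw [Ideal.span_le, Set.singleton_subset_iff]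
    unfold genIn
    apply Ideal.subset_span
    refine ⟨(d : Fr k (n + 1)), ?_, h.symm⟩
    exact (mem_toF A _ _).2 ⟨d, Ideal.mem_span_singleton_self d, rfl⟩

end LCBAux

open LCBAux in
theorem LCB (hETB : Stmt_ETB.{u}) (hEXA : Stmt_EXA.{u}) (hRADB : Stmt_RADB.{u}) :
    Stmt_LCB.{u} := by
  intro k _ n A G m N t T hL hG hm t' ht'
  obtain ⟨-, hE2, -, hE4⟩ := hEXA k n _ _ (emb k n) (cmp_emb k n) A
  refine ⟨hETB k n A N t t' hL.et ht', ?_, ?_⟩
  · have hd : ((∏ i ∈ T, t' i : exA n (emb k n) A) : Fr (Kx k n) (n + 1)) =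
        emb k n ((∏ i ∈ T, t i : A) : Fr k (n + 1)) := by
      rw [SubmonoidClass.coe_finsetProd, SubmonoidClass.coe_finsetProd, map_prod]
      exact Finset.prod_congr rfl (fun i _ => ht' i)
    rw [hE4 G hG]
    apply toF_inj
    rw [hRADB k n A (genIn A G), hL.rad, ← hE2, principal k n A _ _ hd]
  · obtain ⟨c, hc, hc2⟩ := hL.mono
    refine ⟨c, hc, ?_⟩
    have hd : ((∏ i, t' i ^ c i : exA n (emb k n) A) : Fr (Kx k n) (n + 1)) =
        emb k n ((∏ i, t i ^ c i : A) : Fr k (n + 1)) := by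
      rw [SubmonoidClass.coe_finsetProd, SubmonoidClass.coe_finsetProd, map_prod]
      refine Finset.prod_congr rfl (fun i _ => ?_)
      rw [SubmonoidClass.coe_pow, SubmonoidClass.coe_pow, map_pow, ht' i]
    have h1 := hE4 {m} (Set.singleton_subset_iff.2 hm)
    rw [Set.image_singleton, hc2, principal k n A _ _ hd] at h1
    exact h1

end Pool.Agent.DBX.GEN
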