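import Pool.Agent.DBX.GEN.Stmts

set_option autoImplicit false

/-! # MP_2c751f_ag, squad DBX, area GEN, module LCE -/

namespace Pool.Agent.DBX.GEN

open Pool.Agent.DBX MvPolynomial

noncomputable section

universe u

theorem LCE : Stmt_LCE.{u} := by
  intro k _ n D a b A t e
  have h1 : (∏ i ∈ Finset.univ.filter (fun i : Fin (n - 1) => (i : ℕ) < e), t i) =
      ∏ i : Fin (n - 1), if (i : ℕ) < e then t i else 1 := Finset.prod_filter _ _
  have h2 : ∀ i : Fin (n - 1), i ∉ Finset.univ.filter (fun i : Fin (n - 1) => (i : ℕ) < e) ↔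
      e ≤ (i : ℕ) := by
    intro i
    simp
  constructor
  · rintro ⟨he, hr, c, hc, hm⟩
    refine ⟨he, ?_, c, fun i hi => hc i ((h2 i).1 hi), hm⟩
    rw [h1]
    exact hr
  · rintro ⟨he, hr, c, hc, hm⟩
    refine ⟨he, ?_, c, fun i hi => hc i ((h2 i).2 hi), hm⟩
    rw [← h1]
    exact hr

end

end Pool.Agent.DBX.GEN
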