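import Pool.Agent.DBX.GEN.Stmts

set_option autoImplicit false

/-! # MP_2c751f_ag, squad DBX, area GEN: module LCX -/

namespace Pool.Agent.DBX.GEN

open Pool.Agent.DBX MvPolynomial

noncomputable section

universe u

theorem exists_perm_card {N : ℕ} (T : Finset (Fin N)) :
    ∃ π : Equiv.Perm (Fin N), ∀ i, π i ∈ T ↔ (i : ℕ) < T.card := by
  classical
  have hle : T.card ≤ N := by simpa using Finset.card_le_univ T
  have hcard : Fintype.card {i : Fin N // (i : ℕ) < T.card} = Fintype.card {i : Fin N // i ∈ T} := by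
    rw [Fintype.card_coe, Fintype.card_subtype]
    have : (Finset.univ.filter (fun i : Fin N => (i : ℕ) < T.card)).card = min T.card N := by
      rw [Fin.card_filter_val_lt]
      first
        | rfl
        | exact min_comm _ _
    rw [this, min_eq_left hle]
  let e : {i : Fin N // (i : ℕ) < T.card} ≃ {i : Fin N // i ∈ T} := Fintype.equivOfCardEq hcard
  refine ⟨e.extendSubtype, fun i => ⟨fun h => ?_, fun h => e.extendSubtype_mem i h⟩⟩
  by_contra hi
  exact e.extendSubtype_not_mem i hi h

theorem LCX (hETL : Stmt_ETL.{u}) (hLOC : Stmt_LOC.{u}) (hSWP : Stmt_SWP.{u}) :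
    Stmt_LCX.{u} := by
  classical
  intro K F _ _ _ A G m N t T hL hG hm
  obtain ⟨hperm, hloc⟩ := hETL K F A N t hL.et
  obtain ⟨c, hc0, hc⟩ := hL.mono
  refine ⟨?_, ?_, ?_, ?_⟩
  · obtain ⟨π, hπ⟩ := exists_perm_card T
    refine ⟨π, hπ, ⟨hperm π, ?_, c ∘ π, fun i hi => ?_, ?_⟩⟩
    · rw [hL.rad]
      congr 2
      symm
      refine Finset.prod_equiv π (fun i => ?_) (fun i _ => rfl)
      simp [hπ]
    · refine hc0 _ fun h => hi ?_
      simp [← hπ, h]
    · rw [hc]
      congr 2
      exact (Equiv.prod_comp π (fun i => t i ^ c i)).symm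
  · intro s hs hs0 t' ht'
    obtain ⟨-, -, -, h4, h5⟩ := hLOC K F A s hs hs0
    refine ⟨hloc s hs hs0 t' ht', ?_, c, hc0, ?_⟩
    · refine h4 G (∏ i ∈ T, t i) (∏ i ∈ T, t' i) hG ?_ hL.rad
      rw [SubmonoidClass.coe_finsetProd, SubmonoidClass.coe_finsetProd]
      exact Finset.prod_congr rfl fun i _ => ht' i
    · refine h5 m (∏ i, t i ^ c i) (∏ i, t' i ^ c i) hm ?_ hc
      rw [SubmonoidClass.coe_finsetProd, SubmonoidClass.coe_finsetProd]
      exact Finset.prod_congr rfl fun i _ => by simp [ht' i]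
  · intro T' hT' hU
    refine ⟨hL.et, ?_, fun i => if i ∈ T' then c i else 0, fun i hi => by simp [hi], ?_⟩
    · rw [hL.rad, ← Finset.prod_sdiff hT', mul_comm]
      refine Ideal.span_singleton_mul_right_unit ?_ _
      refine (Submonoid.prod_mem (IsUnit.submonoid A) (t := T \ T') fun i hi => ?_ :
        (∏ i ∈ T \ T', t i) ∈ IsUnit.submonoid A)
      rw [Finset.mem_sdiff] at hi
      exact hU i hi.1 hi.2
    · rw [hc]
      have hprod : ∏ i, t i ^ c i = (∏ i, t i ^ (if i ∈ T' then c i else 0)) *
          ∏ i, (if i ∈ T' then 1 else t i ^ c i) := by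
        rw [← Finset.prod_mul_distrib]
        refine Finset.prod_congr rfl fun i _ => ?_
        by_cases h : i ∈ T' <;> simp [h]
      rw [hprod]
      refine Ideal.span_singleton_mul_right_unit ?_ _
      refine (Submonoid.prod_mem (IsUnit.submonoid A) (t := Finset.univ) fun i _ => ?_ :
        (∏ i, (if i ∈ T' then 1 else t i ^ c i)) ∈ IsUnit.submonoid A)
      by_cases h : i ∈ T'
      · rw [if_pos h]
        exact Submonoid.one_mem _
      · rw [if_neg h]
        by_cases h2 : i ∈ T
        · exact Submonoid.pow_mem _ (hU i h2 h) _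
        · rw [hc0 i h2, pow_zero]
          exact Submonoid.one_mem _
  · intro d j h hd hj hu
    refine ⟨hSWP K A N t d hL.et hd j h hu, ?_, c, hc0, ?_⟩
    · rw [hL.rad]
      congr 2
      refine Finset.prod_congr rfl fun i hi => ?_
      rw [Function.update_of_ne]
      rintro rfl
      exact hj hi
    · rw [hc]
      congr 2
      refine Finset.prod_congr rfl fun i _ => ?_
      by_cases hij : i = j
      · subst hij
        rw [hc0 i hj, pow_zero, pow_zero]
      · rw [Function.update_of_ne hij]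

end

end Pool.Agent.DBX.GEN

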