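import Pool.Agent.DBX.GEN.Stmts

set_option autoImplicit false

/-! # MP_2c751f_ag, squad DBX, area GEN: module LH1 -/

namespace Pool.Agent.DBX.GEN

open Pool.Agent.DBX MvPolynomial

noncomputable section

universe u

namespace LH1_

theorem cmp_emb (k : Type u) [Field k] (n : ℕ) : Cmp k n (emb k n) := by
  intro c
  have h1 : algebraMap k (Fr k (n + 1)) c = inc k (n + 1) (C c) := rfl
  rw [h1]
  unfold emb
  rw [IsLocalization.map_eq]
  unfold bcP
  rw [map_C]
  rfl

theorem emb_inc (k : Type u) [Field k] (n : ℕ) (p : Pol k (n + 1)) :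
    emb k n (inc k (n + 1) p) = inc _ _ (bcP k n p) := by
  unfold emb
  rw [IsLocalization.map_eq]

end LH1_

open LH1_

theorem LH1 (hLCE : Stmt_LCE.{u}) (hLCB : Stmt_LCB.{u}) (hCHS : Stmt_CHS.{u})
    (hEXA : Stmt_EXA.{u}) : Stmt_LH1.{u} := by
  intro k _ _ n D hG hLS a b q hq
  obtain ⟨hI0, hm, hbc, hgen, -⟩ := hCHS k n D hG a b
  have hmem : ∀ z : D.ch a b, emb k n (z : Fr k (n + 1)) ∈ D.bc.ch a b := by
    intro z
    rw [hbc]
    exact Algebra.subset_adjoin ⟨z, z.2, rfl⟩
  let g : D.ch a b →+* D.bc.ch a b :=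
    { toFun := fun z => ⟨emb k n (z : Fr k (n + 1)), hmem z⟩
      map_one' := by
        apply Subtype.ext
        change emb k n 1 = 1
        exact map_one _
      map_mul' := fun x y => by
        apply Subtype.ext
        change emb k n ((x : Fr k (n + 1)) * y) = emb k n x * emb k n y
        exact map_mul _ _ _
      map_zero' := by
        apply Subtype.ext
        change emb k n 0 = 0
        exact map_zero _
      map_add' := fun x y => by
        apply Subtype.ext
        change emb k n ((x : Fr k (n + 1)) + y) = emb k n x + emb k n y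
        exact map_add _ _ _ }
  obtain ⟨s, hs, t, e, hLC⟩ := hLS a b (q.comap g) (Ideal.IsPrime.comap g)
  have hs0 : (s : Fr k (n + 1)) ≠ 0 := by
    intro h
    apply hs
    have : s = 0 := Subtype.ext h
    rw [this]
    exact Ideal.zero_mem _
  have hloc : exA n (emb k n) (Loc (D.ch a b) (s : Fr k (n + 1))) =
      Loc (D.bc.ch a b) (emb k n (s : Fr k (n + 1))) := by
    unfold Loc
    rw [(hEXA k n _ _ (emb k n) (cmp_emb k n) (D.ch a b)).2.2.1, hbc]
    apply le_antisymm
    · apply Algebra.adjoin_le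
      rintro z ⟨y, (hy | hy), rfl⟩
      · exact Algebra.subset_adjoin (Or.inl (Algebra.subset_adjoin ⟨y, hy, rfl⟩))
      · rw [Set.mem_singleton_iff] at hy
        rw [hy, map_inv₀]
        exact Algebra.subset_adjoin (Or.inr rfl)
    · apply Algebra.adjoin_le
      rintro z (hz | hz)
      · have : exA n (emb k n) (D.ch a b) ≤ Algebra.adjoin (Kx k n)
            (emb k n '' ((D.ch a b : Set (Fr k (n + 1))) ∪ {(s : Fr k (n + 1))⁻¹})) := by
          unfold exA
          exact Algebra.adjoin_mono (Set.image_mono (Set.subset_union_left))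
        exact this hz
      · rw [Set.mem_singleton_iff] at hz
        rw [hz, ← map_inv₀]
        exact Algebra.subset_adjoin ⟨_, Or.inr rfl, rfl⟩
  refine ⟨s, s.2, hs0, ?_, hloc, t, Finset.univ.filter (fun i : Fin n => (i : ℕ) < e), ?_, ?_⟩
  · intro z hz h
    apply hs
    change g s ∈ q
    have : g s = z := Subtype.ext h.symm
    rw [this]
    exact hz
  · exact hLC.1
  · intro t' ht'
    have h1 := (hLCE k (n + 1) D a b (Loc (D.ch a b) (s : Fr k (n + 1))) t e).1 hLC
    have hle : D.ch a b ≤ Loc (D.ch a b) (s : Fr k (n + 1)) := by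
      intro z hz
      exact Algebra.subset_adjoin (Or.inl hz)
    have h2 := hLCB k n (Loc (D.ch a b) (s : Fr k (n + 1))) (D.I0 a) _ n t _ h1
      (fun z hz => hle (hI0 hz)) (hle hm) t' ht'
    have hle' : D.bc.ch a b ≤ exA n (emb k n) (Loc (D.ch a b) (s : Fr k (n + 1))) := by
      rw [hloc]
      intro z hz
      exact Algebra.subset_adjoin (Or.inl hz)
    have h3 := hgen _ hle'
    have h4 : emb k n (inc k (n + 1) (D.f b) / inc k (n + 1) (D.g a) ^ D.δ) =
        inc _ _ (D.bc.f b) / inc _ _ (D.bc.g a) ^ D.δ := by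
      rw [map_div₀, map_pow, emb_inc, emb_inc]
      rfl
    rw [h4] at h2
    exact ⟨h2.et, by rw [h3]; exact h2.rad, h2.mono⟩

end

end Pool.Agent.DBX.GEN
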