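import Pool.Agent.DBX.GEN.Stmts

set_option autoImplicit false

/-! # MP_2c751f_ag, squad DBX, area GEN, module LOC: localisations inside a field -/

namespace Pool.Agent.DBX.GEN

open Pool.Agent.DBX MvPolynomial

noncomputable section

universe u

namespace LOC_

variable {K F : Type u} [Field K] [Field F] [Algebra K F] {A : Subalgebra K F} {s : F}

theorem le_Loc (A : Subalgebra K F) (s : F) : A ≤ Loc A s :=
  fun _ hx => Algebra.subset_adjoin (Or.inl hx)

theorem inv_mem (A : Subalgebra K F) (s : F) : s⁻¹ ∈ Loc A s :=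
  Algebra.subset_adjoin (Or.inr rfl)

theorem mem_Loc (hs : s ∈ A) (h0 : s ≠ 0) (z : F) : z ∈ Loc A s ↔ ∃ N : ℕ, s ^ N * z ∈ A := by
  constructor
  · intro hz
    unfold Loc at hz
    induction hz using Algebra.adjoin_induction with
    | mem x hx =>
      rcases hx with hx | hx
      · exact ⟨0, by rw [pow_zero, one_mul]; exact hx⟩
      · refine ⟨1, ?_⟩
        have hx' : x = s⁻¹ := hx
        rw [hx', pow_one, mul_inv_cancel₀ h0]
        exact A.one_mem
    | algebraMap r => exact ⟨0, by rw [pow_zero, one_mul]; exact A.algebraMap_mem r⟩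
    | add x y _ _ hx hy =>
      obtain ⟨N, hN⟩ := hx
      obtain ⟨M, hM⟩ := hy
      refine ⟨N + M, ?_⟩
      have e : s ^ (N + M) * (x + y) = s ^ M * (s ^ N * x) + s ^ N * (s ^ M * y) := by ring
      rw [e]
      exact A.add_mem (A.mul_mem (A.pow_mem hs _) hN) (A.mul_mem (A.pow_mem hs _) hM)
    | mul x y _ _ hx hy =>
      obtain ⟨N, hN⟩ := hx
      obtain ⟨M, hM⟩ := hy
      refine ⟨N + M, ?_⟩
      have e : s ^ (N + M) * (x * y) = (s ^ N * x) * (s ^ M * y) := by ring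
      rw [e]
      exact A.mul_mem hN hM
  · rintro ⟨N, hN⟩
    have e : z = (s⁻¹) ^ N * (s ^ N * z) := by
      rw [← mul_assoc, ← mul_pow, inv_mul_cancel₀ h0, one_pow, one_mul]
    rw [e]
    exact (Loc A s).mul_mem ((Loc A s).pow_mem (inv_mem A s) N) (le_Loc A s hN)

/-- extension of an ideal to the localisation -/
def ext (hs : s ∈ A) (h0 : s ≠ 0) (J : Ideal A) : Ideal (Loc A s) where
  carrier := {z | ∃ N : ℕ, ∃ w ∈ J, (w : F) = s ^ N * (z : F)}
  zero_mem' := ⟨0, 0, J.zero_mem, by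
    show (0 : F) = s ^ 0 * (0 : F)
    rw [mul_zero]⟩
  add_mem' := by
    rintro x y ⟨N, a, ha, ha'⟩ ⟨M, b, hb, hb'⟩
    refine ⟨N + M, ⟨s, hs⟩ ^ M * a + ⟨s, hs⟩ ^ N * b,
      J.add_mem (J.mul_mem_left _ ha) (J.mul_mem_left _ hb), ?_⟩
    show s ^ M * (a : F) + s ^ N * (b : F) = s ^ (N + M) * ((x : F) + (y : F))
    rw [ha', hb']
    ring
  smul_mem' := by
    rintro c x ⟨N, a, ha, ha'⟩
    obtain ⟨M, hM⟩ := (mem_Loc hs h0 (c : F)).1 c.2
    refine ⟨N + M, ⟨s ^ M * (c : F), hM⟩ * a, J.mul_mem_left _ ha, ?_⟩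
    show s ^ M * (c : F) * (a : F) = s ^ (N + M) * ((c : F) * (x : F))
    rw [ha']
    ring

theorem mem_ext (hs : s ∈ A) (h0 : s ≠ 0) (J : Ideal A) (z : Loc A s) :
    z ∈ ext hs h0 J ↔ ∃ N : ℕ, ∃ w ∈ J, (w : F) = s ^ N * (z : F) := Iff.rfl

theorem ext_radical (hs : s ∈ A) (h0 : s ≠ 0) (J : Ideal A) :
    (ext hs h0 J).radical = ext hs h0 J.radical := by
  apply le_antisymm
  · rintro z ⟨n, N, w, hw, hw'⟩
    obtain ⟨M, hM⟩ := (mem_Loc hs h0 (z : F)).1 z.2
    refine ⟨N + M, ⟨s, hs⟩ ^ N * ⟨s ^ M * (z : F), hM⟩, ⟨n + 1, ?_⟩, ?_⟩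
    · have e : ((⟨s, hs⟩ : A) ^ N * ⟨s ^ M * (z : F), hM⟩) ^ (n + 1) =
          ((⟨s, hs⟩ : A) ^ ((N + M) * n) * ⟨s ^ M * (z : F), hM⟩) * w := by
        apply Subtype.ext
        show (s ^ N * (s ^ M * (z : F))) ^ (n + 1) =
          s ^ ((N + M) * n) * (s ^ M * (z : F)) * (w : F)
        rw [hw']
        show (s ^ N * (s ^ M * (z : F))) ^ (n + 1) =
          s ^ ((N + M) * n) * (s ^ M * (z : F)) * (s ^ N * (z : F) ^ n)
        ring
      rw [e]
      exact J.mul_mem_left _ hw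
    · show s ^ N * (s ^ M * (z : F)) = s ^ (N + M) * (z : F)
      ring
  · rintro z ⟨N, w, ⟨n, hn⟩, hw⟩
    refine ⟨n, N * n, w ^ n, hn, ?_⟩
    show (w : F) ^ n = s ^ (N * n) * (z : F) ^ n
    rw [hw, mul_pow, pow_mul]

theorem ext_span (hs : s ∈ A) (h0 : s ≠ 0) (d : A) (d' : Loc A s) (h : (d' : F) = d) :
    ext hs h0 (Ideal.span {d}) = Ideal.span {d'} := by
  apply le_antisymm
  · rintro z ⟨N, w, hw, hw'⟩
    obtain ⟨a, ha⟩ := Ideal.mem_span_singleton'.1 hw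
    refine Ideal.mem_span_singleton'.2 ⟨⟨(s⁻¹) ^ N * (a : F),
      (Loc A s).mul_mem ((Loc A s).pow_mem (inv_mem A s) N) (le_Loc A s a.2)⟩, ?_⟩
    apply Subtype.ext
    show (s⁻¹) ^ N * (a : F) * (d' : F) = (z : F)
    have e1 : (a : F) * (d : F) = s ^ N * (z : F) := by
      rw [← hw', ← ha]
      rfl
    rw [h, mul_assoc, e1, ← mul_assoc, ← mul_pow, inv_mul_cancel₀ h0, one_pow, one_mul]
  · rw [Ideal.span_singleton_le_iff_mem]
    refine ⟨0, d, Ideal.mem_span_singleton_self d, ?_⟩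
    rw [pow_zero, one_mul, h]

theorem gen_ext (hs : s ∈ A) (h0 : s ≠ 0) (G : Set F) (hG : G ⊆ A) :
    genIn (Loc A s) G = ext hs h0 (genIn A G) := by
  apply le_antisymm
  · refine Ideal.span_le.2 ?_
    intro z hz
    have hz' : (z : F) ∈ G := hz
    refine ⟨0, ⟨(z : F), hG hz'⟩, Ideal.subset_span hz', ?_⟩
    rw [pow_zero, one_mul]
  · have key : ∀ w ∈ genIn A G, (⟨(w : F), le_Loc A s w.2⟩ : Loc A s) ∈ genIn (Loc A s) G := by
      intro w hw
      unfold genIn at hw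
      induction hw using Submodule.span_induction with
      | mem x hx => exact Ideal.subset_span hx
      | zero => exact (genIn (Loc A s) G).zero_mem
      | add x y _ _ hx hy =>
        exact (genIn (Loc A s) G).add_mem hx hy
      | smul c x _ hx =>
        exact (genIn (Loc A s) G).mul_mem_left ⟨(c : F), le_Loc A s c.2⟩ hx
    rintro z ⟨N, w, hw, hw'⟩
    have h1 := (genIn (Loc A s) G).mul_mem_left
      ⟨(s⁻¹) ^ N, (Loc A s).pow_mem (inv_mem A s) N⟩ (key w hw)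
    have e : (⟨(s⁻¹) ^ N, (Loc A s).pow_mem (inv_mem A s) N⟩ : Loc A s) *
        ⟨(w : F), le_Loc A s w.2⟩ = z := by
      apply Subtype.ext
      show (s⁻¹) ^ N * (w : F) = (z : F)
      rw [hw', ← mul_assoc, ← mul_pow, inv_mul_cancel₀ h0, one_pow, one_mul]
    rw [← e]
    exact h1

theorem s_pow_notMem (hs : s ∈ A) (q : Ideal A) (hq : q.IsPrime)
    (h : ∀ z ∈ q, (z : F) ≠ s) (N : ℕ) : (⟨s, hs⟩ : A) ^ N ∉ q := fun h1 =>
  h _ (hq.mem_of_pow_mem N h1) rfl

theorem ext_prime (hs : s ∈ A) (h0 : s ≠ 0) (q : Ideal A) (hq : q.IsPrime)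
    (h : ∀ z ∈ q, (z : F) ≠ s) :
    (ext hs h0 q).IsPrime ∧ ∀ (z : A) (z' : Loc A s), (z' : F) = z →
      (z' ∈ ext hs h0 q ↔ z ∈ q) := by
  have hN := s_pow_notMem hs q hq h
  have key : ∀ (z : A) (z' : Loc A s), (z' : F) = z → (z' ∈ ext hs h0 q ↔ z ∈ q) := by
    intro z z' hz
    constructor
    · rintro ⟨N, w, hw, hw'⟩
      have e : w = (⟨s, hs⟩ : A) ^ N * z := by
        apply Subtype.ext
        show (w : F) = s ^ N * (z : F)
        rw [hw', hz]
      rw [e] at hw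
      rcases hq.mem_or_mem hw with h1 | h1
      · exact absurd h1 (hN N)
      · exact h1
    · intro hz'
      exact ⟨0, z, hz', by rw [pow_zero, one_mul, hz]⟩
  refine ⟨⟨?_, ?_⟩, key⟩
  · intro htop
    have h1 : (1 : Loc A s) ∈ ext hs h0 q := by rw [htop]; exact Submodule.mem_top
    exact hq.ne_top ((Ideal.eq_top_iff_one q).2 ((key 1 1 rfl).1 h1))
  · rintro x y ⟨N, w, hw, hw'⟩
    obtain ⟨M, hM⟩ := (mem_Loc hs h0 (x : F)).1 x.2
    obtain ⟨L, hL⟩ := (mem_Loc hs h0 (y : F)).1 y.2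
    have e : (⟨s, hs⟩ : A) ^ N * ((⟨s ^ M * (x : F), hM⟩ : A) * ⟨s ^ L * (y : F), hL⟩) =
        (⟨s, hs⟩ : A) ^ (M + L) * w := by
      apply Subtype.ext
      show s ^ N * (s ^ M * (x : F) * (s ^ L * (y : F))) = s ^ (M + L) * (w : F)
      rw [hw']
      show s ^ N * (s ^ M * (x : F) * (s ^ L * (y : F))) =
        s ^ (M + L) * (s ^ N * ((x : F) * (y : F)))
      ring
    have h2 : (⟨s, hs⟩ : A) ^ N * ((⟨s ^ M * (x : F), hM⟩ : A) * ⟨s ^ L * (y : F), hL⟩) ∈ q := by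
      rw [e]
      exact q.mul_mem_left _ hw
    rcases hq.mem_or_mem h2 with h3 | h3
    · exact absurd h3 (hN N)
    · rcases hq.mem_or_mem h3 with h4 | h4
      · exact Or.inl ⟨M, _, h4, rfl⟩
      · exact Or.inr ⟨L, _, h4, rfl⟩

end LOC_

open LOC_ in
theorem LOC : Stmt_LOC.{u} := by
  intro K F _ _ _ A s hs h0
  refine ⟨mem_Loc hs h0, ?_, ?_, ?_, ?_⟩
  · intro q hq h
    exact ⟨ext hs h0 q, ext_prime hs h0 q hq h⟩
  · intro w hw hw0
    obtain ⟨N, hN⟩ := (mem_Loc hs h0 w).1 hw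
    have hN1 : s ^ (N + 1) * w ∈ A := by
      rw [pow_succ', mul_assoc]
      exact A.mul_mem hs hN
    refine ⟨N, hN1, le_antisymm ?_ ?_⟩
    · refine Algebra.adjoin_le ?_
      rintro x (hx | hx)
      · exact le_Loc _ _ (le_Loc A s hx)
      · have hx' : x = (s ^ (N + 1) * w)⁻¹ := hx
        rw [hx', mul_inv, ← inv_pow]
        exact Subalgebra.mul_mem _ (Subalgebra.pow_mem _ (le_Loc _ _ (inv_mem A s)) _)
          (inv_mem _ _)
    · have hu : s ^ (N + 1) * w ≠ 0 := mul_ne_zero (pow_ne_zero _ h0) hw0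
      have h1 : Loc A s ≤ Loc A (s ^ (N + 1) * w) := by
        refine Algebra.adjoin_le ?_
        rintro x (hx | hx)
        · exact le_Loc _ _ hx
        · have hx' : x = s⁻¹ := hx
          have e : s⁻¹ = (s ^ N * w) * (s ^ (N + 1) * w)⁻¹ := by
            field_simp
            ring
          rw [hx', e]
          exact Subalgebra.mul_mem _ (le_Loc _ _ hN) (inv_mem _ _)
      refine Algebra.adjoin_le ?_
      rintro x (hx | hx)
      · exact h1 hx
      · have hx' : x = w⁻¹ := hx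
        have e : w⁻¹ = s ^ (N + 1) * (s ^ (N + 1) * w)⁻¹ := by
          field_simp
        rw [hx', e]
        exact Subalgebra.mul_mem _ (le_Loc _ _ (A.pow_mem hs _)) (inv_mem _ _)
  · intro G d d' hG hd h
    rw [gen_ext hs h0 G hG, ext_radical, h, ext_span hs h0 d d' hd]
  · intro m d d' hm hd h
    rw [gen_ext hs h0 {m} (Set.singleton_subset_iff.2 hm), h, ext_span hs h0 d d' hd]

end

end Pool.Agent.DBX.GEN
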