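import Pool.Agent.DBX.GEN.Stmts

/-!
# DBX, area GEN, module LS1: `sp` on the localised charts
-/

set_option autoImplicit false

namespace Pool.Agent.DBX.GEN

open Pool.Agent.DBX MvPolynomial

universe u

namespace LS1_

variable {k : Type u} [Field k] {n : ℕ}

theorem emb_inc (p : Pol k (n + 1)) : emb k n (inc k (n + 1) p) = inc _ _ (bcP k n p) :=
  IsLocalization.map_eq _ p

theorem inc_C {K : Type u} [Field K] {m : ℕ} (c : K) :
    inc K m (C c) = algebraMap K (Fr K m) c := rfl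

theorem cmp_emb : Cmp k n (emb k n) := by
  intro c
  have h : algebraMap k (Fr k (n + 1)) c = inc k (n + 1) (C c) := rfl
  rw [h, emb_inc]
  have h2 : bcP k n (C c) = C (algebraMap k (Kx k n) c) := by
    unfold bcP
    rw [map_C]
  rw [h2]
  rfl

theorem cmp_iot (iot : Fr k (n + 1) →+* Fr (Kx k n) n) (h : IsIot iot) : Cmp k n iot := by
  intro c
  have h1 : algebraMap k (Fr k (n + 1)) c = inc k (n + 1) (C c) := rfl
  rw [h1, h]
  have h2 : phi k n (C c) = C (algebraMap k (Kx k n) c) := by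
    unfold phi
    rw [RingHom.comp_apply]
    have h3 : bcP k n (C c) = C (algebraMap k (Kx k n) c) := by
      unfold bcP
      rw [map_C]
    rw [h3]
    exact (secP k n).commutes (algebraMap k (Kx k n) c)
  rw [h2]
  rfl

end LS1_

open LS1_ in
theorem LS1 (hPHI : Stmt_PHI.{u}) (hSPP : Stmt_SPP.{u}) (hKER : Stmt_KER.{u})
    (hCHS : Stmt_CHS.{u}) (hEXA : Stmt_EXA.{u}) (hLOC : Stmt_LOC.{u}) (hCOV : Stmt_COV.{u}) :
    Stmt_LS1.{u} := by
  intro k _ n hn sp hsp D hD a b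
  obtain ⟨_, iot, hiot⟩ := hPHI k n hn
  obtain ⟨s1, s2, s3, s4, s5, s6, s7⟩ := hSPP k n iot hiot sp hsp
  obtain ⟨c1, c2, c3, c4, c5⟩ := hCHS k n D hD a b
  obtain ⟨c5, _⟩ := c5 iot hiot
  set A := D.ch a b with hA
  have e1 := (hEXA k n (Fr k (n + 1)) (Fr (Kx k n) (n + 1)) (emb k n) cmp_emb A).1
  have e2 := (hEXA k n (Fr k (n + 1)) (Fr (Kx k n) n) iot (cmp_iot iot hiot) A).1
  have H1 : ∀ z ∈ D.bc.ch a b, Dom z ∧ sp z ∈ D.sec.ch a b := by
    intro z hz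
    have hz' : z ∈ exM n (emb k n) (Subalgebra.toSubmodule A) := (e1 z).mp (c3 ▸ hz)
    refine ⟨(s6 _).1 z hz', ?_⟩
    have : sp z ∈ exM n iot (Subalgebra.toSubmodule A) := by
      rw [← (s6 (Subalgebra.toSubmodule A)).2]
      exact Submodule.mem_map_of_mem hz'
    exact c5 ▸ (e2 _).mpr this
  have H2 : ∀ y ∈ D.sec.ch a b, ∃ z ∈ D.bc.ch a b, sp z = y := by
    intro y hy
    have hy' : y ∈ exM n iot (Subalgebra.toSubmodule A) := (e2 y).mp (c5 ▸ hy)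
    rw [← (s6 (Subalgebra.toSubmodule A)).2] at hy'
    obtain ⟨z, hz, hzy⟩ := hy'
    exact ⟨z, c3 ▸ (e1 z).mpr hz, hzy⟩
  refine ⟨H1, H2, ?_⟩
  intro s hs hsps
  have hs0 : s ≠ 0 := by
    rintro rfl
    exact hsps (map_zero sp)
  have hdpow : ∀ (x : Fr (Kx k n) (n + 1)), Dom x → ∀ N : ℕ, Dom (x ^ N) ∧
      sp (x ^ N) = sp x ^ N := by
    intro x hx N
    induction N with
    | zero =>
      have h := s1 1
      rw [(algebraMap (Kx k n) (Fr (Kx k n) (n + 1))).map_one,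
        (algebraMap (Kx k n) (Fr (Kx k n) n)).map_one] at h
      rw [pow_zero, pow_zero]
      exact h
    | succ N ih =>
      obtain ⟨_, h2, h3⟩ := s2 (x ^ N) x ih.1 hx
      rw [pow_succ, pow_succ]
      exact ⟨h2, by rw [h3, ih.2]⟩
  have hsD := (H1 s hs).1
  obtain ⟨hiD, hiS⟩ := s3 s hsD hsps
  have L1 := (hLOC (Kx k n) (Fr (Kx k n) (n + 1)) (D.bc.ch a b) s hs hs0).1
  have L2 := (hLOC (Kx k n) (Fr (Kx k n) n) (D.sec.ch a b) (sp s) (H1 s hs).2 hsps).1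
  have key : ∀ (N : ℕ) (x : Fr (Kx k n) (n + 1)), Dom x →
      Dom ((s⁻¹) ^ N * x) ∧ sp ((s⁻¹) ^ N * x) = ((sp s)⁻¹) ^ N * sp x := by
    intro N x hx
    obtain ⟨h1, h2⟩ := hdpow _ hiD N
    obtain ⟨_, h3, h4⟩ := s2 _ _ h1 hx
    exact ⟨h3, by rw [h4, h2, hiS]⟩
  have cancel : ∀ (N : ℕ) (z : Fr (Kx k n) (n + 1)), (s⁻¹) ^ N * (s ^ N * z) = z := by
    intro N z
    rw [← mul_assoc, ← mul_pow, inv_mul_cancel₀ hs0, one_pow, one_mul]
  refine ⟨?_, ?_, ?_⟩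
  · intro z hz
    obtain ⟨N, hN⟩ := (L1 z).mp hz
    obtain ⟨h1, h2⟩ := H1 _ hN
    obtain ⟨h3, h4⟩ := key N _ h1
    rw [cancel] at h3 h4
    refine ⟨h3, (L2 _).mpr ⟨N, ?_⟩⟩
    rw [h4, ← mul_assoc, ← mul_pow, mul_inv_cancel₀ hsps, one_pow, one_mul]
    exact h2
  · intro y hy
    obtain ⟨N, hN⟩ := (L2 y).mp hy
    obtain ⟨z0, hz0, hz1⟩ := H2 _ hN
    refine ⟨(s⁻¹) ^ N * z0, (L1 _).mpr ⟨N, ?_⟩, ?_⟩
    · rw [← mul_assoc, ← mul_pow, mul_inv_cancel₀ hs0, one_pow, one_mul]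
      exact hz0
    · rw [(key N z0 (H1 z0 hz0).1).2, hz1, ← mul_assoc, ← mul_pow, inv_mul_cancel₀ hsps, one_pow,
        one_mul]
  · intro z hz hz0
    obtain ⟨N, hN⟩ := (L1 z).mp hz
    have h1 : s ^ N * z ∈ exM n (emb k n) (Subalgebra.toSubmodule A) := (e1 _).mp (c3 ▸ hN)
    have h2 : sp (s ^ N * z) = 0 := by
      have hzD : Dom z := by
        have := (key N _ (H1 _ hN).1).1
        rwa [cancel] at this
      rw [(s2 _ _ (hdpow s hsD N).1 hzD).2.2, hz0, mul_zero]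
    obtain ⟨x', hx', hxe⟩ := hKER k n hn sp hsp A (inc k (n + 1) (D.g a))⁻¹
      (Subalgebra.toSubmodule A) ((hCOV k n D hD).2 a b A le_rfl)
      (fun a ha y hy => A.mul_mem ha hy) _ h1 h2
    have hx'' : x' ∈ D.bc.ch a b := c3 ▸ (e1 x').mpr hx'
    refine ⟨(s⁻¹) ^ N * x', (L1 _).mpr ⟨N, ?_⟩, ?_⟩
    · rw [← mul_assoc, ← mul_pow, mul_inv_cancel₀ hs0, one_pow, one_mul]
      exact hx''
    · have h3 : emb k n (inc k (n + 1) (D.g a))⁻¹ = (inc _ _ (D.bc.g a))⁻¹ := by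
        rw [map_inv₀, emb_inc]
        rfl
      rw [h3] at hxe
      calc z = (s⁻¹) ^ N * (s ^ N * z) := (cancel N z).symm
        _ = (s⁻¹) ^ N * ((inc _ _ (D.bc.g a))⁻¹ * inc _ _ (lgen k n) * x') := by rw [hxe]
        _ = _ := by rw [div_eq_mul_inv]; ring

end Pool.Agent.DBX.GEN
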