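import Pool.Agent.DBX.GEN.Stmts

set_option autoImplicit false

/-! # Module LS2: the reduced inverse image of `V(I)` in the section -/

namespace Pool.Agent.DBX.GEN

open Pool.Agent.DBX MvPolynomial

universe u

namespace LS2_

section
variable {K F : Type u} [Field K] [Field F] [Algebra K F]

theorem mem_toF {A : Subalgebra K F} {J : Ideal A} {x : F} :
    x ∈ toF A J ↔ ∃ z : A, z ∈ J ∧ (z : F) = x := by
  unfold toF
  rw [Submodule.mem_map]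
  rfl

theorem toF_mul {A : Subalgebra K F} {J : Ideal A} {c x : F} (hc : c ∈ A)
    (hx : x ∈ toF A J) : c * x ∈ toF A J := by
  obtain ⟨z, hz, rfl⟩ := mem_toF.1 hx
  exact mem_toF.2 ⟨⟨c, hc⟩ * z, Ideal.mul_mem_left _ _ hz, rfl⟩

theorem mem_rad {A : Subalgebra K F} {J : Ideal A} {x : F} :
    x ∈ toF A J.radical ↔ x ∈ A ∧ ∃ M : ℕ, x ^ (M + 1) ∈ toF A J := by
  constructor
  · intro h
    obtain ⟨z, ⟨M, hz⟩, rfl⟩ := mem_toF.1 h
    refine ⟨z.2, M, mem_toF.2 ⟨z ^ (M + 1), ?_, rfl⟩⟩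
    rw [pow_succ]
    exact Ideal.mul_mem_right _ _ hz
  · rintro ⟨hx, M, h⟩
    obtain ⟨z, hz, hzx⟩ := mem_toF.1 h
    refine mem_toF.2 ⟨⟨x, hx⟩, ⟨M + 1, ?_⟩, rfl⟩
    have : (⟨x, hx⟩ : A) ^ (M + 1) = z := Subtype.ext hzx.symm
    rw [this]
    exact hz

theorem A_le_Loc (A : Subalgebra K F) (s : F) : A ≤ Loc A s := fun _ hx =>
  Algebra.subset_adjoin (Or.inl hx)

theorem inv_mem_Loc (A : Subalgebra K F) (s : F) : s⁻¹ ∈ Loc A s :=
  Algebra.subset_adjoin (Or.inr rfl)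

/-- Monotonicity of `genIn`. -/
theorem genIn_mono {A B : Subalgebra K F} (h : A ≤ B) (G : Set F) {x : F}
    (hx : x ∈ toF A (genIn A G)) : x ∈ toF B (genIn B G) := by
  obtain ⟨z, hz, rfl⟩ := mem_toF.1 hx
  refine Submodule.span_induction (p := fun z _ => ((z : A) : F) ∈ toF B (genIn B G))
    ?_ ?_ ?_ ?_ hz
  · intro z hz
    exact mem_toF.2 ⟨⟨z, h z.2⟩, Ideal.subset_span hz, rfl⟩
  · exact Submodule.zero_mem _
  · intro a b _ _ ha hb
    exact Submodule.add_mem _ ha hb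
  · intro c z _ hz
    exact toF_mul (h c.2) hz

theorem rad_mono {A B : Subalgebra K F} (h : A ≤ B) (G : Set F) {x : F}
    (hx : x ∈ toF A (genIn A G).radical) : x ∈ toF B (genIn B G).radical := by
  obtain ⟨hA, M, hM⟩ := mem_rad.1 hx
  exact mem_rad.2 ⟨h hA, M, genIn_mono h G hM⟩

theorem genIn_loc {A : Subalgebra K F} {s : F} (hs : s ∈ A)
    (hL : ∀ z, z ∈ Loc A s ↔ ∃ N : ℕ, s ^ N * z ∈ A) {G : Set F} (hG : G ⊆ A) {x : F}
    (hx : x ∈ toF (Loc A s) (genIn (Loc A s) G)) :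
    ∃ N : ℕ, s ^ N * x ∈ toF A (genIn A G) := by
  obtain ⟨z, hz, rfl⟩ := mem_toF.1 hx
  refine Submodule.span_induction
    (p := fun z _ => ∃ N : ℕ, s ^ N * ((z : Loc A s) : F) ∈ toF A (genIn A G)) ?_ ?_ ?_ ?_ hz
  · intro z hz
    refine ⟨0, ?_⟩
    rw [pow_zero, one_mul]
    exact mem_toF.2 ⟨⟨z, hG hz⟩, Ideal.subset_span hz, rfl⟩
  · refine ⟨0, ?_⟩
    have : s ^ 0 * ((0 : Loc A s) : F) = 0 := by
      rw [ZeroMemClass.coe_zero, mul_zero]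
    rw [this]
    exact Submodule.zero_mem _
  · rintro a b _ _ ⟨N, ha⟩ ⟨N', hb⟩
    refine ⟨N + N', ?_⟩
    have e : s ^ (N + N') * ((a + b : Loc A s) : F) =
        s ^ N' * (s ^ N * (a : F)) + s ^ N * (s ^ N' * (b : F)) := by
      rw [AddMemClass.coe_add]
      ring
    rw [e]
    exact Submodule.add_mem _ (toF_mul (pow_mem hs _) ha) (toF_mul (pow_mem hs _) hb)
  · rintro c z _ ⟨N, hz⟩
    obtain ⟨N', hc⟩ := (hL c).1 c.2
    refine ⟨N' + N, ?_⟩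
    have e : s ^ (N' + N) * ((c • z : Loc A s) : F) =
        (s ^ N' * (c : F)) * (s ^ N * (z : F)) := by
      rw [smul_eq_mul, MulMemClass.coe_mul]
      ring
    rw [e]
    exact toF_mul hc hz

theorem rad_loc {A : Subalgebra K F} {s : F} (hs : s ∈ A)
    (hL : ∀ z, z ∈ Loc A s ↔ ∃ N : ℕ, s ^ N * z ∈ A) {G : Set F} (hG : G ⊆ A) {x : F}
    (hx : x ∈ toF (Loc A s) (genIn (Loc A s) G).radical) :
    ∃ N : ℕ, s ^ N * x ∈ toF A (genIn A G).radical := by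
  obtain ⟨hA, M, hM⟩ := mem_rad.1 hx
  obtain ⟨N1, h1⟩ := (hL x).1 hA
  obtain ⟨N2, h2⟩ := genIn_loc hs hL hG hM
  refine ⟨N1 + N2, mem_rad.2 ⟨?_, M, ?_⟩⟩
  · have e : s ^ (N1 + N2) * x = s ^ N2 * (s ^ N1 * x) := by ring
    rw [e]
    exact A.mul_mem (pow_mem hs _) h1
  · have e : (s ^ (N1 + N2) * x) ^ (M + 1) =
        s ^ (N1 * (M + 1) + N2 * M) * (s ^ N2 * x ^ (M + 1)) := by
      rw [mul_pow, ← pow_mul, ← mul_assoc, ← pow_add]
      congr 2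
      ring
    rw [e]
    exact toF_mul (pow_mem hs _) h2

end

theorem cmp_emb (k : Type u) [Field k] (n : ℕ) : Cmp k n (emb k n) := by
  intro c
  have h1 : algebraMap k (Fr k (n + 1)) c = inc k (n + 1) (C c) :=
    IsScalarTower.algebraMap_apply k (MvPolynomial (Fin (n + 1)) k) (Fr k (n + 1)) c
  have h2 : algebraMap (Kx k n) (Fr (Kx k n) (n + 1)) (algebraMap k (Kx k n) c) =
      inc (Kx k n) (n + 1) (C (algebraMap k (Kx k n) c)) :=
    IsScalarTower.algebraMap_apply (Kx k n) (MvPolynomial (Fin (n + 1)) (Kx k n))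
      (Fr (Kx k n) (n + 1)) _
  rw [h1, h2]
  unfold emb
  rw [IsLocalization.map_eq]
  congr 1
  unfold bcP
  rw [MvPolynomial.map_C]

theorem cmp_iot (k : Type u) [Field k] (n : ℕ) (iot : Fr k (n + 1) →+* Fr (Kx k n) n)
    (hiot : IsIot iot) : Cmp k n iot := by
  intro c
  have h1 : algebraMap k (Fr k (n + 1)) c = inc k (n + 1) (C c) :=
    IsScalarTower.algebraMap_apply k (MvPolynomial (Fin (n + 1)) k) (Fr k (n + 1)) c
  have h2 : algebraMap (Kx k n) (Fr (Kx k n) n) (algebraMap k (Kx k n) c) =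
      inc (Kx k n) n (C (algebraMap k (Kx k n) c)) :=
    IsScalarTower.algebraMap_apply (Kx k n) (MvPolynomial (Fin n) (Kx k n))
      (Fr (Kx k n) n) _
  rw [h1, h2, hiot]
  congr 1
  unfold phi
  rw [RingHom.comp_apply]
  unfold bcP
  rw [MvPolynomial.map_C]
  change secP k n (C _) = _
  unfold secP
  rw [MvPolynomial.aeval_C]
  rfl

end LS2_

open LS2_ in
theorem LS2 (hPHI : Stmt_PHI.{u}) (hSPP : Stmt_SPP.{u}) (hCHS : Stmt_CHS.{u})
    (hEXA : Stmt_EXA.{u}) (hRADB : Stmt_RADB.{u}) (hRADS : Stmt_RADS.{u}) (hLOC : Stmt_LOC.{u})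
    (hCOV : Stmt_COV.{u}) : Stmt_LS2.{u} := by
  intro k _ n hn sp hsp D hD a b s hs hsp0 d d' hdd' hrad
  obtain ⟨_, iot, hiot⟩ := hPHI k n hn
  obtain ⟨sAlg, sMul, sInv, _, _, sMap, _⟩ := hSPP k n iot hiot sp hsp
  obtain ⟨hI0, _, hbc, hbcG, hrest⟩ := hCHS k n D hD a b
  obtain ⟨hsec, hsecG⟩ := hrest iot hiot
  have hcE := cmp_emb k n
  have hcI := cmp_iot k n iot hiot
  obtain ⟨eE1, _, _, eE4⟩ := hEXA k n _ _ (emb k n) hcE (D.ch a b)
  obtain ⟨eI1, _, _, eI4⟩ := hEXA k n _ _ iot hcI (D.ch a b)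
  have hCov : Cov (D.ch a b) (inc k (n + 1) (D.g a))⁻¹ := (hCOV k n D hD).2 a b _ le_rfl
  -- F1
  have hDomA : ∀ z ∈ D.bc.ch a b, Dom z := by
    intro z hz
    rw [hbc, eE1] at hz
    exact (sMap _).1 z hz
  -- F2
  have hspA : ∀ z ∈ D.bc.ch a b, sp z ∈ D.sec.ch a b := by
    intro z hz
    rw [hbc, eE1] at hz
    rw [hsec, eI1, ← (sMap _).2]
    exact Submodule.mem_map_of_mem hz
  -- F3
  have hRad : ∀ y, y ∈ toF (D.sec.ch a b) (genIn (D.sec.ch a b) (iot '' D.I0 a)).radical ↔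
      ∃ x ∈ toF (D.bc.ch a b) (genIn (D.bc.ch a b) (emb k n '' D.I0 a)).radical, sp x = y := by
    intro y
    rw [hbc, hsec, eE4 _ hI0, eI4 _ hI0, hRADB, hRADS k n iot hiot _ _ hCov, ← (sMap _).2,
      Submodule.mem_map]
  have hGA : emb k n '' D.I0 a ⊆ (D.bc.ch a b : Set _) := by
    rintro _ ⟨x, hx, rfl⟩
    change emb k n x ∈ D.bc.ch a b
    rw [hbc]
    exact Algebra.subset_adjoin ⟨x, hI0 hx, rfl⟩
  have hGB : iot '' D.I0 a ⊆ (D.sec.ch a b : Set _) := by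
    rintro _ ⟨x, hx, rfl⟩
    change iot x ∈ D.sec.ch a b
    rw [hsec]
    exact Algebra.subset_adjoin ⟨x, hI0 hx, rfl⟩
  have hs0 : s ≠ 0 := by
    rintro rfl
    exact hsp0 (map_zero sp)
  have hsB : sp s ∈ D.sec.ch a b := hspA s hs
  have hLA := (hLOC (Kx k n) _ (D.bc.ch a b) s hs hs0).1
  have hLB := (hLOC (Kx k n) _ (D.sec.ch a b) (sp s) hsB hsp0).1
  have hDomS : Dom s := hDomA s hs
  obtain ⟨hDomSi, hspSi⟩ := sInv s hDomS hsp0
  have hpow : ∀ x : Fr (Kx k n) (n + 1), Dom x → ∀ N : ℕ, Dom (x ^ N) ∧ sp (x ^ N) = sp x ^ N := by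
    intro x hx N
    induction N with
    | zero =>
      have h := sAlg 1
      rw [map_one (algebraMap (Kx k n) (Fr (Kx k n) (n + 1))),
        map_one (algebraMap (Kx k n) (Fr (Kx k n) n))] at h
      rw [pow_zero, pow_zero]
      exact h
    | succ N ih =>
      rw [pow_succ, pow_succ]
      obtain ⟨_, h2, h3⟩ := sMul _ _ ih.1 hx
      exact ⟨h2, by rw [h3, ih.2]⟩
  have hLoc : ∀ z ∈ Loc (D.bc.ch a b) s, Dom z ∧ sp z ∈ Loc (D.sec.ch a b) (sp s) := by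
    intro z hz
    obtain ⟨N, hN⟩ := (hLA z).1 hz
    have e : z = (s ^ N * z) * (s⁻¹) ^ N := by
      rw [mul_comm (s ^ N) z, mul_assoc, ← mul_pow, mul_inv_cancel₀ hs0, one_pow, mul_one]
    obtain ⟨h1, h2⟩ := hpow _ hDomSi N
    obtain ⟨_, h3, h4⟩ := sMul _ _ (hDomA _ hN) h1
    rw [e]
    refine ⟨h3, ?_⟩
    rw [h4, h2, hspSi]
    exact Subalgebra.mul_mem _ (A_le_Loc _ _ (hspA _ hN)) (pow_mem (inv_mem_Loc _ _) _)
  rw [hsecG _ (A_le_Loc _ _)]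
  rw [hbcG _ (A_le_Loc _ _)] at hrad
  apply le_antisymm
  · intro y hy
    have h1 : (y : Fr (Kx k n) n) ∈ toF (Loc (D.sec.ch a b) (sp s))
        (genIn (Loc (D.sec.ch a b) (sp s)) (iot '' D.I0 a)).radical := mem_toF.2 ⟨y, hy, rfl⟩
    obtain ⟨N, hN⟩ := rad_loc hsB hLB hGB h1
    obtain ⟨x, hx, hxy⟩ := (hRad _).1 hN
    have h2 := rad_mono (A_le_Loc (D.bc.ch a b) s) _ hx
    obtain ⟨x1, hx1, rfl⟩ := mem_toF.1 h2
    have h3 : x1 ∈ Ideal.span {d} := hrad ▸ hx1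
    obtain ⟨z, hz⟩ := Ideal.mem_span_singleton.1 h3
    obtain ⟨hzD, hzL⟩ := hLoc z z.2
    obtain ⟨hdD, _⟩ := hLoc d d.2
    rw [Ideal.mem_span_singleton]
    have hm : (sp s)⁻¹ ^ N * sp z ∈ Loc (D.sec.ch a b) (sp s) :=
      Subalgebra.mul_mem _ (pow_mem (inv_mem_Loc _ _) _) hzL
    refine ⟨⟨_, hm⟩, Subtype.ext ?_⟩
    rw [MulMemClass.coe_mul, hdd']
    have h4 : sp (x1 : Fr (Kx k n) (n + 1)) = sp d * sp z := by
      rw [hz, MulMemClass.coe_mul]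
      exact (sMul _ _ hdD hzD).2.2
    rw [h4] at hxy
    have h5 : (sp s) ^ N ≠ 0 := pow_ne_zero _ hsp0
    change (y : Fr (Kx k n) n) = sp d * ((sp s)⁻¹ ^ N * sp z)
    have h6 : sp d * ((sp s)⁻¹ ^ N * sp z) = (sp s)⁻¹ ^ N * (sp d * sp z) := by ring
    rw [h6, hxy, ← mul_assoc, ← mul_pow, inv_mul_cancel₀ hsp0, one_pow, one_mul]
  · rw [Ideal.span_singleton_le_iff_mem]
    have h1 : d ∈ (genIn (Loc (D.bc.ch a b) s) (emb k n '' D.I0 a)).radical := by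
      rw [hrad]
      exact Ideal.mem_span_singleton_self d
    have h2 : (d : Fr (Kx k n) (n + 1)) ∈ toF (Loc (D.bc.ch a b) s)
        (genIn (Loc (D.bc.ch a b) s) (emb k n '' D.I0 a)).radical := mem_toF.2 ⟨d, h1, rfl⟩
    obtain ⟨N, hN⟩ := rad_loc hs hLA hGA h2
    have h3 := (hRad _).2 ⟨_, hN, rfl⟩
    have h4 := rad_mono (A_le_Loc (D.sec.ch a b) (sp s)) _ h3
    obtain ⟨hdD, _⟩ := hLoc d d.2
    obtain ⟨h5, h6⟩ := hpow s hDomS N
    rw [(sMul _ _ h5 hdD).2.2, h6, ← hdd'] at h4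
    have h7 := toF_mul (pow_mem (inv_mem_Loc (D.sec.ch a b) (sp s)) N) h4
    rw [← mul_assoc, ← mul_pow, inv_mul_cancel₀ hsp0, one_pow, one_mul] at h7
    obtain ⟨z, hz, hzd⟩ := mem_toF.1 h7
    have : z = d' := Subtype.ext hzd
    rw [← this]
    exact hz

end Pool.Agent.DBX.GEN
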