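import Pool.Agent.DBX.GEN.Stmts

/-!
# DBX, area GEN, module LSS: the generic hyperplane section is log smooth
-/

set_option autoImplicit false

namespace Pool.Agent.DBX.GEN

open Pool.Agent.DBX MvPolynomial

universe u

namespace LSS_

theorem gen_one {K F : Type u} [Field K] [Field F] [Algebra K F] (A : Subalgebra K F) (h : F)
    (hh : h ∈ A) : genIn A {h} = Ideal.span {(⟨h, hh⟩ : A)} := by
  unfold genIn
  congr 1
  ext z
  constructor
  · intro hz
    exact Subtype.ext hz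
  · rintro rfl
    exact rfl

theorem val_succAbove {m : ℕ} (i : Fin (m + 1)) (e : ℕ) (he : e ≤ (i : ℕ)) (j : Fin m) :
    ((i.succAbove j : Fin (m + 1)) : ℕ) < e ↔ (j : ℕ) < e := by
  unfold Fin.succAbove
  split_ifs with h
  · rw [Fin.val_castSucc]
  · rw [Fin.val_succ]
    have h1 : ¬ ((j : ℕ) < (i : ℕ)) := by
      intro h2
      apply h
      rw [Fin.lt_def, Fin.val_castSucc]
      exact h2
    omega

theorem core {K F E : Type u} [Field K] [Field F] [Algebra K F] [Field E] [Algebra K E]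
    (hETQ : Stmt_ETQ.{u}) (m : ℕ)
    (A : Subalgebra K F) (B : Subalgebra K E) (g : A →ₐ[K] B) (hg : Function.Surjective g)
    (G : Set F) (G' : Set E) (M h : F) (M' : E) (hM : M ∈ A)
    (hM' : ∀ z : A, (z : F) = M → (g z : E) = M') (hh : h ∈ A)
    (hker : ∀ z : A, g z = 0 ↔ ∃ z' : A, z = z' * ⟨h, hh⟩)
    (hrad : ∀ d : A, (genIn A G).radical = Ideal.span {d} →
      (genIn B G').radical = Ideal.span {g d})
    (t : Fin (m + 1) → A) (e : ℕ) (het : (MvPolynomial.aeval (R := K) t).toRingHom.Etale)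
    (hr : (genIn A G).radical = Ideal.span {∏ i : Fin (m + 1), if (i : ℕ) < e then t i else 1})
    (hm : ∃ c : Fin (m + 1) → ℕ, (∀ i : Fin (m + 1), e ≤ (i : ℕ) → c i = 0) ∧
      genIn A {M} = Ideal.span {∏ i, t i ^ c i})
    (hH : genIn A {h} = ⊤ ∨ ∃ i : Fin (m + 1), e ≤ (i : ℕ) ∧ genIn A {h} = Ideal.span {t i}) :
    ∃ t' : Fin m → B, (MvPolynomial.aeval (R := K) t').toRingHom.Etale ∧
      (genIn B G').radical = Ideal.span {∏ i : Fin m, if (i : ℕ) < e then t' i else 1} ∧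
      ∃ c : Fin m → ℕ, (∀ i : Fin m, e ≤ (i : ℕ) → c i = 0) ∧
        genIn B {M'} = Ideal.span {∏ i, t' i ^ c i} := by
  have hker' : RingHom.ker g = Ideal.span {(⟨h, hh⟩ : A)} := by
    ext z
    rw [RingHom.mem_ker, hker, Ideal.mem_span_singleton']
    constructor
    · rintro ⟨z', rfl⟩
      exact ⟨z', rfl⟩
    · rintro ⟨z', rfl⟩
      exact ⟨z', rfl⟩
  rw [← gen_one A h hh] at hker'
  rcases hH with hH | ⟨i, hi, hH⟩
  · exfalso
    have h1 : (1 : A) ∈ RingHom.ker g := by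
      rw [hker', hH]
      trivial
    rw [RingHom.mem_ker, map_one] at h1
    exact one_ne_zero h1
  · rw [hH] at hker'
    refine ⟨fun j => g (t (i.succAbove j)), hETQ K A B m t g i het hg hker', ?_, ?_⟩
    · have h1 := hrad _ hr
      rw [h1]
      congr 2
      rw [map_prod, Fin.prod_univ_succAbove _ i, if_neg (by omega), map_one, one_mul]
      apply Finset.prod_congr rfl
      intro j _
      by_cases hj : (j : ℕ) < e
      · rw [if_pos hj, if_pos ((val_succAbove i e hi j).2 hj)]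
      · rw [if_neg hj, if_neg (fun h => hj ((val_succAbove i e hi j).1 h)), map_one]
    · obtain ⟨c, hc, hc'⟩ := hm
      refine ⟨fun j => c (i.succAbove j), ?_, ?_⟩
      · intro j hj
        apply hc
        by_contra h
        have := (val_succAbove i e hi j).1 (by omega)
        omega
      · have hM1 : (g ⟨M, hM⟩ : E) = M' := hM' _ rfl
        have hM2 : M' ∈ B := by
          rw [← hM1]
          exact (g ⟨M, hM⟩).2
        have hM3 : g ⟨M, hM⟩ = ⟨M', hM2⟩ := Subtype.ext hM1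
        rw [gen_one B M' hM2, ← hM3]
        rw [gen_one A M hM] at hc'
        have h2 : g (∏ i, t i ^ c i) = ∏ j : Fin m, g (t (i.succAbove j)) ^ c (i.succAbove j) := by
          rw [map_prod, Fin.prod_univ_succAbove _ i, hc i hi, pow_zero, map_one, one_mul]
          apply Finset.prod_congr rfl
          intro j _
          rw [map_pow]
        rw [← h2]
        have h3 := congrArg (Ideal.map (g : A →+* B)) hc'
        rw [Ideal.map_span, Ideal.map_span, Set.image_singleton, Set.image_singleton] at h3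
        exact h3

theorem secP_lgen (k : Type u) [Field k] (n : ℕ) : secP k n (lgen k n) = 0 := by
  unfold secP lgen
  rw [map_sub, aeval_X, Fin.snoc_last, map_sum, sub_eq_zero]
  apply Finset.sum_congr rfl
  intro i _
  rw [map_mul, aeval_X, Fin.snoc_castSucc, aeval_C]
  rfl

theorem lgen_mem (k : Type u) [Field k] (n : ℕ) (D : Dat k (n + 1)) (a : Fin D.p) (b : Fin D.M) :
    inc _ _ (lgen k n) / inc _ _ (D.bc.g a) ∈ D.bc.ch a b := by
  have hX : ∀ i, inc _ _ (X i) / inc _ _ (D.bc.g a) ∈ D.bc.ch a b := by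
    intro i
    exact Algebra.subset_adjoin (Or.inl ⟨i, rfl⟩)
  have h1 : inc _ _ (lgen k n) / inc _ _ (D.bc.g a) =
      inc _ _ (X (Fin.last n)) / inc _ _ (D.bc.g a) -
      ∑ i : Fin n, algebraMap (Kx k n) (Fr (Kx k n) (n + 1)) (vv k n i) *
        (inc _ _ (X i.castSucc) / inc _ _ (D.bc.g a)) := by
    unfold lgen
    rw [map_sub, sub_div, map_sum, Finset.sum_div]
    congr 1
    apply Finset.sum_congr rfl
    intro i _
    rw [map_mul, mul_div_assoc]
    rfl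
  rw [h1]
  refine sub_mem (hX _) (sum_mem fun i _ => mul_mem (Subalgebra.algebraMap_mem _ _) (hX _))

end LSS_

open LSS_

theorem LSS (hPHI : Stmt_PHI.{u}) (hSPE : Stmt_SPE.{u}) (hSPA : Stmt_SPA.{u})
    (hLS1 : Stmt_LS1.{u}) (hLS2 : Stmt_LS2.{u}) (hETQ : Stmt_ETQ.{u}) (hCHS : Stmt_CHS.{u})
    (hGDB : Stmt_GDB.{u}) : Stmt_LSS.{u} := by
  intro k _ _ n D hn hD hLH
  obtain ⟨-, iot, hiot⟩ := hPHI k n hn
  obtain ⟨sp, hsp⟩ := hSPE k n
  obtain ⟨hbc, hsec⟩ := hGDB k n D hn hD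
  obtain ⟨m, rfl⟩ : ∃ m, n = m + 1 := ⟨n - 1, by omega⟩
  intro a b q hq
  obtain ⟨h1, h2, h3⟩ := hLS1 k (m + 1) hn sp hsp D hD a b
  obtain ⟨g0, hg0⟩ := hSPA k (m + 1) iot hiot sp hsp (D.bc.ch a b) (D.sec.ch a b)
    (fun z hz => (h1 z hz).1) (fun z hz => (h1 z hz).2)
  have hq' : (q.comap g0).IsPrime := Ideal.IsPrime.comap g0
  obtain ⟨s', hs', t, e, hlc, hH⟩ := hLH a b (q.comap g0) hq'
  have hs0 : sp (s' : Fr (Kx k (m + 1)) (m + 1 + 1)) ≠ 0 := by
    intro h0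
    apply hs'
    rw [Ideal.mem_comap]
    have : g0 s' = 0 := Subtype.ext (by rw [hg0 s', h0]; rfl)
    rw [this]
    exact zero_mem q
  obtain ⟨h4, h5, h6⟩ := h3 (s' : Fr (Kx k (m + 1)) (m + 1 + 1)) s'.2 hs0
  obtain ⟨g, hg⟩ := hSPA k (m + 1) iot hiot sp hsp
    (Loc (D.bc.ch a b) (s' : Fr (Kx k (m + 1)) (m + 1 + 1)))
    (Loc (D.sec.ch a b) (sp (s' : Fr (Kx k (m + 1)) (m + 1 + 1))))
    (fun z hz => (h4 z hz).1) (fun z hz => (h4 z hz).2)
  have hsub : D.bc.ch a b ≤ Loc (D.bc.ch a b) (s' : Fr (Kx k (m + 1)) (m + 1 + 1)) :=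
    fun z hz => Algebra.subset_adjoin (Or.inl hz)
  have hga : secP k (m + 1) (D.bc.g a) ≠ 0 := hsec.g_ne a
  -- the hyperplane
  have hh := hsub (lgen_mem k (m + 1) D a b)
  have hsph : sp (inc _ _ (lgen k (m + 1)) / inc _ _ (D.bc.g a)) = 0 := by
    rw [hsp _ _ hga, secP_lgen, map_zero, zero_div]
  -- the monomial
  have hM := hsub (hCHS (Kx k (m + 1)) (m + 1)
    (D.bc : Dat (Kx k (m + 1)) (m + 1 + 1)) hbc a b).2.1
  have hspM : sp (inc _ _ (D.bc.f b) / inc _ _ (D.bc.g a) ^ D.bc.δ) =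
      inc _ _ (D.sec.f b) / inc _ _ (D.sec.g a) ^ D.sec.δ := by
    rw [← map_pow, hsp _ _ (by rw [map_pow]; exact pow_ne_zero _ hga), map_pow, map_pow]
    rfl
  have hgs : Function.Surjective g := by
    intro y
    obtain ⟨z, hz, h⟩ := h5 y y.2
    exact ⟨⟨z, hz⟩, Subtype.ext ((hg _).trans h)⟩
  obtain ⟨hl1, hl2, hl3⟩ := hlc
  obtain ⟨t', ht1, ht2, ht3⟩ := core hETQ m
    (Loc (D.bc.ch a b) (s' : Fr (Kx k (m + 1)) (m + 1 + 1)))
    (Loc (D.sec.ch a b) (sp (s' : Fr (Kx k (m + 1)) (m + 1 + 1)))) g hgs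
    (D.bc.I0 a) (D.sec.I0 a) (inc _ _ (D.bc.f b) / inc _ _ (D.bc.g a) ^ D.bc.δ)
    (inc _ _ (lgen k (m + 1)) / inc _ _ (D.bc.g a))
    (inc _ _ (D.sec.f b) / inc _ _ (D.sec.g a) ^ D.sec.δ) hM
    (fun z hz => by rw [hg z, hz, hspM]) hh
    (fun z => by
      constructor
      · intro h0
        have h7 : sp (z : Fr (Kx k (m + 1)) (m + 1 + 1)) = 0 := by
          rw [← hg z, h0]
          rfl
        obtain ⟨z', hz', h8⟩ := h6 z z.2 h7
        exact ⟨⟨z', hz'⟩, Subtype.ext (by rw [h8, mul_comm]; rfl)⟩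
      · rintro ⟨z', rfl⟩
        have h7 : g ⟨inc _ _ (lgen k (m + 1)) / inc _ _ (D.bc.g a), hh⟩ = 0 :=
          Subtype.ext (by rw [hg, hsph]; rfl)
        rw [map_mul, h7, mul_zero])
    (fun d hd => hLS2 k (m + 1) hn sp hsp D hD a b s' s'.2 hs0 d (g d) (hg d) hd)
    t e hl1 hl2 hl3 hH
  refine ⟨⟨sp (s' : Fr (Kx k (m + 1)) (m + 1 + 1)), (h1 s' s'.2).2⟩, ?_, t', e, ht1, ht2, ht3⟩
  intro h
  apply hs'
  rw [Ideal.mem_comap]
  have : g0 s' = ⟨sp (s' : Fr (Kx k (m + 1)) (m + 1 + 1)), (h1 s' s'.2).2⟩ :=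
    Subtype.ext (hg0 s')
  rw [this]
  exact h

end Pool.Agent.DBX.GEN
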