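import Pool.Agent.DBX.GEN.Stmts

set_option autoImplicit false

namespace Pool.Agent.DBX.GEN

open Pool.Agent.DBX MvPolynomial

universe u

namespace MCC_

variable {k : Type u} [Field k] {n : ℕ}

theorem coeff_lv (w : Fr k (n + 1)) (Q : MvPolynomial (Fin n) (Fr k (n + 1))) (α : Fin n →₀ ℕ) :
    (C w * lv k n * Q).coeff α = w * xx k n (Fin.last n) * Q.coeff α -
      ∑ i : Fin n, (w * xx k n i.castSucc) *
        (if i ∈ α.support then Q.coeff (α - Finsupp.single i 1) else 0) := by
  have h : C w * lv k n * Q = C (w * xx k n (Fin.last n)) * Q -
      ∑ i : Fin n, C (w * xx k n i.castSucc) * (X i * Q) := by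
    unfold lv
    rw [mul_sub, sub_mul, C_mul, Finset.mul_sum, Finset.sum_mul]
    congr 1
    refine Finset.sum_congr rfl (fun i _ => ?_)
    rw [C_mul]
    ring
  rw [h, coeff_sub, coeff_C_mul, coeff_sum]
  congr 1
  refine Finset.sum_congr rfl (fun i _ => ?_)
  rw [coeff_C_mul, coeff_X_mul']

/-- degree -/
def dg (α : Fin n →₀ ℕ) : ℕ := ∑ i : Fin n, α i

theorem dg_add (α β : Fin n →₀ ℕ) : dg (α + β) = dg α + dg β := by
  unfold dg
  simp [Finset.sum_add_distrib]

theorem dg_single (b : Fin n) : dg (Finsupp.single b 1 : Fin n →₀ ℕ) = 1 := by
  unfold dg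
  rw [Finset.sum_eq_single b]
  · simp
  · intro c _ hc
    rw [Finsupp.single_eq_of_ne hc]
  · intro h
    exact absurd (Finset.mem_univ b) h

theorem sub_single (α : Fin n →₀ ℕ) (i : Fin n) (hi : i ∈ α.support) :
    α - Finsupp.single i 1 + Finsupp.single i 1 = α := by
  apply tsub_add_cancel_of_le
  rw [Finsupp.single_le_iff]
  exact Nat.one_le_iff_ne_zero.2 (Finsupp.mem_support_iff.1 hi)

/-- abstract induction -/
theorem main {F : Type u} [Field F] (V : AddSubgroup F) (Y : Fin (n + 1) → F)
    (hY : ∀ i, ∀ v ∈ V, Y i * v ∈ V) (b : Fin (n + 1)) (hb : ∀ v, Y b * v ∈ V → v ∈ V)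
    (q : (Fin n →₀ ℕ) → F) (D : ℕ) (hD : ∀ α, D < dg α → q α = 0)
    (hq : ∀ α, Y (Fin.last n) * q α - ∑ i : Fin n, Y i.castSucc *
      (if i ∈ α.support then q (α - Finsupp.single i 1) else 0) ∈ V) (α : Fin n →₀ ℕ) :
    q α ∈ V := by
  rcases Fin.eq_castSucc_or_eq_last b with ⟨c, rfl⟩ | rfl
  · -- b = c.castSucc
    have key : ∀ m : ℕ, ∀ α : Fin n →₀ ℕ, D < dg α + m → q α ∈ V := by
      intro m
      induction m with
      | zero =>
        intro α h
        rw [hD α (by omega)]
        exact V.zero_mem
      | succ m ih =>
        have inner : ∀ t : ℕ, ∀ α : Fin n →₀ ℕ, D < dg α + (m + 1) → dg α ≤ α c + t →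
            q α ∈ V := by
          intro t
          induction t using Nat.strong_induction_on with
          | _ t iht =>
            intro α h1 h2
            apply hb
            have h3 := hq (α + Finsupp.single c 1)
            have h4 : q (α + Finsupp.single c 1) ∈ V := by
              apply ih
              rw [dg_add, dg_single]
              omega
            have h5 := hY (Fin.last n) _ h4
            have h6 := V.sub_mem h5 h3
            rw [sub_sub_cancel, ← Finset.add_sum_erase _ _ (Finset.mem_univ c)] at h6
            have h7 : c ∈ (α + Finsupp.single c 1).support := by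
              rw [Finsupp.mem_support_iff]
              simp
            rw [if_pos h7, add_tsub_cancel_right] at h6
            have h8 : ∑ i ∈ Finset.univ.erase c, Y i.castSucc *
                (if i ∈ (α + Finsupp.single c 1).support then
                  q (α + Finsupp.single c 1 - Finsupp.single i 1) else 0) ∈ V := by
              apply V.sum_mem
              intro i hi
              have hic : i ≠ c := Finset.ne_of_mem_erase hi
              apply hY
              split_ifs with hs
              · set β := α + Finsupp.single c 1 - Finsupp.single i 1 with hβ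
                have e1 := sub_single _ i hs
                rw [← hβ] at e1
                have e2 : dg β + 1 = dg α + 1 := by
                  have := congrArg dg e1
                  rwa [dg_add, dg_add, dg_single, dg_single] at this
                have e3 : β c = α c + 1 := by
                  have := DFunLike.congr_fun e1 c
                  simpa [Finsupp.single_eq_of_ne hic.symm] using this
                have e4 : 1 ≤ α i := by
                  have := Finsupp.mem_support_iff.1 hs
                  rw [Finsupp.add_apply, Finsupp.single_eq_of_ne hic, add_zero] at this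
                  omega
                have e5 : α c + α i ≤ dg α := by
                  unfold dg
                  rw [← Finset.add_sum_erase _ _ (Finset.mem_univ c)]
                  have := Finset.single_le_sum (f := fun l => α l) (s := Finset.univ.erase c)
                    (fun _ _ => Nat.zero_le _) (Finset.mem_erase.2 ⟨hic, Finset.mem_univ i⟩)
                  omega
                rcases t with _ | t
                · omega
                · exact iht t (by omega) β (by omega) (by omega)
              · exact V.zero_mem
            have h9 := V.sub_mem h6 h8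
            rwa [add_sub_cancel_right] at h9
        intro α h
        exact inner (dg α) α h (by omega)
    exact key (D + 1) α (by omega)
  · -- b = last
    have key : ∀ m : ℕ, ∀ α : Fin n →₀ ℕ, dg α ≤ m → q α ∈ V := by
      intro m
      induction m with
      | zero =>
        intro α h
        apply hb
        have h3 := hq α
        have h4 : ∑ i : Fin n, Y i.castSucc *
            (if i ∈ α.support then q (α - Finsupp.single i 1) else 0) = 0 := by
          apply Finset.sum_eq_zero
          intro i _
          rw [if_neg, mul_zero]
          intro hs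
          have e1 := sub_single _ i hs
          have := congrArg dg e1
          rw [dg_add, dg_single] at this
          omega
        rwa [h4, sub_zero] at h3
      | succ m ih =>
        intro α h
        apply hb
        have h3 := hq α
        have h4 : ∑ i : Fin n, Y i.castSucc *
            (if i ∈ α.support then q (α - Finsupp.single i 1) else 0) ∈ V := by
          apply V.sum_mem
          intro i _
          apply hY
          split_ifs with hs
          · apply ih
            have e1 := sub_single _ i hs
            have := congrArg dg e1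
            rw [dg_add, dg_single] at this
            omega
          · exact V.zero_mem
        have h5 := V.add_mem h3 h4
        rwa [sub_add_cancel] at h5
    exact key _ α le_rfl

end MCC_

open MCC_ in
theorem MCC : Stmt_MCC.{u} := by
  intro k _ n A w U hA hU Q hQ α
  have hmem := hA.mem
  obtain ⟨r, hr, hsum⟩ := hA.span
  set Y : Fin (n + 1) → Fr k (n + 1) := fun i => w * xx k n i with hYdef
  have sat : ∀ b : Fin (n + 1), ∃ N : ℕ, Y b ^ N * Q.coeff α ∈ U := by
    intro b
    let V : AddSubgroup (Fr k (n + 1)) :=
      { carrier := {v | ∃ N : ℕ, Y b ^ N * v ∈ U}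
        zero_mem' := ⟨0, by rw [mul_zero]; exact U.zero_mem⟩
        add_mem' := by
          rintro v v' ⟨N, hN⟩ ⟨N', hN'⟩
          refine ⟨N + N', ?_⟩
          have h1 := hU (Y b ^ N') (A.pow_mem (hmem b) _) _ hN
          have h2 := hU (Y b ^ N) (A.pow_mem (hmem b) _) _ hN'
          have h3 := U.add_mem h1 h2
          have e : Y b ^ (N + N') * (v + v') =
              Y b ^ N' * (Y b ^ N * v) + Y b ^ N * (Y b ^ N' * v') := by ring
          rw [e]
          exact h3
        neg_mem' := by
          rintro v ⟨N, hN⟩
          refine ⟨N, ?_⟩
          rw [mul_neg]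
          exact U.neg_mem hN }
    have hUV : ∀ v ∈ U, v ∈ V := fun v hv => ⟨0, by rw [pow_zero, one_mul]; exact hv⟩
    have hb : ∀ v, Y b * v ∈ V → v ∈ V := by
      rintro v ⟨N, hN⟩
      refine ⟨N + 1, ?_⟩
      rw [pow_succ, mul_assoc]
      exact hN
    have hYV : ∀ i, ∀ v ∈ V, Y i * v ∈ V := by
      rintro i v ⟨N, hN⟩
      refine ⟨N, ?_⟩
      have h1 := hU (Y i) (hmem i) _ hN
      have e : Y b ^ N * (Y i * v) = Y i * (Y b ^ N * v) := by ring
      rw [e]
      exact h1
    refine main V Y hYV b hb (fun α => Q.coeff α) (Q.support.sup dg) ?_ ?_ α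
    · intro β hβ
      by_contra h
      have : dg β ≤ Q.support.sup dg := Finset.le_sup (mem_support_iff.2 h)
      omega
    · intro β
      apply hUV
      have := hQ β
      rw [coeff_lv] at this
      exact this
  choose N hN using sat
  let y : Fin (n + 1) → A := fun i => ⟨Y i, hmem i⟩
  let J : Ideal A :=
    { carrier := {a | (a : Fr k (n + 1)) * Q.coeff α ∈ U}
      zero_mem' := by
        show ((0 : A) : Fr k (n + 1)) * Q.coeff α ∈ U
        rw [ZeroMemClass.coe_zero, zero_mul]
        exact U.zero_mem
      add_mem' := by
        intro a b ha hb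
        show ((a + b : A) : Fr k (n + 1)) * Q.coeff α ∈ U
        rw [AddMemClass.coe_add, add_mul]
        exact U.add_mem ha hb
      smul_mem' := by
        intro c a ha
        show ((c * a : A) : Fr k (n + 1)) * Q.coeff α ∈ U
        rw [MulMemClass.coe_mul, mul_assoc]
        exact hU c c.2 _ ha }
  have htop : Ideal.span (Set.range y) = ⊤ := by
    rw [Ideal.eq_top_iff_one]
    have h1 : (1 : A) = ∑ i, (⟨r i, hr i⟩ : A) * y i := by
      apply Subtype.ext
      rw [OneMemClass.coe_one, ← hsum]
      rw [AddSubmonoidClass.coe_finsetSum]
      rfl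
    rw [h1]
    exact Ideal.sum_mem _ (fun i _ => Ideal.mul_mem_left _ _ (Ideal.subset_span ⟨i, rfl⟩))
  have htop2 := Ideal.span_pow_eq_top (Set.range y) htop (Finset.univ.sup N)
  have hJ : Ideal.span ((fun x => x ^ (Finset.univ.sup N)) '' Set.range y) ≤ J := by
    rw [Ideal.span_le]
    rintro _ ⟨_, ⟨i, rfl⟩, rfl⟩
    show (((y i) ^ (Finset.univ.sup N) : A) : Fr k (n + 1)) * Q.coeff α ∈ U
    rw [SubmonoidClass.coe_pow]
    have hle : N i ≤ Finset.univ.sup N := Finset.le_sup (Finset.mem_univ i)
    obtain ⟨d, hd⟩ := Nat.exists_eq_add_of_le' hle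
    rw [hd, pow_add, mul_assoc]
    exact hU _ (A.pow_mem (hmem i) d) _ (hN i)
  have h1 : (1 : A) ∈ J := hJ (by rw [htop2]; exact Submodule.mem_top)
  have h2 : ((1 : A) : Fr k (n + 1)) * Q.coeff α ∈ U := h1
  rwa [OneMemClass.coe_one, one_mul] at h2

end Pool.Agent.DBX.GEN
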