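import Pool.Agent.DBX.GEN.Stmts

set_option autoImplicit false

namespace Pool.Agent.DBX.GEN

open MvPolynomial Pool.Agent.DBX

universe u

namespace NIL_

variable {k : Type u} [Field k] {n : ℕ} {F : Type u} [Field F] [Algebra k F] {A : Subalgebra k F}

/-- a lift of a polynomial with coefficients in the subalgebra -/
noncomputable def lft (P : MvPolynomial (Fin n) F) (h : ∀ α, P.coeff α ∈ A) :
    MvPolynomial (Fin n) A :=
  ∑ α ∈ P.support, monomial α ⟨P.coeff α, h α⟩

lemma coeff_lft (P : MvPolynomial (Fin n) F) (h : ∀ α, P.coeff α ∈ A) (α : Fin n →₀ ℕ) :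
    (((lft P h).coeff α : A) : F) = P.coeff α := by
  classical
  unfold lft
  rw [coeff_sum]
  by_cases hα : α ∈ P.support
  · rw [Finset.sum_eq_single α]
    · rw [coeff_monomial, if_pos rfl]
    · intro β _ hβ
      rw [coeff_monomial, if_neg hβ]
    · intro h'; exact absurd hα h'
  · rw [Finset.sum_eq_zero]
    · rw [notMem_support_iff.1 hα]; rfl
    · intro β hβ
      rw [coeff_monomial, if_neg]
      rintro rfl
      exact hα hβ

lemma map_lft (P : MvPolynomial (Fin n) F) (h : ∀ α, P.coeff α ∈ A) :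
    MvPolynomial.map (A.val : A →+* F) (lft P h) = P := by
  ext α
  rw [coeff_map]
  exact coeff_lft P h α

lemma mem_toF {J : Ideal A} {z : F} (hz : z ∈ A) : z ∈ toF A J ↔ (⟨z, hz⟩ : A) ∈ J := by
  constructor
  · rintro ⟨w, hw, hw2⟩
    have : w = ⟨z, hz⟩ := Subtype.ext hw2
    rw [← this]; exact hw
  · intro h
    exact ⟨⟨z, hz⟩, h, rfl⟩

end NIL_

open NIL_ in
theorem NIL : Stmt_NIL.{u} := by
  intro k _ n F _ _ A J P N hP hPN α
  have hP' : ∀ α, P.coeff α ∈ A := hP
  set Q := lft P hP' with hQ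
  have hmap : MvPolynomial.map (A.val : A →+* F) Q = P := map_lft P hP'
  have hnil : IsNilpotent (MvPolynomial.map (Ideal.Quotient.mk J) Q) := by
    refine ⟨N, ?_⟩
    rw [← map_pow]
    ext β
    rw [coeff_map, coeff_zero, Ideal.Quotient.eq_zero_iff_mem]
    have h1 : (((Q ^ N).coeff β : A) : F) = (P ^ N).coeff β := by
      rw [← hmap, ← map_pow, coeff_map]
      rfl
    have h2 := hPN β
    rw [← h1] at h2
    exact (mem_toF (J := J) ((Q ^ N).coeff β).2).1 h2
  have h3 := (MvPolynomial.isNilpotent_iff.1 hnil) α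
  rw [coeff_map] at h3
  obtain ⟨M, hM⟩ := h3
  rw [← map_pow, Ideal.Quotient.eq_zero_iff_mem] at hM
  rw [mem_toF (hP' α)]
  refine ⟨M, ?_⟩
  have h4 : (⟨P.coeff α, hP' α⟩ : A) = Q.coeff α := Subtype.ext (coeff_lft P hP' α).symm
  rw [h4]
  exact hM

end Pool.Agent.DBX.GEN
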