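import Pool.Agent.DBX.GEN.Stmts

set_option autoImplicit false

namespace Pool.Agent.DBX.GEN

open Pool.Agent.DBX MvPolynomial

noncomputable section

universe u

namespace PHI_

variable (k : Type u) [Field k] (n : ℕ)

/-- `k[x_0..x_n] → k[v][x_0..x_{n-1}]` -/
def psi : Pol k (n + 1) →+* MvPolynomial (Fin n) (MvPolynomial (Fin n) k) :=
  eval₂Hom ((C : MvPolynomial (Fin n) k →+* _).comp (C : k →+* MvPolynomial (Fin n) k))
    (Fin.snoc (α := fun _ => MvPolynomial (Fin n) (MvPolynomial (Fin n) k)) X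
      (∑ i, C (X i) * X i))

theorem phi_eq : phi k n =
    (MvPolynomial.map (algebraMap (MvPolynomial (Fin n) k) (Kx k n))).comp (psi k n) := by
  apply MvPolynomial.ringHom_ext
  · intro c
    simp only [phi, bcP, secP, psi, RingHom.comp_apply, MvPolynomial.map_C, coe_eval₂Hom,
      eval₂_C, AlgHom.toRingHom_eq_coe, RingHom.coe_coe, aeval_C, MvPolynomial.algebraMap_eq]
    congr 1
  · intro i
    simp only [phi, bcP, secP, psi, RingHom.comp_apply, MvPolynomial.map_X, coe_eval₂Hom,
      eval₂_X, AlgHom.toRingHom_eq_coe, RingHom.coe_coe, aeval_X]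
    refine Fin.lastCases ?_ (fun j => ?_) i
    · rw [Fin.snoc_last, Fin.snoc_last, map_sum]
      refine Finset.sum_congr rfl (fun j _ => ?_)
      rw [map_mul, map_X, map_C]
      rfl
    · rw [Fin.snoc_castSucc, Fin.snoc_castSucc, map_X]

/-- back to the function field: `v_0 ↦ x_n / x_0`, `v_i ↦ 0` -/
def the (i0 : Fin n) : MvPolynomial (Fin n) (MvPolynomial (Fin n) k) →+* Fr k (n + 1) :=
  eval₂Hom (eval₂Hom (algebraMap k (Fr k (n + 1)))
    (fun i => if i = i0 then xx k n (Fin.last n) / xx k n i0.castSucc else 0))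
    (fun i => xx k n i.castSucc)

theorem the_psi (i0 : Fin n) : (the k n i0).comp (psi k n) = inc k (n + 1) := by
  apply MvPolynomial.ringHom_ext
  · intro c
    simp only [the, psi, RingHom.comp_apply, coe_eval₂Hom, eval₂_C]
    rw [IsScalarTower.algebraMap_apply k (Pol k (n + 1)) (Fr k (n + 1))]
    rfl
  · intro i
    simp only [the, psi, RingHom.comp_apply, coe_eval₂Hom, eval₂_X]
    refine Fin.lastCases ?_ (fun j => ?_) i
    · rw [Fin.snoc_last, eval₂_sum]
      rw [Finset.sum_eq_single i0]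
      · rw [eval₂_mul, eval₂_C, eval₂_X, coe_eval₂Hom, eval₂_X, if_pos rfl]
        have h : xx k n i0.castSucc ≠ 0 := inc_ne (X_ne_zero _)
        rw [div_mul_cancel₀ _ h]
        rfl
      · intro b _ hb
        rw [eval₂_mul, eval₂_C, eval₂_X, coe_eval₂Hom, eval₂_X, if_neg hb, zero_mul]
      · intro h
        exact absurd (Finset.mem_univ _) h
    · rw [Fin.snoc_castSucc, eval₂_X]
      rfl

theorem phi_inj (hn : 1 ≤ n) : Function.Injective (phi k n) := by
  rw [injective_iff_map_eq_zero]
  intro p hp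
  rw [phi_eq, RingHom.comp_apply] at hp
  have h1 : psi k n p = 0 := by
    apply MvPolynomial.map_injective _
      (IsFractionRing.injective (MvPolynomial (Fin n) k) (Kx k n))
    rw [hp, map_zero]
  have h2 : inc k (n + 1) p = 0 := by
    rw [← the_psi k n ⟨0, hn⟩, RingHom.comp_apply, h1, map_zero]
  by_contra h
  exact inc_ne h h2

end PHI_

theorem PHI : Stmt_PHI.{u} := by
  intro k _ n hn
  have hinj := PHI_.phi_inj k n hn
  refine ⟨hinj, IsLocalization.map (M := nonZeroDivisors (Pol k (n + 1)))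
    (T := nonZeroDivisors (Pol (Kx k n) n)) (Fr (Kx k n) n) (phi k n)
    (nonZeroDivisors_le_comap_nonZeroDivisors_of_injective _ hinj), ?_⟩
  intro p
  exact IsLocalization.map_eq _ _

end

end Pool.Agent.DBX.GEN
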