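import Pool.Agent.DBX.GEN.Stmts

set_option autoImplicit false

/-! # DBX/GEN/RADB: radicals commute with the base change `k ⊂ k'` -/

namespace Pool.Agent.DBX.GEN

open Pool.Agent.DBX MvPolynomial

universe u

namespace RADB_

theorem mem_toF {k F : Type*} [Field k] [Field F] [Algebra k F] {A : Subalgebra k F}
    {J : Ideal A} {z : F} : z ∈ toF A J ↔ ∃ a : A, a ∈ J ∧ (a : F) = z := by
  unfold toF
  rw [Submodule.mem_map]
  rfl

end RADB_

open RADB_ in
theorem RADB (hEVE : Stmt_EVE.{u}) (hREP : Stmt_REP.{u}) (hCIN : Stmt_CIN.{u})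
    (hNIL : Stmt_NIL.{u}) (hEXA : Stmt_EXA.{u}) : Stmt_RADB.{u} := by
  intro k _ n A J
  obtain ⟨hcmp, -, hinj, -⟩ := hEVE k n
  obtain ⟨hR1, hR2, hR3, hR4⟩ := hREP k n _ _ (emb k n) hcmp
  obtain ⟨hE1, hE2, -, -⟩ := hEXA k n _ _ (emb k n) hcmp A
  apply le_antisymm
  · intro z hz
    obtain ⟨a, ha, rfl⟩ := mem_toF.1 hz
    obtain ⟨N, hN⟩ := ha
    have hN1 : a ^ (N + 1) ∈ genIn (exA n (emb k n) A) (emb k n '' (toF A J : Set _)) := by
      rw [pow_succ]; exact Ideal.mul_mem_right _ _ hN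
    have h1 : (a : Fr (Kx k n) (n + 1)) ^ (N + 1) ∈ exM n (emb k n) (toF A J) := by
      rw [← hE2 J]
      exact mem_toF.2 ⟨_, hN1, rfl⟩
    have h2 : (a : Fr (Kx k n) (n + 1)) ∈ exM n (emb k n) (Subalgebra.toSubmodule A) :=
      (hE1 _).1 a.2
    obtain ⟨c, P, hc, hP⟩ := hR1 Bool (fun i => if i then Subalgebra.toSubmodule A else toF A J)
      (fun i => if i then (a : Fr (Kx k n) (n + 1)) else (a : Fr (Kx k n) (n + 1)) ^ (N + 1)) (by
        intro i
        cases i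
        · simpa using h1
        · simpa using h2)
    have hT := hP true
    have hF := hP false
    simp only [if_true, Bool.false_eq_true, if_false] at hT hF
    have hcF := hR3 c
    have hev : evj k n (emb k n) (P true ^ (N + 1) -
        MvPolynomial.map (algebraMap k (Fr k (n + 1))) (c ^ N) * P false) = 0 := by
      rw [map_sub, map_pow, map_mul, map_pow, map_pow, hcF, ← hT.2, ← hF.2]
      ring
    have heq := sub_eq_zero.1 (hinj _ hev)
    have hco : CoeffIn (toF A J) (P true ^ (N + 1)) := by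
      rw [heq]
      exact (hCIN k n _ _).2.1 _ _ hF.1
    exact hR2 _ c (P true) _ hc (hNIL k n _ A J _ _ hT.1 hco) hT.2
  · unfold exM
    rw [Submodule.span_le]
    rintro _ ⟨y, hy, rfl⟩
    obtain ⟨a, ⟨N, hN⟩, rfl⟩ := mem_toF.1 hy
    have hmem : emb k n (a : Fr k (n + 1)) ∈ exA n (emb k n) A :=
      Algebra.subset_adjoin ⟨_, a.2, rfl⟩
    refine mem_toF.2 ⟨⟨_, hmem⟩, ⟨N, ?_⟩, rfl⟩
    apply Ideal.subset_span
    show ((⟨emb k n (a : Fr k (n + 1)), hmem⟩ : exA n (emb k n) A) ^ N :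
      exA n (emb k n) A).1 ∈ emb k n '' (toF A J : Set _)
    refine ⟨(a : Fr k (n + 1)) ^ N, mem_toF.2 ⟨a ^ N, hN, rfl⟩, ?_⟩
    rw [map_pow]
    rfl

end Pool.Agent.DBX.GEN
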