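import Pool.Agent.DBX.GEN.Stmts

set_option autoImplicit false

namespace Pool.Agent.DBX.GEN

open Pool.Agent.DBX MvPolynomial

universe u

namespace RADS_

section General

variable {k F : Type u} [Field k] [Field F] [Algebra k F]

theorem mem_toF {A : Subalgebra k F} {J : Ideal A} {z : F} :
    z ∈ toF A J ↔ ∃ a : A, a ∈ J ∧ (a : F) = z := by
  unfold toF
  rw [Submodule.mem_map]
  rfl

theorem smod_toF (A : Subalgebra k F) (J : Ideal A) : SMod A (toF A J) := by
  intro a ha y hy
  rw [mem_toF] at hy ⊢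
  obtain ⟨b, hb, rfl⟩ := hy
  exact ⟨⟨a, ha⟩ * b, J.mul_mem_left _ hb, rfl⟩

theorem smod_self (A : Subalgebra k F) : SMod A (Subalgebra.toSubmodule A) := by
  intro a ha y hy
  exact A.mul_mem ha hy

theorem coeffIn_C_mul {n : ℕ} {A : Subalgebra k F} {U : Submodule k F} (hS : SMod A U) {a : F}
    (ha : a ∈ A) {P : MvPolynomial (Fin n) F} (hP : CoeffIn U P) : CoeffIn U (C a * P) := by
  intro α
  rw [coeff_C_mul]
  exact hS a ha _ (hP α)

end General

section Iot

variable {k : Type u} [Field k] {n : ℕ}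

theorem phi_castSucc (i : Fin n) : phi k n (X i.castSucc) = X i := by
  unfold phi bcP secP
  change aeval _ (MvPolynomial.map _ (X i.castSucc)) = _
  rw [map_X, aeval_X, Fin.snoc_castSucc]

theorem phi_last : phi k n (X (Fin.last n)) = ∑ i, C (vv k n i) * X i := by
  unfold phi bcP secP
  change aeval _ (MvPolynomial.map _ (X (Fin.last n))) = _
  rw [map_X, aeval_X, Fin.snoc_last]

theorem inc_C (a : Kx k n) :
    inc (Kx k n) n (C a) = algebraMap (Kx k n) (Fr (Kx k n) n) a :=
  (IsScalarTower.algebraMap_apply (Kx k n) (MvPolynomial (Fin n) (Kx k n)) (Fr (Kx k n) n) a).symm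

theorem iot_last {iot : Fr k (n + 1) →+* Fr (Kx k n) n} (h : IsIot iot) :
    iot (xx k n (Fin.last n)) =
      ∑ i : Fin n, algebraMap (Kx k n) (Fr (Kx k n) n) (vv k n i) * iot (xx k n i.castSucc) := by
  unfold xx
  rw [h, phi_last, map_sum]
  refine Finset.sum_congr rfl (fun i _ => ?_)
  rw [map_mul, h, phi_castSucc, inc_C]

end Iot

end RADS_

open RADS_ in
theorem RADS (hEVI : Stmt_EVI.{u}) (hREP : Stmt_REP.{u}) (hCIN : Stmt_CIN.{u})
    (hNIL : Stmt_NIL.{u}) (hEXA : Stmt_EXA.{u}) (hRHC : Stmt_RHC.{u}) : Stmt_RADS.{u} := by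
  intro k _ n iot hiot A w hcov J
  obtain ⟨hcmp, hrho, hker⟩ := hEVI k n iot hiot
  obtain ⟨hrep1, hrep2, hrep3, -⟩ := hREP k n (Fr k (n + 1)) (Fr (Kx k n) n) iot hcmp
  obtain ⟨hexa1, hexa2, -, -⟩ := hEXA k n (Fr k (n + 1)) (Fr (Kx k n) n) iot hcmp A
  apply le_antisymm
  · intro z hz
    rw [mem_toF] at hz
    obtain ⟨z0, hz0, rfl⟩ := hz
    obtain ⟨N, hN⟩ := hz0
    -- the power `N + 1`
    have hN1 : z0 ^ (N + 1) ∈ genIn (exA n iot A) (iot '' (toF A J : Set _)) := by
      rw [pow_succ]
      exact Ideal.mul_mem_right _ _ hN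
    have hzN : ((z0 : Fr (Kx k n) n)) ^ (N + 1) ∈ exM n iot (toF A J) := by
      rw [← hexa2 J, mem_toF]
      exact ⟨z0 ^ (N + 1), hN1, by simp⟩
    have hzA : (z0 : Fr (Kx k n) n) ∈ exM n iot (Subalgebra.toSubmodule A) :=
      (hexa1 _).1 z0.2
    obtain ⟨c, P, hc, hP⟩ := hrep1 (Fin 2)
      (fun i => if i = 0 then Subalgebra.toSubmodule A else toF A J)
      (fun i => if i = 0 then (z0 : Fr (Kx k n) n) else (z0 : Fr (Kx k n) n) ^ (N + 1))
      (by
        intro i
        fin_cases i
        · exact hzA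
        · exact hzN)
    obtain ⟨hP0, hP0'⟩ := hP 0
    obtain ⟨hP1, hP1'⟩ := hP 1
    rw [if_pos rfl] at hP0 hP0'
    rw [if_neg (by decide)] at hP1 hP1'
    set cF : MvPolynomial (Fin n) (Fr k (n + 1)) :=
      MvPolynomial.map (algebraMap k (Fr k (n + 1))) c with hcF
    have hev0 : evj k n iot (cF * P 0 ^ (N + 1) - cF ^ (N + 1) * P 1) = 0 := by
      rw [map_sub, map_mul, map_mul, map_pow, map_pow, hcF, hrep3, ← hP0', ← hP1']
      ring
    -- the submodule
    set K := exM n iot (toF A J.radical) with hK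
    have hKS : ∀ a ∈ exA n iot A, ∀ y ∈ K, a * y ∈ K := by
      intro a ha y hy
      rw [hK, ← hexa2 J.radical] at hy ⊢
      exact smod_toF _ _ a ha y hy
    have hkey : ∀ b : Fin n, ∃ M : ℕ,
        iot (w * xx k n b.castSucc) ^ M * (z0 : Fr (Kx k n) n) ∈ K := by
      intro b
      have hr0 := hker b _ hev0
      have hr1 : rho k n b cF * rho k n b (P 0) ^ (N + 1) =
          rho k n b cF ^ (N + 1) * rho k n b (P 1) := by
        have := hr0
        rw [map_sub, map_mul, map_mul, map_pow, map_pow, sub_eq_zero] at this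
        exact this
      have hcA : CoeffIn (Subalgebra.toSubmodule A) (cF * P 0) :=
        (hCIN k n (Fr k (n + 1)) _).2.1 c (P 0) hP0
      have hcJ : CoeffIn (toF A J) (cF ^ (2 * N + 1) * P 1) := by
        have := (hCIN k n (Fr k (n + 1)) _).2.1 (c ^ (2 * N + 1)) (P 1) hP1
        rwa [map_pow] at this
      obtain ⟨M1, hM1⟩ := hRHC k n A w _ hcov (smod_self A) b _ hcA
      obtain ⟨M2, hM2⟩ := hRHC k n A w _ hcov (smod_toF A J) b _ hcJ
      have hxA : w * xx k n b.castSucc ∈ A := hcov.mem b.castSucc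
      set y := w * xx k n b.castSucc with hy
      set T : MvPolynomial (Fin n) (Fr k (n + 1)) := C (y ^ (M1 + M2)) * rho k n b (cF * P 0)
        with hT
      have hTA : CoeffIn (Subalgebra.toSubmodule A) T := by
        have h1 := coeffIn_C_mul (smod_self A) (pow_mem hxA M2) hM1
        have h2 : T = C (y ^ M2) * (C (y ^ M1) * rho k n b (cF * P 0)) := by
          rw [hT, ← mul_assoc, ← C_mul, ← pow_add, add_comm M2 M1]
        rw [h2]
        exact h1
      have hTN : T ^ (N + 1) = C (y ^ ((M1 + M2) * (N + 1) - M2)) *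
          (C (y ^ M2) * rho k n b (cF ^ (2 * N + 1) * P 1)) := by
        have hle : M2 ≤ (M1 + M2) * (N + 1) := by nlinarith
        rw [← mul_assoc, ← C_mul, ← pow_add, Nat.sub_add_cancel hle, hT, mul_pow, ← C_pow,
          ← pow_mul]
        congr 1
        rw [map_mul, map_mul, map_pow, mul_pow]
        have h3 : rho k n b cF ^ (N + 1) * rho k n b (P 0) ^ (N + 1) =
            rho k n b cF ^ N * (rho k n b cF * rho k n b (P 0) ^ (N + 1)) := by
          rw [pow_succ (rho k n b cF) N, mul_assoc]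
        rw [h3, hr1, ← mul_assoc, ← pow_add]
        congr 2
        ring
      have hTJ : CoeffIn (toF A J) (T ^ (N + 1)) := by
        rw [hTN]
        exact coeffIn_C_mul (smod_toF A J) (pow_mem hxA _) hM2
      have hTr := hNIL k n (Fr k (n + 1)) A J T (N + 1) hTA hTJ
      refine ⟨M1 + M2, hrep2 _ (c * c) T _ (mul_ne_zero hc hc) hTr ?_⟩
      have hcc : (cc (c * c) : Fr (Kx k n) n) = cc c * cc c := by
        unfold cc
        rw [map_mul, map_mul]
      have hCy : evj k n iot (C (y ^ (M1 + M2))) = iot y ^ (M1 + M2) := by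
        unfold evj
        rw [eval₂Hom_C, map_pow]
      have hevT : evj k n iot T = iot y ^ (M1 + M2) * (cc c * (cc c * (z0 : Fr (Kx k n) n))) := by
        rw [hT, map_mul (evj k n iot), hrho, map_mul (evj k n iot), hcF, hrep3, ← hP0', hCy]
      rw [hevT, hcc]
      ring
    choose M hM using hkey
    -- the ideal of all `y` with `y z ∈ K`
    let I : Ideal (exA n iot A) :=
      { carrier := {y | (y : Fr (Kx k n) n) * (z0 : Fr (Kx k n) n) ∈ K}
        add_mem' := by
          intro a b ha hb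
          have : ((a + b : exA n iot A) : Fr (Kx k n) n) * (z0 : Fr (Kx k n) n) =
            (a : Fr (Kx k n) n) * (z0 : Fr (Kx k n) n) +
              (b : Fr (Kx k n) n) * (z0 : Fr (Kx k n) n) := by
            push_cast
            ring
          change ((a + b : exA n iot A) : Fr (Kx k n) n) * (z0 : Fr (Kx k n) n) ∈ K
          rw [this]
          exact K.add_mem ha hb
        zero_mem' := by
          change ((0 : exA n iot A) : Fr (Kx k n) n) * (z0 : Fr (Kx k n) n) ∈ K
          rw [ZeroMemClass.coe_zero, zero_mul]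
          exact K.zero_mem
        smul_mem' := by
          intro a b hb
          have : ((a • b : exA n iot A) : Fr (Kx k n) n) * (z0 : Fr (Kx k n) n) =
            (a : Fr (Kx k n) n) * ((b : Fr (Kx k n) n) * (z0 : Fr (Kx k n) n)) := by
            rw [smul_eq_mul, MulMemClass.coe_mul, mul_assoc]
          change ((a • b : exA n iot A) : Fr (Kx k n) n) * (z0 : Fr (Kx k n) n) ∈ K
          rw [this]
          exact hKS _ a.2 _ hb }
    have himg : ∀ a ∈ A, iot a ∈ exA n iot A := fun a ha =>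
      Algebra.subset_adjoin ⟨a, ha, rfl⟩
    have hY : ∀ b : Fin n, (⟨iot (w * xx k n b.castSucc), himg _ (hcov.mem b.castSucc)⟩ :
        exA n iot A) ∈ I.radical := by
      intro b
      refine ⟨M b, ?_⟩
      change ((_ ^ M b : exA n iot A) : Fr (Kx k n) n) * (z0 : Fr (Kx k n) n) ∈ K
      rw [SubmonoidClass.coe_pow]
      exact hM b
    obtain ⟨r, hr, hr1⟩ := hcov.span
    have hone : (1 : exA n iot A) = ∑ b : Fin n,
        (⟨iot (r b.castSucc) + iot (r (Fin.last n)) *
            algebraMap (Kx k n) (Fr (Kx k n) n) (vv k n b),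
          (exA n iot A).add_mem (himg _ (hr _)) ((exA n iot A).mul_mem (himg _ (hr _))
            ((exA n iot A).algebraMap_mem _))⟩ : exA n iot A) *
        ⟨iot (w * xx k n b.castSucc), himg _ (hcov.mem b.castSucc)⟩ := by
      apply Subtype.ext
      rw [AddSubmonoidClass.coe_finsetSum]
      have h1 := congrArg iot hr1
      rw [map_one, map_sum, Fin.sum_univ_castSucc] at h1
      rw [OneMemClass.coe_one, ← h1]
      have h2 : iot (r (Fin.last n) * (w * xx k n (Fin.last n))) =
          ∑ b : Fin n, iot (r (Fin.last n)) * algebraMap (Kx k n) (Fr (Kx k n) n) (vv k n b) *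
            iot (w * xx k n b.castSucc) := by
        rw [map_mul, map_mul, iot_last hiot, Finset.mul_sum, Finset.mul_sum]
        refine Finset.sum_congr rfl (fun i _ => ?_)
        rw [map_mul]
        ring
      rw [h2, ← Finset.sum_add_distrib]
      refine Finset.sum_congr rfl (fun i _ => ?_)
      rw [MulMemClass.coe_mul, map_mul]
      ring
    have htop : I.radical = ⊤ := by
      rw [Ideal.eq_top_iff_one, hone]
      exact Ideal.sum_mem _ (fun b _ => Ideal.mul_mem_left _ _ (hY b))
    rw [Ideal.radical_eq_top] at htop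
    have h1 : (1 : exA n iot A) ∈ I := by
      rw [htop]
      trivial
    have h2 : ((1 : exA n iot A) : Fr (Kx k n) n) * (z0 : Fr (Kx k n) n) ∈ K := h1
    rw [OneMemClass.coe_one, one_mul] at h2
    exact h2
  · unfold exM
    rw [Submodule.span_le]
    rintro _ ⟨y, hy, rfl⟩
    obtain ⟨a, ⟨N, hN⟩, rfl⟩ := mem_toF.1 hy
    refine mem_toF.2 ⟨⟨iot a, Algebra.subset_adjoin ⟨a, a.2, rfl⟩⟩, ⟨N, ?_⟩, rfl⟩
    apply Ideal.subset_span
    refine ⟨(a : Fr k (n + 1)) ^ N, ?_, ?_⟩
    · exact mem_toF.2 ⟨a ^ N, hN, by simp⟩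
    · rw [map_pow]
      rfl

end Pool.Agent.DBX.GEN
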