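import Pool.Agent.DBX.GEN.Stmts

set_option autoImplicit false

/-! # DBX, area GEN, module RBS: the rings of the base change and of the section -/

namespace Pool.Agent.DBX.GEN

open Pool.Agent.DBX MvPolynomial

noncomputable section

universe u

namespace RBS_

variable {k : Type u} [Field k] {n : ℕ}

theorem cmp_of (N : ℕ) (ψ : Pol k (n + 1) →+* Pol (Kx k n) N)
    (hC : ∀ c, ψ (C c) = C (algebraMap k (Kx k n) c)) (j : Fr k (n + 1) →+* Fr (Kx k n) N)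
    (hj : ∀ p, j (inc k (n + 1) p) = inc (Kx k n) N (ψ p)) : Cmp k n j := by
  intro c
  have e1 : algebraMap k (Fr k (n + 1)) c = inc k (n + 1) (C c) := rfl
  have e2 : algebraMap (Kx k n) (Fr (Kx k n) N) (algebraMap k (Kx k n) c) =
      inc (Kx k n) N (C (algebraMap k (Kx k n) c)) := rfl
  rw [e1, e2, hj, hC]

theorem gen_R (hEXA : Stmt_EXA.{u}) (D : Dat k (n + 1)) (N : ℕ)
    (ψ : Pol k (n + 1) →+* Pol (Kx k n) N)
    (hC : ∀ c, ψ (C c) = C (algebraMap k (Kx k n) c)) (hX : ∀ i : Fin N, ∃ p, ψ p = X i)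
    (j : Fr k (n + 1) →+* Fr (Kx k n) N)
    (hj : ∀ p, j (inc k (n + 1) p) = inc (Kx k n) N (ψ p)) (σ : Finset (Fin D.p))
    (τ : Finset (Fin D.M)) :
    Algebra.adjoin (Kx k n) (Set.range (inc (Kx k n) N) ∪
      {z | ∃ a ∈ σ, z = (inc (Kx k n) N (ψ (D.g a)))⁻¹} ∪
      {z | ∃ b ∈ τ, ∃ i, z = inc (Kx k n) N (ψ (D.f i)) / inc (Kx k n) N (ψ (D.f b))}) =
      exA n j (D.R σ τ) := by
  unfold Dat.R
  rw [(hEXA k n (Fr k (n + 1)) (Fr (Kx k n) N) j (cmp_of N ψ hC j hj) ⊥).2.2.1]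
  apply le_antisymm
  · apply Algebra.adjoin_le
    rintro z ((⟨w, rfl⟩ | ⟨a, ha, rfl⟩) | ⟨b, hb, i, rfl⟩)
    · change inc (Kx k n) N w ∈ Algebra.adjoin (Kx k n) _
      induction w using MvPolynomial.induction_on with
      | C c => exact Subalgebra.algebraMap_mem _ c
      | add p q hp hq => rw [map_add]; exact add_mem hp hq
      | mul_X p i hp =>
        rw [map_mul]
        refine mul_mem hp ?_
        obtain ⟨p', hp'⟩ := hX i
        rw [← hp', ← hj]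
        exact Algebra.subset_adjoin ⟨_, Or.inl (Or.inl ⟨p', rfl⟩), rfl⟩
    · refine Algebra.subset_adjoin ⟨(inc k (n + 1) (D.g a))⁻¹, Or.inl (Or.inr ⟨a, ha, rfl⟩), ?_⟩
      rw [map_inv₀, hj]
    · refine Algebra.subset_adjoin ⟨inc k (n + 1) (D.f i) / inc k (n + 1) (D.f b),
        Or.inr ⟨b, hb, i, rfl⟩, ?_⟩
      rw [map_div₀, hj, hj]
  · apply Algebra.adjoin_mono
    rintro _ ⟨z, ((⟨w, rfl⟩ | ⟨a, ha, rfl⟩) | ⟨b, hb, i, rfl⟩), rfl⟩
    · rw [hj]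
      exact Or.inl (Or.inl ⟨_, rfl⟩)
    · rw [map_inv₀, hj]
      exact Or.inl (Or.inr ⟨a, ha, rfl⟩)
    · rw [map_div₀, hj, hj]
      exact Or.inr ⟨b, hb, i, rfl⟩

theorem gen_I (hEXA : Stmt_EXA.{u}) (D : Dat k (n + 1)) (N : ℕ)
    (ψ : Pol k (n + 1) →+* Pol (Kx k n) N)
    (hC : ∀ c, ψ (C c) = C (algebraMap k (Kx k n) c))
    (j : Fr k (n + 1) →+* Fr (Kx k n) N)
    (hj : ∀ p, j (inc k (n + 1) p) = inc (Kx k n) N (ψ p)) (σ : Finset (Fin D.p))
    (τ : Finset (Fin D.M)) (R' : Subalgebra (Kx k n) (Fr (Kx k n) N))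
    (hR' : R' = exA n j (D.R σ τ)) (hinc : ∀ w, inc (Kx k n) N w ∈ R') :
    genIn R' (inc (Kx k n) N '' (D.I.map ψ : Set (Pol (Kx k n) N))) =
      genIn R' (j '' (toF (D.R σ τ) (genIn (D.R σ τ) (inc k (n + 1) '' (D.I : Set _))) :
        Set (Fr k (n + 1)))) := by
  have h1 : genIn R' (j '' (inc k (n + 1) '' (D.I : Set _))) =
      genIn R' (j '' (toF (D.R σ τ) (genIn (D.R σ τ) (inc k (n + 1) '' (D.I : Set _))) :
        Set (Fr k (n + 1)))) := by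
    subst hR'
    refine (hEXA k n (Fr k (n + 1)) (Fr (Kx k n) N) j (cmp_of N ψ hC j hj) (D.R σ τ)).2.2.2 _ ?_
    rintro _ ⟨w, _, rfl⟩
    exact Algebra.subset_adjoin (Or.inl (Or.inl ⟨w, rfl⟩))
  rw [← h1]
  apply le_antisymm
  · let θ : Pol (Kx k n) N →+* R' := (inc (Kx k n) N).codRestrict R' hinc
    have h2 : D.I.map ψ ≤ (genIn R' (j '' (inc k (n + 1) '' (D.I : Set _)))).comap θ := by
      rw [Ideal.map_le_iff_le_comap]
      intro w hw
      refine Ideal.subset_span ⟨inc k (n + 1) w, ⟨w, hw, rfl⟩, ?_⟩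
      rw [hj]
      rfl
    unfold genIn
    rw [Ideal.span_le]
    rintro z ⟨w, hw, hz⟩
    have h3 := h2 hw
    have h4 : z = θ w := Subtype.ext hz.symm
    rw [h4]
    exact h3
  · apply Ideal.span_mono
    rintro z ⟨_, ⟨w, hw, rfl⟩, hz⟩
    exact ⟨ψ w, Ideal.mem_map_of_mem ψ hw, by rw [← hj]; exact hz⟩

theorem emb_inc (p : Pol k (n + 1)) : emb k n (inc k (n + 1) p) = inc (Kx k n) (n + 1) (bcP k n p) :=
  IsLocalization.map_eq (M := nonZeroDivisors (Pol k (n + 1)))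
    (T := nonZeroDivisors (Pol (Kx k n) (n + 1)))
    (nonZeroDivisors_le_comap_nonZeroDivisors_of_injective _ (bcP_injective k n)) p

theorem bcP_C (c : k) : bcP k n (C c) = C (algebraMap k (Kx k n) c) := map_C _ _

theorem bcP_X (i : Fin (n + 1)) : bcP k n (X i) = X i := map_X _ _

theorem phi_C (c : k) : phi k n (C c) = C (algebraMap k (Kx k n) c) := by
  change secP k n (bcP k n (C c)) = _
  rw [bcP_C]
  exact (secP k n).commutes _

theorem phi_X (i : Fin n) : phi k n (X i.castSucc) = X i := by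
  change secP k n (bcP k n (X i.castSucc)) = _
  rw [bcP_X, secP, aeval_X, Fin.snoc_castSucc]

end RBS_

theorem RBS (hEXA : Stmt_EXA.{u}) : Stmt_RBS.{u} := by
  intro k _ n D σ τ
  refine ⟨?_, ?_⟩
  · have h1 : D.bc.R σ τ = exA n (emb k n) (D.R σ τ) :=
      RBS_.gen_R hEXA D (n + 1) (bcP k n) RBS_.bcP_C (fun i => ⟨X i, RBS_.bcP_X i⟩) (emb k n)
        RBS_.emb_inc σ τ
    refine ⟨h1, ?_⟩
    exact RBS_.gen_I hEXA D (n + 1) (bcP k n) RBS_.bcP_C (emb k n) RBS_.emb_inc σ τ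
      (D.bc.R σ τ) h1 (fun w => Algebra.subset_adjoin (Or.inl (Or.inl ⟨w, rfl⟩)))
  · intro iot hiot
    have h1 : D.sec.R σ τ = exA n iot (D.R σ τ) :=
      RBS_.gen_R hEXA D n (phi k n) RBS_.phi_C (fun i => ⟨X i.castSucc, RBS_.phi_X i⟩) iot
        hiot σ τ
    refine ⟨h1, ?_⟩
    have h2 : D.sec.I = D.I.map (phi k n) := Ideal.map_map _ _
    have h3 := RBS_.gen_I hEXA D n (phi k n) RBS_.phi_C iot hiot σ τ
      (D.sec.R σ τ) h1 (fun w => Algebra.subset_adjoin (Or.inl (Or.inl ⟨w, rfl⟩)))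
    rw [← h2] at h3
    exact h3

end

end Pool.Agent.DBX.GEN
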