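import Pool.Agent.DBX.GEN.Stmts

set_option autoImplicit false

namespace Pool.Agent.DBX.GEN

open Pool.Agent.DBX MvPolynomial

noncomputable section

universe u

namespace RDV_

theorem xx_ne {k : Type u} [Field k] {n : ℕ} (i : Fin (n + 1)) : xx k n i ≠ 0 :=
  inc_ne (MvPolynomial.X_ne_zero i)

theorem X_sub {k : Type u} [Field k] {n : ℕ} (b : Fin n) :
    (X b : MvPolynomial (Fin n) (Fr k (n + 1))) - rho k n b (X b) =
      lv k n * (- C (xx k n b.castSucc)⁻¹) := by
  have h0 : (C (xx k n b.castSucc) : MvPolynomial (Fin n) (Fr k (n + 1))) *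
      C (xx k n b.castSucc)⁻¹ = 1 := by
    rw [← C_mul, mul_inv_cancel₀ (xx_ne _), C_1]
  have h1 : rho k n b (X b) = C (xx k n b.castSucc)⁻¹ *
    (C (xx k n (Fin.last n)) - ∑ i ∈ Finset.univ.erase b, C (xx k n i.castSucc) * X i) := by
    unfold rho
    rw [aeval_X, if_pos rfl]
  have h2 : ∑ i : Fin n, C (xx k n i.castSucc) * (X i : MvPolynomial (Fin n) (Fr k (n + 1))) =
      C (xx k n b.castSucc) * X b + ∑ i ∈ Finset.univ.erase b, C (xx k n i.castSucc) * X i :=
    (Finset.add_sum_erase _ _ (Finset.mem_univ b)).symm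
  rw [h1]
  unfold lv
  rw [h2]
  linear_combination (- X b) * h0

theorem key {k : Type u} [Field k] {n : ℕ} (b : Fin n)
    (P : MvPolynomial (Fin n) (Fr k (n + 1))) : ∃ Q, P - rho k n b P = lv k n * Q := by
  induction P using MvPolynomial.induction_on with
  | C a =>
    refine ⟨0, ?_⟩
    have : rho k n b (C a) = C a := by
      unfold rho
      rw [MvPolynomial.aeval_C]
      rfl
    rw [this, sub_self, mul_zero]
  | add p q hp hq =>
    obtain ⟨Q, hQ⟩ := hp
    obtain ⟨R, hR⟩ := hq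
    refine ⟨Q + R, ?_⟩
    rw [map_add, mul_add, ← hQ, ← hR]
    ring
  | mul_X p i hp =>
    obtain ⟨Q, hQ⟩ := hp
    by_cases h : i = b
    · subst h
      refine ⟨Q * X i + rho k n i p * (- C (xx k n i.castSucc)⁻¹), ?_⟩
      have h1 := X_sub (k := k) i
      rw [map_mul]
      linear_combination X i * hQ + (rho k n i p) * h1
    · refine ⟨Q * X i, ?_⟩
      have h1 : rho k n b (X i) = X i := by
        unfold rho
        rw [aeval_X, if_neg h]
      rw [map_mul, h1]
      linear_combination X i * hQ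

end RDV_

theorem RDV : Stmt_RDV.{u} := by
  intro k _ n b P hP
  obtain ⟨Q, hQ⟩ := RDV_.key b P
  rw [hP, sub_zero] at hQ
  exact ⟨Q, hQ⟩

end

end Pool.Agent.DBX.GEN
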