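import Pool.Agent.DBX.GEN.Stmts

set_option autoImplicit false

namespace Pool.Agent.DBX.GEN

open Pool.Agent.DBX MvPolynomial

universe u

namespace REP_

variable {k : Type u} [Field k] {n : ℕ} {F G : Type u} [Field F] [Field G] [Algebra k F]
  [Algebra (Kx k n) G]

theorem evj_map (j : F →+* G) (hj : Cmp k n j) (c : MvPolynomial (Fin n) k) :
    evj k n j (MvPolynomial.map (algebraMap k F) c) = cc c := by
  have h : (evj k n j).comp (MvPolynomial.map (algebraMap k F)) =
      (algebraMap (Kx k n) G).comp (algebraMap (MvPolynomial (Fin n) k) (Kx k n)) := by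
    refine MvPolynomial.ringHom_ext (fun a => ?_) (fun i => ?_)
    · rw [RingHom.comp_apply, RingHom.comp_apply, map_C]
      have h1 : evj k n j (C (algebraMap k F a)) = j (algebraMap k F a) := by
        unfold evj
        rw [coe_eval₂Hom, eval₂_C]
      rw [h1, hj a, IsScalarTower.algebraMap_apply k (MvPolynomial (Fin n) k) (Kx k n)]
      rfl
    · rw [RingHom.comp_apply, RingHom.comp_apply, map_X]
      unfold evj
      rw [coe_eval₂Hom, eval₂_X]
      rfl
  exact congrArg (fun f => f c) h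

theorem cc_ne (c : MvPolynomial (Fin n) k) (hc : c ≠ 0) : (cc c : G) ≠ 0 := by
  unfold cc
  rw [Ne, map_eq_zero]
  intro h
  exact hc ((IsFractionRing.injective (MvPolynomial (Fin n) k) (Kx k n)) (by rw [h, map_zero]))

theorem cc_mul (c d : MvPolynomial (Fin n) k) : (cc (c * d) : G) = cc c * cc d := by
  unfold cc
  rw [map_mul, map_mul]

theorem cc_one : (cc (1 : MvPolynomial (Fin n) k) : G) = 1 := by
  unfold cc
  rw [map_one, map_one]

theorem single (hCIN : Stmt_CIN.{u}) (j : F →+* G) (hj : Cmp k n j) (U : Submodule k F) (z : G)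
    (hz : z ∈ exM n j U) : ∃ (c : MvPolynomial (Fin n) k) (P : MvPolynomial (Fin n) F), c ≠ 0 ∧
      CoeffIn U P ∧ cc c * z = evj k n j P := by
  obtain ⟨h1, h2, -⟩ := hCIN k n F U
  unfold exM at hz
  induction hz using Submodule.span_induction with
  | mem z hz =>
    obtain ⟨u, hu, rfl⟩ := hz
    refine ⟨1, C u, one_ne_zero, ?_, ?_⟩
    · intro α
      rw [coeff_C]
      split_ifs
      · exact hu
      · exact U.zero_mem
    · rw [cc_one, one_mul]
      unfold evj
      rw [coe_eval₂Hom, eval₂_C]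
  | zero =>
    refine ⟨1, 0, one_ne_zero, ?_, ?_⟩
    · intro α
      rw [coeff_zero]
      exact U.zero_mem
    · rw [mul_zero, map_zero]
  | add z w _ _ hz hw =>
    obtain ⟨c, P, hc, hP, e⟩ := hz
    obtain ⟨d, Q, hd, hQ, e'⟩ := hw
    refine ⟨c * d, MvPolynomial.map (algebraMap k F) d * P +
      MvPolynomial.map (algebraMap k F) c * Q, mul_ne_zero hc hd,
      h1 _ _ (h2 _ _ hP) (h2 _ _ hQ), ?_⟩
    rw [map_add, map_mul, map_mul, evj_map j hj, evj_map j hj, ← e, ← e', cc_mul]
    ring
  | smul r z _ hz =>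
    obtain ⟨c, P, hc, hP, e⟩ := hz
    obtain ⟨a, b, hb, rfl⟩ := IsFractionRing.div_surjective (A := MvPolynomial (Fin n) k) r
    have hb' : b ≠ 0 := nonZeroDivisors.ne_zero hb
    refine ⟨b * c, MvPolynomial.map (algebraMap k F) a * P, mul_ne_zero hb' hc, h2 _ _ hP, ?_⟩
    rw [map_mul, evj_map j hj, ← e, cc_mul, Algebra.smul_def, map_div₀]
    have hbn : (cc b : G) ≠ 0 := cc_ne b hb'
    have e1 : algebraMap (Kx k n) G (algebraMap (MvPolynomial (Fin n) k) (Kx k n) a) = cc a := rfl
    have e2 : algebraMap (Kx k n) G (algebraMap (MvPolynomial (Fin n) k) (Kx k n) b) = cc b := rfl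
    rw [e1, e2]
    field_simp

end REP_

open REP_ in
theorem REP (hCIN : Stmt_CIN.{u}) : Stmt_REP.{u} := by
  intro k _ n F G _ _ _ _ j hj
  refine ⟨?_, ?_, evj_map j hj, cc_ne⟩
  · intro ι _ U z hz
    cases nonempty_fintype ι
    classical
    choose c P hc hP e using fun i => single hCIN j hj (U i) (z i) (hz i)
    refine ⟨∏ i, c i, fun i => MvPolynomial.map (algebraMap k F)
      (∏ l ∈ Finset.univ.erase i, c l) * P i, Finset.prod_ne_zero_iff.2 (fun i _ => hc i), ?_⟩
    intro i
    obtain ⟨-, h2, -⟩ := hCIN k n F (U i)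
    refine ⟨h2 _ _ (hP i), ?_⟩
    rw [map_mul, evj_map j hj, ← e i, ← mul_assoc, ← cc_mul]
    congr 2
    rw [mul_comm, Finset.mul_prod_erase _ _ (Finset.mem_univ i)]
  · intro U c P z hc hP e
    have hcn : (cc c : G) ≠ 0 := cc_ne c hc
    have hz : z = (algebraMap (MvPolynomial (Fin n) k) (Kx k n) c)⁻¹ • evj k n j P := by
      rw [← e, Algebra.smul_def, map_inv₀]
      have e1 : algebraMap (Kx k n) G (algebraMap (MvPolynomial (Fin n) k) (Kx k n) c) = cc c := rfl
      rw [e1]
      field_simp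
    rw [hz]
    apply Submodule.smul_mem
    unfold evj
    rw [coe_eval₂Hom, eval₂_eq]
    apply Submodule.sum_mem
    intro α _
    have e2 : j (P.coeff α) * ∏ i ∈ α.support, (algebraMap (Kx k n) G (vv k n i)) ^ α i =
        (∏ i ∈ α.support, (vv k n i) ^ α i) • j (P.coeff α) := by
      rw [Algebra.smul_def, map_prod, mul_comm]
      simp only [map_pow]
    rw [e2]
    exact Submodule.smul_mem _ _ (Submodule.subset_span ⟨_, hP α, rfl⟩)

end Pool.Agent.DBX.GEN
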