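import Pool.Agent.DBX.GEN.Stmts

set_option autoImplicit false

/-! # DBX/GEN/RHC: coefficients of `rho b P` -/

namespace Pool.Agent.DBX.GEN

open Pool.Agent.DBX MvPolynomial

universe u

namespace RHC_

variable {k : Type u} [Field k] {n : ℕ} {F : Type u} [Field F] [Algebra k F]

theorem coeffIn_C {U : Submodule k F} {a : F} (h : a ∈ U) :
    CoeffIn (n := n) U (C a : MvPolynomial (Fin n) F) := by
  classical
  intro α
  rw [coeff_C]
  split_ifs
  · exact h
  · exact U.zero_mem

theorem coeffIn_X (A : Subalgebra k F) (i : Fin n) :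
    CoeffIn (Subalgebra.toSubmodule A) (X i : MvPolynomial (Fin n) F) := by
  classical
  intro α
  rw [coeff_X']
  split_ifs
  · exact A.one_mem
  · exact A.zero_mem

theorem sMod_self (A : Subalgebra k F) : SMod A (Subalgebra.toSubmodule A) :=
  fun a ha y hy => A.mul_mem ha hy

theorem coeffIn_sum {U : Submodule k F} {ι : Type*} (s : Finset ι)
    (f : ι → MvPolynomial (Fin n) F) (h : ∀ i ∈ s, CoeffIn U (f i)) :
    CoeffIn U (∑ i ∈ s, f i) := by
  intro α
  rw [coeff_sum]
  exact Submodule.sum_mem _ fun i hi => h i hi α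

theorem coeffIn_neg {U : Submodule k F} {P : MvPolynomial (Fin n) F} (h : CoeffIn U P) :
    CoeffIn U (-P) := by
  intro α
  rw [coeff_neg]
  exact U.neg_mem (h α)

theorem coeffIn_mul (hCIN : Stmt_CIN.{u}) (A : Subalgebra k F) {P Q : MvPolynomial (Fin n) F}
    (hP : CoeffIn (Subalgebra.toSubmodule A) P) (hQ : CoeffIn (Subalgebra.toSubmodule A) Q) :
    CoeffIn (Subalgebra.toSubmodule A) (P * Q) :=
  (hCIN k n F _).2.2 A (sMod_self A) P Q hP hQ

theorem coeffIn_pow (hCIN : Stmt_CIN.{u}) (A : Subalgebra k F) {P : MvPolynomial (Fin n) F}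
    (hP : CoeffIn (Subalgebra.toSubmodule A) P) (m : ℕ) :
    CoeffIn (Subalgebra.toSubmodule A) (P ^ m) := by
  induction m with
  | zero =>
    rw [pow_zero]
    exact coeffIn_C (a := (1 : F)) A.one_mem
  | succ m ih =>
    rw [pow_succ]
    exact coeffIn_mul hCIN A ih hP

theorem coeffIn_prod (hCIN : Stmt_CIN.{u}) (A : Subalgebra k F) {ι : Type*} (s : Finset ι)
    (f : ι → MvPolynomial (Fin n) F) (h : ∀ i ∈ s, CoeffIn (Subalgebra.toSubmodule A) (f i)) :
    CoeffIn (Subalgebra.toSubmodule A) (∏ i ∈ s, f i) := by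
  classical
  induction s using Finset.induction_on with
  | empty =>
    rw [Finset.prod_empty]
    exact coeffIn_C (a := (1 : F)) A.one_mem
  | insert a s ha ih =>
    rw [Finset.prod_insert ha]
    exact coeffIn_mul hCIN A (h a (Finset.mem_insert_self a s))
      (ih fun i hi => h i (Finset.mem_insert_of_mem hi))

theorem xx_ne (k : Type u) [Field k] (n : ℕ) (i : Fin (n + 1)) : xx k n i ≠ 0 :=
  inc_ne (X_ne_zero i)

theorem base (hCIN : Stmt_CIN.{u}) (A : Subalgebra k (Fr k (n + 1))) (w : Fr k (n + 1))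
    (hw : Cov A w) (b : Fin n) (α : Fin n →₀ ℕ) :
    CoeffIn (Subalgebra.toSubmodule A)
      (C ((w * xx k n b.castSucc) ^ α b) * rho k n b (monomial α 1)) := by
  classical
  have h1 : rho k n b (monomial α 1) = ∏ i, (rho k n b (X i)) ^ α i := by
    rw [monomial_eq, map_mul, C_1, map_one, one_mul, Finsupp.prod_fintype _ _ (by simp), map_prod]
    exact Finset.prod_congr rfl fun i _ => map_pow _ _ _
  have h2 : ∀ i, i ≠ b → rho k n b (X i) = X i := by
    intro i hi
    simp [rho, hi]
  have h3 : C (w * xx k n b.castSucc) * rho k n b (X b) =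
      C (w * xx k n (Fin.last n)) +
        -∑ i ∈ Finset.univ.erase b, C (w * xx k n i.castSucc) * X i := by
    have h4 : rho k n b (X b) = C (xx k n b.castSucc)⁻¹ *
      (C (xx k n (Fin.last n)) - ∑ i ∈ Finset.univ.erase b, C (xx k n i.castSucc) * X i) := by
      simp [rho]
    rw [h4, ← mul_assoc, ← C_mul, mul_assoc, mul_inv_cancel₀ (xx_ne k n _), mul_one, mul_sub,
      ← C_mul, Finset.mul_sum, ← sub_eq_add_neg]
    congr 1
    exact Finset.sum_congr rfl fun i _ => by rw [← mul_assoc, ← C_mul]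
  rw [h1, ← Finset.mul_prod_erase _ _ (Finset.mem_univ b), ← mul_assoc, C_pow, ← mul_pow, h3]
  apply coeffIn_mul hCIN A
  · apply coeffIn_pow hCIN A
    apply (hCIN k n _ _).1
    · exact coeffIn_C (hw.mem _)
    · apply coeffIn_neg
      apply coeffIn_sum
      intro i _
      exact coeffIn_mul hCIN A (coeffIn_C (hw.mem _)) (coeffIn_X A i)
  · apply coeffIn_prod hCIN A
    intro i hi
    rw [h2 i (Finset.ne_of_mem_erase hi)]
    exact coeffIn_pow hCIN A (coeffIn_X A i) _

end RHC_

open RHC_ in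
theorem RHC (hCIN : Stmt_CIN.{u}) : Stmt_RHC.{u} := by
  intro k _ n A w U hw hU b P hP
  refine ⟨P.support.sup (fun α => α b), ?_⟩
  have h1 : C ((w * xx k n b.castSucc) ^ (P.support.sup (fun α => α b))) * rho k n b P =
      ∑ α ∈ P.support, (C ((w * xx k n b.castSucc) ^ (P.support.sup (fun α => α b) - α b)) *
        (C ((w * xx k n b.castSucc) ^ α b) * rho k n b (monomial α 1))) * C (coeff α P) := by
    conv_lhs => rw [P.as_sum, map_sum, Finset.mul_sum]
    refine Finset.sum_congr rfl fun α hα => ?_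
    have h2 : α b ≤ P.support.sup (fun α => α b) := Finset.le_sup (f := fun α => α b) hα
    have h3 : (monomial α (coeff α P) : MvPolynomial (Fin n) (Fr k (n + 1))) =
        C (coeff α P) * monomial α 1 := by rw [C_mul_monomial, mul_one]
    have h4 : rho k n b (C (coeff α P)) = C (coeff α P) := by
      rw [rho, aeval_C]; rfl
    rw [← P.as_sum, h3, map_mul, h4]
    have h5 : (w * xx k n b.castSucc) ^ (P.support.sup (fun α => α b)) =
        (w * xx k n b.castSucc) ^ (P.support.sup (fun α => α b) - α b) *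
          (w * xx k n b.castSucc) ^ α b := by
      rw [← pow_add]; congr 1; omega
    rw [h5, C_mul]
    ring
  rw [h1]
  apply coeffIn_sum
  intro α _
  apply (hCIN k n _ _).2.2 A hU
  · apply coeffIn_mul hCIN A
    · exact coeffIn_C (A.pow_mem (hw.mem _) _)
    · exact base hCIN A w hw b α
  · exact coeffIn_C (hP α)

end Pool.Agent.DBX.GEN
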