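import Pool.Agent.DBX.GEN.Stmts

set_option autoImplicit false

/-! # MP_2c751f_ag, squad DBX, area GEN: module SPA -/

namespace Pool.Agent.DBX.GEN

open Pool.Agent.DBX MvPolynomial

noncomputable section

universe u

theorem SPA (hSPP : Stmt_SPP.{u}) : Stmt_SPA.{u} := by
  intro k _ n iot hiot sp hsp A B hA hB
  obtain ⟨h1, h2, -, -, -, -, -⟩ := hSPP k n iot hiot sp hsp
  refine ⟨{ toFun := fun z => ⟨sp z, hB z z.2⟩
            map_one' := ?_
            map_mul' := ?_
            map_zero' := ?_
            map_add' := ?_
            commutes' := ?_ }, fun z => rfl⟩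
  · apply Subtype.ext
    have h3 := (h1 1).2
    rw [map_one (algebraMap (Kx k n) (Fr (Kx k n) (n + 1))),
      map_one (algebraMap (Kx k n) (Fr (Kx k n) n))] at h3
    exact h3
  · intro x y
    apply Subtype.ext
    exact (h2 x y (hA x x.2) (hA y y.2)).2.2
  · apply Subtype.ext
    exact map_zero sp
  · intro x y
    apply Subtype.ext
    exact map_add sp _ _
  · intro c
    apply Subtype.ext
    exact (h1 c).2

end

end Pool.Agent.DBX.GEN
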