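import Pool.Agent.DBX.GEN.Stmts

set_option autoImplicit false

/-! # MP_2c751f_ag, squad DBX, area GEN: existence of the restriction map -/

namespace Pool.Agent.DBX.GEN

open Pool.Agent.DBX MvPolynomial

universe u

namespace SPE_

variable (k : Type u) [Field k] (n : ℕ)

/-- polynomials which do not vanish on the generic hyperplane -/
def M : Submonoid (Pol (Kx k n) (n + 1)) where
  carrier := {b | secP k n b ≠ 0}
  one_mem' := by
    show secP k n 1 ≠ 0
    rw [map_one]
    exact one_ne_zero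
  mul_mem' := by
    intro a b ha hb
    show secP k n (a * b) ≠ 0
    rw [map_mul]
    exact mul_ne_zero ha hb

theorem exists_sp : ∃ sp : Fr (Kx k n) (n + 1) →ₗ[Kx k n] Fr (Kx k n) n,
    ∀ a b : Pol (Kx k n) (n + 1), secP k n b ≠ 0 →
      sp (algebraMap _ (Fr (Kx k n) (n + 1)) a / algebraMap _ (Fr (Kx k n) (n + 1)) b) =
        algebraMap _ (Fr (Kx k n) n) (secP k n a) / algebraMap _ (Fr (Kx k n) n) (secP k n b) := by
  let L := Localization (M k n)
  let f : Pol (Kx k n) (n + 1) →ₐ[Kx k n] Fr (Kx k n) (n + 1) :=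
    IsScalarTower.toAlgHom (Kx k n) _ _
  let g : Pol (Kx k n) (n + 1) →ₐ[Kx k n] Fr (Kx k n) n :=
    (IsScalarTower.toAlgHom (Kx k n) (Pol (Kx k n) n) _).comp (secP k n)
  have hne : ∀ y : M k n, (y : Pol (Kx k n) (n + 1)) ≠ 0 := by
    intro y h
    apply y.2
    rw [h, map_zero]
  have hf : ∀ y : M k n, IsUnit (f y) := by
    intro y
    refine isUnit_iff_ne_zero.2 ?_
    show algebraMap _ (Fr (Kx k n) (n + 1)) (y : Pol (Kx k n) (n + 1)) ≠ 0
    rw [Ne, FaithfulSMul.algebraMap_eq_zero_iff]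
    exact hne y
  have hg : ∀ y : M k n, IsUnit (g y) := by
    intro y
    refine isUnit_iff_ne_zero.2 ?_
    show algebraMap _ (Fr (Kx k n) n) (secP k n y) ≠ 0
    rw [Ne, FaithfulSMul.algebraMap_eq_zero_iff]
    exact y.2
  let ψ : L →ₐ[Kx k n] Fr (Kx k n) (n + 1) := IsLocalization.liftAlgHom (M := M k n) (f := f) hf
  let φ : L →ₐ[Kx k n] Fr (Kx k n) n := IsLocalization.liftAlgHom (M := M k n) (f := g) hg
  have hψ : ∀ a, ψ (algebraMap _ L a) = f a := fun a => IsLocalization.lift_eq _ a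
  have hφ : ∀ a, φ (algebraMap _ L a) = g a := fun a => IsLocalization.lift_eq _ a
  have hinj : Function.Injective ψ := by
    rw [injective_iff_map_eq_zero]
    intro z hz
    obtain ⟨⟨a, b⟩, h⟩ := IsLocalization.surj (M k n) z
    have h1 : f a = 0 := by
      have h2 := congrArg ψ h
      rw [map_mul, hz, zero_mul, hψ] at h2
      exact h2.symm
    have h3 : a = 0 := by
      have h4 : algebraMap _ (Fr (Kx k n) (n + 1)) a = 0 := h1
      rwa [FaithfulSMul.algebraMap_eq_zero_iff] at h4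
    rw [h3, map_zero] at h
    have h5 : IsUnit (algebraMap _ L (b : Pol (Kx k n) (n + 1))) := IsLocalization.map_units L b
    exact (h5.mul_left_eq_zero).1 h
  obtain ⟨g', hg'⟩ := ψ.toLinearMap.exists_leftInverse_of_injective
    (LinearMap.ker_eq_bot.2 hinj)
  refine ⟨φ.toLinearMap.comp g', ?_⟩
  intro a b hb
  have hu : IsUnit (algebraMap _ L b) := IsLocalization.map_units L (⟨b, hb⟩ : M k n)
  let z : L := IsLocalization.mk' L a (⟨b, hb⟩ : M k n)
  have hz : z * algebraMap _ L b = algebraMap _ L a := IsLocalization.mk'_spec L a (⟨b, hb⟩ : M k n)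
  have h1 : ψ z = algebraMap _ (Fr (Kx k n) (n + 1)) a / algebraMap _ (Fr (Kx k n) (n + 1)) b := by
    rw [eq_div_iff]
    · have h2 := congrArg ψ hz
      rw [map_mul, hψ, hψ] at h2
      exact h2
    · exact (hf ⟨b, hb⟩).ne_zero
  have h3 : φ z = algebraMap _ (Fr (Kx k n) n) (secP k n a) /
      algebraMap _ (Fr (Kx k n) n) (secP k n b) := by
    rw [eq_div_iff]
    · have h2 := congrArg φ hz
      rw [map_mul, hφ, hφ] at h2
      exact h2
    · exact (hg ⟨b, hb⟩).ne_zero
  rw [← h1, ← h3]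
  have h4 : g' (ψ z) = z := by
    have := LinearMap.congr_fun hg' z
    exact this
  show φ (g' (ψ z)) = φ z
  rw [h4]

end SPE_

theorem SPE : Stmt_SPE.{u} := by
  intro k _ n
  obtain ⟨sp, h⟩ := SPE_.exists_sp k n
  exact ⟨sp, fun a b hb => h a b hb⟩

end Pool.Agent.DBX.GEN
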