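import Pool.Agent.DBX.GEN.Stmts

set_option autoImplicit false

namespace Pool.Agent.DBX.GEN

open Pool.Agent.DBX MvPolynomial
open scoped TensorProduct

noncomputable section

universe u

namespace SWP_

variable {K A : Type u} [CommRing K] [CommRing A] [Algebra K A] {N : ℕ}

/-- étale coordinates give a basis of the differentials -/
theorem basis_of_etC (t : Fin N → A) (ht : EtC K t) :
    Algebra.FormallySmooth K A ∧ Algebra.FinitePresentation K A ∧
      ∃ b : Module.Basis (Fin N) A (Ω[A⁄K]), ∀ i, b i = KaehlerDifferential.D K A (t i) := by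
  let _ : Algebra (MvPolynomial (Fin N) K) A := (aeval (R := K) t).toRingHom.toAlgebra
  have : IsScalarTower K (MvPolynomial (Fin N) K) A :=
    IsScalarTower.of_algebraMap_eq (fun r => ((aeval (R := K) t).commutes r).symm)
  have : Algebra.Etale (MvPolynomial (Fin N) K) A := ht
  have : Algebra.Smooth K (MvPolynomial (Fin N) K) := ⟨inferInstance, inferInstance⟩
  have : Algebra.Smooth K A := Algebra.Smooth.comp K (MvPolynomial (Fin N) K) A
  refine ⟨inferInstance, inferInstance, ?_⟩
  let e := KaehlerDifferential.tensorKaehlerEquivOfFormallyEtale K (MvPolynomial (Fin N) K) A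
  refine ⟨((KaehlerDifferential.mvPolynomialBasis K (Fin N)).baseChange A).map e, fun i => ?_⟩
  rw [Module.Basis.map_apply, Module.Basis.baseChange_apply,
    KaehlerDifferential.mvPolynomialBasis_apply]
  show KaehlerDifferential.mapBaseChange K (MvPolynomial (Fin N) K) A _ = _
  rw [KaehlerDifferential.mapBaseChange_tmul, one_smul, KaehlerDifferential.map_D]
  congr 1
  exact aeval_X t i

/-- a basis of exact differentials gives étale coordinates -/
theorem etC_of_basis [Algebra.FormallySmooth K A] [Algebra.FinitePresentation K A]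
    (s : Fin N → A) (b : Module.Basis (Fin N) A (Ω[A⁄K]))
    (hb : ∀ i, b i = KaehlerDifferential.D K A (s i)) : EtC K s := by
  let _ : Algebra (MvPolynomial (Fin N) K) A := (aeval (R := K) s).toRingHom.toAlgebra
  have : IsScalarTower K (MvPolynomial (Fin N) K) A :=
    IsScalarTower.of_algebraMap_eq (fun r => ((aeval (R := K) s).commutes r).symm)
  let c := (KaehlerDifferential.mvPolynomialBasis K (Fin N)).baseChange A
  have hc : ∀ i, KaehlerDifferential.mapBaseChange K (MvPolynomial (Fin N) K) A (c i) = b i := by
    intro i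
    rw [hb, Module.Basis.baseChange_apply, KaehlerDifferential.mvPolynomialBasis_apply,
      KaehlerDifferential.mapBaseChange_tmul, one_smul, KaehlerDifferential.map_D]
    congr 1
    exact aeval_X s i
  have he : KaehlerDifferential.mapBaseChange K (MvPolynomial (Fin N) K) A =
      (c.equiv b (Equiv.refl _)).toLinearMap := by
    apply c.ext
    intro i
    rw [hc]
    simp
  have hinj : Function.Injective
      (KaehlerDifferential.mapBaseChange K (MvPolynomial (Fin N) K) A) := by
    rw [he]
    exact (c.equiv b (Equiv.refl _)).injective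
  have hsurj : Function.Surjective
      (KaehlerDifferential.mapBaseChange K (MvPolynomial (Fin N) K) A) := by
    rw [he]
    exact (c.equiv b (Equiv.refl _)).surjective
  have h1 : Subsingleton (Algebra.H1Cotangent (MvPolynomial (Fin N) K) A) := by
    refine subsingleton_of_forall_eq 0 (fun x => ?_)
    have h2 := (Algebra.H1Cotangent.exact_δ_mapBaseChange K (MvPolynomial (Fin N) K) A).apply_apply_eq_zero x
    have h3 : Algebra.H1Cotangent.δ K (MvPolynomial (Fin N) K) A x = 0 :=
      hinj (by rw [h2, map_zero])
    obtain ⟨y, hy⟩ := (Algebra.H1Cotangent.exact_map_δ K (MvPolynomial (Fin N) K) A x).1 h3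
    rw [← hy, Subsingleton.elim y 0, map_zero]
  have h2 : Subsingleton (Ω[A⁄MvPolynomial (Fin N) K]) := by
    refine subsingleton_of_forall_eq 0 (fun x => ?_)
    obtain ⟨y, rfl⟩ := KaehlerDifferential.map_surjective K (MvPolynomial (Fin N) K) A x
    obtain ⟨z, rfl⟩ := hsurj y
    exact (KaehlerDifferential.exact_mapBaseChange_map K
      (MvPolynomial (Fin N) K) A).apply_apply_eq_zero z
  have : Algebra.FormallyEtale (MvPolynomial (Fin N) K) A := ⟨h2, h1⟩
  have : Algebra.FinitePresentation (MvPolynomial (Fin N) K) A :=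
    Algebra.FinitePresentation.of_restrict_scalars_finitePresentation K (MvPolynomial (Fin N) K) A
  exact (Algebra.Etale.mk : Algebra.Etale (MvPolynomial (Fin N) K) A)

/-- exchange of one basis vector -/
theorem exchange {M : Type u} [AddCommGroup M] [Module A M] (b : Module.Basis (Fin N) A M)
    (j : Fin N) (c : Fin N → A) (hc : IsUnit (c j)) :
    ∃ b' : Module.Basis (Fin N) A M, b' j = ∑ l, c l • b l ∧ ∀ i, i ≠ j → b' i = b i := by
  obtain ⟨w, hw⟩ := hc.exists_left_inv
  have hw' : c j * w = 1 := by rw [mul_comm]; exact hw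
  let φ : M →ₗ[A] M := b.constr A (Function.update b j (∑ l, c l • b l))
  let ψ : M →ₗ[A] M := b.constr A
    (Function.update b j (w • (b j - ∑ l ∈ Finset.univ.erase j, c l • b l)))
  have hφj : φ (b j) = ∑ l, c l • b l := by
    show b.constr A _ (b j) = _
    rw [Module.Basis.constr_basis, Function.update_self]
  have hφi : ∀ i, i ≠ j → φ (b i) = b i := by
    intro i hi
    show b.constr A _ (b i) = _
    rw [Module.Basis.constr_basis, Function.update_of_ne hi]
  have hψj : ψ (b j) = w • (b j - ∑ l ∈ Finset.univ.erase j, c l • b l) := by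
    show b.constr A _ (b j) = _
    rw [Module.Basis.constr_basis, Function.update_self]
  have hψi : ∀ i, i ≠ j → ψ (b i) = b i := by
    intro i hi
    show b.constr A _ (b i) = _
    rw [Module.Basis.constr_basis, Function.update_of_ne hi]
  have hsum : ∑ l, c l • b l = c j • b j + ∑ l ∈ Finset.univ.erase j, c l • b l :=
    (Finset.add_sum_erase _ _ (Finset.mem_univ j)).symm
  have h1 : φ ∘ₗ ψ = LinearMap.id := by
    apply b.ext
    intro i
    rw [LinearMap.comp_apply, LinearMap.id_apply]
    by_cases hi : i = j
    · subst hi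
      have h2 : φ (∑ l ∈ Finset.univ.erase i, c l • b l) =
          ∑ l ∈ Finset.univ.erase i, c l • b l := by
        rw [map_sum]
        refine Finset.sum_congr rfl (fun l hl => ?_)
        rw [map_smul, hφi l (Finset.ne_of_mem_erase hl)]
      rw [hψj, map_smul, map_sub, hφj, h2, hsum, add_sub_cancel_right, smul_smul, hw, one_smul]
    · rw [hψi i hi, hφi i hi]
  have h2 : ψ ∘ₗ φ = LinearMap.id := by
    apply b.ext
    intro i
    rw [LinearMap.comp_apply, LinearMap.id_apply]
    by_cases hi : i = j
    · subst hi
      have h2 : ψ (∑ l ∈ Finset.univ.erase i, c l • b l) =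
          ∑ l ∈ Finset.univ.erase i, c l • b l := by
        rw [map_sum]
        refine Finset.sum_congr rfl (fun l hl => ?_)
        rw [map_smul, hψi l (Finset.ne_of_mem_erase hl)]
      rw [hφj, hsum, map_add, h2, map_smul, hψj, smul_smul, hw', one_smul, sub_add_cancel]
    · rw [hφi i hi, hψi i hi]
  refine ⟨b.map (LinearEquiv.ofLinearMap φ ψ h1 h2), ?_, fun i hi => ?_⟩
  · rw [Module.Basis.map_apply, LinearEquiv.coe_ofLinearMap]
    exact hφj
  · rw [Module.Basis.map_apply, LinearEquiv.coe_ofLinearMap]
    exact hφi i hi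

end SWP_

open SWP_ in
theorem SWP (hDRV : Stmt_DRV.{u}) : Stmt_SWP.{u} := by
  intro K A _ _ _ N t d ht hd j h hu
  obtain ⟨hs, hf, b, hb⟩ := basis_of_etC (K := K) t ht
  have h1 := (hDRV K A N t ht).2 d hd (Ω[A⁄K]) (KaehlerDifferential.D K A) h
  obtain ⟨b', hj, hi⟩ := exchange b j (fun l => d l h) hu
  refine etC_of_basis (Function.update t j h) b' (fun i => ?_)
  by_cases hij : i = j
  · subst hij
    rw [hj, Function.update_self, h1]
    exact Finset.sum_congr rfl (fun l _ => by rw [hb])
  · rw [hi i hij, hb, Function.update_of_ne hij]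

end

end Pool.Agent.DBX.GEN
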