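import Pool.Agent.DBX.GEN.BTC
import Pool.Agent.DBX.GEN.CHS
import Pool.Agent.DBX.GEN.CIN
import Pool.Agent.DBX.GEN.COV
import Pool.Agent.DBX.GEN.DBS
import Pool.Agent.DBX.GEN.DER
import Pool.Agent.DBX.GEN.DFU
import Pool.Agent.DBX.GEN.DRV
import Pool.Agent.DBX.GEN.DSJ
import Pool.Agent.DBX.GEN.EBS
import Pool.Agent.DBX.GEN.EGR
import Pool.Agent.DBX.GEN.EGS
import Pool.Agent.DBX.GEN.ETB
import Pool.Agent.DBX.GEN.ETL
import Pool.Agent.DBX.GEN.ETQ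
import Pool.Agent.DBX.GEN.EVE
import Pool.Agent.DBX.GEN.EVI
import Pool.Agent.DBX.GEN.EXA
import Pool.Agent.DBX.GEN.FLT
import Pool.Agent.DBX.GEN.Final
import Pool.Agent.DBX.GEN.GDB
import Pool.Agent.DBX.GEN.HOM
import Pool.Agent.DBX.GEN.HTL
import Pool.Agent.DBX.GEN.IND
import Pool.Agent.DBX.GEN.KER
import Pool.Agent.DBX.GEN.LCB
import Pool.Agent.DBX.GEN.LCE
import Pool.Agent.DBX.GEN.LCX
import Pool.Agent.DBX.GEN.LH1
import Pool.Agent.DBX.GEN.LOC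
import Pool.Agent.DBX.GEN.LS1
import Pool.Agent.DBX.GEN.LS2
import Pool.Agent.DBX.GEN.LSS
import Pool.Agent.DBX.GEN.MCC
import Pool.Agent.DBX.GEN.NIL
import Pool.Agent.DBX.GEN.PHI
import Pool.Agent.DBX.GEN.RADB
import Pool.Agent.DBX.GEN.RADS
import Pool.Agent.DBX.GEN.RBS
import Pool.Agent.DBX.GEN.RDV
import Pool.Agent.DBX.GEN.REP
import Pool.Agent.DBX.GEN.RHC
import Pool.Agent.DBX.GEN.SPA
import Pool.Agent.DBX.GEN.SPE
import Pool.Agent.DBX.GEN.SPP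
import Pool.Agent.DBX.GEN.SWP

/-!
# DBX, area GEN: all modules except `LSH` put together
-/

set_option autoImplicit false

namespace Pool.Agent.DBX.GEN

universe u

theorem aREP : Stmt_REP.{u} := REP CIN
theorem aRHC : Stmt_RHC.{u} := RHC CIN
theorem aSPP : Stmt_SPP.{u} := SPP EVE EVI
theorem aKER : Stmt_KER.{u} := KER PHI EVE EVI RDV aREP CIN MCC aSPP
theorem aRADB : Stmt_RADB.{u} := RADB EVE aREP CIN NIL EXA
theorem aRADS : Stmt_RADS.{u} := RADS EVI aREP CIN NIL EXA aRHC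
theorem aDSJ : Stmt_DSJ.{u} := DSJ EVE aREP
theorem aRBS : Stmt_RBS.{u} := RBS EXA
theorem aEBS : Stmt_EBS.{u} := EBS aRBS EXA aRADB aRADS COV
theorem aEGS : Stmt_EGS.{u} := EGS aEBS EGR IND HOM
theorem aGDB : Stmt_GDB.{u} := GDB PHI HOM
theorem aFLT : Stmt_FLT.{u} := FLT EVI aRHC aREP
theorem aHTL : Stmt_HTL.{u} := HTL aFLT
theorem aDBS : Stmt_DBS.{u} := DBS PHI EVI aREP CIN aRHC aEBS HOM aHTL
theorem aDFU : Stmt_DFU.{u} := DFU DRV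
theorem aSWP : Stmt_SWP.{u} := SWP DRV
theorem aETB : Stmt_ETB.{u} := ETB aDSJ EXA
theorem aBTC : Stmt_BTC.{u} := BTC DRV DER
theorem aLCX : Stmt_LCX.{u} := LCX ETL LOC aSWP
theorem aLCB : Stmt_LCB.{u} := LCB aETB EXA aRADB
theorem aCHS : Stmt_CHS.{u} := CHS EXA HOM
theorem aLH1 : Stmt_LH1.{u} := LH1 LCE aLCB aCHS EXA
theorem aSPA : Stmt_SPA.{u} := SPA aSPP
theorem aLS1 : Stmt_LS1.{u} := LS1 PHI aSPP aKER aCHS EXA LOC COV
theorem aLS2 : Stmt_LS2.{u} := LS2 PHI aSPP aCHS EXA aRADB aRADS LOC COV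
theorem aLSS : Stmt_LSS.{u} := LSS PHI SPE aSPA aLS1 aLS2 ETQ aCHS aGDB

/-- base change to `k'` -/
theorem BAS : Stmt_BAS.{u} := BASF aEGS aDSJ

/-- restriction to the generic hyperplane -/
theorem SEC : Stmt_SEC.{u} := SECF PHI SPE aSPP aKER COV aEBS aEGS

/-- inheritance, given `LSH` -/
theorem INH_of (hLSH : Stmt_LSH.{u}) : Stmt_INH.{u} := INHF aGDB hLSH aLSS aDBS

end Pool.Agent.DBX.GEN
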