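import Pool.Agent.DBX.GEN.Stmts

set_option autoImplicit false

/-! # MP_2c751f_ag, squad DBX, area GEN: module SPP -/

namespace Pool.Agent.DBX.GEN

open Pool.Agent.DBX MvPolynomial

noncomputable section

universe u

namespace SPP_

variable {k : Type u} [Field k] {n : ℕ}

theorem ne_of_sec {b : Pol (Kx k n) (n + 1)} (h : secP k n b ≠ 0) : b ≠ 0 := by
  rintro rfl
  exact h (map_zero _)

theorem dom_mk (a : Pol (Kx k n) (n + 1)) {b : Pol (Kx k n) (n + 1)} (h : secP k n b ≠ 0) :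
    Dom (k := k) (n := n) (inc _ _ a / inc _ _ b) := ⟨a, b, h, rfl⟩

theorem dom_inc (a : Pol (Kx k n) (n + 1)) : Dom (k := k) (n := n) (inc _ _ a) :=
  ⟨a, 1, by rw [map_one]; exact one_ne_zero, by rw [map_one, div_one]⟩

theorem sp_inc {sp : Fr (Kx k n) (n + 1) →ₗ[Kx k n] Fr (Kx k n) n} (hsp : IsSp (k := k) (n := n) sp)
    (a : Pol (Kx k n) (n + 1)) : sp (inc _ _ a) = inc _ _ (secP k n a) := by
  have h := hsp a 1 (by rw [map_one]; exact one_ne_zero)
  rw [map_one, div_one, map_one, map_one, div_one] at h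
  exact h

theorem alg_eq (c : Kx k n) (m : ℕ) :
    algebraMap (Kx k n) (Fr (Kx k n) m) c = inc _ _ (C c) := by
  rw [IsScalarTower.algebraMap_apply (Kx k n) (Pol (Kx k n) m) (Fr (Kx k n) m) c]
  rfl

theorem dom_add {x y : Fr (Kx k n) (n + 1)} (hx : Dom (k := k) (n := n) x)
    (hy : Dom (k := k) (n := n) y) : Dom (k := k) (n := n) (x + y) := by
  obtain ⟨a, b, hb, rfl⟩ := hx
  obtain ⟨a', b', hb', rfl⟩ := hy
  refine ⟨a * b' + b * a', b * b', by rw [map_mul]; exact mul_ne_zero hb hb', ?_⟩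
  rw [map_add, map_mul, map_mul, map_mul, div_add_div _ _ (inc_ne (ne_of_sec hb))
    (inc_ne (ne_of_sec hb'))]

theorem dom_mul {sp : Fr (Kx k n) (n + 1) →ₗ[Kx k n] Fr (Kx k n) n}
    (hsp : IsSp (k := k) (n := n) sp) {x y : Fr (Kx k n) (n + 1)} (hx : Dom (k := k) (n := n) x)
    (hy : Dom (k := k) (n := n) y) : Dom (k := k) (n := n) (x * y) ∧ sp (x * y) = sp x * sp y := by
  obtain ⟨a, b, hb, rfl⟩ := hx
  obtain ⟨a', b', hb', rfl⟩ := hy
  have h : secP k n (b * b') ≠ 0 := by rw [map_mul]; exact mul_ne_zero hb hb'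
  have e : (inc _ _ a / inc _ _ b) * (inc _ _ a' / inc _ _ b') =
      inc (Kx k n) (n + 1) (a * a') / inc _ _ (b * b') := by
    rw [map_mul, map_mul, div_mul_div_comm]
  refine ⟨⟨a * a', b * b', h, e⟩, ?_⟩
  rw [e, hsp _ _ h, hsp _ _ hb, hsp _ _ hb', map_mul, map_mul, map_mul, map_mul,
    div_mul_div_comm]

theorem dom_inv {sp : Fr (Kx k n) (n + 1) →ₗ[Kx k n] Fr (Kx k n) n}
    (hsp : IsSp (k := k) (n := n) sp) {x : Fr (Kx k n) (n + 1)} (hx : Dom (k := k) (n := n) x)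
    (h0 : sp x ≠ 0) : Dom (k := k) (n := n) x⁻¹ ∧ sp x⁻¹ = (sp x)⁻¹ := by
  obtain ⟨a, b, hb, rfl⟩ := hx
  have ha : secP k n a ≠ 0 := by
    intro ha
    apply h0
    rw [hsp _ _ hb, ha, map_zero, zero_div]
  rw [inv_div]
  refine ⟨dom_mk b ha, ?_⟩
  rw [hsp _ _ ha, hsp _ _ hb, inv_div]

theorem dom_alg {sp : Fr (Kx k n) (n + 1) →ₗ[Kx k n] Fr (Kx k n) n}
    (hsp : IsSp (k := k) (n := n) sp) (c : Kx k n) :
    Dom (algebraMap (Kx k n) (Fr (Kx k n) (n + 1)) c) ∧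
      sp (algebraMap (Kx k n) (Fr (Kx k n) (n + 1)) c) = algebraMap (Kx k n) (Fr (Kx k n) n) c := by
  rw [alg_eq, alg_eq]
  refine ⟨dom_inc _, ?_⟩
  rw [sp_inc hsp]
  congr 1
  exact (secP k n).commutes c

theorem dom_emb (hEVE : Stmt_EVE.{u}) {iot : Fr k (n + 1) →+* Fr (Kx k n) n} (hi : IsIot iot)
    {sp : Fr (Kx k n) (n + 1) →ₗ[Kx k n] Fr (Kx k n) n} (hsp : IsSp (k := k) (n := n) sp)
    (z : Fr k (n + 1)) : Dom (emb k n z) ∧ sp (emb k n z) = iot z := by
  obtain ⟨p, q, hq, rfl⟩ := IsFractionRing.div_surjective (A := Pol k (n + 1)) z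
  have hq0 : q ≠ 0 := nonZeroDivisors.ne_zero hq
  have h1 : phi k n q ≠ 0 := by
    intro h
    have h2 : iot (inc k (n + 1) q) = 0 := by rw [hi q, h, map_zero]
    exact inc_ne hq0 ((map_eq_zero iot).1 h2)
  have h2 : secP k n (bcP k n q) ≠ 0 := h1
  have e : emb k n (inc k (n + 1) p / inc k (n + 1) q) =
      inc _ _ (bcP k n p) / inc _ _ (bcP k n q) := by
    rw [map_div₀, (hEVE k n).2.1, (hEVE k n).2.1]
  constructor
  · exact ⟨bcP k n p, bcP k n q, h2, e⟩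
  · have e2 : iot (inc k (n + 1) p / inc k (n + 1) q) =
        inc _ _ (phi k n p) / inc _ _ (phi k n q) := by
      rw [map_div₀, hi, hi]
    exact (congrArg sp e).trans ((hsp _ _ h2).trans e2.symm)

theorem dom_ev (hEVE : Stmt_EVE.{u}) {iot : Fr k (n + 1) →+* Fr (Kx k n) n} (hi : IsIot iot)
    {sp : Fr (Kx k n) (n + 1) →ₗ[Kx k n] Fr (Kx k n) n} (hsp : IsSp (k := k) (n := n) sp)
    (P : MvPolynomial (Fin n) (Fr k (n + 1))) :
    Dom (evj k n (emb k n) P) ∧ sp (evj k n (emb k n) P) = evj k n iot P := by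
  induction P using MvPolynomial.induction_on with
  | C z =>
    have e1 : evj k n (emb k n) (C z) = emb k n z := eval₂_C _ _ _
    have e2 : evj k n iot (C z) = iot z := eval₂_C _ _ _
    rw [e1, e2]
    exact dom_emb hEVE hi hsp z
  | add p q hp hq =>
    rw [map_add, map_add, map_add, hp.2, hq.2]
    exact ⟨dom_add hp.1 hq.1, rfl⟩
  | mul_X p i hp =>
    have e1 : evj k n (emb k n) (X i) =
        algebraMap (Kx k n) (Fr (Kx k n) (n + 1)) (vv k n i) := eval₂_X _ _ _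
    have e2 : evj k n iot (X i) = algebraMap (Kx k n) (Fr (Kx k n) n) (vv k n i) :=
      eval₂_X _ _ _
    have h1 := dom_alg hsp (vv k n i)
    rw [map_mul (evj k n (emb k n)), map_mul (evj k n iot), e1, e2]
    have h2 := dom_mul hsp hp.1 h1.1
    exact ⟨h2.1, by rw [h2.2, hp.2, h1.2]⟩

end SPP_

theorem SPP (hEVE : Stmt_EVE.{u}) (_hEVI : Stmt_EVI.{u}) : Stmt_SPP.{u} := by
  intro k _ n iot hi sp hsp
  refine ⟨SPP_.dom_alg hsp, fun x y hx hy => ⟨SPP_.dom_add hx hy, (SPP_.dom_mul hsp hx hy).1,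
    (SPP_.dom_mul hsp hx hy).2⟩, fun x hx h => SPP_.dom_inv hsp hx h,
    SPP_.dom_emb hEVE hi hsp, SPP_.dom_ev hEVE hi hsp, ?_, ?_⟩
  · intro U
    constructor
    · intro x hx
      refine Submodule.span_induction (p := fun x _ => Dom (k := k) (n := n) x) ?_ ?_ ?_ ?_ hx
      · rintro _ ⟨u, -, rfl⟩
        exact (SPP_.dom_emb hEVE hi hsp u).1
      · have h := (SPP_.dom_alg hsp 0).1
        rwa [map_zero] at h
      · intro x y _ _ hx hy
        exact SPP_.dom_add hx hy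
      · intro c x _ hx
        rw [Algebra.smul_def]
        exact (SPP_.dom_mul hsp (SPP_.dom_alg hsp c).1 hx).1
    · unfold exM
      rw [Submodule.map_span, ← Set.image_comp]
      congr 1
      refine Set.image_congr fun z _ => ?_
      exact (SPP_.dom_emb hEVE hi hsp z).2
  · rw [SPP_.sp_inc hsp]
    have h : secP k n (lgen k n) = 0 := by
      unfold lgen secP
      rw [map_sub, aeval_X, Fin.snoc_last, map_sum, sub_eq_zero]
      refine Finset.sum_congr rfl fun i _ => ?_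
      rw [map_mul, aeval_X, Fin.snoc_castSucc, aeval_C]
      rfl
    rw [h, map_zero]

end

end Pool.Agent.DBX.GEN
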